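import Mathlib

/-!
Careful synchronization game: `A_k`-automata with `n` states and `k ≥ 2n - 2` have reset threshold
at most `n - 1`.
-/

namespace Pool.Agent.R881.Careful

open Relation

variable {Q S : Type*}

/-- action of words on states -/
def act (δ : Q → S → Q) (q : Q) (w : List S) : Q := w.foldl δ q

@[simp] theorem act_nil (δ : Q → S → Q) (q : Q) : act δ q [] = q := rfl

theorem act_append (δ : Q → S → Q) (q : Q) (w v : List S) :
    act δ q (w ++ v) = act δ (act δ q w) v := by simp [act]

theorem act_snoc (δ : Q → S → Q) (q : Q) (w : List S) (a : S) :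
    act δ q (w ++ [a]) = δ (act δ q w) a := by simp [act]

/-- reset word: it sends all states to one state -/
def IsReset (δ : Q → S → Q) (w : List S) : Prop := ∃ r, ∀ q, act δ q w = r

theorem IsReset.append {δ : Q → S → Q} {w : List S} (h : IsReset δ w) (v : List S) :
    IsReset δ (w ++ v) := by
  obtain ⟨r, hr⟩ := h
  exact ⟨act δ r v, fun q => by rw [act_append, hr]⟩

/-- Bob's first `n` replies -/
def hist (β : ℕ → List S) (n : ℕ) : List (List S) := (List.range n).map β

/-- the word played after `n` rounds -/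
def play (σ : List (List S) → S) (β : ℕ → List S) : ℕ → List S
  | 0 => []
  | n + 1 => play σ β n ++ σ (hist β n) :: β n

/-- Alice has a winning strategy in the `k`-game. -/
def IsAk (δ : Q → S → Q) (k : ℕ) : Prop :=
  ∃ σ : List (List S) → S, ∀ β : ℕ → List S, (∀ i, (β i).length ≤ k) →
    ∃ N, IsReset δ (play σ β N) ∨ IsReset δ (play σ β N ++ [σ (hist β N)])

/-- pairs that Alice can merge in `i` moves -/
def G (δ : Q → S → Q) (k : ℕ) : ℕ → Q → Q → Prop
  | 0 => fun p q => p = q
  | i + 1 => fun p q => ∃ a, ∀ w : List S, w.length ≤ k →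
      G δ k i (act δ p (a :: w)) (act δ q (a :: w))

/-- `k`-stable pairs at level `i` -/
def Kk (δ : Q → S → Q) (k i : ℕ) (u v : Q) : Prop :=
  ∀ w : List S, w.length ≤ k → G δ k i (act δ u w) (act δ v w)

theorem G_refl [Nonempty S] (δ : Q → S → Q) (k i : ℕ) (p : Q) : G δ k i p p := by
  induction i generalizing p with
  | zero => rfl
  | succ i ih => exact ⟨Classical.arbitrary S, fun w _ => ih _⟩

theorem G_succ [Nonempty S] (δ : Q → S → Q) (k i : ℕ) : ∀ p q, G δ k i p q → G δ k (i+1) p q := by
  induction i with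
  | zero =>
    intro p q h
    change p = q at h
    subst h
    exact G_refl δ k 1 p
  | succ i ih =>
    rintro p q ⟨a, ha⟩
    exact ⟨a, fun w hw => ih _ _ (ha w hw)⟩

theorem G_mono [Nonempty S] (δ : Q → S → Q) (k : ℕ) {i j : ℕ} (hij : i ≤ j) :
    ∀ p q, G δ k i p q → G δ k j p q := by
  induction j, hij using Nat.le_induction with
  | base => exact fun p q h => h
  | succ j _ ih => exact fun p q h => G_succ δ k j p q (ih p q h)

theorem G_stab [Finite Q] [Nonempty S] (δ : Q → S → Q) (k : ℕ) :
    ∃ R, ∀ p q, G δ k (R+1) p q → G δ k R p q := by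
  let s : ℕ →o Set (Q × Q) := ⟨fun i => {z | G δ k i z.1 z.2}, fun i j hij z hz =>
    G_mono δ k hij _ _ hz⟩
  obtain ⟨R, hR⟩ := WellFoundedGT.monotone_chain_condition s
  refine ⟨R, fun p q h => ?_⟩
  have h1 := hR (R+1) (Nat.le_succ R)
  have h2 : (p, q) ∈ s (R+1) := h
  rw [← h1] at h2
  exact h2

theorem G_all [Finite Q] [Nonempty S] (δ : Q → S → Q) (k : ℕ) (hA : IsAk δ k) :
    ∃ R, ∀ p q, G δ k R p q := by
  obtain ⟨R, hR⟩ := G_stab δ k
  refine ⟨R, ?_⟩
  by_contra hcon
  push Not at hcon
  obtain ⟨p, q, hpq⟩ := hcon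
  obtain ⟨σ, hσ⟩ := hA
  have hbob : ∀ (p' q' : Q) (a : S), ∃ w : List S, w.length ≤ k ∧
      (¬ G δ k R p' q' → ¬ G δ k R (act δ p' (a :: w)) (act δ q' (a :: w))) := by
    intro p' q' a
    by_cases h : G δ k R p' q'
    · exact ⟨[], Nat.zero_le _, fun h2 => absurd h h2⟩
    · by_contra hc
      push Not at hc
      exact h (hR _ _ ⟨a, fun w hw => (hc w hw).2⟩)
  choose bob hbob1 hbob2 using hbob
  let st : ℕ → List (List S) × List S := fun n => Nat.rec ([], [])
    (fun _ z => (z.1 ++ [bob (act δ p z.2) (act δ q z.2) (σ z.1)],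
      z.2 ++ σ z.1 :: bob (act δ p z.2) (act δ q z.2) (σ z.1))) n
  let β : ℕ → List S := fun n => bob (act δ p (st n).2) (act δ q (st n).2) (σ (st n).1)
  have hst : ∀ n, st (n+1) = ((st n).1 ++ [β n], (st n).2 ++ σ (st n).1 :: β n) := fun n => rfl
  have hh : ∀ n, hist β n = (st n).1 := by
    intro n
    induction n with
    | zero => rfl
    | succ n ih =>
      rw [hst]
      simp only [hist, List.range_succ, List.map_append, List.map_cons, List.map_nil]
      simp only [hist] at ih
      rw [ih]
  have hp : ∀ n, play σ β n = (st n).2 := by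
    intro n
    induction n with
    | zero => rfl
    | succ n ih =>
      rw [hst]
      simp only [play, ih, hh]
  have hinv : ∀ n, ¬ G δ k R (act δ p (play σ β n)) (act δ q (play σ β n)) := by
    intro n
    induction n with
    | zero => exact hpq
    | succ n ih =>
      have h1 := hbob2 _ _ (σ (hist β n)) ih
      have h2 : bob (act δ p (play σ β n)) (act δ q (play σ β n)) (σ (hist β n)) = β n := by
        rw [hp, hh]
      rw [h2] at h1
      simp only [play, act_append]
      exact h1
  have hno : ∀ n, ¬ IsReset δ (play σ β n) := by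
    rintro n ⟨r, hr⟩
    apply hinv n
    rw [hr, hr]
    exact G_refl δ k R r
  obtain ⟨N, hN | hN⟩ := hσ β (fun i => hbob1 _ _ _)
  · exact hno N hN
  · apply hno (N+1)
    have : play σ β (N+1) = (play σ β N ++ [σ (hist β N)]) ++ β N := by
      simp [play]
    rw [this]
    exact hN.append _

/-- number of classes -/
noncomputable def nc (s : Setoid Q) : ℕ := Nat.card (Quotient s)

theorem nc_le [Finite Q] (s : Setoid Q) : nc s ≤ Nat.card Q :=
  Nat.card_le_card_of_surjective _ (Quotient.mk_surjective (s := s))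

theorem nc_pos [Finite Q] [Nonempty Q] (s : Setoid Q) : 0 < nc s := by
  have : Nonempty (Quotient s) := ⟨Quotient.mk s (Classical.arbitrary Q)⟩
  exact Nat.card_pos

theorem nc_lt [Finite Q] {s t : Setoid Q} (h : s ≤ t) (hne : s ≠ t) : nc t < nc s := by
  let f : Quotient s → Quotient t := Quotient.map' id (fun a b hab => h hab)
  have hf : Function.Surjective f := by
    intro y
    obtain ⟨a, rfl⟩ := Quotient.mk_surjective y
    exact ⟨Quotient.mk s a, rfl⟩
  have hle : nc t ≤ nc s := Nat.card_le_card_of_surjective f hf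
  refine lt_of_le_of_ne hle ?_
  intro heq
  apply hne
  have hbij : Function.Bijective f := by
    have := Fintype.ofFinite (Quotient s)
    have := Fintype.ofFinite (Quotient t)
    rw [Fintype.bijective_iff_surjective_and_card]
    refine ⟨hf, ?_⟩
    rw [← Nat.card_eq_fintype_card, ← Nat.card_eq_fintype_card]
    exact heq.symm
  apply le_antisymm h
  intro a b hab
  have h1 : f (Quotient.mk s a) = f (Quotient.mk s b) := Quotient.sound hab
  exact Quotient.exact (hbij.1 h1)

/-- generated equivalence relation with bounded words -/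
def Pi (δ : Q → S → Q) (k i j : ℕ) : Setoid Q :=
  EqvGen.setoid fun a b => ∃ u v, ∃ w : List S, Kk δ k i u v ∧ w.length ≤ j ∧
    a = act δ u w ∧ b = act δ v w

/-- generated congruence -/
def Theta (δ : Q → S → Q) (k i : ℕ) : Setoid Q :=
  EqvGen.setoid fun a b => ∃ u v, ∃ w : List S, Kk δ k i u v ∧
    a = act δ u w ∧ b = act δ v w

theorem eqvGen_le {r : Q → Q → Prop} {s : Setoid Q} (h : ∀ a b, r a b → s a b) :
    EqvGen.setoid r ≤ s := by
  intro a b hab
  change EqvGen r a b at hab
  induction hab with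
  | rel a b h1 => exact h a b h1
  | refl a => exact s.refl a
  | symm a b _ ih => exact s.symm ih
  | trans a b c _ _ ih1 ih2 => exact s.trans ih1 ih2

theorem Pi_mono (δ : Q → S → Q) (k i : ℕ) {j j' : ℕ} (h : j ≤ j') :
    Pi δ k i j ≤ Pi δ k i j' := by
  apply eqvGen_le
  rintro a b ⟨u, v, w, h1, h2, h3⟩
  exact EqvGen.rel _ _ ⟨u, v, w, h1, h2.trans h, h3⟩

theorem Theta_congr (δ : Q → S → Q) (k i : ℕ) {a b : Q} (h : Theta δ k i a b) (x : S) :
    Theta δ k i (δ a x) (δ b x) := by
  change EqvGen _ a b at h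
  induction h with
  | rel a b h1 =>
    obtain ⟨u, v, w, hK, rfl, rfl⟩ := h1
    rw [← act_snoc δ, ← act_snoc δ]
    exact EqvGen.rel _ _ ⟨u, v, w ++ [x], hK, rfl, rfl⟩
  | refl a => exact (Theta δ k i).refl _
  | symm a b _ ih => exact (Theta δ k i).symm ih
  | trans a b c _ _ ih1 ih2 => exact (Theta δ k i).trans ih1 ih2

theorem lemmaA [Finite Q] [Nonempty Q] (δ : Q → S → Q) (k i : ℕ) :
    Theta δ k i ≤ Pi δ k i (Nat.card Q - 1) := by
  obtain ⟨j, hj, hstab⟩ : ∃ j, j ≤ Nat.card Q - 1 ∧ Pi δ k i j = Pi δ k i (j+1) := by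
    by_contra hcon
    push Not at hcon
    have h1 : ∀ j, j ≤ Nat.card Q → nc (Pi δ k i j) + j ≤ nc (Pi δ k i 0) := by
      intro j
      induction j with
      | zero => intro _; exact le_rfl
      | succ j ih =>
        intro hj
        have h2 := nc_lt (Pi_mono δ k i (Nat.le_succ j)) (hcon j (by omega))
        have h3 := ih (by omega)
        have h4 : j.succ = j + 1 := rfl
        rw [h4] at h2
        omega
    have h2 := h1 _ le_rfl
    have h3 := nc_pos (Pi δ k i (Nat.card Q))
    have h4 := nc_le (Pi δ k i 0)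
    omega
  have hclosed : ∀ a b, Pi δ k i j a b → ∀ x, Pi δ k i j (δ a x) (δ b x) := by
    intro a b h x
    change EqvGen _ a b at h
    induction h with
    | rel a b h1 =>
      obtain ⟨u, v, w, hK, hw, rfl, rfl⟩ := h1
      rw [← act_snoc δ, ← act_snoc δ, hstab]
      exact EqvGen.rel _ _ ⟨u, v, w ++ [x], hK, by simp; omega, rfl, rfl⟩
    | refl a => exact (Pi δ k i j).refl _
    | symm a b _ ih => exact (Pi δ k i j).symm ih
    | trans a b c _ _ ih1 ih2 => exact (Pi δ k i j).trans ih1 ih2
  refine le_trans ?_ (Pi_mono δ k i hj)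
  apply eqvGen_le
  rintro a b ⟨u, v, w, hK, rfl, rfl⟩
  induction w using List.reverseRecOn with
  | nil => exact EqvGen.rel _ _ ⟨u, v, [], hK, Nat.zero_le _, rfl, rfl⟩
  | append_singleton w x ih =>
    rw [act_snoc, act_snoc]
    exact hclosed _ _ ih x

theorem lemmaB [Finite Q] [Nonempty Q] (δ : Q → S → Q) (k i : ℕ)
    (hk : 2 * Nat.card Q ≤ k + 2) (hmono : Theta δ k i ≤ Theta δ k (i+1)) :
    ∃ w : List S, (∀ a b, Theta δ k (i+1) a b → Theta δ k i (act δ a w) (act δ b w)) ∧
      w.length + nc (Theta δ k (i+1)) ≤ nc (Theta δ k i) := by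
  have hn : 0 < Nat.card Q := Nat.card_pos
  have key : ∀ m : ℕ, ∀ R : Setoid Q, nc R ≤ m → R ≤ Theta δ k (i+1) →
      ∀ w : List S, (∀ a b, R a b → Theta δ k i (act δ a w) (act δ b w)) →
      w.length + nc R ≤ nc (Theta δ k i) →
      ∃ w : List S, (∀ a b, Theta δ k (i+1) a b → Theta δ k i (act δ a w) (act δ b w)) ∧
      w.length + nc (Theta δ k (i+1)) ≤ nc (Theta δ k i) := by
    intro m
    induction m with
    | zero =>
      intro R hR
      have := nc_pos R
      omega
    | succ m ih =>
      intro R hR hRT w hw hlen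
      by_cases hcase : R = Theta δ k (i+1)
      · subst hcase
        exact ⟨w, hw, hlen⟩
      -- a generator outside R
      obtain ⟨u, v, w1, hK, hw1, hnR⟩ : ∃ u v, ∃ w1 : List S, Kk δ k (i+1) u v ∧
          w1.length ≤ Nat.card Q - 1 ∧ ¬ R (act δ u w1) (act δ v w1) := by
        by_contra hcon
        push Not at hcon
        apply hcase
        apply le_antisymm hRT
        refine (lemmaA δ k (i+1)).trans ?_
        apply eqvGen_le
        rintro a b ⟨u, v, w1, hK, hw1, rfl, rfl⟩
        exact hcon u v w1 hK hw1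
      have hwl : w.length ≤ Nat.card Q - 1 := by
        have := nc_pos R
        have := nc_le (Theta δ k i)
        omega
      have hG := hK (w1 ++ w) (by rw [List.length_append]; omega)
      obtain ⟨a, ha⟩ := hG
      have hT : Theta δ k i (act δ (act δ u w1) (w ++ [a])) (act δ (act δ v w1) (w ++ [a])) := by
        refine EqvGen.rel _ _ ⟨act δ (act δ u w1) (w ++ [a]), act δ (act δ v w1) (w ++ [a]), [],
          ?_, rfl, rfl⟩
        intro w' hw'
        have h2 := ha w' hw'
        have e1 : ∀ z : Q, act δ (act δ (act δ z w1) (w ++ [a])) w' =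
            act δ (act δ z (w1 ++ w)) (a :: w') := by
          intro z
          rw [← act_append, ← act_append, ← act_append]
          simp
        rw [e1, e1]
        exact h2
      let R' : Setoid Q := EqvGen.setoid fun z z' => R z z' ∨ (z = act δ u w1 ∧ z' = act δ v w1)
      have hRR' : R ≤ R' := fun {z z'} h => EqvGen.rel _ _ (Or.inl h)
      have hne : R ≠ R' := by
        intro h
        apply hnR
        rw [h]
        exact EqvGen.rel _ _ (Or.inr ⟨rfl, rfl⟩)
      have hlt := nc_lt hRR' hne
      refine ih R' (by omega) ?_ (w ++ [a]) ?_ ?_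
      · apply eqvGen_le
        rintro z z' (h | ⟨rfl, rfl⟩)
        · exact hRT h
        · exact EqvGen.rel _ _ ⟨u, v, w1, hK, rfl, rfl⟩
      · intro z z' hz
        change EqvGen _ z z' at hz
        induction hz with
        | rel z z' h =>
          rcases h with h | ⟨rfl, rfl⟩
          · rw [act_snoc, act_snoc]
            exact Theta_congr δ k i (hw _ _ h) a
          · exact hT
        | refl z => exact (Theta δ k i).refl _
        | symm _ _ _ ih => exact (Theta δ k i).symm ih
        | trans _ _ _ _ _ ih1 ih2 => exact (Theta δ k i).trans ih1 ih2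
      · simp only [List.length_append, List.length_cons, List.length_nil]
        omega
  exact key _ (Theta δ k i) le_rfl hmono [] (fun a b h => h) (by simp)

theorem Theta_mono [Nonempty S] (δ : Q → S → Q) (k i : ℕ) :
    Theta δ k i ≤ Theta δ k (i+1) := by
  apply eqvGen_le
  rintro a b ⟨u, v, w, hK, rfl, rfl⟩
  exact EqvGen.rel _ _ ⟨u, v, w, fun w' hw' => G_succ δ k i _ _ (hK w' hw'), rfl, rfl⟩

theorem main [Finite Q] [Nonempty Q] [Nonempty S] (δ : Q → S → Q) (k : ℕ)
    (hk : 2 * Nat.card Q ≤ k + 2) (hA : IsAk δ k) :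
    ∃ w : List S, IsReset δ w ∧ w.length + 1 ≤ Nat.card Q := by
  obtain ⟨R, hR⟩ := G_all δ k hA
  have key : ∀ i, ∃ W : List S, (∀ a b, Theta δ k i a b → act δ a W = act δ b W) ∧
      W.length + nc (Theta δ k i) ≤ Nat.card Q := by
    intro i
    induction i with
    | zero =>
      refine ⟨[], fun a b h => ?_, by simpa using nc_le (Theta δ k 0)⟩
      simp only [act_nil]
      change EqvGen _ a b at h
      induction h with
      | rel a b h1 =>
        obtain ⟨u, v, w, hK, rfl, rfl⟩ := h1
        have h2 : u = v := hK [] (Nat.zero_le _)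
        rw [h2]
      | refl a => rfl
      | symm a b _ ih => exact ih.symm
      | trans a b c _ _ ih1 ih2 => exact ih1.trans ih2
    | succ i ih =>
      obtain ⟨W, hW, hWl⟩ := ih
      obtain ⟨w, hw, hwl⟩ := lemmaB δ k i hk (Theta_mono δ k i)
      refine ⟨w ++ W, fun a b h => ?_, ?_⟩
      · rw [act_append, act_append]
        exact hW _ _ (hw a b h)
      · rw [List.length_append]
        omega
  obtain ⟨W, hW, hWl⟩ := key R
  have hpos := nc_pos (Theta δ k R)
  refine ⟨W, ⟨act δ (Classical.arbitrary Q) W, fun q => hW _ _ ?_⟩, by omega⟩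
  exact EqvGen.rel _ _ ⟨q, Classical.arbitrary Q, [], fun w _ => hR _ _, rfl, rfl⟩

end Pool.Agent.R881.Careful
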