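import Mathlib

/-!
A coloring lemma for free actions of free groups.
-/

namespace Pool.Agent.R881.Coloring

variable {X I : Type*}

open Classical in
/-- The indicator function of `F` with values in `ℤ/2`. -/
noncomputable def ind (F : Set X) (x : X) : ZMod 2 := if x ∈ F then 1 else 0

/-- The action on `X × ℤ/2` of one generator. -/
noncomputable def S (T : I → Equiv.Perm X) (F : I → Set X) (i : I) : Equiv.Perm (X × ZMod 2) where
  toFun p := (T i p.1, p.2 + ind (F i) p.1 + ind (F i) (T i p.1))
  invFun p := ((T i).symm p.1, p.2 + ind (F i) ((T i).symm p.1) + ind (F i) p.1)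
  left_inv := by
    rintro ⟨x, s⟩
    simp only [Equiv.symm_apply_apply]
    congr 1
    have : ∀ s a b : ZMod 2, s + a + b + a + b = s := by decide
    exact this _ _ _
  right_inv := by
    rintro ⟨x, s⟩
    simp only [Equiv.apply_symm_apply]
    congr 1
    have : ∀ s a b : ZMod 2, s + a + b + a + b = s := by decide
    exact this _ _ _

theorem lift_S (T : I → Equiv.Perm X) (F : I → Set X) (w : FreeGroup I) (x : X) (s : ZMod 2) :
    FreeGroup.lift (S T F) w (x, s) =
      (FreeGroup.lift T w x, s + (FreeGroup.lift (S T F) w (x, 0)).2) := by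
  induction w using FreeGroup.induction_on generalizing x s with
  | C1 => simp
  | of i =>
    simp only [FreeGroup.lift_apply_of, S, Equiv.coe_fn_mk]
    congr 1
    ring
  | inv_of i _ =>
    simp only [map_inv, FreeGroup.lift_apply_of]
    show ((S T F i).symm (x, s)) = _
    simp only [S, Equiv.coe_fn_symm_mk]
    congr 1
    show s + _ + _ = s + (0 + _ + _)
    ring
  | mul a b iha ihb =>
    rw [map_mul, map_mul, Equiv.Perm.mul_apply, Equiv.Perm.mul_apply, Equiv.Perm.mul_apply,
      ihb x s, ihb x 0, iha _ (s + _), iha _ (0 + _)]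
    congr 1
    ring

/-- The coloring lemma. -/
theorem exists_coloring (T : I → Equiv.Perm X) (F : I → Set X) (O : Set X)
    (ho : ∀ i, ∀ x ∈ O, T i x = x)
    (hfree : ∀ w : FreeGroup I, ∀ x, x ∉ O → FreeGroup.lift T w x = x → w = 1) :
    ∃ c : X → ZMod 2, ∀ i x, c (T i x) + ind (F i) (T i x) = c x + ind (F i) x := by
  classical
  have hfix : ∀ w : FreeGroup I, ∀ x ∈ O, FreeGroup.lift T w x = x := by
    intro w x hx
    induction w using FreeGroup.induction_on with
    | C1 => simp
    | of i => simp [ho i x hx]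
    | inv_of i _ =>
      rw [map_inv, FreeGroup.lift_apply_of, Equiv.Perm.inv_eq_iff_eq]
      exact (ho i x hx).symm
    | mul a b iha ihb => rw [map_mul, Equiv.Perm.mul_apply, ihb, iha]
  let r : Setoid X :=
    { r := fun x y => ∃ w : FreeGroup I, FreeGroup.lift T w x = y
      iseqv :=
        { refl := fun x => ⟨1, by simp⟩
          symm := by
            rintro x y ⟨w, rfl⟩
            refine ⟨w⁻¹, ?_⟩
            rw [map_inv, Equiv.Perm.inv_eq_iff_eq]
          trans := by
            rintro x y z ⟨w, rfl⟩ ⟨w', rfl⟩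
            exact ⟨w' * w, by rw [map_mul, Equiv.Perm.mul_apply]⟩ } }
  let rep : X → X := fun x => (Quotient.mk r x).out
  have hrep : ∀ x, ∃ w : FreeGroup I, FreeGroup.lift T w (rep x) = x := by
    intro x
    exact Quotient.exact (Quotient.out_eq (Quotient.mk r x))
  choose w hw using hrep
  have hrepT : ∀ i x, rep (T i x) = rep x := by
    intro i x
    show (Quotient.mk r (T i x)).out = (Quotient.mk r x).out
    congr 1
    apply Quotient.sound
    refine ⟨(FreeGroup.of i)⁻¹, ?_⟩
    rw [map_inv, FreeGroup.lift_apply_of, Equiv.Perm.inv_eq_iff_eq]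
  have hrepo : ∀ x, x ∉ O → rep x ∉ O := by
    intro x hx h
    apply hx
    rw [← hw x, hfix _ _ h]
    exact h
  have hwT : ∀ i x, x ∉ O → w (T i x) = FreeGroup.of i * w x := by
    intro i x hx
    have h1 : FreeGroup.lift T ((w (T i x))⁻¹ * (FreeGroup.of i * w x)) (rep x) = rep x := by
      rw [map_mul, Equiv.Perm.mul_apply, map_mul, Equiv.Perm.mul_apply, hw x,
        FreeGroup.lift_apply_of, map_inv, Equiv.Perm.inv_eq_iff_eq]
      have := hw (T i x)
      rw [hrepT] at this
      exact this.symm
    have h2 := hfree _ _ (hrepo x hx) h1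
    exact (inv_mul_eq_one.1 h2)
  refine ⟨fun x => if x ∈ O then 0 else (FreeGroup.lift (S T F) (w x) (rep x, 0)).2, ?_⟩
  intro i x
  by_cases hx : x ∈ O
  · rw [ho i x hx]
  · have hTx : T i x ∉ O := by
      intro h
      apply hx
      have h1 : T i (T i x) = T i x := ho i _ h
      have h2 := (T i).injective h1
      rwa [h2] at h
    simp only [if_neg hx, if_neg hTx]
    rw [hwT i x hx, hrepT, map_mul, Equiv.Perm.mul_apply, FreeGroup.lift_apply_of]
    have h1 : FreeGroup.lift (S T F) (w x) (rep x, 0) =
        (x, (FreeGroup.lift (S T F) (w x) (rep x, 0)).2) := by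
      have := lift_S T F (w x) (rep x) 0
      rw [hw x, zero_add] at this
      exact this
    rw [h1]
    simp only [S, Equiv.coe_fn_mk]
    have : ∀ s a b : ZMod 2, s + a + b + b = s + a := by decide
    exact this _ _ _

end Pool.Agent.R881.Coloring
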