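import Mathlib

/-!
Consecutive inclusions of Čech complexes of hypercube graphs are null-homotopic.
-/

namespace Pool.Agent.R881.CubeCech

open Finset

open scoped Classical in
/-- The support of a function on a finite vertex set. -/
noncomputable def supp {V : Type*} [Fintype V] (p : V → ℝ) : Finset V :=
  Finset.univ.filter fun v => p v ≠ 0

/-- Geometric realization of a simplicial complex `K` on a finite vertex set `V`: the points are
the functions `p ≥ 0` with `∑ p = 1` whose support is a simplex of `K` (barycentric coordinates). -/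
def Geo {V : Type*} [Fintype V] (K : Set (Finset V)) : Type _ :=
  {p : V → ℝ // (∀ v, 0 ≤ p v) ∧ ∑ v, p v = 1 ∧ supp p ∈ K}

noncomputable instance {V : Type*} [Fintype V] (K : Set (Finset V)) : TopologicalSpace (Geo K) :=
  instTopologicalSpaceSubtype

/-- The Čech complex `𝒩(𝕀_n, r)` of the `n`-dimensional hypercube graph: for even `r` its simplices
are the subsets of the balls of radius `r/2`, for odd `r` the subsets of the unions of the balls of
radius `(r-1)/2` around the two ends of an edge (`hammingDist` is the graph distance). -/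
def N (n r : ℕ) : Set (Finset (Fin n → Bool)) :=
  {σ | (Even r ∧ ∃ v, ∀ x ∈ σ, hammingDist v x ≤ r / 2) ∨
    (Odd r ∧ ∃ v w, hammingDist v w = 1 ∧
      ∀ x ∈ σ, hammingDist v x ≤ (r - 1) / 2 ∨ hammingDist w x ≤ (r - 1) / 2)}

section realization

variable {V : Type*} [Fintype V] [DecidableEq V]

theorem mem_supp {p : V → ℝ} {v : V} : v ∈ supp p ↔ p v ≠ 0 := by simp [supp]

/-- push forward of barycentric coordinates -/
def pushFun (f : V → V) (p : V → ℝ) (w : V) : ℝ := ∑ v, if f v = w then p v else 0

theorem pushFun_nonneg (f : V → V) {p : V → ℝ} (hp : ∀ v, 0 ≤ p v) (w : V) :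
    0 ≤ pushFun f p w := Finset.sum_nonneg fun v _ => by split_ifs <;> simp [hp v]

theorem pushFun_sum (f : V → V) (p : V → ℝ) : ∑ w, pushFun f p w = ∑ v, p v := by
  unfold pushFun
  rw [Finset.sum_comm]
  apply Finset.sum_congr rfl
  intro v _
  simp

theorem pushFun_ne {f : V → V} {p : V → ℝ} {w : V} (h : pushFun f p w ≠ 0) :
    w ∈ (supp p).image f := by
  obtain ⟨v, -, hv⟩ := Finset.exists_ne_zero_of_sum_ne_zero h
  rw [Finset.mem_image]
  by_cases hf : f v = w
  · rw [if_pos hf] at hv
    exact ⟨v, mem_supp.2 hv, hf⟩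
  · rw [if_neg hf] at hv
    exact absurd rfl hv

theorem pushFun_continuous (f : V → V) : Continuous (pushFun f) := by
  unfold pushFun
  refine continuous_pi fun w => continuous_finsetSum _ fun v _ => ?_
  split_ifs
  · exact continuous_apply v
  · exact continuous_const

variable {K L : Set (Finset V)}

/-- simplicial map -/
def push (hL : ∀ σ τ, τ ∈ L → σ ⊆ τ → σ ∈ L) (f : V → V) (hf : ∀ σ ∈ K, σ.image f ∈ L) :
    C(Geo K, Geo L) :=
  ⟨fun p => ⟨pushFun f p.1, pushFun_nonneg f p.2.1, (pushFun_sum f p.1).trans p.2.2.1,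
    hL _ _ (hf _ p.2.2.2) fun _ hw => pushFun_ne (mem_supp.1 hw)⟩,
    Continuous.subtype_mk ((pushFun_continuous f).comp continuous_subtype_val) _⟩

theorem push_homotopic (hL : ∀ σ τ, τ ∈ L → σ ⊆ τ → σ ∈ L) (f g : V → V)
    (hf : ∀ σ ∈ K, σ.image f ∈ L) (hg : ∀ σ ∈ K, σ.image g ∈ L)
    (hfg : ∀ σ ∈ K, σ.image f ∪ σ.image g ∈ L) :
    (push hL f hf).Homotopic (push hL g hg) := by
  refine ⟨⟨⟨fun z => ⟨fun w => (1 - (z.1 : ℝ)) * pushFun f z.2.1 w + (z.1 : ℝ) * pushFun g z.2.1 w,
    ?_, ?_, ?_⟩, ?_⟩, ?_, ?_⟩⟩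
  · intro w
    have h1 := pushFun_nonneg f z.2.2.1 w
    have h2 := pushFun_nonneg g z.2.2.1 w
    have h3 : (0:ℝ) ≤ 1 - z.1 := by linarith [z.1.2.2]
    have h4 : (0:ℝ) ≤ z.1 := z.1.2.1
    positivity
  · rw [Finset.sum_add_distrib, ← Finset.mul_sum, ← Finset.mul_sum, pushFun_sum, pushFun_sum,
      z.2.2.2.1]
    ring
  · refine hL _ _ (hfg _ z.2.2.2.2) ?_
    intro w hw
    rw [mem_supp] at hw
    rw [Finset.mem_union]
    by_contra hcon
    push Not at hcon
    have h1 : pushFun f z.2.1 w = 0 := by
      by_contra h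
      exact hcon.1 (pushFun_ne h)
    have h2 : pushFun g z.2.1 w = 0 := by
      by_contra h
      exact hcon.2 (pushFun_ne h)
    apply hw
    simp [h1, h2]
  · refine Continuous.subtype_mk ?_ _
    have hc : ∀ h : V → V, Continuous fun z : unitInterval × Geo K => pushFun h z.2.1 := fun h =>
      (pushFun_continuous h).comp (continuous_subtype_val.comp continuous_snd)
    refine continuous_pi fun w => ?_
    have hcw : ∀ h : V → V, Continuous fun z : unitInterval × Geo K => pushFun h z.2.1 w :=
      fun h => (continuous_apply w).comp (hc h)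
    have ht : Continuous fun z : unitInterval × Geo K => (z.1 : ℝ) :=
      continuous_subtype_val.comp continuous_fst
    exact ((continuous_const.sub ht).mul (hcw f)).add (ht.mul (hcw g))
  · intro p
    apply Subtype.ext
    funext w
    change (1 - ((0:unitInterval):ℝ)) * pushFun f p.1 w + ((0:unitInterval):ℝ) * pushFun g p.1 w
      = pushFun f p.1 w
    simp
  · intro p
    apply Subtype.ext
    funext w
    change (1 - ((1:unitInterval):ℝ)) * pushFun f p.1 w + ((1:unitInterval):ℝ) * pushFun g p.1 w
      = pushFun g p.1 w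
    simp

end realization

section cube

variable {n : ℕ}

/-- set a coordinate to `false` -/
def fk (k : Fin n) (x : Fin n → Bool) : Fin n → Bool := Function.update x k false

theorem hd_fk_fk (k : Fin n) (x y : Fin n → Bool) :
    hammingDist (fk k x) (fk k y) ≤ hammingDist x y := by
  unfold hammingDist
  apply Finset.card_le_card
  intro i hi
  rw [Finset.mem_filter] at hi ⊢
  refine ⟨hi.1, fun h => hi.2 ?_⟩
  unfold fk
  by_cases hik : i = k
  · subst hik; simp
  · simp [hik, h]

theorem hd_fk (k : Fin n) (x : Fin n → Bool) : hammingDist x (fk k x) ≤ 1 := by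
  unfold hammingDist
  have : (Finset.univ.filter fun i => x i ≠ fk k x i) ⊆ {k} := by
    intro i hi
    rw [Finset.mem_filter] at hi
    rw [Finset.mem_singleton]
    by_contra hik
    apply hi.2
    simp [fk, hik]
  exact (Finset.card_le_card this).trans (by simp)

/-- flip a coordinate -/
def flip (k : Fin n) (x : Fin n → Bool) : Fin n → Bool := Function.update x k (!x k)

theorem hd_flip (k : Fin n) (x : Fin n → Bool) : hammingDist x (flip k x) = 1 := by
  unfold hammingDist
  have : (Finset.univ.filter fun i => x i ≠ flip k x i) = {k} := by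
    ext i
    rw [Finset.mem_filter, Finset.mem_singleton]
    by_cases hik : i = k
    · subst hik; simp [flip]
    · simp [flip, hik]
  rw [this]
  simp

theorem fk_cases (k : Fin n) (x : Fin n → Bool) : fk k x = x ∨ fk k x = flip k x := by
  cases hx : x k
  · left
    unfold fk
    rw [← hx]
    exact Function.update_eq_self k x
  · right
    unfold fk flip
    rw [hx]
    rfl

/-- parity of a vertex -/
def par (x : Fin n → Bool) : ℕ := hammingDist x (fun _ => false)

theorem hd_parity (x y : Fin n → Bool) : (hammingDist x y + par x + par y) % 2 = 0 := by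
  unfold par hammingDist
  simp only [Finset.card_filter]
  rw [← Finset.sum_add_distrib, ← Finset.sum_add_distrib, ← Nat.even_iff]
  apply Finset.even_sum
  intro i _
  cases x i <;> cases y i <;> decide

theorem N_down {r : ℕ} : ∀ σ τ : Finset (Fin n → Bool), τ ∈ N n r → σ ⊆ τ → σ ∈ N n r := by
  rintro σ τ (⟨hr, v, hv⟩ | ⟨hr, v, w, hvw, h⟩) hst
  · exact Or.inl ⟨hr, v, fun x hx => hv x (hst hx)⟩
  · exact Or.inr ⟨hr, v, w, hvw, fun x hx => h x (hst hx)⟩

/-- half step -/
def gk (k : Fin n) (x : Fin n → Bool) : Fin n → Bool := if Odd (par x) then fk k x else x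

theorem N_fk {r : ℕ} (k : Fin n) {σ : Finset (Fin n → Bool)} (h : σ ∈ N n r) :
    σ.image (fk k) ∈ N n r := by
  rcases h with ⟨hr, v, hv⟩ | ⟨hr, v, w, hvw, h⟩
  · refine Or.inl ⟨hr, fk k v, ?_⟩
    intro x hx
    obtain ⟨y, hy, rfl⟩ := Finset.mem_image.1 hx
    exact (hd_fk_fk k v y).trans (hv y hy)
  · by_cases hd : fk k v = fk k w
    · -- contained in one ball
      refine Or.inr ⟨hr, fk k v, flip k (fk k v), hd_flip _ _, ?_⟩
      intro x hx
      obtain ⟨y, hy, rfl⟩ := Finset.mem_image.1 hx
      left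
      rcases h y hy with h1 | h1
      · exact (hd_fk_fk k v y).trans h1
      · rw [hd]
        exact (hd_fk_fk k w y).trans h1
    · refine Or.inr ⟨hr, fk k v, fk k w, ?_, ?_⟩
      · have h1 := hd_fk_fk k v w
        have h2 : hammingDist (fk k v) (fk k w) ≠ 0 := fun h0 => hd (hammingDist_eq_zero.1 h0)
        omega
      · intro x hx
        obtain ⟨y, hy, rfl⟩ := Finset.mem_image.1 hx
        rcases h y hy with h1 | h1
        · exact Or.inl ((hd_fk_fk k v y).trans h1)
        · exact Or.inr ((hd_fk_fk k w y).trans h1)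

/-- for odd `r = 2s+1` the even vertices are close to one end, the odd ones to the other -/
theorem odd_split {s : ℕ} {σ : Finset (Fin n → Bool)} {v w : Fin n → Bool}
    (hvw : hammingDist v w = 1)
    (h : ∀ x ∈ σ, hammingDist v x ≤ s ∨ hammingDist w x ≤ s) :
    ∃ a b : Fin n → Bool, (∀ x ∈ σ, ¬ Odd (par x) → hammingDist a x ≤ s) ∧
      (∀ x ∈ σ, Odd (par x) → hammingDist b x ≤ s) ∧
      (∀ x ∈ σ, hammingDist a x ≤ s + 1) ∧ (∀ x ∈ σ, hammingDist b x ≤ s + 1) := by
  have hwv : hammingDist w v = 1 := by rw [hammingDist_comm]; exact hvw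
  have hv : ∀ x ∈ σ, hammingDist v x ≤ s + 1 := by
    intro x hx
    rcases h x hx with h1 | h1
    · omega
    · have := hammingDist_triangle v w x
      omega
  have hw : ∀ x ∈ σ, hammingDist w x ≤ s + 1 := by
    intro x hx
    rcases h x hx with h1 | h1
    · have := hammingDist_triangle w v x
      omega
    · omega
  have hpvw := hd_parity v w
  by_cases hc : (par v + s) % 2 = 0
  · refine ⟨v, w, ?_, ?_, hv, hw⟩
    · intro x hx hodd
      have h1 := hd_parity v x
      have h2 := hv x hx
      rw [Nat.not_odd_iff_even, Nat.even_iff] at hodd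
      omega
    · intro x hx hodd
      have h1 := hd_parity w x
      have h2 := hw x hx
      rw [Nat.odd_iff] at hodd
      omega
  · refine ⟨w, v, ?_, ?_, hw, hv⟩
    · intro x hx hodd
      have h1 := hd_parity w x
      have h2 := hw x hx
      rw [Nat.not_odd_iff_even, Nat.even_iff] at hodd
      omega
    · intro x hx hodd
      have h1 := hd_parity v x
      have h2 := hv x hx
      rw [Nat.odd_iff] at hodd
      omega

theorem step_even {r : ℕ} (k : Fin n) {σ : Finset (Fin n → Bool)} (hr : Even r)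
    (h : σ ∈ N n r) : σ ∪ σ.image (fk k) ∈ N n (r+1) := by
  rcases h with ⟨_, v, hv⟩ | ⟨hr', _⟩
  · refine Or.inr ⟨hr.add_one, v, flip k v, hd_flip k v, ?_⟩
    have e : (r + 1 - 1) / 2 = r / 2 := by simp
    rw [e]
    intro x hx
    rcases Finset.mem_union.1 hx with hx | hx
    · exact Or.inl (hv x hx)
    · obtain ⟨y, hy, rfl⟩ := Finset.mem_image.1 hx
      have h1 := (hd_fk_fk k v y).trans (hv y hy)
      rcases fk_cases k v with h2 | h2
      · rw [h2] at h1; exact Or.inl h1
      · rw [h2] at h1; exact Or.inr h1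
  · exact absurd hr (Nat.not_even_iff_odd.2 hr')

theorem step1 {r : ℕ} (k : Fin n) {σ : Finset (Fin n → Bool)} (h : σ ∈ N n r) :
    σ ∪ σ.image (gk k) ∈ N n (r+1) := by
  rcases Nat.even_or_odd r with hr | hr
  · refine N_down _ _ (step_even k hr h) ?_
    intro x hx
    rcases Finset.mem_union.1 hx with hx | hx
    · exact Finset.mem_union_left _ hx
    · obtain ⟨y, hy, rfl⟩ := Finset.mem_image.1 hx
      unfold gk
      split_ifs
      · exact Finset.mem_union_right _ (Finset.mem_image_of_mem _ hy)
      · exact Finset.mem_union_left _ hy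
  · rcases h with ⟨hr', _⟩ | ⟨_, v, w, hvw, h⟩
    · exact absurd hr' (Nat.not_even_iff_odd.2 hr)
    obtain ⟨a, b, ha, hb, ha', hb'⟩ := odd_split hvw h
    obtain ⟨s, rfl⟩ := hr
    have e1 : (2 * s + 1 - 1) / 2 = s := by omega
    have e2 : (2 * s + 1 + 1) / 2 = s + 1 := by omega
    rw [e1] at ha hb ha' hb'
    refine Or.inl ⟨⟨s+1, by ring⟩, b, ?_⟩
    rw [e2]
    intro x hx
    rcases Finset.mem_union.1 hx with hx | hx
    · exact hb' x hx
    · obtain ⟨y, hy, rfl⟩ := Finset.mem_image.1 hx
      unfold gk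
      split_ifs with hodd
      · have h1 := hb y hy hodd
        have h2 := hd_fk k y
        have h3 := hammingDist_triangle b y (fk k y)
        omega
      · exact hb' y hy

theorem step2 {r : ℕ} (k : Fin n) {σ : Finset (Fin n → Bool)} (h : σ ∈ N n r) :
    σ.image (gk k) ∪ σ.image (fk k) ∈ N n (r+1) := by
  rcases Nat.even_or_odd r with hr | hr
  · refine N_down _ _ (step_even k hr h) ?_
    intro x hx
    rcases Finset.mem_union.1 hx with hx | hx
    · obtain ⟨y, hy, rfl⟩ := Finset.mem_image.1 hx
      unfold gk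
      split_ifs
      · exact Finset.mem_union_right _ (Finset.mem_image_of_mem _ hy)
      · exact Finset.mem_union_left _ hy
    · exact Finset.mem_union_right _ hx
  · rcases h with ⟨hr', _⟩ | ⟨_, v, w, hvw, h⟩
    · exact absurd hr' (Nat.not_even_iff_odd.2 hr)
    obtain ⟨a, b, ha, hb, ha', hb'⟩ := odd_split hvw h
    obtain ⟨s, rfl⟩ := hr
    have e1 : (2 * s + 1 - 1) / 2 = s := by omega
    have e2 : (2 * s + 1 + 1) / 2 = s + 1 := by omega
    rw [e1] at ha hb ha' hb'
    refine Or.inl ⟨⟨s+1, by ring⟩, fk k a, ?_⟩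
    rw [e2]
    have hall : ∀ y ∈ σ, hammingDist (fk k a) (fk k y) ≤ s + 1 := fun y hy =>
      (hd_fk_fk k a y).trans (ha' y hy)
    intro x hx
    rcases Finset.mem_union.1 hx with hx | hx
    · obtain ⟨y, hy, rfl⟩ := Finset.mem_image.1 hx
      unfold gk
      split_ifs with hodd
      · exact hall y hy
      · have h1 := ha y hy hodd
        have h2 := hd_fk k a
        rw [hammingDist_comm] at h2
        have h3 := hammingDist_triangle (fk k a) a y
        omega
    · obtain ⟨y, hy, rfl⟩ := Finset.mem_image.1 hx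
      exact hall y hy

/-- set the first `m` coordinates to `false` -/
def phi (n m : ℕ) (x : Fin n → Bool) : Fin n → Bool := fun i => if i.val < m then false else x i

theorem phi_zero : phi n 0 = id := by
  funext x i
  simp [phi]

theorem phi_succ {m : ℕ} (hm : m < n) (x : Fin n → Bool) :
    phi n (m+1) x = fk ⟨m, hm⟩ (phi n m x) := by
  funext i
  unfold phi fk
  by_cases hi : i = ⟨m, hm⟩
  · subst hi; simp
  · have hne : i.val ≠ m := fun h => hi (Fin.ext h)
    rw [Function.update_of_ne hi]
    have : (i.val < m + 1) ↔ (i.val < m) := by omega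
    simp [this]

theorem N_phi {r m : ℕ} (hm : m ≤ n) {σ : Finset (Fin n → Bool)} (h : σ ∈ N n r) :
    σ.image (phi n m) ∈ N n r := by
  induction m with
  | zero => rw [phi_zero, Finset.image_id]; exact h
  | succ m ih =>
    have h1 := N_fk ⟨m, hm⟩ (ih (by omega))
    rw [Finset.image_image] at h1
    have : fk ⟨m, hm⟩ ∘ phi n m = phi n (m+1) := by
      funext x
      exact (phi_succ hm x).symm
    rwa [this] at h1

theorem N_succ (hn : 0 < n) {r : ℕ} {σ : Finset (Fin n → Bool)} (h : σ ∈ N n r) :
    σ ∈ N n (r+1) := N_down _ _ (step1 ⟨0, hn⟩ h) Finset.subset_union_left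

theorem N_phi' (hn : 0 < n) {r m : ℕ} (hm : m ≤ n) (σ : Finset (Fin n → Bool)) (h : σ ∈ N n r) :
    σ.image (phi n m) ∈ N n (r+1) := N_succ hn (N_phi hm h)

theorem homotopic_phi (hn : 0 < n) {r m : ℕ} (hm : m ≤ n) :
    (push (K := N n r) N_down (phi n 0) (N_phi' hn (Nat.zero_le n))).Homotopic
      (push (K := N n r) N_down (phi n m) (N_phi' hn hm)) := by
  induction m with
  | zero => exact ContinuousMap.Homotopic.refl _
  | succ m ih =>
    refine (ih (by omega)).trans ?_
    have hm' : m < n := hm
    have e : phi n (m+1) = fk ⟨m, hm'⟩ ∘ phi n m := by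
      funext x
      exact phi_succ hm' x
    have hg : ∀ σ ∈ N n r, σ.image (gk ⟨m, hm'⟩ ∘ phi n m) ∈ N n (r+1) := by
      intro σ hσ
      rw [← Finset.image_image]
      exact N_down _ _ (step1 ⟨m, hm'⟩ (N_phi hm'.le hσ)) Finset.subset_union_right
    refine (push_homotopic N_down _ (gk ⟨m, hm'⟩ ∘ phi n m) _ hg ?_).trans
      (push_homotopic N_down _ _ hg _ ?_)
    · intro σ hσ
      rw [← Finset.image_image]
      exact step1 ⟨m, hm'⟩ (N_phi hm'.le hσ)
    · intro σ hσ
      rw [e, ← Finset.image_image, ← Finset.image_image]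
      exact step2 ⟨m, hm'⟩ (N_phi hm'.le hσ)

end cube

/-- The inclusion `𝒩(𝕀_n, r) ↪ 𝒩(𝕀_n, r+1)`. -/
noncomputable def incl {n : ℕ} (hn : 0 < n) (r : ℕ) : C(Geo (N n r), Geo (N n (r+1))) :=
  ⟨fun p => ⟨p.1, p.2.1, p.2.2.1, N_succ hn p.2.2.2⟩,
    Continuous.subtype_mk continuous_subtype_val _⟩

theorem incl_nullhomotopic {n : ℕ} (hn : 0 < n) (r : ℕ) : (incl hn r).Nullhomotopic := by
  have h1 := homotopic_phi (r := r) hn (le_refl n)
  have e0 : push (K := N n r) N_down (phi n 0) (N_phi' hn (Nat.zero_le n)) = incl hn r := by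
    ext p
    apply Subtype.ext
    funext w
    change pushFun (phi n 0) p.1 w = p.1 w
    simp [phi_zero, pushFun]
  rw [e0] at h1
  -- the last map is constant
  let z : Fin n → Bool := fun _ => false
  have hphin : ∀ x, phi n n x = z := by
    intro x
    funext i
    simp [phi, z]
  by_cases hne : Nonempty (Geo (N n r))
  · obtain ⟨p0⟩ := hne
    refine ⟨push (K := N n r) N_down (phi n n) (N_phi' hn le_rfl) p0, ?_⟩
    have e1 : push (K := N n r) N_down (phi n n) (N_phi' hn le_rfl) =
        ContinuousMap.const _ (push (K := N n r) N_down (phi n n) (N_phi' hn le_rfl) p0) := by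
      ext p
      apply Subtype.ext
      funext w
      change pushFun (phi n n) p.1 w = pushFun (phi n n) p0.1 w
      unfold pushFun
      simp only [hphin]
      by_cases hw : z = w
      · simp only [hw, if_true]
        rw [p.2.2.1, p0.2.2.1]
      · simp [hw]
    rw [e1] at h1
    exact h1
  · exfalso
    apply hne
    refine ⟨⟨fun w => if w = z then 1 else 0, ?_, ?_, ?_⟩⟩
    · intro w
      dsimp only
      split_ifs <;> norm_num
    · simp
    · have hs : supp (fun w : Fin n → Bool => if w = z then (1:ℝ) else 0) ⊆ {z} := by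
        intro w hw
        rw [mem_supp] at hw
        rw [Finset.mem_singleton]
        by_contra h
        exact hw (if_neg h)
      refine N_down _ _ ?_ hs
      rcases Nat.even_or_odd r with hr | hr
      · refine Or.inl ⟨hr, z, fun x hx => ?_⟩
        rw [Finset.mem_singleton] at hx
        subst hx
        rw [hammingDist_self]
        exact Nat.zero_le _
      · refine Or.inr ⟨hr, z, flip ⟨0, hn⟩ z, hd_flip _ _, fun x hx => Or.inl ?_⟩
        rw [Finset.mem_singleton] at hx
        subst hx
        rw [hammingDist_self]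
        exact Nat.zero_le _

end Pool.Agent.R881.CubeCech
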