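import Mathlib

/-!
The semi-Zariski topology of a semigroup, semigroups with finite double centralizers.
-/

open Filter Topology TopologicalSpace

namespace Pool.Agent.R881.SemiZariski

/-- The semi-Zariski topology on a semigroup `S`: it is generated by the sets
`{x | a x b ≠ c}` and `{x | a x b ≠ c x d}`, where `a, b, c, d` lie in `S` with an external
identity adjoined. -/
def semiZariski (S : Type*) [Semigroup S] : TopologicalSpace S :=
  generateFrom ({U | ∃ a b c : WithOne S, U = {x : S | a * (x : WithOne S) * b ≠ c}} ∪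
    {U | ∃ a b c d : WithOne S, U = {x : S | a * (x : WithOne S) * b ≠ c * (x : WithOne S) * d}})

/-- `S` has finite double centralizers. -/
def FiniteDoubleCentralizers (S : Type*) [Semigroup S] : Prop :=
  ∀ F : Set S, F.Finite → (Set.centralizer (Set.centralizer F)).Finite

/-- The subset `A` is a countable union of discrete subspaces (in the topology `t`). -/
def SigmaDiscrete {S : Type*} (t : TopologicalSpace S) (A : Set S) : Prop :=
  ∃ D : ℕ → Set S, A = ⋃ n, D n ∧
    ∀ n, @DiscreteTopology (D n) (TopologicalSpace.induced Subtype.val t)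

/-- `S_{≤ n}`: the elements whose double centralizer has at most `n` elements. -/
def centLE (S : Type*) [Semigroup S] (n : ℕ) : Set S :=
  {f | (Set.centralizer (Set.centralizer {f})).encard ≤ n}

section group

variable {G : Type*} [Group G]

/-- The homomorphism from `G` with an external identity to `G`. -/
def φ (G : Type*) [Group G] : WithOne G →* G := WithOne.lift (MulHom.id G)

theorem φ_coe (x : G) : φ G (x : WithOne G) = x := WithOne.lift_coe _ _

theorem eq_one_or_coe (a : WithOne G) : a = 1 ∨ ∃ x : G, a = (x : WithOne G) := by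
  rcases eq_or_ne a 1 with h | h
  · exact Or.inl h
  · obtain ⟨x, hx⟩ := WithOne.ne_one_iff_exists.1 h
    exact Or.inr ⟨x, hx.symm⟩

theorem mul_coe_mul (a b : WithOne G) (x : G) :
    a * (x : WithOne G) * b = ((φ G a * x * φ G b : G) : WithOne G) := by
  rcases eq_one_or_coe a with rfl | ⟨a, rfl⟩ <;> rcases eq_one_or_coe b with rfl | ⟨b, rfl⟩ <;>
    simp [φ_coe]

/-- A criterion for convergence in the semi-Zariski topology of a group. -/
theorem tendsto_semiZariski {ι : Type*} {l : Filter ι} {s : ι → G} {f : G}
    (h1 : ∀ c : G, ∀ᶠ i in l, s i ≠ c)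
    (h2 : ∀ β γ : G, f * β * f⁻¹ ≠ γ → ∀ᶠ i in l, s i * β * (s i)⁻¹ ≠ γ) :
    Tendsto s l (@nhds G (semiZariski G) f) := by
  rw [semiZariski, tendsto_nhds_generateFrom_iff]
  rintro U (⟨a, b, c, rfl⟩ | ⟨a, b, c, d, rfl⟩) hf
  · rcases eq_one_or_coe c with rfl | ⟨c, rfl⟩
    · apply Filter.univ_mem'
      intro i
      show a * (s i : WithOne G) * b ≠ 1
      rw [mul_coe_mul]
      exact WithOne.coe_ne_one
    · filter_upwards [h1 ((φ G a)⁻¹ * c * (φ G b)⁻¹)] with i hi
      show a * (s i : WithOne G) * b ≠ c
      rw [mul_coe_mul]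
      intro h
      apply hi
      have := WithOne.coe_injective h
      rw [← this]
      group
  · have hf' : f * (φ G b * (φ G d)⁻¹) * f⁻¹ ≠ (φ G a)⁻¹ * φ G c := by
      intro h
      apply hf
      rw [mul_coe_mul, mul_coe_mul]
      congr 1
      have h3 : φ G a * (f * (φ G b * (φ G d)⁻¹) * f⁻¹) * f * φ G d =
        φ G a * ((φ G a)⁻¹ * φ G c) * f * φ G d := by rw [h]
      simpa [mul_assoc] using h3
    filter_upwards [h2 _ _ hf'] with i hi
    show a * (s i : WithOne G) * b ≠ c * (s i : WithOne G) * d
    rw [mul_coe_mul, mul_coe_mul]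
    intro h
    apply hi
    have h3 := WithOne.coe_injective h
    have h4 : (φ G a)⁻¹ * (φ G a * s i * φ G b) * (φ G d)⁻¹ * (s i)⁻¹ =
      (φ G a)⁻¹ * (φ G c * s i * φ G d) * (φ G d)⁻¹ * (s i)⁻¹ := by rw [h3]
    simpa [mul_assoc] using h4

/-- The semi-Zariski topology is coarser than each Hausdorff topology with continuous
translations. -/
theorem le_semiZariski (τ : TopologicalSpace G) (hT2 : @T2Space G τ)
    (hτ : ∀ a b : G, @Continuous G G τ τ (fun x => a * x * b)) : τ ≤ semiZariski G := by
  let _ := τ
  have := hT2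
  rw [semiZariski, le_generateFrom_iff_subset_isOpen]
  rintro U (⟨a, b, c, rfl⟩ | ⟨a, b, c, d, rfl⟩)
  · rcases eq_one_or_coe c with rfl | ⟨c, rfl⟩
    · have : {x : G | a * (x : WithOne G) * b ≠ 1} = Set.univ := by
        ext x
        simp only [Set.mem_setOf_eq, Set.mem_univ, iff_true]
        rw [mul_coe_mul]
        exact WithOne.coe_ne_one
      rw [this]
      exact isOpen_univ
    · have : {x : G | a * (x : WithOne G) * b ≠ c} = (fun x => φ G a * x * φ G b) ⁻¹' {c}ᶜ := by
        ext x
        simp only [Set.mem_setOf_eq, Set.mem_preimage, Set.mem_compl_iff, Set.mem_singleton_iff]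
        rw [mul_coe_mul, Ne, WithOne.coe_inj]
      rw [this]
      exact isOpen_compl_singleton.preimage (hτ _ _)
  · have : {x : G | a * (x : WithOne G) * b ≠ c * (x : WithOne G) * d} =
        {x | φ G a * x * φ G b = φ G c * x * φ G d}ᶜ := by
      ext x
      simp only [Set.mem_setOf_eq, Set.mem_compl_iff]
      rw [mul_coe_mul, mul_coe_mul, Ne, WithOne.coe_inj]
    show IsOpen _
    rw [this]
    exact (isClosed_eq (hτ _ _) (hτ _ _)).isOpen_compl

/-- A set which is `σ`-discrete in the semi-Zariski topology is countable as soon as the group has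
a second countable Hausdorff topology with continuous translations. -/
theorem SigmaDiscrete.countable {A : Set G} (hA : SigmaDiscrete (semiZariski G) A)
    (τ : TopologicalSpace G) (hT2 : @T2Space G τ) (h2 : @SecondCountableTopology G τ)
    (hτ : ∀ a b : G, @Continuous G G τ τ (fun x => a * x * b)) : A.Countable := by
  obtain ⟨D, rfl, hD⟩ := hA
  apply Set.countable_iUnion
  intro n
  let _ := τ
  have := h2
  have h3 : DiscreteTopology (D n) := by
    constructor
    apply le_antisymm _ bot_le
    have h4 : TopologicalSpace.induced (Subtype.val : D n → G) (semiZariski G) = ⊥ :=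
      (hD n).eq_bot
    rw [← h4]
    exact induced_mono (le_semiZariski τ hT2 hτ)
  exact Set.countable_coe_iff.1 (countable_of_Lindelof_of_discrete)

end group

end Pool.Agent.R881.SemiZariski
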