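import Mathlib
import Pool.Agent.R881.SemiZariski

/-!
The group of finitely supported permutations of `ℕ` and its semi-Zariski topology.
-/

open Filter Topology TopologicalSpace
open Pool.Agent.R881.SemiZariski

namespace Pool.Agent.R881.FSym

/-- The finitely supported permutations of `ℕ`. -/
def FSym : Subgroup (Equiv.Perm ℕ) where
  carrier := {f | {x | f x ≠ x}.Finite}
  one_mem' := by simp
  mul_mem' := by
    intro f g hf hg
    refine (hf.union hg).subset ?_
    intro x hx
    by_contra h
    simp only [Set.mem_union, Set.mem_setOf_eq, not_or, not_not] at h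
    apply hx
    rw [Equiv.Perm.mul_apply, h.2, h.1]
  inv_mem' := by
    intro f hf
    refine Set.Finite.subset hf ?_
    intro x hx h
    apply hx
    rw [Equiv.Perm.inv_eq_iff_eq]
    exact h.symm

theorem exists_bound (f : FSym) : ∃ M : ℕ, ∀ p, M ≤ p → f.1 p = p := by
  obtain ⟨M, hM⟩ := f.2.bddAbove
  refine ⟨M + 1, fun p hp => ?_⟩
  by_contra h
  have := hM h
  omega

/-- Transpositions. -/
def sw (p q : ℕ) : FSym := ⟨Equiv.swap p q, by
  refine (Set.toFinite {p, q}).subset ?_
  intro x hx
  by_contra h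
  simp only [Set.mem_insert_iff, Set.mem_singleton_iff, not_or] at h
  exact hx (Equiv.swap_apply_of_ne_of_ne h.1 h.2)⟩

theorem comm_sw (f : FSym) (p q : ℕ) (hp : f.1 p = p) (hq : f.1 q = q) :
    f * sw p q = sw p q * f := by
  apply Subtype.ext
  show f.1 * Equiv.swap p q = Equiv.swap p q * f.1
  rw [Equiv.mul_swap_eq_swap_mul, hp, hq]

theorem fix_of_comm (g : FSym) (p q : ℕ) (hq : q ≠ p) (hq' : q ≠ g.1 p)
    (h : g * sw p q = sw p q * g) : g.1 p = p := by
  by_contra hp
  have h1 : (g * sw p q).1 p = (sw p q * g).1 p := by rw [h]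
  have h2 : (g * sw p q).1 p = g.1 q := by
    show g.1 (Equiv.swap p q p) = _
    rw [Equiv.swap_apply_left]
  have h3 : (sw p q * g).1 p = g.1 p := by
    show Equiv.swap p q (g.1 p) = _
    rw [Equiv.swap_apply_of_ne_of_ne hp hq'.symm]
  rw [h2, h3] at h1
  exact hq (g.1.injective h1)

theorem finite_supported (M : ℕ) : {g : FSym | ∀ p, M ≤ p → g.1 p = p}.Finite := by
  have h1 : {h : Fin M → ℕ | ∀ i, h i ∈ Set.Iio M}.Finite :=
    Set.Finite.pi' (fun _ => Set.finite_Iio M)
  refine Set.Finite.of_finite_image (f := fun g : FSym => fun i : Fin M => g.1 i) (h1.subset ?_) ?_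
  · rintro _ ⟨g, hg, rfl⟩ i
    show g.1 i < M
    by_contra h
    have h2 := hg _ (not_lt.1 h)
    have h3 := g.1.injective h2
    have := i.2
    omega
  · intro g hg h hh hgh
    apply Subtype.ext
    ext p
    by_cases hp : p < M
    · exact congrFun hgh ⟨p, hp⟩
    · rw [hg p (not_lt.1 hp), hh p (not_lt.1 hp)]

theorem fdc : FiniteDoubleCentralizers FSym := by
  intro F hF
  have h1 : ∃ M : ℕ, ∀ f ∈ F, ∀ p, M ≤ p → f.1 p = p := by
    induction F, hF using Set.Finite.induction_on with
    | empty => exact ⟨0, fun f hf => absurd hf (Set.notMem_empty f)⟩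
    | insert _ _ ih =>
      obtain ⟨M, hM⟩ := ih
      rename_i a s _ _
      obtain ⟨M', hM'⟩ := exists_bound a
      refine ⟨max M M', ?_⟩
      rintro f (rfl | hf) p hp
      · exact hM' p (le_trans (le_max_right _ _) hp)
      · exact hM f hf p (le_trans (le_max_left _ _) hp)
  obtain ⟨M, hM⟩ := h1
  refine (finite_supported M).subset ?_
  intro g hg p hp
  let q := M + p + g.1 p + 1
  have hq : M ≤ q := by omega
  refine fix_of_comm g p q (by omega) (by omega) ?_
  have h2 : sw p q ∈ Set.centralizer F := by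
    intro f hf
    exact comm_sw f p q (hM f hf p hp) (hM f hf q hq)
  exact (hg _ h2).symm

/-- The involution exchanging `i` and `N + i` for `i < N`, `i ≠ x0`. -/
def sfun (x0 N i : ℕ) : ℕ :=
  if i < N then (if i = x0 then i else N + i)
  else if i < 2 * N then (if i = N + x0 then i else i - N) else i

theorem sfun_invol (x0 N : ℕ) : Function.Involutive (sfun x0 N) := by
  intro i
  simp only [sfun]
  split_ifs <;> omega

/-- The involution as an element of `FSym`. -/
def s (x0 N : ℕ) : FSym := ⟨(sfun_invol x0 N).toPerm, by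
  refine (Set.finite_Iio (2 * N)).subset ?_
  intro i hi
  by_contra h
  apply hi
  show sfun x0 N i = i
  simp only [Set.mem_Iio, not_lt] at h
  simp only [sfun]
  split_ifs <;> omega⟩

theorem s_apply (x0 N i : ℕ) : (s x0 N).1 i = sfun x0 N i := rfl

theorem s_fix (x0 N : ℕ) (h : x0 < N) : (s x0 N).1 x0 = x0 := by
  rw [s_apply]
  simp only [sfun]
  split_ifs <;> omega

/-- The involutions `s x0 N` converge to each point of the group. -/
theorem tendsto_s (x0 : ℕ) (f : FSym) :
    Tendsto (s x0) atTop (@nhds FSym (semiZariski FSym) f) := by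
  apply tendsto_semiZariski
  · intro c
    obtain ⟨M, hM⟩ := exists_bound c
    filter_upwards [eventually_ge_atTop (M + 2)] with N hN h
    obtain ⟨i, hi, hi'⟩ : ∃ i, i < N ∧ i ≠ x0 := by
      by_cases h0 : x0 = 0
      · exact ⟨1, by omega, by omega⟩
      · exact ⟨0, by omega, fun h => h0 h.symm⟩
    have h1 : c.1 (N + i) = N + i := hM _ (by omega)
    rw [← h, s_apply] at h1
    simp only [sfun] at h1
    split_ifs at h1 <;> omega
  · intro β γ hβγ
    by_cases hβ : β = 1
    · subst hβ
      filter_upwards with N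
      simpa using hβγ
    · obtain ⟨p, hp, hp0⟩ : ∃ p, β.1 p ≠ p ∧ p ≠ x0 := by
        have h1 : ∃ p, β.1 p ≠ p := by
          by_contra h
          push Not at h
          apply hβ
          apply Subtype.ext
          ext p
          exact h p
        obtain ⟨p, hp⟩ := h1
        by_cases h2 : p = x0
        · refine ⟨β.1 p, fun h3 => hp (β.1.injective h3), ?_⟩
          rw [← h2]
          exact hp
        · exact ⟨p, hp, h2⟩
      obtain ⟨M, hM⟩ := exists_bound γ
      filter_upwards [eventually_ge_atTop (M + p + β.1 p + 1)] with N hN h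
      have h1 : (s x0 N * β * (s x0 N)⁻¹ : FSym).1 ((s x0 N).1 p) = (s x0 N).1 (β.1 p) := by
        show (s x0 N).1 (β.1 ((s x0 N).1⁻¹ ((s x0 N).1 p))) = _
        simp
      rw [h] at h1
      have h2 : (s x0 N).1 p = N + p := by
        rw [s_apply]
        simp only [sfun]
        split_ifs <;> omega
      have h3 : γ.1 ((s x0 N).1 p) = (s x0 N).1 p := hM _ (by omega)
      rw [h3] at h1
      exact hp ((s x0 N).1.injective h1.symm)

theorem ne_one_of (f : FSym) (p : ℕ) (h : f.1 p ≠ p) : f ≠ 1 := by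
  rintro rfl
  exact h rfl

/-- The double centralizer of an involution `s` is `{1, s}`. -/
theorem cc_invol (t : FSym) (ht : ∀ p, t.1 (t.1 p) = p) (g : FSym)
    (hg : g ∈ Set.centralizer (Set.centralizer {t})) : g = 1 ∨ g = t := by
  have mem : ∀ h : FSym, t * h = h * t → g * h = h * g := by
    intro h hh
    have : h ∈ Set.centralizer {t} := by
      rintro _ rfl
      exact hh
    exact (hg h this).symm
  have hgt : ∀ p, g.1 (t.1 p) = t.1 (g.1 p) := by
    intro p
    have h1 := mem t rfl
    exact congrArg (fun k : FSym => k.1 p) h1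
  -- fixed points of `t` are fixed points of `g`
  have hfix : ∀ p, t.1 p = p → g.1 p = p := by
    intro p hp
    obtain ⟨M, hM⟩ := exists_bound t
    let q := M + p + g.1 p + 1
    exact fix_of_comm g p q (by omega) (by omega)
      (mem _ (comm_sw t p q hp (hM q (by omega))))
  -- moved points
  have hmov : ∀ p, g.1 p = p ∨ g.1 p = t.1 p := by
    intro p
    by_cases hp : t.1 p = p
    · exact Or.inl (hfix p hp)
    · by_contra h
      push Not at h
      have h1 : t * sw p (t.1 p) = sw p (t.1 p) * t := by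
        apply Subtype.ext
        show t.1 * Equiv.swap p (t.1 p) = Equiv.swap p (t.1 p) * t.1
        rw [Equiv.mul_swap_eq_swap_mul, ht, Equiv.swap_comm]
      have h2 := fix_of_comm g p (t.1 p) hp h.2.symm (mem _ h1)
      exact h.1 h2
  by_contra hcon
  push Not at hcon
  obtain ⟨hne1, hnet⟩ := hcon
  obtain ⟨p, hp⟩ : ∃ p, g.1 p ≠ p := by
    by_contra h
    push Not at h
    exact hne1 (Subtype.ext (Equiv.ext h))
  obtain ⟨q, hq⟩ : ∃ q, g.1 q ≠ t.1 q := by
    by_contra h
    push Not at h
    exact hnet (Subtype.ext (Equiv.ext h))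
  have hp' : g.1 p = t.1 p := (hmov p).resolve_left hp
  have hq' : g.1 q = q := (hmov q).resolve_right hq
  have htp : t.1 p ≠ p := fun h => hp (by rw [hp', h])
  have htq : t.1 q ≠ q := fun h => hq (by rw [hq', h])
  have hpq : p ≠ q := fun h => hp (by rw [h, hq'])
  have hptq : p ≠ t.1 q := by
    intro h
    apply hp
    rw [h, hgt, hq']
  have hqtp : q ≠ t.1 p := by
    intro h
    apply hptq
    rw [h, ht]
  have htptq : t.1 p ≠ t.1 q := fun h => hpq (t.1.injective h)
  -- the double transposition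
  have hdis : Equiv.swap p q * Equiv.swap (t.1 p) (t.1 q) =
      Equiv.swap (t.1 p) (t.1 q) * Equiv.swap p q := by
    rw [Equiv.mul_swap_eq_swap_mul, Equiv.swap_apply_of_ne_of_ne htp hqtp.symm,
      Equiv.swap_apply_of_ne_of_ne hptq.symm htq]
  have hcomm : t * (sw p q * sw (t.1 p) (t.1 q)) = (sw p q * sw (t.1 p) (t.1 q)) * t := by
    apply Subtype.ext
    show t.1 * (Equiv.swap p q * Equiv.swap (t.1 p) (t.1 q)) =
      (Equiv.swap p q * Equiv.swap (t.1 p) (t.1 q)) * t.1
    rw [← mul_assoc, Equiv.mul_swap_eq_swap_mul t.1 p q, mul_assoc,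
      Equiv.mul_swap_eq_swap_mul t.1 (t.1 p) (t.1 q), ht, ht, ← mul_assoc, ← hdis]
  have h1 := congrArg (fun k : FSym => k.1 p) (mem _ hcomm)
  have h2 : g.1 (Equiv.swap p q (Equiv.swap (t.1 p) (t.1 q) p)) =
      Equiv.swap p q (Equiv.swap (t.1 p) (t.1 q) (g.1 p)) := h1
  rw [Equiv.swap_apply_of_ne_of_ne htp.symm hptq, Equiv.swap_apply_left, hq', hp',
    Equiv.swap_apply_left, Equiv.swap_apply_of_ne_of_ne hptq.symm htq] at h2
  exact htq h2.symm

theorem s_mem_centLE (x0 N : ℕ) : s x0 N ∈ centLE FSym 2 := by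
  show (Set.centralizer (Set.centralizer {s x0 N})).encard ≤ 2
  have h : Set.centralizer (Set.centralizer {s x0 N}) ⊆ {1, s x0 N} := by
    intro g hg
    have := cc_invol (s x0 N) (fun p => sfun_invol x0 N p) g hg
    exact this
  refine (Set.encard_le_encard h).trans ?_
  refine (Set.encard_insert_le _ _).trans ?_
  rw [Set.encard_singleton]
  exact le_of_eq one_add_one_eq_two

/-- The 3-cycle `(0 1 2)`. -/
def c3 : FSym := sw 0 1 * sw 1 2

theorem c3_not_mem : c3 ∉ centLE FSym 2 := by
  intro h
  have h' : (Set.centralizer (Set.centralizer {c3})).encard ≤ 2 := h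
  have h0 : c3.1 0 = 1 := by
    show Equiv.swap 0 1 (Equiv.swap 1 2 0) = 1
    decide
  have h1 : c3.1 1 = 2 := by
    show Equiv.swap 0 1 (Equiv.swap 1 2 1) = 2
    decide
  have hsub : ({1, c3, c3 * c3} : Set FSym) ⊆ Set.centralizer (Set.centralizer {c3}) := by
    rintro g (rfl | rfl | rfl) k hk
    · rw [mul_one, one_mul]
    · exact (hk c3 rfl).symm
    · have h2 : c3 * k = k * c3 := hk c3 rfl
      rw [← mul_assoc, ← h2, mul_assoc, ← h2, mul_assoc]
  have hcard : ({1, c3, c3 * c3} : Set FSym).encard = 3 := by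
    have e1 : c3.1 0 ≠ 0 := by rw [h0]; decide
    have e2 : (c3 * c3).1 0 = 2 := by
      show c3.1 (c3.1 0) = 2
      rw [h0, h1]
    have n1 : (1 : FSym) ≠ c3 := (ne_one_of c3 0 e1).symm
    have n2 : (1 : FSym) ≠ c3 * c3 := (ne_one_of (c3 * c3) 0 (by rw [e2]; decide)).symm
    have n3 : c3 ≠ c3 * c3 := by
      intro h3
      have : c3.1 0 = (c3 * c3).1 0 := by rw [← h3]
      rw [h0, e2] at this
      omega
    rw [Set.encard_insert_of_notMem, Set.encard_pair n3]
    · rfl
    · rintro (h | h)
      · exact n1 h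
      · exact n2 h
  have := (Set.encard_le_encard hsub).trans h'
  rw [hcard] at this
  exact absurd this (by decide)

theorem not_closed : ¬ @IsClosed FSym (semiZariski FSym) (centLE FSym 2) := by
  intro h
  let _ := semiZariski FSym
  exact c3_not_mem (h.mem_of_tendsto (tendsto_s 0 c3)
    (Filter.Eventually.of_forall (fun N => s_mem_centLE 0 N)))

end Pool.Agent.R881.FSym
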