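import Mathlib

/-!
Matrices `(3, 4X; -4/X, 3)/5` for algebraically independent `X` generate a free group: reduced words
are nonzero modulo `5`.
-/

open MvPolynomial Matrix

namespace Pool.Agent.R881.FreeMat

variable {I : Type*}

instance fact5 : Fact (Nat.Prime 5) := ⟨by norm_num⟩

section poly

variable (k : Type*) [CommRing k]

/-- The letters. -/
noncomputable def B (x : I × Bool) : Matrix (Fin 2) (Fin 2) (MvPolynomial I k) :=
  if x.2 then !![3 * X x.1, 4 * X x.1 ^ 2; -4, 3 * X x.1]
  else !![3 * X x.1, -4 * X x.1 ^ 2; 4, 3 * X x.1]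

end poly

/-- Column vector of a letter modulo 5. -/
noncomputable def u (x : I × Bool) : Fin 2 → MvPolynomial I (ZMod 5) :=
  if x.2 then ![- X x.1, 3] else ![X x.1, 3]

/-- Row vector of a letter modulo 5. -/
noncomputable def v (x : I × Bool) : Fin 2 → MvPolynomial I (ZMod 5) :=
  if x.2 then ![-3, X x.1] else ![3, X x.1]

theorem five : (5 : MvPolynomial I (ZMod 5)) = 0 := by
  have : ((5 : ℕ) : MvPolynomial I (ZMod 5)) = 0 := CharP.cast_eq_zero _ 5
  exact_mod_cast this

theorem B_eq (x : I × Bool) : B (ZMod 5) x = vecMulVec (u x) (v x) := by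
  have h5 := five (I := I)
  unfold B u v
  split_ifs
  · refine Matrix.ext fun i j => ?_
    fin_cases i <;> fin_cases j <;> simp [vecMulVec_apply]
    · ring
    · linear_combination (X x.1 ^ 2) * h5
    · linear_combination (-1) * h5
  · refine Matrix.ext fun i j => ?_
    fin_cases i <;> fin_cases j <;> simp [vecMulVec_apply]
    · ring
    · linear_combination (-X x.1 ^ 2) * h5
    · linear_combination (-1) * h5

theorem u_ne (x : I × Bool) : u x ≠ 0 := by
  intro h
  have h1 := congrFun h 1
  have h2 : (3 : MvPolynomial I (ZMod 5)) = 0 := by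
    unfold u at h1
    split_ifs at h1 <;> simpa using h1
  have h3 : (1 : MvPolynomial I (ZMod 5)) = 0 := by
    linear_combination 2 * h2 - five (I := I)
  exact one_ne_zero h3

theorem v_ne (x : I × Bool) : v x ≠ 0 := by
  intro h
  have h1 := congrFun h 1
  have h2 : (X x.1 : MvPolynomial I (ZMod 5)) = 0 := by
    unfold v at h1
    split_ifs at h1 <;> simpa using h1
  exact X_ne_zero _ h2

theorem dot_ne (x y : I × Bool) (h : x.1 = y.1 → x.2 = y.2) : v x ⬝ᵥ u y ≠ 0 := by
  classical
  have h5 := five (I := I)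
  have h3 : (3 : MvPolynomial I (ZMod 5)) ≠ 0 := by
    intro h2
    have h3 : (1 : MvPolynomial I (ZMod 5)) = 0 := by
      linear_combination 2 * h2 - five (I := I)
    exact one_ne_zero h3
  have hX : ∀ i j : I, i ≠ j → (X i : MvPolynomial I (ZMod 5)) ≠ X j := by
    intro i j hij h
    exact hij (X_injective h)
  have hX' : ∀ i j : I, i ≠ j → (X i : MvPolynomial I (ZMod 5)) + X j ≠ 0 := by
    intro i j hij h
    have h6 := congrArg (coeff (Finsupp.single i 1)) h
    have h7 : Finsupp.single j 1 ≠ (Finsupp.single i 1 : I →₀ ℕ) := by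
      intro h7
      have := Finsupp.single_left_injective (one_ne_zero) h7
      exact hij this.symm
    rw [coeff_add, coeff_X' i, coeff_X' j, if_pos rfl, if_neg h7, add_zero, coeff_zero] at h6
    exact one_ne_zero h6
  have key : v x ⬝ᵥ u y = 3 * (X x.1 + (if x.2 = y.2 then 1 else -1) * X y.1) := by
    unfold u v
    rcases Bool.eq_false_or_eq_true x.2 with hx | hx <;>
      rcases Bool.eq_false_or_eq_true y.2 with hy | hy <;>
      simp [hx, hy, dotProduct, Fin.sum_univ_two] <;> ring
  rw [key]
  apply mul_ne_zero h3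
  by_cases h1 : x.1 = y.1
  · rw [if_pos (h h1), h1, one_mul]
    intro h2
    have h6 : (2 : MvPolynomial I (ZMod 5)) * X y.1 = 0 := by linear_combination h2
    have h7 : (X y.1 : MvPolynomial I (ZMod 5)) = 0 := by
      linear_combination 3 * h6 - X y.1 * h5
    exact X_ne_zero _ h7
  · split_ifs
    · rw [one_mul]
      exact hX' _ _ h1
    · intro h2
      exact hX _ _ h1 (by linear_combination h2)

theorem prod_form (L : List (I × Bool)) : ∀ x : I × Bool, FreeGroup.IsReduced (x :: L) →
    ∃ w : Fin 2 → MvPolynomial I (ZMod 5), w ≠ 0 ∧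
      ((x :: L).map (B (ZMod 5))).prod = vecMulVec (u x) w := by
  induction L with
  | nil =>
    intro x _
    exact ⟨v x, v_ne x, by simp [B_eq]⟩
  | cons y L ih =>
    intro x hx
    rw [FreeGroup.isReduced_cons_cons] at hx
    obtain ⟨w, hw, hprod⟩ := ih y hx.2
    refine ⟨(v x ⬝ᵥ u y) • w, ?_, ?_⟩
    · intro h
      rcases smul_eq_zero.1 h with h1 | h1
      · exact dot_ne x y hx.1 h1
      · exact hw h1
    · rw [List.map_cons, List.prod_cons, hprod, B_eq, vecMulVec_mul_vecMulVec]

theorem prod_ne_zero (L : List (I × Bool)) (hL : L ≠ []) (hr : FreeGroup.IsReduced L) :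
    (L.map (B (ZMod 5))).prod ≠ 0 := by
  cases L with
  | nil => exact absurd rfl hL
  | cons x L =>
    obtain ⟨w, hw, hprod⟩ := prod_form L x hr
    rw [hprod]
    intro h
    obtain ⟨i, hi⟩ := Function.ne_iff.1 (u_ne x)
    obtain ⟨j, hj⟩ := Function.ne_iff.1 hw
    have := congrFun (congrFun h i) j
    rw [vecMulVec_apply] at this
    rcases mul_eq_zero.1 this with h1 | h1
    · exact hi h1
    · exact hj h1

theorem map_B (x : I × Bool) :
    (B ℤ x).map (MvPolynomial.map (Int.castRingHom (ZMod 5))) = B (ZMod 5) x := by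
  unfold B
  split_ifs
  · ext i j
    fin_cases i <;> fin_cases j <;> simp
  · ext i j
    fin_cases i <;> fin_cases j <;> simp

/-- Over `ℤ`: the product of the letters of a nonempty reduced word is not `5 p` times the
identity. -/
theorem prod_ne_smul (L : List (I × Bool)) (hL : L ≠ []) (hr : FreeGroup.IsReduced L)
    (p : MvPolynomial I ℤ) : (L.map (B ℤ)).prod ≠ (5 * p) • (1 : Matrix (Fin 2) (Fin 2) _) := by
  intro h
  apply prod_ne_zero L hL hr
  have h1 := congrArg (fun M : Matrix (Fin 2) (Fin 2) (MvPolynomial I ℤ) =>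
    (MvPolynomial.map (Int.castRingHom (ZMod 5))).mapMatrix M) h
  simp only [map_list_prod, List.map_map] at h1
  have h2 : (L.map (⇑(MvPolynomial.map (Int.castRingHom (ZMod 5))).mapMatrix ∘ B ℤ)) =
      L.map (B (ZMod 5)) := by
    apply List.map_congr_left
    intro x _
    exact map_B x
  rw [h2] at h1
  rw [h1]
  ext i j
  rw [RingHom.mapMatrix_apply, Matrix.map_apply, Matrix.smul_apply, smul_eq_mul, map_mul, map_mul]
  have h5 := five (I := I)
  have h6 : (MvPolynomial.map (Int.castRingHom (ZMod 5))) (5 : MvPolynomial I ℤ) = 0 := by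
    rw [map_ofNat]
    exact h5
  rw [h6]
  simp

end Pool.Agent.R881.FreeMat
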