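import Mathlib
import Pool.Agent.R881.FreeMat

/-!
A free group of unit quaternions of rank continuum.
-/

open MvPolynomial Matrix Cardinal
open scoped Quaternion

namespace Pool.Agent.R881.FreeQuat

open Pool.Agent.R881.FreeMat

/-- The matrix of a quaternion. -/
noncomputable def ρ (x : ℍ[ℝ]) : Matrix (Fin 2) (Fin 2) ℂ :=
  !![(x.re : ℂ) + x.imI * Complex.I, x.imJ + x.imK * Complex.I;
    -x.imJ + x.imK * Complex.I, x.re - x.imI * Complex.I]

theorem ρ_mul (x y : ℍ[ℝ]) : ρ (x * y) = ρ x * ρ y := by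
  have hI : Complex.I * Complex.I = -1 := Complex.I_mul_I
  unfold ρ
  refine Matrix.ext fun i j => ?_
  fin_cases i <;> fin_cases j <;>
    simp [Matrix.mul_apply, Fin.sum_univ_two, Quaternion.re_mul, Quaternion.imI_mul,
      Quaternion.imJ_mul, Quaternion.imK_mul]
  · linear_combination (-(x.imI : ℂ) * y.imI - x.imK * y.imK) * hI
  · linear_combination (-(x.imI : ℂ) * y.imK + x.imK * y.imI) * hI
  · linear_combination (-(x.imK : ℂ) * y.imI + x.imI * y.imK) * hI
  · linear_combination (-(x.imI : ℂ) * y.imI - x.imK * y.imK) * hI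

theorem ρ_one : ρ 1 = 1 := by
  unfold ρ
  refine Matrix.ext fun i j => ?_
  fin_cases i <;> fin_cases j <;> simp

/-- The quaternion `3/5 + (4/5) l j`. -/
noncomputable def q (l : ℂ) : ℍ[ℝ] := ⟨3 / 5, 0, 4 / 5 * l.re, 4 / 5 * l.im⟩

theorem normSq_q (l : ℂ) (hl : ‖l‖ = 1) : Quaternion.normSq (q l) = 1 := by
  have h1 : l.re * l.re + l.im * l.im = 1 := by
    have := Complex.normSq_eq_norm_sq l
    rw [hl, Complex.normSq_apply] at this
    rw [this]; norm_num
  rw [Quaternion.normSq_def']
  unfold q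
  simp only
  linear_combination (16 / 25 : ℝ) * h1

/-- The unit quaternion. -/
noncomputable def qu (l : ℂ) (hl : ‖l‖ = 1) : ℍ[ℝ]ˣ where
  val := q l
  inv := star (q l)
  val_inv := by rw [Quaternion.self_mul_star, normSq_q l hl]; simp
  inv_val := by rw [Quaternion.star_mul_self, normSq_q l hl]; simp

theorem star_re (x : ℍ[ℝ]) : (star x).re = x.re := by simp
theorem star_imI (x : ℍ[ℝ]) : (star x).imI = - x.imI := by simp
theorem star_imJ (x : ℍ[ℝ]) : (star x).imJ = - x.imJ := by simp
theorem star_imK (x : ℍ[ℝ]) : (star x).imK = - x.imK := by simp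

variable {I : Type*}

theorem conj_eq (l : ℂ) (hl : ‖l‖ = 1) : l * (l.re - l.im * Complex.I) = 1 := by
  have h1 : l * (starRingEnd ℂ) l = 1 := by
    rw [Complex.mul_conj, Complex.normSq_eq_norm_sq, hl]; norm_num
  have h2 : (starRingEnd ℂ) l = l.re - l.im * Complex.I := by
    apply Complex.ext <;> simp
  rwa [h2] at h1

theorem letter_true (l : ℂ) (hl : ‖l‖ = 1) :
    !![3 * l, 4 * l ^ 2; -4, 3 * l] = (5 * l) • ρ (q l) := by
  have h1 := conj_eq l hl
  have h3 : l = l.re + l.im * Complex.I := (Complex.re_add_im _).symm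
  unfold ρ
  refine Matrix.ext fun i j => ?_
  fin_cases i <;> fin_cases j <;> simp [q]
  · ring
  · linear_combination (4 * l) * h3
  · linear_combination 4 * h1
  · ring

theorem letter_false (l : ℂ) (hl : ‖l‖ = 1) :
    !![3 * l, -4 * l ^ 2; 4, 3 * l] = (5 * l) • ρ (star (q l)) := by
  have h1 := conj_eq l hl
  have h3 : l = l.re + l.im * Complex.I := (Complex.re_add_im _).symm
  unfold ρ
  simp only [star_re, star_imI, star_imJ, star_imK]
  refine Matrix.ext fun i j => ?_
  fin_cases i <;> fin_cases j <;> simp [q]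
  · ring
  · linear_combination (-4 * l) * h3
  · linear_combination (-4) * h1
  · ring

theorem map_letter (lam : I → ℂ) (hn : ∀ i, ‖lam i‖ = 1) (x : I × Bool) :
    (B ℤ x).map (aeval lam) = (5 * lam x.1) •
      ρ ((cond x.2 (qu (lam x.1) (hn x.1)) (qu (lam x.1) (hn x.1))⁻¹ : ℍ[ℝ]ˣ) : ℍ[ℝ]) := by
  obtain ⟨i, b⟩ := x
  cases b
  · have h4 : ((cond false (qu (lam i) (hn i)) (qu (lam i) (hn i))⁻¹ : ℍ[ℝ]ˣ) : ℍ[ℝ]) =
        star (q (lam i)) := rfl
    show (B ℤ (i, false)).map (aeval lam) = (5 * lam i) • ρ _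
    rw [h4, ← letter_false _ (hn i)]
    unfold B
    simp only [Bool.false_eq_true, if_false]
    refine Matrix.ext fun a b => ?_
    fin_cases a <;> fin_cases b <;> simp
  · have h4 : ((cond true (qu (lam i) (hn i)) (qu (lam i) (hn i))⁻¹ : ℍ[ℝ]ˣ) : ℍ[ℝ]) =
        q (lam i) := rfl
    show (B ℤ (i, true)).map (aeval lam) = (5 * lam i) • ρ _
    rw [h4, ← letter_true _ (hn i)]
    unfold B
    simp only [if_true]
    refine Matrix.ext fun a b => ?_
    fin_cases a <;> fin_cases b <;> simp

theorem map_word (lam : I → ℂ) (hn : ∀ i, ‖lam i‖ = 1) (L : List (I × Bool)) :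
    ((L.map (B ℤ)).prod).map (aeval lam) = (aeval lam (L.map (fun x => (5 * X x.1 : MvPolynomial I ℤ))).prod) •
      ρ ((FreeGroup.lift (fun i => qu (lam i) (hn i)) (FreeGroup.mk L) : ℍ[ℝ]ˣ) : ℍ[ℝ]) := by
  induction L with
  | nil =>
    simp only [List.map_nil, List.prod_nil, map_one, FreeGroup.lift_mk, Units.val_one, ρ_one,
      one_smul]
    exact Matrix.map_one _ (map_zero _) (map_one _)
  | cons x L ih =>
    rw [FreeGroup.lift_mk] at ih ⊢
    rw [List.map_cons, List.prod_cons, List.map_cons, List.prod_cons, List.map_cons,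
      List.prod_cons, Units.val_mul, ρ_mul, Matrix.map_mul, ih, map_letter lam hn x, map_mul]
    have h1 : (aeval lam) (5 * X x.1 : MvPolynomial I ℤ) = 5 * lam x.1 := by
      rw [map_mul, aeval_X, map_ofNat]
    rw [h1, Matrix.smul_mul, Matrix.mul_smul, smul_smul]

theorem free (lam : I → ℂ) (hlam : AlgebraicIndependent ℤ lam) (hn : ∀ i, ‖lam i‖ = 1)
    (w : FreeGroup I) (hw : FreeGroup.lift (fun i => qu (lam i) (hn i)) w = 1) : w = 1 := by
  classical
  by_contra hne
  have hL : w.toWord ≠ [] := fun h => hne (FreeGroup.toWord_eq_nil_iff.1 h)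
  have h1 := map_word lam hn w.toWord
  rw [FreeGroup.mk_toWord, hw, Units.val_one, ρ_one] at h1
  obtain ⟨p, hp⟩ : ∃ p : MvPolynomial I ℤ,
      (w.toWord.map (fun x => (5 * X x.1 : MvPolynomial I ℤ))).prod = 5 * p := by
    cases h : w.toWord with
    | nil => exact absurd h hL
    | cons x L =>
      refine ⟨X x.1 * (L.map (fun x => (5 * X x.1 : MvPolynomial I ℤ))).prod, ?_⟩
      rw [List.map_cons, List.prod_cons, mul_assoc]
  rw [hp] at h1
  apply prod_ne_smul w.toWord hL FreeGroup.isReduced_toWord p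
  refine Matrix.ext fun i j => ?_
  apply hlam
  have h2 := congrFun (congrFun h1 i) j
  rw [Matrix.map_apply] at h2
  rw [h2, Matrix.smul_apply, Matrix.smul_apply, smul_eq_mul, smul_eq_mul, map_mul]
  congr 1
  by_cases hij : i = j
  · subst hij; simp
  · simp [Matrix.one_apply_ne hij]

/-- There is an algebraically independent family of complex numbers of modulus `1` indexed by any
type of cardinality at most continuum. -/
theorem exists_family (J : Type) (hJ : #J ≤ 𝔠) :
    ∃ lam : J → ℂ, AlgebraicIndependent ℤ lam ∧ ∀ j, ‖lam j‖ = 1 := by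
  let S : Set ℂ := {z | ‖z‖ = 1}
  have hIS : Complex.I ∈ S := by simp [S]
  have halg : ∀ s ∈ S, IsAlgebraic (Algebra.adjoin ℤ S) s := by
    intro s hs
    exact isAlgebraic_algebraMap (R := Algebra.adjoin ℤ S) (A := ℂ)
      ⟨s, Algebra.subset_adjoin hs⟩
  have hreal : ∀ a : ℝ, IsAlgebraic (Algebra.adjoin ℤ S) (a : ℂ) := by
    intro a
    let d : ℂ := 1 - a * Complex.I
    have hd : d ≠ 0 := by
      intro h
      have := congrArg Complex.re h
      simp [d] at this
    let l : ℂ := (1 + a * Complex.I) / d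
    have hl : l ∈ S := by
      show ‖l‖ = 1
      have h1 : ‖(1 + a * Complex.I : ℂ)‖ = ‖d‖ := by
        have : (1 + a * Complex.I : ℂ) = (starRingEnd ℂ) d := by
          simp [d]
        rw [this, Complex.norm_conj]
      rw [norm_div, h1, div_self (norm_ne_zero_iff.2 hd)]
    have hl1 : (1 : ℂ) + l ≠ 0 := by
      intro h
      have h1 : d + (1 + a * Complex.I) = 0 := by
        have : (1 + l) * d = 0 := by rw [h, zero_mul]
        rw [add_mul, one_mul, div_mul_cancel₀ _ hd] at this
        exact this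
      have := congrArg Complex.re h1
      simp [d] at this
    have h2 : (a : ℂ) = (l - 1) * (Complex.I * (1 + l))⁻¹ := by
      rw [eq_mul_inv_iff_mul_eq₀ (mul_ne_zero Complex.I_ne_zero hl1)]
      have h3 : l * d = 1 + a * Complex.I := div_mul_cancel₀ _ hd
      have h4 : l * (1 - a * Complex.I) = 1 + a * Complex.I := h3
      linear_combination (-1) * h4
    rw [h2]
    have hone : IsAlgebraic (Algebra.adjoin ℤ S) (1 : ℂ) := isAlgebraic_one
    exact ((halg l hl).sub hone).mul
      ((((halg _ hIS).mul (hone.add (halg l hl)))).inv)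
  haveI : Algebra.IsAlgebraic (Algebra.adjoin ℤ S) ℂ := by
    constructor
    intro z
    rw [← Complex.re_add_im z]
    exact (hreal _).add ((hreal _).mul (halg _ hIS))
  obtain ⟨t, htS, ht⟩ := exists_isTranscendenceBasis_subset (R := ℤ) (A := ℂ) S
  have hcard : #t = 𝔠 := by
    have h1 := IsAlgClosed.cardinal_eq_cardinal_transcendence_basis_of_aleph0_lt (R := ℤ)
      (K := ℂ) ((↑) : t → ℂ) ht (by simp) (by rw [Cardinal.mk_complex]; exact aleph0_lt_continuum)
    simp only [Cardinal.lift_id] at h1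
    rw [← h1]
    exact Cardinal.mk_complex
  obtain ⟨f⟩ : Nonempty (J ↪ t) := by
    rw [← Cardinal.le_def, hcard]
    exact hJ
  exact ⟨fun j => (f j : ℂ), ht.1.comp f f.injective, fun j => htS (f j).2⟩

end Pool.Agent.R881.FreeQuat
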