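import Mathlib

open MeasureTheory Complex
open scoped Real ComplexConjugate Nat

namespace R881Fs

/-- Gaussian weight. -/
noncomputable def ga (w : ℂ) : ℂ := ((Real.exp (-‖w‖ ^ 2) / π : ℝ) : ℂ)

lemma int_base (N : ℕ) (s : ℝ) :
    Integrable (fun w : ℂ => ‖w‖ ^ N * Real.exp (s * ‖w‖) * Real.exp (-‖w‖ ^ 2)) := by
  have h0 : Integrable (fun w : ℂ => Real.exp (-(1 / 2) * ‖w‖ ^ 2)) := by
    have := GaussianFourier.integrable_cexp_neg_mul_sq_norm_add (V := ℂ) (b := (1 / 2 : ℂ))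
      (by norm_num) 0 (0 : ℂ)
    refine this.norm.congr (Filter.Eventually.of_forall fun w => ?_)
    simp only [Complex.norm_exp]
    congr 1
    have : (-(1 / 2 : ℂ) * (‖w‖ : ℂ) ^ 2 + 0 * inner ℝ (0 : ℂ) w) =
        ((-(1 / 2) * ‖w‖ ^ 2 : ℝ) : ℂ) := by push_cast; ring
    rw [this, Complex.ofReal_re]
  refine Integrable.mono' (h0.const_mul ((N ! : ℝ) * Real.exp ((s + 1) ^ 2 / 2))) (by fun_prop)
    (Filter.Eventually.of_forall fun w => ?_)
  have hr : 0 ≤ ‖w‖ := norm_nonneg w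
  rw [Real.norm_of_nonneg (by positivity)]
  have h1 : ‖w‖ ^ N ≤ (N ! : ℝ) * Real.exp ‖w‖ := by
    have := Real.pow_div_factorial_le_exp (‖w‖) hr N
    have hN : (0 : ℝ) < (N ! : ℝ) := by positivity
    rw [div_le_iff₀ hN] at this
    linarith [mul_comm (N ! : ℝ) (Real.exp ‖w‖)]
  calc ‖w‖ ^ N * Real.exp (s * ‖w‖) * Real.exp (-‖w‖ ^ 2)
      ≤ ((N ! : ℝ) * Real.exp ‖w‖) * Real.exp (s * ‖w‖) * Real.exp (-‖w‖ ^ 2) := by gcongr
    _ = (N ! : ℝ) * Real.exp (‖w‖ + s * ‖w‖ + -‖w‖ ^ 2) := by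
        rw [Real.exp_add, Real.exp_add]; ring
    _ ≤ (N ! : ℝ) * Real.exp ((s + 1) ^ 2 / 2 + -(1 / 2) * ‖w‖ ^ 2) := by
        refine mul_le_mul_of_nonneg_left (Real.exp_le_exp.2 ?_) (by positivity)
        nlinarith [sq_nonneg (s + 1 - ‖w‖)]
    _ = (N ! : ℝ) * Real.exp ((s + 1) ^ 2 / 2) * Real.exp (-(1 / 2) * ‖w‖ ^ 2) := by
        rw [Real.exp_add]; ring

lemma norm_ga (w : ℂ) : ‖ga w‖ = Real.exp (-‖w‖ ^ 2) / π := by
  unfold ga
  rw [Complex.norm_real, Real.norm_of_nonneg (by positivity)]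

lemma norm_exp_le (c w : ℂ) : ‖exp (c * w)‖ ≤ Real.exp (‖c‖ * ‖w‖) := by
  rw [Complex.norm_exp]
  apply Real.exp_le_exp.2
  calc (c * w).re ≤ ‖c * w‖ := Complex.re_le_norm _
    _ = ‖c‖ * ‖w‖ := norm_mul _ _

lemma cont_ga : Continuous ga := by unfold ga; fun_prop

lemma int_gen (a b : ℕ) (c z : ℂ) :
    Integrable (fun w : ℂ => w ^ a * (conj w) ^ b * exp (c * w) * exp (z * conj w) * ga w) := by
  refine Integrable.mono' ((int_base (a + b) (‖c‖ + ‖z‖)).div_const π) ?_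
    (Filter.Eventually.of_forall fun w => ?_)
  · have := cont_ga
    exact (by fun_prop : Continuous _).aestronglyMeasurable
  · rw [norm_mul, norm_mul, norm_mul, norm_mul, norm_pow, norm_pow, norm_ga, RCLike.norm_conj]
    have h1 := norm_exp_le c w
    have h2 := norm_exp_le z (conj w)
    rw [RCLike.norm_conj] at h2
    calc ‖w‖ ^ a * ‖w‖ ^ b * ‖exp (c * w)‖ * ‖exp (z * conj w)‖ * (Real.exp (-‖w‖ ^ 2) / π)
        ≤ ‖w‖ ^ a * ‖w‖ ^ b * Real.exp (‖c‖ * ‖w‖) * Real.exp (‖z‖ * ‖w‖)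
          * (Real.exp (-‖w‖ ^ 2) / π) := by gcongr
      _ = ‖w‖ ^ (a + b) * Real.exp ((‖c‖ + ‖z‖) * ‖w‖) * Real.exp (-‖w‖ ^ 2) / π := by
        rw [pow_add, add_mul, Real.exp_add]; ring

lemma orth_diag (N : ℕ) : ∫ w : ℂ, w ^ N * (conj w) ^ N * ga w = (N ! : ℂ) := by
  have h := Complex.integral_rpow_mul_exp_neg_rpow (p := 2) (q := 2 * N) (by norm_num)
    (by have : (0:ℝ) ≤ N := Nat.cast_nonneg N; linarith)
  have h1 : ∀ w : ℂ, w ^ N * (conj w) ^ N * ga w =
      ((‖w‖ ^ (2 * N : ℝ) * Real.exp (-‖w‖ ^ (2 : ℝ)) / π : ℝ) : ℂ) := by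
    intro w
    rw [← mul_pow, Complex.mul_conj, Complex.normSq_eq_norm_sq]
    unfold ga
    have : ‖w‖ ^ (2 * N : ℝ) = (‖w‖ ^ 2) ^ N := by
      rw [← pow_mul]
      exact_mod_cast Real.rpow_natCast ‖w‖ (2 * N)
    rw [this, Real.rpow_two]
    push_cast
    ring
  simp_rw [h1]
  rw [integral_complex_ofReal, integral_div, h]
  have : ((2 * N : ℝ) + 2) / 2 = N + 1 := by ring
  rw [this, Real.Gamma_nat_eq_factorial]
  have hpi : (π : ℝ) ≠ 0 := Real.pi_ne_zero
  have : 2 * π / 2 * (N ! : ℝ) / π = N ! := by field_simp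
  rw [this]; simp

lemma orth_off (i N : ℕ) (h : i ≠ N) : ∫ w : ℂ, w ^ i * (conj w) ^ N * ga w = 0 := by
  set k : ℤ := (i : ℤ) - N with hk
  have hk0 : (k : ℝ) ≠ 0 := by
    have : k ≠ 0 := by omega
    exact_mod_cast this
  set a : Circle := Circle.exp (π / k) with ha
  have hmp := (rotation a).measurePreserving
  have he : MeasurableEmbedding (rotation a) := (rotation a).toHomeomorph.measurableEmbedding
  have h1 := hmp.integral_comp he (fun w : ℂ => w ^ i * (conj w) ^ N * ga w)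
  have h2 : ∀ w : ℂ, (rotation a w) ^ i * (conj (rotation a w)) ^ N * ga (rotation a w) =
      - (w ^ i * (conj w) ^ N * ga w) := by
    intro w
    have hn : ga (rotation a w) = ga w := by
      unfold ga; rw [(rotation a).norm_map]
    rw [hn, rotation_apply, map_mul]
    have h3 : (a : ℂ) ^ i * (conj (a : ℂ)) ^ N = -1 := by
      have e1 : (a : ℂ) = exp ((π / k : ℝ) * I) := by rw [ha, Circle.coe_exp]
      rw [e1, ← Complex.exp_conj, ← Complex.exp_nat_mul, ← Complex.exp_nat_mul, ← Complex.exp_add]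
      have : (i : ℂ) * (((π / k : ℝ) : ℂ) * I) + (N : ℂ) * conj (((π / k : ℝ) : ℂ) * I) = π * I := by
        rw [map_mul, conj_I, Complex.conj_ofReal]
        have hkc : (k : ℂ) ≠ 0 := by exact_mod_cast hk0
        have hkk : (k : ℂ) = i - N := by rw [hk]; push_cast; ring
        push_cast
        rw [hkk] at hkc ⊢
        field_simp
        ring
      rw [this, Complex.exp_pi_mul_I]
    calc ((a : ℂ) * w) ^ i * (conj (a : ℂ) * conj w) ^ N * ga w
        = ((a : ℂ) ^ i * (conj (a : ℂ)) ^ N) * (w ^ i * (conj w) ^ N * ga w) := by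
          rw [mul_pow, mul_pow]; ring
      _ = _ := by rw [h3]; ring
  simp_rw [h2] at h1
  rw [integral_neg] at h1
  have : (2 : ℂ) * ∫ w : ℂ, w ^ i * (conj w) ^ N * ga w = 0 := by
    linear_combination -h1
  simpa using this

lemma orth (i N : ℕ) : ∫ w : ℂ, w ^ i * (conj w) ^ N * ga w = if i = N then (N ! : ℂ) else 0 := by
  split_ifs with h
  · subst h; exact orth_diag i
  · exact orth_off i N h

/-- series interchange in the holomorphic exponential -/
lemma moment_hasSum (j N : ℕ) (c : ℂ) :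
    HasSum (fun i : ℕ => (c ^ i / (i ! : ℂ)) * ∫ w : ℂ, w ^ (i + j) * (conj w) ^ N * ga w)
      (∫ w : ℂ, w ^ j * exp (c * w) * (conj w) ^ N * ga w) := by
  have key := hasSum_integral_of_dominated_convergence (μ := (volume : Measure ℂ))
    (F := fun (i : ℕ) (w : ℂ) => (c ^ i / (i ! : ℂ)) * (w ^ (i + j) * (conj w) ^ N * ga w))
    (f := fun w => w ^ j * exp (c * w) * (conj w) ^ N * ga w)
    (bound := fun i w => (‖c‖ * ‖w‖) ^ i / (i ! : ℝ) * (‖w‖ ^ (j + N) * Real.exp (-‖w‖ ^ 2) / π))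
    ?_ ?_ ?_ ?_ ?_
  · simpa [integral_const_mul] using key
  · intro i
    have := cont_ga
    exact (by fun_prop : Continuous _).aestronglyMeasurable
  · intro i
    refine Filter.Eventually.of_forall fun w => le_of_eq ?_
    simp only [norm_mul, norm_div, norm_pow, norm_ga, RCLike.norm_conj, Complex.norm_natCast]
    rw [mul_pow, pow_add, pow_add]; ring
  · refine Filter.Eventually.of_forall fun w => ?_
    exact (Real.summable_pow_div_factorial (‖c‖ * ‖w‖)).mul_right _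
  · have : (fun w : ℂ => ∑' i : ℕ, (‖c‖ * ‖w‖) ^ i / (i ! : ℝ) *
        (‖w‖ ^ (j + N) * Real.exp (-‖w‖ ^ 2) / π)) =
        fun w : ℂ => (‖w‖ ^ (j + N) * Real.exp (‖c‖ * ‖w‖) * Real.exp (-‖w‖ ^ 2)) / π := by
      funext w
      rw [tsum_mul_right]
      have := congrFun Real.exp_eq_exp_ℝ (‖c‖ * ‖w‖)
      rw [this, NormedSpace.exp_eq_tsum_div]
      ring
    rw [this]
    exact (int_base (j + N) ‖c‖).div_const π
  · refine Filter.Eventually.of_forall fun w => ?_
    have h := NormedSpace.expSeries_div_hasSum_exp (𝔸 := ℂ) (c * w)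
    rw [← Complex.exp_eq_exp_ℂ] at h
    have h2 := h.mul_right (w ^ j * (conj w) ^ N * ga w)
    rw [show (fun i : ℕ => (c ^ i / (i ! : ℂ)) * (w ^ (i + j) * (conj w) ^ N * ga w)) =
      fun i : ℕ => (c * w) ^ i / (i ! : ℂ) * (w ^ j * (conj w) ^ N * ga w) from
        funext fun i => by rw [mul_pow, pow_add]; ring,
      show w ^ j * exp (c * w) * (conj w) ^ N * ga w =
        exp (c * w) * (w ^ j * (conj w) ^ N * ga w) by ring]
    exact h2

lemma moment (j N : ℕ) (c : ℂ) :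
    ∫ w : ℂ, w ^ j * exp (c * w) * (conj w) ^ N * ga w = c ^ (N - j) * (N.descFactorial j : ℂ) := by
  refine (moment_hasSum j N c).unique ?_
  simp_rw [orth]
  by_cases hj : j ≤ N
  · have := hasSum_single (f := fun i : ℕ => (c ^ i / (i ! : ℂ)) *
      (if i + j = N then (N ! : ℂ) else 0)) (N - j) ?_
    · rw [if_pos (Nat.sub_add_cancel hj)] at this
      convert this using 1
      have h1 := Nat.factorial_mul_descFactorial hj
      have h2 : (((N - j) ! : ℕ) : ℂ) ≠ 0 := by exact_mod_cast Nat.factorial_ne_zero _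
      have h3 : (((N - j) ! : ℕ) : ℂ) * (N.descFactorial j : ℂ) = (N ! : ℂ) := by exact_mod_cast h1
      rw [← h3]; field_simp
    · intro i hi
      have : i + j ≠ N := by omega
      simp [this]
  · have h0 : N.descFactorial j = 0 := Nat.descFactorial_eq_zero_iff_lt.2 (by omega)
    rw [h0]
    have : (fun i : ℕ => (c ^ i / (i ! : ℂ)) * (if i + j = N then (N ! : ℂ) else 0)) = 0 := by
      funext i
      have : i + j ≠ N := by omega
      simp [this]
    rw [this, Nat.cast_zero, mul_zero]; exact hasSum_zero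

/-- series interchange in the antiholomorphic exponential -/
lemma T_hasSum (j l : ℕ) (c z : ℂ) :
    HasSum (fun n : ℕ => (z ^ n / (n ! : ℂ)) *
        ∫ w : ℂ, w ^ j * exp (c * w) * (conj w) ^ (n + l) * ga w)
      (∫ w : ℂ, w ^ j * exp (c * w) * (conj w) ^ l * exp (z * conj w) * ga w) := by
  have key := hasSum_integral_of_dominated_convergence (μ := (volume : Measure ℂ))
    (F := fun (n : ℕ) (w : ℂ) => (z ^ n / (n ! : ℂ)) *
      (w ^ j * exp (c * w) * (conj w) ^ (n + l) * ga w))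
    (f := fun w => w ^ j * exp (c * w) * (conj w) ^ l * exp (z * conj w) * ga w)
    (bound := fun n w => (‖z‖ * ‖w‖) ^ n / (n ! : ℝ) *
      (‖w‖ ^ (j + l) * Real.exp (‖c‖ * ‖w‖) * Real.exp (-‖w‖ ^ 2) / π))
    ?_ ?_ ?_ ?_ ?_
  · simpa [integral_const_mul] using key
  · intro i
    have := cont_ga
    exact Continuous.aestronglyMeasurable (by fun_prop)
  · intro i
    refine Filter.Eventually.of_forall fun w => ?_
    simp only [norm_mul, norm_div, norm_pow, norm_ga, RCLike.norm_conj, Complex.norm_natCast]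
    have h1 := norm_exp_le c w
    calc ‖z‖ ^ i / (i ! : ℝ) * (‖w‖ ^ j * ‖exp (c * w)‖ * ‖w‖ ^ (i + l) * (Real.exp (-‖w‖ ^ 2) / π))
        ≤ ‖z‖ ^ i / (i ! : ℝ) * (‖w‖ ^ j * Real.exp (‖c‖ * ‖w‖) * ‖w‖ ^ (i + l) *
          (Real.exp (-‖w‖ ^ 2) / π)) := by gcongr
      _ = _ := by rw [mul_pow, pow_add, pow_add]; ring
  · refine Filter.Eventually.of_forall fun w => ?_
    exact (Real.summable_pow_div_factorial (‖z‖ * ‖w‖)).mul_right _
  · have : (fun w : ℂ => ∑' i : ℕ, (‖z‖ * ‖w‖) ^ i / (i ! : ℝ) *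
        (‖w‖ ^ (j + l) * Real.exp (‖c‖ * ‖w‖) * Real.exp (-‖w‖ ^ 2) / π)) =
        fun w : ℂ => (‖w‖ ^ (j + l) * Real.exp ((‖c‖ + ‖z‖) * ‖w‖) * Real.exp (-‖w‖ ^ 2)) / π := by
      funext w
      rw [tsum_mul_right, add_mul, Real.exp_add]
      have := congrFun Real.exp_eq_exp_ℝ (‖z‖ * ‖w‖)
      rw [this, NormedSpace.exp_eq_tsum_div]
      ring
    rw [this]
    exact (int_base (j + l) (‖c‖ + ‖z‖)).div_const π
  · refine Filter.Eventually.of_forall fun w => ?_
    have h := NormedSpace.expSeries_div_hasSum_exp (𝔸 := ℂ) (z * conj w)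
    rw [← Complex.exp_eq_exp_ℂ] at h
    have h2 := h.mul_right (w ^ j * exp (c * w) * (conj w) ^ l * ga w)
    rw [show (fun n : ℕ => (z ^ n / (n ! : ℂ)) *
        (w ^ j * exp (c * w) * (conj w) ^ (n + l) * ga w)) =
      fun n : ℕ => (z * conj w) ^ n / (n ! : ℂ) * (w ^ j * exp (c * w) * (conj w) ^ l * ga w) from
        funext fun i => by rw [mul_pow, pow_add]; ring,
      show w ^ j * exp (c * w) * (conj w) ^ l * exp (z * conj w) * ga w =
        exp (z * conj w) * (w ^ j * exp (c * w) * (conj w) ^ l * ga w) by ring]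
    exact h2

end R881Fs
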