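import Mathlib
import Pool.Agent.R881.FsA

open MeasureTheory Complex Polynomial
open scoped Real ComplexConjugate Nat

namespace R881Fs

lemma HS {f g : ℕ → ℂ} {a b : ℂ} (h : HasSum f a) (hf : ∀ n, g n = f n) (hb : b = a) :
    HasSum g b := by
  rw [hb, show g = f from funext hf]; exact h

/-- `A c p = p' + c p`, so that `(p e^{cz})' = (A c p) e^{cz}`. -/
noncomputable def A (c : ℂ) : ℂ[X] →ₗ[ℂ] ℂ[X] := Polynomial.derivative + c • LinearMap.id

lemma A_apply (c : ℂ) (p : ℂ[X]) : A c p = derivative p + c • p := rfl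

lemma A_monomial (c : ℂ) (n : ℕ) (a : ℂ) :
    A c (monomial n a) = monomial (n - 1) (a * n) + monomial n (c * a) := by
  rw [A_apply, derivative_monomial, smul_monomial, smul_eq_mul]

lemma int_poly (q : ℂ[X]) (b : ℕ) (c z : ℂ) :
    Integrable (fun w : ℂ => q.eval w * exp (c * w) * (conj w) ^ b * exp (z * conj w) * ga w) := by
  induction q using Polynomial.induction_on' with
  | add p q hp hq =>
    refine (hp.add hq).congr (Filter.Eventually.of_forall fun w => ?_)
    simp only [Pi.add_apply, eval_add]; ring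
  | monomial n a =>
    refine ((int_gen n b c z).const_mul a).congr (Filter.Eventually.of_forall fun w => ?_)
    simp only [eval_monomial]; ring

lemma int_poly' (q : ℂ[X]) (b : ℕ) (c : ℂ) :
    Integrable (fun w : ℂ => q.eval w * exp (c * w) * (conj w) ^ b * ga w) := by
  refine (int_poly q b c 0).congr (Filter.Eventually.of_forall fun w => ?_)
  simp

/-- moments -/
noncomputable def mom (c : ℂ) (N : ℕ) (q : ℂ[X]) : ℂ :=
  ∫ w : ℂ, q.eval w * exp (c * w) * (conj w) ^ N * ga w

lemma mom_add (c : ℂ) (N : ℕ) (p q : ℂ[X]) : mom c N (p + q) = mom c N p + mom c N q := by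
  unfold mom
  rw [← integral_add (int_poly' p N c) (int_poly' q N c)]
  congr 1; funext w; rw [eval_add]; ring

lemma mom_monomial (c : ℂ) (N j : ℕ) (a : ℂ) :
    mom c N (monomial j a) = a * (c ^ (N - j) * (N.descFactorial j : ℂ)) := by
  unfold mom
  rw [← moment j N c, ← integral_const_mul]
  congr 1; funext w; rw [eval_monomial]; ring

lemma mom_zero_poly (c : ℂ) (N : ℕ) : mom c N 0 = 0 := by
  unfold mom; simp

lemma mom_succ (c : ℂ) (N : ℕ) (q : ℂ[X]) : mom c (N + 1) q = mom c N (A c q) := by
  induction q using Polynomial.induction_on' with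
  | add p q hp hq => rw [mom_add, map_add, mom_add, hp, hq]
  | monomial n a =>
    rw [A_monomial, mom_add, mom_monomial, mom_monomial, mom_monomial]
    rcases n with _ | n
    · simp [pow_succ]; ring
    · have h1 : (N + 1).descFactorial (n + 1) = (n + 1) * N.descFactorial n + N.descFactorial (n + 1) := by
        rw [Nat.succ_descFactorial_succ, Nat.descFactorial_succ]
        by_cases h : n ≤ N
        · have : N + 1 = (n + 1) + (N - n) := by omega
          nth_rewrite 1 [this]
          rw [add_mul]
        · rw [Nat.descFactorial_eq_zero_iff_lt.2 (by omega : N < n)]; simp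
      have h2 : N + 1 - (n + 1) = N - n := by omega
      rw [h1, h2, Nat.add_sub_cancel]
      by_cases h : n + 1 ≤ N
      · have h3 : N - n = (N - (n + 1)) + 1 := by omega
        rw [h3, pow_succ]; push_cast; ring
      · rw [Nat.descFactorial_eq_zero_iff_lt.2 (by omega : N < n + 1)]
        push_cast; ring

lemma mom_zero (c : ℂ) (q : ℂ[X]) : mom c 0 q = q.eval 0 := by
  induction q using Polynomial.induction_on' with
  | add p q hp hq => rw [mom_add, eval_add, hp, hq]
  | monomial n a =>
    rw [mom_monomial, eval_monomial]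
    rcases n with _ | n
    · simp
    · rw [Nat.descFactorial_eq_zero_iff_lt.2 (by omega : 0 < n + 1)]; simp

lemma mom_add_pow (c : ℂ) (n l : ℕ) (q : ℂ[X]) : mom c (n + l) q = mom c n ((A c ^ l) q) := by
  induction l generalizing q with
  | zero => simp
  | succ l ih => rw [← add_assoc, mom_succ, ih, pow_succ]; rfl

lemma mom_eq (c : ℂ) (N : ℕ) (q : ℂ[X]) : mom c N q = ((A c ^ N) q).eval 0 := by
  have := mom_add_pow c 0 N q
  rw [zero_add] at this
  rw [this, mom_zero]

lemma Tq_hasSum (q : ℂ[X]) (l : ℕ) (c z : ℂ) :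
    HasSum (fun n : ℕ => (z ^ n / (n ! : ℂ)) * mom c (n + l) q)
      (∫ w : ℂ, q.eval w * exp (c * w) * (conj w) ^ l * exp (z * conj w) * ga w) := by
  induction q using Polynomial.induction_on' with
  | add p q hp hq =>
    have h := hp.add hq
    rw [← integral_add (int_poly p l c z) (int_poly q l c z)] at h
    refine HS h (fun n => ?_) ?_
    · rw [mom_add]; ring
    · congr 1; funext w; rw [eval_add]; ring
  | monomial j a =>
    have h := (T_hasSum j l c z).mul_left a
    rw [← integral_const_mul] at h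
    refine HS h (fun n => ?_) ?_
    · rw [mom_monomial, ← moment]; ring
    · congr 1; funext w; rw [eval_monomial]; ring

lemma taylor_hasSum (q : ℂ[X]) (c z : ℂ) :
    HasSum (fun n : ℕ => (z ^ n / (n ! : ℂ)) * mom c n q) (q.eval z * exp (c * z)) := by
  induction q using Polynomial.induction_on' with
  | add p q hp hq =>
    have h := hp.add hq
    refine HS h (fun n => ?_) ?_
    · rw [mom_add]; ring
    · rw [eval_add]; ring
  | monomial j a =>
    rw [← hasSum_nat_add_iff' j]
    have hs : ∑ i ∈ Finset.range j, z ^ i / (i ! : ℂ) * mom c i (monomial j a) = 0 := by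
      refine Finset.sum_eq_zero fun i hi => ?_
      rw [mom_monomial, Nat.descFactorial_eq_zero_iff_lt.2 (Finset.mem_range.1 hi)]; simp
    rw [hs, sub_zero]
    have h := NormedSpace.expSeries_div_hasSum_exp (𝔸 := ℂ) (c * z)
    rw [← Complex.exp_eq_exp_ℂ] at h
    have h2 := h.mul_left (a * z ^ j)
    rw [eval_monomial]
    refine HS h2 (fun n => ?_) rfl
    rw [mom_monomial, Nat.add_sub_cancel]
    have h1 := Nat.factorial_mul_descFactorial (show j ≤ n + j by omega)
    rw [Nat.add_sub_cancel] at h1
    have h3 : ((n ! : ℕ) : ℂ) * ((n + j).descFactorial j : ℂ) = (((n + j) ! : ℕ) : ℂ) := by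
      exact_mod_cast h1
    have h4 : ((n ! : ℕ) : ℂ) ≠ 0 := by exact_mod_cast Nat.factorial_ne_zero _
    have h5 : ((n + j).descFactorial j : ℂ) ≠ 0 := by
      intro h0; rw [h0, mul_zero] at h3
      exact (by exact_mod_cast Nat.factorial_ne_zero (n + j) : (((n + j) ! : ℕ) : ℂ) ≠ 0) h3.symm
    rw [← h3, mul_pow, pow_add]
    field_simp

lemma Tq (q : ℂ[X]) (l : ℕ) (c z : ℂ) :
    ∫ w : ℂ, q.eval w * exp (c * w) * (conj w) ^ l * exp (z * conj w) * ga w =
      ((A c ^ l) q).eval z * exp (c * z) := by
  refine (Tq_hasSum q l c z).unique ?_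
  simp_rw [mom_add_pow c _ l q]
  exact taylor_hasSum _ c z

end R881Fs
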