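import Mathlib
import Pool.Agent.R881.FsB

open MeasureTheory Complex Polynomial
open scoped Real ComplexConjugate Nat

namespace R881Fs

/-- Formal exponential polynomials `∑ p_a(z) e^{az}`. -/
abbrev E : Type := AddMonoidAlgebra (Polynomial ℂ) ℂ

/-- `p(z) e^{az}` -/
noncomputable abbrev sg (a : ℂ) (p : ℂ[X]) : E := AddMonoidAlgebra.single a p

noncomputable def evHom (z : ℂ) : E →+* ℂ :=
  AddMonoidAlgebra.liftNCRingHom (Polynomial.evalRingHom z)
    { toFun := fun a => exp (a.toAdd * z)
      map_one' := by simp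
      map_mul' := by intro a b; simp [add_mul, exp_add] } (fun _ _ => Commute.all _ _)

noncomputable def ev (K : E) (z : ℂ) : ℂ := evHom z K

lemma ev_single (a : ℂ) (p : ℂ[X]) (z : ℂ) : ev (sg a p) z = p.eval z * exp (a * z) := by
  unfold ev evHom
  rw [AddMonoidAlgebra.liftNCRingHom_single]; rfl

lemma ev_zero (z : ℂ) : ev 0 z = 0 := map_zero _
lemma ev_add (K L : E) (z : ℂ) : ev (K + L) z = ev K z + ev L z := map_add _ _ _
lemma ev_sub (K L : E) (z : ℂ) : ev (K - L) z = ev K z - ev L z := map_sub _ _ _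
lemma ev_mul (K L : E) (z : ℂ) : ev (K * L) z = ev K z * ev L z := map_mul _ _ _

lemma ev_eq_sum (K : E) (z : ℂ) : ev K z = K.coeff.sum fun a p => p.eval z * exp (a * z) := by
  conv_lhs => rw [← AddMonoidAlgebra.sum_coeff_single K]
  unfold ev
  rw [map_finsuppSum]
  refine Finsupp.sum_congr fun a _ => ?_
  exact ev_single a _ z

lemma continuous_ev (K : E) : Continuous (ev K) := by
  have : ev K = fun z => ∑ a ∈ K.coeff.support, (K.coeff a).eval z * exp (a * z) := by
    funext z; rw [ev_eq_sum]; rfl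
  rw [this]
  refine continuous_finset_sum _ fun a _ => ?_
  have := (K.coeff a).continuous
  fun_prop

/-! ### independence -/

lemma mom_smul (c : ℂ) (N : ℕ) (a : ℂ) (q : ℂ[X]) : mom c N (a • q) = a * mom c N q := by
  unfold mom
  rw [← integral_const_mul]
  congr 1; funext w; rw [eval_smul, smul_eq_mul]; ring

noncomputable def seq (c : ℂ) (q : ℂ[X]) : ℕ → ℂ := fun N => mom c N q

noncomputable def Sh : Module.End ℂ (ℕ → ℂ) := LinearMap.funLeft ℂ ℂ Nat.succ

lemma Sh_seq (c : ℂ) (q : ℂ[X]) : (Sh - c • (1 : Module.End ℂ (ℕ → ℂ))) (seq c q) =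
    seq c (derivative q) := by
  funext N
  show mom c (N + 1) q - c * mom c N q = mom c N (derivative q)
  rw [mom_succ, A_apply, mom_add, mom_smul]; ring

lemma Sh_pow_seq (c : ℂ) (k : ℕ) (q : ℂ[X]) :
    ((Sh - c • (1 : Module.End ℂ (ℕ → ℂ))) ^ k) (seq c q) = seq c (derivative^[k] q) := by
  induction k generalizing q with
  | zero => simp
  | succ k ih =>
    rw [pow_succ, Module.End.mul_apply, Sh_seq, ih, Function.iterate_succ_apply]

lemma seq_mem (c : ℂ) (q : ℂ[X]) : seq c q ∈ Sh.maxGenEigenspace c := by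
  rw [Module.End.mem_maxGenEigenspace]
  refine ⟨q.natDegree + 1, ?_⟩
  rw [Sh_pow_seq, Polynomial.iterate_derivative_eq_zero (Nat.lt_succ_self _)]
  funext N
  exact mom_zero_poly c N

lemma seq_eq_zero {c : ℂ} {q : ℂ[X]} (h : seq c q = 0) : q = 0 := by
  ext k
  have h1 := Sh_pow_seq c k q
  rw [h, map_zero] at h1
  have h2 : mom c 0 (derivative^[k] q) = 0 := (congrFun h1 0).symm
  rw [mom_zero, ← coeff_zero_eq_eval_zero, Polynomial.coeff_iterate_derivative, zero_add] at h2
  rw [coeff_zero]
  have h3 : k.descFactorial k ≠ 0 := by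
    rw [Nat.descFactorial_self]; exact Nat.factorial_ne_zero _
  rw [nsmul_eq_mul] at h2
  rcases mul_eq_zero.1 h2 with h | h
  · exact absurd (by exact_mod_cast h) h3
  · exact h

lemma ev_inj {K : E} (h : ∀ z, ev K z = 0) : K = 0 := by
  classical
  have hind := Sh.independent_maxGenEigenspace
  rw [iSupIndep_iff_finsetSum_eq_zero_imp_eq_zero] at hind
  have h2 := hind K.coeff.support (fun a => seq a (K.coeff a)) (fun a _ => seq_mem a _) ?_
  · rw [← AddMonoidAlgebra.coeff_eq_zero]
    ext1 a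
    by_cases ha : a ∈ K.coeff.support
    · exact seq_eq_zero (h2 a ha)
    · simpa using ha
  · funext N
    rw [Finset.sum_apply]
    show ∑ a ∈ K.coeff.support, mom a N (K.coeff a) = 0
    unfold mom
    rw [← integral_finset_sum _ fun a _ => int_poly' (K.coeff a) N a]
    have : ∀ w : ℂ, ∑ a ∈ K.coeff.support, (K.coeff a).eval w * exp (a * w) * (conj w) ^ N * ga w
        = 0 := by
      intro w
      rw [← Finset.sum_mul, ← Finset.sum_mul]
      have := h w
      rw [ev_eq_sum] at this
      rw [show ∑ a ∈ K.coeff.support, (K.coeff a).eval w * exp (a * w) = 0 from this]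
      simp
    simp_rw [this]; simp

lemma ev_inj' {K L : E} (h : ∀ z, ev K z = ev L z) : K = L := by
  rw [← sub_eq_zero]
  exact ev_inj fun z => by rw [ev_sub, h z, sub_self]

lemma fun_eq_of_cofinite {f g : ℂ → ℂ} (hf : Continuous f) (hg : Continuous g) {s : Set ℂ}
    (hs : s.Finite) (h : ∀ z, z ∉ s → f z = g z) : f = g := by
  have hd : Dense sᶜ := Set.Countable.dense_compl ℝ hs.countable
  exact hf.ext_on hd hg fun z hz => h z hz

lemma ev_inj_cof {K L : E} {s : Set ℂ} (hs : s.Finite) (h : ∀ z, z ∉ s → ev K z = ev L z) :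
    K = L :=
  ev_inj' fun z => congrFun (fun_eq_of_cofinite (continuous_ev K) (continuous_ev L) hs h) z

end R881Fs
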