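import Mathlib
import Pool.Agent.R881.FsC

open MeasureTheory Complex Polynomial
open scoped Real ComplexConjugate Nat

namespace R881Fs

/-- `hat K c p` : `K(D)(p e^{cz}) = (hat K c p) e^{cz}`. -/
noncomputable def hat (K : E) (c : ℂ) : ℂ[X] →ₗ[ℂ] ℂ[X] :=
  K.coeff.sum fun β q => exp (c * β) • (taylor β ∘ₗ (aeval (A c) q : Module.End ℂ ℂ[X]))

lemma hat_zero_left (c : ℂ) : hat 0 c = 0 := by simp [hat]

lemma hat_add_left (K L : E) (c : ℂ) : hat (K + L) c = hat K c + hat L c := by
  unfold hat
  rw [AddMonoidAlgebra.coeff_add, Finsupp.sum_add_index']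
  · intro a; simp
  · intro a p q
    rw [map_add, LinearMap.comp_add, smul_add]

lemma hat_single (β : ℂ) (q : ℂ[X]) (c : ℂ) (p : ℂ[X]) :
    hat (sg β q) c p = exp (c * β) • taylor β ((aeval (A c) q : Module.End ℂ ℂ[X]) p) := by
  unfold hat
  rw [AddMonoidAlgebra.coeff_single, Finsupp.sum_single_index]
  · rfl
  · simp

lemma hat_apply (K : E) (c : ℂ) (p : ℂ[X]) :
    hat K c p = K.coeff.sum fun β q => exp (c * β) • taylor β ((aeval (A c) q : Module.End ℂ ℂ[X]) p) := by
  unfold hat
  rw [Finsupp.sum, Finsupp.sum, LinearMap.sum_apply]; rfl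

/-- `q` has the same behaviour as `lam * p` in degrees at least `n`. -/
def Top (n : ℕ) (lam : ℂ) (p q : ℂ[X]) : Prop := q.natDegree ≤ n ∧ q.coeff n = lam * p.coeff n

lemma A_top {n : ℕ} (c : ℂ) {p : ℂ[X]} (h : p.natDegree ≤ n) : Top n c p (A c p) := by
  constructor
  · rw [A_apply]
    refine (natDegree_add_le _ _).trans (max_le ?_ ?_)
    · exact (natDegree_derivative_le p).trans ((Nat.sub_le _ _).trans h)
    · exact (natDegree_smul_le _ _).trans h
  · rw [A_apply, coeff_add, coeff_derivative, coeff_smul, smul_eq_mul,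
      coeff_eq_zero_of_natDegree_lt (show p.natDegree < n + 1 by omega)]
    ring

lemma A_pow_top {n : ℕ} (c : ℂ) (l : ℕ) {p : ℂ[X]} (h : p.natDegree ≤ n) :
    Top n (c ^ l) p ((A c ^ l) p) := by
  induction l with
  | zero => exact ⟨by simpa using h, by simp⟩
  | succ l ih =>
    have h2 := A_top c ih.1
    have e : (A c ^ (l + 1)) p = A c ((A c ^ l) p) := by rw [pow_succ', Module.End.mul_apply]
    rw [e]
    refine ⟨h2.1, ?_⟩
    rw [h2.2, ih.2, pow_succ']; ring

lemma aeval_top {n : ℕ} (c : ℂ) (q : ℂ[X]) {p : ℂ[X]} (h : p.natDegree ≤ n) :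
    Top n (q.eval c) p ((aeval (A c) q : Module.End ℂ ℂ[X]) p) := by
  induction q using Polynomial.induction_on' with
  | add q r hq hr =>
    rw [map_add, LinearMap.add_apply]
    refine ⟨(natDegree_add_le _ _).trans (max_le hq.1 hr.1), ?_⟩
    rw [coeff_add, hq.2, hr.2, eval_add]; ring
  | monomial l a =>
    have h2 := A_pow_top c l h
    have e : (aeval (A c) (monomial l a) : Module.End ℂ ℂ[X]) p = a • ((A c ^ l) p) := by
      rw [aeval_monomial, Module.End.mul_apply, Module.algebraMap_end_apply]
    rw [e]
    refine ⟨(natDegree_smul_le _ _).trans h2.1, ?_⟩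
    rw [coeff_smul, h2.2, eval_monomial, smul_eq_mul]; ring

lemma taylor_top {n : ℕ} (β : ℂ) {p : ℂ[X]} (h : p.natDegree ≤ n) :
    Top n 1 p (taylor β p) := by
  refine ⟨by rw [natDegree_taylor]; exact h, ?_⟩
  rcases h.lt_or_eq with h | h
  · rw [coeff_eq_zero_of_natDegree_lt (by rw [natDegree_taylor]; exact h),
      coeff_eq_zero_of_natDegree_lt h]; simp
  · subst h
    rw [coeff_taylor_natDegree, one_mul]; rfl

lemma hat_top {n : ℕ} (K : E) (c : ℂ) {p : ℂ[X]} (h : p.natDegree ≤ n) :
    Top n (ev K c) p (hat K c p) := by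
  induction K using AddMonoidAlgebra.induction_linear with
  | zero => rw [hat_zero_left, ev_zero]; exact ⟨by simp, by simp⟩
  | add K L hK hL =>
    rw [hat_add_left, LinearMap.add_apply]
    refine ⟨(natDegree_add_le _ _).trans (max_le hK.1 hL.1), ?_⟩
    rw [coeff_add, hK.2, hL.2, ev_add]; ring
  | single β q =>
    rw [hat_single]
    have h1 := aeval_top c q h
    have h2 := taylor_top β h1.1
    refine ⟨(natDegree_smul_le _ _).trans h2.1, ?_⟩
    rw [coeff_smul, h2.2, h1.2, smul_eq_mul, ev_single, mul_comm β c]; ring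

lemma hat_natDegree_le (K : E) (c : ℂ) (p : ℂ[X]) : (hat K c p).natDegree ≤ p.natDegree :=
  (hat_top K c le_rfl).1

/-! ### the operator on `E` -/

noncomputable def Kop (K Z : E) : E := Z.coeff.sum fun c q => sg c (hat K c q)

lemma Kop_zero (K : E) : Kop K 0 = 0 := by simp [Kop]

lemma Kop_add (K Y Z : E) : Kop K (Y + Z) = Kop K Y + Kop K Z := by
  unfold Kop
  rw [AddMonoidAlgebra.coeff_add, Finsupp.sum_add_index']
  · intro a; rw [map_zero]; exact AddMonoidAlgebra.single_zero a
  · intro a p q; rw [map_add]; exact AddMonoidAlgebra.single_add a _ _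

lemma Kop_single (K : E) (c : ℂ) (q : ℂ[X]) : Kop K (sg c q) = sg c (hat K c q) := by
  unfold Kop
  rw [AddMonoidAlgebra.coeff_single, Finsupp.sum_single_index]
  rw [map_zero]; exact AddMonoidAlgebra.single_zero c

lemma Kop_add_left (K L Z : E) : Kop (K + L) Z = Kop K Z + Kop L Z := by
  induction Z using AddMonoidAlgebra.induction_linear with
  | zero => simp [Kop_zero]
  | add Y Z hY hZ => rw [Kop_add, Kop_add, Kop_add, hY, hZ]; abel
  | single c q =>
    rw [Kop_single, Kop_single, Kop_single, hat_add_left, LinearMap.add_apply]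
    exact AddMonoidAlgebra.single_add c _ _

lemma Kop_zero_left (Z : E) : Kop 0 Z = 0 := by
  induction Z using AddMonoidAlgebra.induction_linear with
  | zero => simp [Kop_zero]
  | add Y Z hY hZ => rw [Kop_add, hY, hZ, add_zero]
  | single c q =>
    rw [Kop_single, hat_zero_left]
    exact AddMonoidAlgebra.single_zero c

lemma Kop_coeff (K Z : E) (c : ℂ) : (Kop K Z).coeff c = hat K c (Z.coeff c) := by
  classical
  induction Z using AddMonoidAlgebra.induction_linear with
  | zero => simp [Kop_zero]
  | add Y Z hY hZ =>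
    rw [Kop_add, AddMonoidAlgebra.coeff_add, AddMonoidAlgebra.coeff_add, Finsupp.add_apply,
      Finsupp.add_apply, hY, hZ, map_add]
  | single d q =>
    rw [Kop_single, AddMonoidAlgebra.coeff_single, AddMonoidAlgebra.coeff_single,
      Finsupp.single_apply, Finsupp.single_apply]
    split_ifs with h
    · rw [h]
    · rw [map_zero]

/-! ### the Gaussian transform -/

lemma T0_aux (β : ℂ) (l : ℕ) (a : ℂ) (c : ℂ) (p : ℂ[X]) (b : ℕ) (z : ℂ) (w : ℂ) :
    ev (sg β (monomial l a)) (conj w) * ev (sg c p) w * (conj w) ^ b * exp (z * conj w) * ga w =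
      a * (p.eval w * exp (c * w) * (conj w) ^ (l + b) * exp ((z + β) * conj w) * ga w) := by
  rw [ev_single, ev_single, eval_monomial, add_mul, Complex.exp_add, pow_add]; ring

lemma T0_int (K Z : E) (b : ℕ) (z : ℂ) :
    Integrable (fun w : ℂ => ev K (conj w) * ev Z w * (conj w) ^ b * exp (z * conj w) * ga w) := by
  induction K using AddMonoidAlgebra.induction_linear with
  | zero => simp [ev_zero]
  | add K L hK hL =>
    refine (hK.add hL).congr (Filter.Eventually.of_forall fun w => ?_)
    simp only [Pi.add_apply, ev_add]; ring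
  | single β q =>
    induction q using Polynomial.induction_on' with
    | add p q hp hq =>
      refine (hp.add hq).congr (Filter.Eventually.of_forall fun w => ?_)
      simp only [Pi.add_apply, ev_single, eval_add]; ring
    | monomial l a =>
      induction Z using AddMonoidAlgebra.induction_linear with
      | zero => simp [ev_zero]
      | add Y Z hY hZ =>
        refine (hY.add hZ).congr (Filter.Eventually.of_forall fun w => ?_)
        simp only [Pi.add_apply, ev_add]; ring
      | single c p =>
        refine ((int_poly p (l + b) c (z + β)).const_mul a).congr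
          (Filter.Eventually.of_forall fun w => ?_)
        exact (T0_aux β l a c p b z w).symm

lemma T0_int0 (K Z : E) (z : ℂ) :
    Integrable (fun w : ℂ => ev K (conj w) * ev Z w * exp (z * conj w) * ga w) := by
  refine (T0_int K Z 0 z).congr (Filter.Eventually.of_forall fun w => ?_)
  simp

lemma T0_main (K Z : E) (z : ℂ) :
    ∫ w : ℂ, ev K (conj w) * ev Z w * exp (z * conj w) * ga w = ev (Kop K Z) z := by
  induction K using AddMonoidAlgebra.induction_linear with
  | zero => simp [ev_zero, Kop_zero_left]
  | add K L hK hL =>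
    rw [Kop_add_left, ev_add, ← hK, ← hL, ← integral_add (T0_int0 K Z z) (T0_int0 L Z z)]
    congr 1; funext w; rw [ev_add]; ring
  | single β q =>
    induction q using Polynomial.induction_on' with
    | add p q hp hq =>
      have e := AddMonoidAlgebra.single_add (R := ℂ[X]) β p q
      rw [e, Kop_add_left, ev_add, ← hp, ← hq,
        ← integral_add (T0_int0 _ Z z) (T0_int0 _ Z z)]
      congr 1; funext w; rw [ev_add]; ring
    | monomial l a =>
      induction Z using AddMonoidAlgebra.induction_linear with
      | zero => simp [ev_zero, Kop_zero]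
      | add Y Z hY hZ =>
        rw [Kop_add, ev_add, ← hY, ← hZ, ← integral_add (T0_int0 _ Y z) (T0_int0 _ Z z)]
        congr 1; funext w; rw [ev_add]; ring
      | single c p =>
        rw [Kop_single, ev_single, hat_single]
        have e : (aeval (A c) (monomial l a) : Module.End ℂ ℂ[X]) p = a • ((A c ^ l) p) := by
          rw [aeval_monomial, Module.End.mul_apply, Module.algebraMap_end_apply]
        rw [e]
        have h := Tq p l c (z + β)
        have h2 : ∀ w : ℂ, ev (sg β (monomial l a)) (conj w) * ev (sg c p) w * exp (z * conj w) *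
            ga w = a * (p.eval w * exp (c * w) * (conj w) ^ l * exp ((z + β) * conj w) * ga w) := by
          intro w
          have := T0_aux β l a c p 0 z w
          simpa using this
        simp_rw [h2]
        rw [integral_const_mul, h]
        rw [eval_smul, taylor_eval, eval_smul, smul_eq_mul, smul_eq_mul, mul_add, Complex.exp_add]
        ring

end R881Fs
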