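import Mathlib
import Pool.Agent.R881.FsD

open Complex Polynomial

namespace R881Fs

/-- The polynomial identities obtained from the operator equation. -/
def HB (m : ℕ) (F H K G : E) : Prop :=
  ∀ α : ℂ, ∃ s : Set ℂ, s.Finite ∧ ∀ ω ∉ s,
    (F * H).coeff α * X ^ m + F.coeff α * hat G ω (X ^ m) + hat K (α + ω) (H.coeff α * X ^ m)
      + (if α = 0 then hat K ω (hat G ω (X ^ m)) else 0) = 0

lemma ev_const (c z : ℂ) : ev (sg 0 (C c)) z = c := by rw [ev_single]; simp

lemma const_of_cof {K : E} {s : Set ℂ} (hs : s.Finite) {c : ℂ} (h : ∀ z ∉ s, ev K z = c) :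
    ∃ c, K = sg 0 (C c) :=
  ⟨c, ev_inj_cof hs fun z hz => by rw [h z hz, ev_const]⟩

lemma const_of_cof_shift {K : E} {s : Set ℂ} (hs : s.Finite) {α c : ℂ}
    (h : ∀ z ∉ s, ev K (α + z) = c) : ∃ c, K = sg 0 (C c) := by
  refine const_of_cof (hs.image (fun z => α + z)) (c := c) fun z hz => ?_
  have := h (z - α) fun hh => hz ⟨z - α, hh, by ring⟩
  rwa [add_sub_cancel] at this

lemma CX (p : ℂ[X]) (e m : ℕ) : (p * X ^ m).coeff (e + m) = p.coeff e := coeff_mul_X_pow p m e

lemma natDegree_mul_X_pow_le' (p : ℂ[X]) (m : ℕ) {e : ℕ} (h : p.natDegree ≤ e) :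
    (p * X ^ m).natDegree ≤ e + m := by
  refine natDegree_mul_le.trans ?_
  rw [natDegree_X_pow]; omega

lemma CG (G : E) (ω : ℂ) (p : ℂ[X]) (e m : ℕ) (h : p.natDegree ≤ e) :
    (p * hat G ω (X ^ m)).coeff (e + m) = p.coeff e * ev G ω := by
  have ht := hat_top G ω (n := m) (p := X ^ m) (natDegree_X_pow_le m)
  rw [coeff_mul_add_eq_of_natDegree_le h ht.1, ht.2]; simp

lemma CK (K : E) (c : ℂ) (p : ℂ[X]) (e m : ℕ) (h : p.natDegree ≤ e) :
    (hat K c (p * X ^ m)).coeff (e + m) = ev K c * p.coeff e := by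
  have ht := hat_top K c (natDegree_mul_X_pow_le' p m h)
  rw [ht.2, CX]

lemma alg_G {m : ℕ} {F H K : E} (h : HB m F H K 0) : H = 0 ∨ ∃ c, K = sg 0 (C c) := by
  by_cases hH : H = 0
  · exact Or.inl hH
  right
  obtain ⟨α, hα⟩ : ∃ α, H.coeff α ≠ 0 := by
    by_contra hcon; push_neg at hcon
    exact hH (by rw [← AddMonoidAlgebra.coeff_eq_zero]; ext1 a; exact hcon a)
  obtain ⟨s, hs, hω⟩ := h α
  set d := (H.coeff α).natDegree with hd
  have hlc : (H.coeff α).coeff d ≠ 0 := by
    rw [hd]; exact leadingCoeff_ne_zero.2 hα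
  refine const_of_cof_shift hs (α := α) (c := -((F * H).coeff α).coeff d / (H.coeff α).coeff d)
    fun ω hω' => ?_
  have h1 := hω ω hω'
  simp only [hat_zero_left, LinearMap.zero_apply, mul_zero, add_zero, map_zero, ite_self] at h1
  have h2 := congrArg (fun p : ℂ[X] => p.coeff (d + m)) h1
  simp only [coeff_add, coeff_zero, CX] at h2
  rw [CK K (α + ω) (H.coeff α) d m le_rfl] at h2
  rw [eq_div_iff hlc]; linear_combination h2

lemma alg_K {m : ℕ} {F H G : E} (h : HB m F H 0 G) : F = 0 ∨ ∃ c, G = sg 0 (C c) := by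
  by_cases hF : F = 0
  · exact Or.inl hF
  right
  obtain ⟨α, hα⟩ : ∃ α, F.coeff α ≠ 0 := by
    by_contra hcon; push_neg at hcon
    exact hF (by rw [← AddMonoidAlgebra.coeff_eq_zero]; ext1 a; exact hcon a)
  obtain ⟨s, hs, hω⟩ := h α
  set d := (F.coeff α).natDegree with hd
  have hlc : (F.coeff α).coeff d ≠ 0 := by
    rw [hd]; exact leadingCoeff_ne_zero.2 hα
  refine const_of_cof hs (c := -((F * H).coeff α).coeff d / (F.coeff α).coeff d) fun ω hω' => ?_
  have h1 := hω ω hω'
  simp only [hat_zero_left, LinearMap.zero_apply, add_zero, ite_self] at h1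
  have h2 := congrArg (fun p : ℂ[X] => p.coeff (d + m)) h1
  simp only [coeff_add, coeff_zero, CX] at h2
  rw [CG G ω (F.coeff α) d m le_rfl] at h2
  rw [eq_div_iff hlc]; linear_combination h2

lemma alg_KG {m : ℕ} {F H : E} (h : HB m F H 0 0) : F = 0 ∨ H = 0 := by
  have h0 : F * H = 0 := by
    rw [← AddMonoidAlgebra.coeff_eq_zero]
    ext1 α
    obtain ⟨s, hs, hω⟩ := h α
    obtain ⟨ω, hω'⟩ : ∃ ω, ω ∉ s := by
      by_contra hcon; push_neg at hcon
      exact Set.infinite_univ (α := ℂ) (hs.subset fun x _ => hcon x)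
    have h1 := hω ω hω'
    simp only [hat_zero_left, LinearMap.zero_apply, mul_zero, add_zero, ite_self] at h1
    have h2 : (X ^ m : ℂ[X]) ≠ 0 := pow_ne_zero _ X_ne_zero
    exact (mul_eq_zero.1 h1).resolve_right h2
  exact mul_eq_zero.1 h0

/-! ### dependence of `hat K ω p` on `ω` -/

lemma Apow_dep (l : ℕ) : ∀ (L : ℂ[X] →ₗ[ℂ] ℂ) (p : ℂ[X]), ∃ s : ℂ[X], s.natDegree ≤ l ∧
    ∀ ω, L ((A ω ^ l) p) = s.eval ω := by
  induction l with
  | zero =>
    intro L p
    exact ⟨C (L p), by simp, fun ω => by simp⟩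
  | succ l ih =>
    intro L p
    obtain ⟨s1, h1, e1⟩ := ih L (derivative p)
    obtain ⟨s2, h2, e2⟩ := ih L p
    refine ⟨s1 + X * s2, ?_, fun ω => ?_⟩
    · refine (natDegree_add_le _ _).trans (max_le (by omega) ?_)
      refine natDegree_mul_le.trans ?_
      rw [natDegree_X]; omega
    · rw [pow_succ, Module.End.mul_apply, A_apply, map_add, map_add, map_smul, map_smul, e1, e2]
      simp

lemma aeval_dep (q : ℂ[X]) (L : ℂ[X] →ₗ[ℂ] ℂ) (p : ℂ[X]) : ∃ s : ℂ[X],
    s.natDegree ≤ q.natDegree ∧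
    ∀ ω, L ((aeval (A ω) q : Module.End ℂ ℂ[X]) p) = s.eval ω := by
  choose s hs1 hs2 using fun l => Apow_dep l L p
  refine ⟨∑ l ∈ Finset.range (q.natDegree + 1), C (q.coeff l) * s l, ?_, fun ω => ?_⟩
  · refine natDegree_sum_le_of_forall_le _ _ fun l hl => ?_
    refine (natDegree_C_mul_le _ _).trans ((hs1 l).trans ?_)
    have := Finset.mem_range.1 hl; omega
  · rw [aeval_eq_sum_range, LinearMap.sum_apply, map_sum, eval_finset_sum]
    refine Finset.sum_congr rfl fun l _ => ?_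
    rw [LinearMap.smul_apply, map_smul, hs2, eval_mul, eval_C, smul_eq_mul]

lemma hat_dep (K : E) (L : ℂ[X] →ₗ[ℂ] ℂ) (p : ℂ[X]) : ∃ R : E,
    (∀ ω, L (hat K ω p) = ev R ω) ∧ (∀ β, K.coeff β = 0 → R.coeff β = 0) ∧
    ∀ β, (R.coeff β).natDegree ≤ (K.coeff β).natDegree := by
  classical
  choose s hs1 hs2 using fun β : ℂ => aeval_dep (K.coeff β) (L ∘ₗ taylor β) p
  let t : ℂ → ℂ[X] := fun β => if K.coeff β = 0 then 0 else s β
  have ht : ∀ a, t a ≠ 0 → a ∈ K.coeff.support := by
    intro a ha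
    rw [Finsupp.mem_support_iff]
    intro h0; exact ha (by simp [t, h0])
  refine ⟨AddMonoidAlgebra.ofCoeff (Finsupp.onFinset K.coeff.support t ht), fun ω => ?_, ?_, ?_⟩
  · rw [hat_apply, ev_eq_sum]
    have e1 : (Finsupp.onFinset K.coeff.support t ht).sum
        (fun a p => p.eval ω * exp (a * ω)) =
        ∑ a ∈ K.coeff.support, (t a).eval ω * exp (a * ω) :=
      Finsupp.onFinset_sum ht (by intro a; simp)
    refine Eq.trans ?_ e1.symm
    rw [Finsupp.sum, map_sum]
    refine Finset.sum_congr rfl fun β hβ => ?_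
    have h1 : K.coeff β ≠ 0 := Finsupp.mem_support_iff.1 hβ
    have h2 := hs2 β ω
    rw [LinearMap.comp_apply] at h2
    rw [map_smul, h2, smul_eq_mul]
    simp only [t, if_neg h1]
    rw [mul_comm ω β, mul_comm]
  · intro β hβ
    show t β = 0
    simp [t, hβ]
  · intro β
    show (t β).natDegree ≤ _
    by_cases h0 : K.coeff β = 0
    · simp [t, h0]
    · simp only [t, if_neg h0]; exact hs1 β

/-! ### translation -/

noncomputable def tau (α : ℂ) (K : E) : E :=
  K.coeff.sum fun β q => sg β (exp (α * β) • taylor α q)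

lemma tau_zero (α : ℂ) : tau α 0 = 0 := by simp [tau]

lemma tau_add (α : ℂ) (K L : E) : tau α (K + L) = tau α K + tau α L := by
  unfold tau
  rw [AddMonoidAlgebra.coeff_add, Finsupp.sum_add_index']
  · intro a; rw [map_zero, smul_zero]; exact AddMonoidAlgebra.single_zero a
  · intro a p q; rw [map_add, smul_add]; exact AddMonoidAlgebra.single_add a _ _

lemma tau_single (α β : ℂ) (q : ℂ[X]) : tau α (sg β q) = sg β (exp (α * β) • taylor α q) := by
  unfold tau
  rw [AddMonoidAlgebra.coeff_single, Finsupp.sum_single_index]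
  rw [map_zero, smul_zero]; exact AddMonoidAlgebra.single_zero β

lemma ev_tau (α : ℂ) (K : E) (ω : ℂ) : ev (tau α K) ω = ev K (α + ω) := by
  induction K using AddMonoidAlgebra.induction_linear with
  | zero => rw [tau_zero, ev_zero, ev_zero]
  | add K L hK hL => rw [tau_add, ev_add, ev_add, hK, hL]
  | single β q =>
    rw [tau_single, ev_single, ev_single, eval_smul, taylor_eval, smul_eq_mul, mul_add,
      Complex.exp_add, add_comm ω α, mul_comm α β]; ring

lemma tau_coeff (α : ℂ) (K : E) (β : ℂ) :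
    (tau α K).coeff β = exp (α * β) • taylor α (K.coeff β) := by
  classical
  induction K using AddMonoidAlgebra.induction_linear with
  | zero => rw [tau_zero]; simp
  | add K L hK hL =>
    rw [tau_add, AddMonoidAlgebra.coeff_add, AddMonoidAlgebra.coeff_add, Finsupp.add_apply,
      Finsupp.add_apply, hK, hL, map_add, smul_add]
  | single γ q =>
    rw [tau_single, AddMonoidAlgebra.coeff_single, AddMonoidAlgebra.coeff_single,
      Finsupp.single_apply, Finsupp.single_apply]
    split_ifs with h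
    · rw [h]
    · rw [map_zero, smul_zero]

end R881Fs
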