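import Mathlib
import Pool.Agent.R881.FsE

open Complex Polynomial

namespace R881Fs

lemma coefEq {m : ℕ} {F H K G : E} {α ω : ℂ}
    (h : (F * H).coeff α * X ^ m + F.coeff α * hat G ω (X ^ m) + hat K (α + ω) (H.coeff α * X ^ m)
      + (if α = 0 then hat K ω (hat G ω (X ^ m)) else 0) = 0) (e : ℕ)
    (h1 : (F.coeff α).natDegree ≤ e) (h2 : (H.coeff α).natDegree ≤ e) :
    ((F * H).coeff α).coeff e + (F.coeff α).coeff e * ev G ω + ev K (α + ω) * (H.coeff α).coeff e
      + (if α = 0 then (if e = 0 then ev K ω * ev G ω else 0) else 0) = 0 := by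
  have h3 := congrArg (fun p : ℂ[X] => p.coeff (e + m)) h
  simp only [coeff_add, coeff_zero, CX] at h3
  rw [CG G ω (F.coeff α) e m h1, CK K (α + ω) (H.coeff α) e m h2] at h3
  refine Eq.trans ?_ h3
  congr 1
  split_ifs with ha he
  · subst he
    have ht := hat_top G ω (n := m) (p := X ^ m) (natDegree_X_pow_le m)
    have ht2 := hat_top K ω ht.1
    rw [zero_add, ht2.2, ht.2]; simp
  · have ht := hat_top G ω (n := m) (p := X ^ m) (natDegree_X_pow_le m)
    have ht2 := hat_top K ω ht.1
    rw [coeff_eq_zero_of_natDegree_lt]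
    have : (hat K ω (hat G ω (X ^ m))).natDegree ≤ m := ht2.1
    omega
  · simp

lemma eq_single_zero {F : E} (h : ∀ α, α ≠ 0 → F.coeff α = 0) : F = sg 0 (F.coeff 0) := by
  classical
  rw [← AddMonoidAlgebra.coeff_inj, AddMonoidAlgebra.coeff_single]
  ext1 a
  rw [Finsupp.single_apply]
  split_ifs with ha
  · rw [ha]
  · exact h a (fun h0 => ha h0.symm)

theorem alg {m : ℕ} {F H K G : E} (h : HB m F H K G) :
    (∃ c, K = sg 0 (C c)) ∨ ∃ c, G = sg 0 (C c) := by
  classical
  by_contra hcon
  rw [not_or] at hcon
  obtain ⟨hK, hG⟩ := hcon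
  have hKc : ∀ {s : Set ℂ}, s.Finite → ∀ {α c : ℂ}, (∀ z ∉ s, ev K (α + z) = c) → False :=
    fun {s} hs {α c} hh => hK (const_of_cof_shift hs hh)
  have hGc : ∀ {s : Set ℂ}, s.Finite → ∀ {c : ℂ}, (∀ z ∉ s, ev G z = c) → False :=
    fun {s} hs {c} hh => hG (const_of_cof hs hh)
  have step1 : ∀ α, α ≠ 0 → H.coeff α = 0 → F.coeff α = 0 := by
    intro α hα hHα
    by_contra hF
    obtain ⟨s, hs, hω⟩ := h α
    have hlc : (F.coeff α).coeff (F.coeff α).natDegree ≠ 0 := leadingCoeff_ne_zero.2 hF
    refine hGc hs (c := -((F * H).coeff α).coeff (F.coeff α).natDegree /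
      (F.coeff α).coeff (F.coeff α).natDegree) fun ω hω' => ?_
    have h1 := coefEq (hω ω hω') (F.coeff α).natDegree le_rfl (by rw [hHα]; simp)
    rw [hHα] at h1
    simp only [if_neg hα, coeff_zero, mul_zero, add_zero] at h1
    rw [eq_div_iff hlc]; linear_combination h1
  have step2 : ∀ α, α ≠ 0 → H.coeff α ≠ 0 →
      ∃ a b : ℂ, a ≠ 0 ∧ ∀ ω, ev G ω = a * ev K (α + ω) + b := by
    intro α hα hHα
    obtain ⟨s, hs, hω⟩ := h α
    have hFd : (F.coeff α).natDegree ≤ (H.coeff α).natDegree := by
      by_contra hlt
      push_neg at hlt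
      have hF : F.coeff α ≠ 0 := by
        intro h0; rw [h0] at hlt; simp at hlt
      have hlc : (F.coeff α).coeff (F.coeff α).natDegree ≠ 0 := leadingCoeff_ne_zero.2 hF
      refine hGc hs (c := -((F * H).coeff α).coeff (F.coeff α).natDegree /
        (F.coeff α).coeff (F.coeff α).natDegree) fun ω hω' => ?_
      have h1 := coefEq (hω ω hω') (F.coeff α).natDegree le_rfl hlt.le
      rw [coeff_eq_zero_of_natDegree_lt hlt] at h1
      simp only [if_neg hα, mul_zero, add_zero] at h1
      rw [eq_div_iff hlc]; linear_combination h1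
    have hlc : (H.coeff α).coeff (H.coeff α).natDegree ≠ 0 := leadingCoeff_ne_zero.2 hHα
    have h1 : ∀ ω ∉ s, ((F * H).coeff α).coeff (H.coeff α).natDegree +
        (F.coeff α).coeff (H.coeff α).natDegree * ev G ω +
        ev K (α + ω) * (H.coeff α).coeff (H.coeff α).natDegree = 0 := by
      intro ω hω'
      have h1 := coefEq (hω ω hω') (H.coeff α).natDegree hFd le_rfl
      simpa only [if_neg hα, add_zero] using h1
    set c1 := ((F * H).coeff α).coeff (H.coeff α).natDegree
    set c2 := (F.coeff α).coeff (H.coeff α).natDegree with hc2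
    set c3 := (H.coeff α).coeff (H.coeff α).natDegree
    have hc2 : c2 ≠ 0 := by
      intro h0
      refine hKc hs (α := α) (c := -c1 / c3) fun ω hω' => ?_
      have := h1 ω hω'
      rw [h0] at this
      rw [eq_div_iff hlc]; linear_combination this
    refine ⟨-c3 / c2, -c1 / c2, div_ne_zero (neg_ne_zero.2 hlc) hc2, fun ω => ?_⟩
    have hcont : Continuous fun ω => -c3 / c2 * ev K (α + ω) + -c1 / c2 := by
      have := continuous_ev K
      fun_prop
    refine congrFun (fun_eq_of_cofinite (continuous_ev G) hcont hs fun z hz => ?_) ω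
    have := h1 z hz
    field_simp
    linear_combination this
  by_cases hex : ∃ α, α ≠ 0 ∧ H.coeff α ≠ 0
  · obtain ⟨α, hα, hHα⟩ := hex
    obtain ⟨a, b, ha, hab⟩ := step2 α hα hHα
    have hGE : G = sg 0 (C a) * tau α K + sg 0 (C b) := ev_inj' fun z => by
      rw [ev_add, ev_mul, ev_const, ev_const, ev_tau, hab]
    have hGc' : ∀ β, G.coeff β = C a * (exp (α * β) • taylor α (K.coeff β)) +
        (if β = 0 then C b else 0) := by
      intro β
      conv_lhs => rw [hGE]
      rw [AddMonoidAlgebra.coeff_add, Finsupp.add_apply, AddMonoidAlgebra.coeff_single_zero_mul,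
        tau_coeff, AddMonoidAlgebra.coeff_single, Finsupp.single_apply]
      congr 1
      by_cases hb : β = 0
      · simp [hb]
      · rw [if_neg hb, if_neg (fun h0 => hb h0.symm)]
    obtain ⟨s, hs, hω⟩ := h 0
    obtain ⟨R1, hR1, hR1s, hR1d⟩ := hat_dep G (lcoeff ℂ m ∘ₗ LinearMap.mulLeft ℂ (F.coeff 0)) (X ^ m)
    obtain ⟨R2, hR2, hR2s, hR2d⟩ := hat_dep K (lcoeff ℂ m) (H.coeff 0 * X ^ m)
    set c1 := ((F * H).coeff 0).coeff 0 with hc1
    have hmain : K * G + sg 0 (C c1) + R1 + R2 = 0 := by
      refine ev_inj_cof hs fun ω hω' => ?_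
      rw [ev_add, ev_add, ev_add, ev_mul, ev_const, ev_zero, ← hR1, ← hR2]
      have h1 := congrArg (fun p : ℂ[X] => p.coeff m) (hω ω hω')
      simp only [coeff_add, coeff_zero, if_true, zero_add] at h1
      have h2 : ((F * H).coeff 0 * X ^ m).coeff m = c1 := by
        have := CX ((F * H).coeff 0) 0 m
        rwa [zero_add] at this
      have ht := hat_top G ω (n := m) (p := X ^ m) (natDegree_X_pow_le m)
      have ht2 := hat_top K ω ht.1
      rw [h2, ht2.2, ht.2] at h1
      rw [LinearMap.comp_apply, LinearMap.mulLeft_apply, lcoeff_apply, lcoeff_apply]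
      refine Eq.trans ?_ h1
      simp only [coeff_X_pow_self, mul_one]
      ring
    by_cases hex2 : ∃ β, β ≠ 0 ∧ K.coeff β ≠ 0
    · -- largest frequency
      obtain ⟨β, hβ0, hβ⟩ := hex2
      obtain ⟨e, he, hmax⟩ := Finset.exists_max_image (K.coeff.support.filter (fun x => x ≠ 0))
        (fun x => ‖x‖) ⟨β, by simp [hβ0, hβ]⟩
      rw [Finset.mem_filter, Finsupp.mem_support_iff] at he
      obtain ⟨heK, he0⟩ := he
      have hnK : ∀ x, K.coeff x ≠ 0 → ‖x‖ ≤ ‖e‖ := by
        intro x hx
        by_cases hx0 : x = 0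
        · rw [hx0, norm_zero]; exact norm_nonneg _
        · exact hmax x (by simp [hx0, hx])
      have hnG : ∀ x, G.coeff x ≠ 0 → ‖x‖ ≤ ‖e‖ := by
        intro x hx
        by_cases hx0 : x = 0
        · rw [hx0, norm_zero]; exact norm_nonneg _
        · refine hnK x fun h0 => hx ?_
          rw [hGc' x, h0, if_neg hx0]; simp
      have hee : ¬ ‖e + e‖ ≤ ‖e‖ := by
        have : ‖e + e‖ = 2 * ‖e‖ := by
          rw [← two_mul, norm_mul]; simp
        rw [this]
        have : 0 < ‖e‖ := norm_pos_iff.2 he0
        linarith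
      have hee0 : e + e ≠ 0 := by
        intro h0; apply he0; simpa using h0
      have hKee : K.coeff (e + e) = 0 := by
        by_contra hh; exact hee (hnK _ hh)
      have hGee : G.coeff (e + e) = 0 := by
        by_contra hh; exact hee (hnG _ hh)
      have huniq : UniqueAdd K.coeff.support G.coeff.support e e := by
        intro x y hx hy hxy
        have hx' := hnK x (Finsupp.mem_support_iff.1 hx)
        have hy' := hnG y (Finsupp.mem_support_iff.1 hy)
        have hpar := parallelogram_law_with_norm ℝ x y
        have h2e : ‖x + y‖ = 2 * ‖e‖ := by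
          rw [hxy, ← two_mul, norm_mul]; simp
        rw [h2e] at hpar
        have hxy0 : ‖x - y‖ = 0 := by
          nlinarith [norm_nonneg x, norm_nonneg y, norm_nonneg (x - y), norm_nonneg e,
            mul_self_le_mul_self (norm_nonneg x) hx', mul_self_le_mul_self (norm_nonneg y) hy']
        have hxe : x = y := sub_eq_zero.1 (norm_eq_zero.1 hxy0)
        subst hxe
        have : x = e := by
          have h2 : (2 : ℂ) * x = 2 * e := by linear_combination hxy
          exact mul_left_cancel₀ two_ne_zero h2
        exact ⟨this, this⟩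
      have hprod := AddMonoidAlgebra.coeff_mul_add_of_uniqueAdd huniq
      have h3 := congrArg (fun Z : E => Z.coeff (e + e)) hmain
      simp only [AddMonoidAlgebra.coeff_add, Finsupp.add_apply, AddMonoidAlgebra.coeff_zero,
        Finsupp.zero_apply] at h3
      rw [hprod, hR1s _ hGee, hR2s _ hKee, AddMonoidAlgebra.coeff_single, Finsupp.single_apply,
        if_neg (fun h0 => hee0 h0.symm), add_zero, add_zero, add_zero] at h3
      have hGe : G.coeff e ≠ 0 := by
        rw [hGc' e, if_neg he0, add_zero]
        refine mul_ne_zero (C_ne_zero.2 ha) (smul_ne_zero (Complex.exp_ne_zero _) ?_)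
        rw [Ne, taylor_eq_zero]; exact heK
      exact mul_ne_zero heK hGe h3
    · push_neg at hex2
      have hK0 := eq_single_zero hex2
      set k0 := K.coeff 0 with hk0
      set D := k0.natDegree with hD
      have hD1 : 1 ≤ D := by
        by_contra hlt
        have : D = 0 := by omega
        exact hK ⟨k0.coeff 0, by rw [hK0]; congr 1; exact eq_C_of_natDegree_eq_zero this⟩
      have hk0ne : k0.coeff D ≠ 0 := by
        refine leadingCoeff_ne_zero.2 fun h0 => ?_
        rw [h0] at hD; simp at hD; omega
      have hg0 := hGc' 0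
      rw [if_pos rfl, mul_zero, Complex.exp_zero, one_smul, ← hk0] at hg0
      have htt := taylor_top α (p := k0) (n := D) le_rfl
      have hg0d : (G.coeff 0).natDegree ≤ D := by
        rw [hg0]
        refine (natDegree_add_le _ _).trans (max_le ((natDegree_C_mul_le _ _).trans htt.1) ?_)
        rw [natDegree_C]; exact Nat.zero_le _
      have hg0c : (G.coeff 0).coeff D = a * k0.coeff D := by
        rw [hg0, coeff_add, coeff_C_mul, htt.2, coeff_C, if_neg (by omega)]; ring
      have h3 := congrArg (fun Z : E => (Z.coeff 0).coeff (D + D)) hmain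
      simp only [AddMonoidAlgebra.coeff_add, Finsupp.add_apply, AddMonoidAlgebra.coeff_zero,
        Finsupp.zero_apply, coeff_add, coeff_zero] at h3
      have hKG : (K * G).coeff 0 = k0 * G.coeff 0 := by
        conv_lhs => rw [hK0]
        exact AddMonoidAlgebra.coeff_single_zero_mul _ _ _
      rw [hKG, coeff_mul_add_eq_of_natDegree_le le_rfl hg0d, hg0c, AddMonoidAlgebra.coeff_single,
        Finsupp.single_eq_same, coeff_C, if_neg (by omega),
        coeff_eq_zero_of_natDegree_lt (show (R1.coeff 0).natDegree < D + D by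
          have := hR1d 0; omega),
        coeff_eq_zero_of_natDegree_lt (show (R2.coeff 0).natDegree < D + D by
          have : (R2.coeff 0).natDegree ≤ D := hR2d 0; omega), add_zero, add_zero, add_zero] at h3
      exact mul_ne_zero hk0ne (mul_ne_zero ha hk0ne) h3
  · push_neg at hex
    have hF0 := eq_single_zero fun α hα => step1 α hα (hex α hα)
    have hH0 := eq_single_zero hex
    set f0 := F.coeff 0 with hf0
    set h0 := H.coeff 0 with hh0
    have hFH : (F * H).coeff 0 = f0 * h0 := by
      conv_lhs => rw [hF0]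
      rw [AddMonoidAlgebra.coeff_single_zero_mul, hh0]
    obtain ⟨s, hs, hω⟩ := h 0
    have key : ∀ e : ℕ, f0.natDegree ≤ e → h0.natDegree ≤ e → ∀ ω ∉ s,
        (f0 * h0).coeff e + f0.coeff e * ev G ω + ev K ω * h0.coeff e +
          (if e = 0 then ev K ω * ev G ω else 0) = 0 := by
      intro e h1 h2 ω hω'
      have := coefEq (hω ω hω') e h1 h2
      rw [hFH] at this
      simpa only [if_true, zero_add] using this
    by_cases ha : f0.natDegree = 0
    · by_cases hd : h0.natDegree = 0
      · have hfc := eq_C_of_natDegree_eq_zero ha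
        have hhc := eq_C_of_natDegree_eq_zero hd
        have hz : (K + sg 0 (C (f0.coeff 0))) * (G + sg 0 (C (h0.coeff 0))) = 0 := by
          refine ev_inj_cof hs fun ω hω' => ?_
          rw [ev_mul, ev_add, ev_add, ev_const, ev_const, ev_zero]
          have := key 0 (by omega) (by omega) ω hω'
          rw [if_pos rfl] at this
          rw [mul_coeff_zero] at this
          linear_combination this
        rcases mul_eq_zero.1 hz with h1 | h1
        · refine hK ⟨-(f0.coeff 0), ?_⟩
          have := eq_neg_of_add_eq_zero_left h1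
          rw [this, C_neg]
          exact (AddMonoidAlgebra.single_neg 0 _).symm
        · refine hG ⟨-(h0.coeff 0), ?_⟩
          have := eq_neg_of_add_eq_zero_left h1
          rw [this, C_neg]
          exact (AddMonoidAlgebra.single_neg 0 _).symm
      · have hfc := eq_C_of_natDegree_eq_zero ha
        have hlc : h0.coeff h0.natDegree ≠ 0 :=
          leadingCoeff_ne_zero.2 fun h0' => hd (by rw [h0']; simp)
        refine hKc hs (α := 0) (c := -(f0.coeff 0)) fun ω hω' => ?_
        have := key h0.natDegree (by omega) le_rfl ω hω'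
        rw [if_neg hd, coeff_eq_zero_of_natDegree_lt (show f0.natDegree < h0.natDegree by omega)]
          at this
        rw [hfc, coeff_C_mul] at this
        have h2 : (f0.coeff 0 + ev K ω) * h0.coeff h0.natDegree = 0 := by
          linear_combination this
        have h3 := (mul_eq_zero.1 h2).resolve_right hlc
        rw [zero_add]; linear_combination h3
    · by_cases hd : h0.natDegree = 0
      · have hhc := eq_C_of_natDegree_eq_zero hd
        have hlc : f0.coeff f0.natDegree ≠ 0 :=
          leadingCoeff_ne_zero.2 fun h0' => ha (by rw [h0']; simp)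
        refine hGc hs (c := -(h0.coeff 0)) fun ω hω' => ?_
        have := key f0.natDegree le_rfl (by omega) ω hω'
        rw [if_neg ha, coeff_eq_zero_of_natDegree_lt (show h0.natDegree < f0.natDegree by omega)]
          at this
        rw [hhc, coeff_mul_C] at this
        have h2 : (h0.coeff 0 + ev G ω) * f0.coeff f0.natDegree = 0 := by
          linear_combination this
        have h3 := (mul_eq_zero.1 h2).resolve_right hlc
        linear_combination h3
      · have hlf : f0.coeff f0.natDegree ≠ 0 :=
          leadingCoeff_ne_zero.2 fun h0' => ha (by rw [h0']; simp)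
        have hlh : h0.coeff h0.natDegree ≠ 0 :=
          leadingCoeff_ne_zero.2 fun h0' => hd (by rw [h0']; simp)
        obtain ⟨ω, hω'⟩ : ∃ ω, ω ∉ s := by
          by_contra hcon; push_neg at hcon
          exact Set.infinite_univ (α := ℂ) (hs.subset fun x _ => hcon x)
        have := key (f0.natDegree + h0.natDegree) (by omega) (by omega) ω hω'
        rw [coeff_mul_add_eq_of_natDegree_le le_rfl le_rfl, if_neg (by omega),
          coeff_eq_zero_of_natDegree_lt (show f0.natDegree < f0.natDegree + h0.natDegree by omega),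
          coeff_eq_zero_of_natDegree_lt (show h0.natDegree < f0.natDegree + h0.natDegree by omega)]
          at this
        exact mul_ne_zero hlf hlh (by linear_combination this)

end R881Fs
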