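import Mathlib
import Pool.Agent.R881.FsF

open MeasureTheory Complex Polynomial
open scoped Real ComplexConjugate Nat

namespace R881Fs

/-- density of `μ_m` -/
noncomputable def wt (m : ℕ) (w : ℂ) : ℝ := ‖w‖ ^ (2 * m) * Real.exp (-‖w‖ ^ 2) / (π * (m ! : ℝ))

/-- reproducing kernel -/
noncomputable def Ker (m : ℕ) (z w : ℂ) : ℂ :=
  ∑' k : ℕ, ((m ! : ℂ) / ((k + m) ! : ℂ)) * (z * conj w) ^ k

/-- projection -/
noncomputable def P (m : ℕ) (phi : ℂ → ℂ) (z : ℂ) : ℂ := ∫ w : ℂ, phi w * Ker m z w * (wt m w : ℂ)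

lemma ker_hasSum (m : ℕ) (x : ℂ) :
    HasSum (fun k : ℕ => x ^ (k + m) / ((k + m) ! : ℂ))
      (exp x - ∑ j ∈ Finset.range m, x ^ j / (j ! : ℂ)) := by
  have h := NormedSpace.expSeries_div_hasSum_exp (𝔸 := ℂ) x
  rw [← Complex.exp_eq_exp_ℂ] at h
  exact (hasSum_nat_add_iff' m).2 h

lemma ker_id (m : ℕ) (x : ℂ) :
    x ^ m * (∑' k : ℕ, ((m ! : ℂ) / ((k + m) ! : ℂ)) * x ^ k) =
      (m ! : ℂ) * (exp x - ∑ j ∈ Finset.range m, x ^ j / (j ! : ℂ)) := by
  rw [← (ker_hasSum m x).tsum_eq, ← tsum_mul_left, ← tsum_mul_left]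
  congr 1; funext k
  rw [pow_add]; ring

lemma P_point (m : ℕ) (phi : ℂ → ℂ) (z w : ℂ) :
    z ^ m * (phi w * Ker m z w * (wt m w : ℂ)) =
      w ^ m * phi w * exp (z * conj w) * ga w -
        ∑ j ∈ Finset.range m, z ^ j / (j ! : ℂ) * (w ^ m * phi w * (conj w) ^ j * ga w) := by
  have h1 : (wt m w : ℂ) = w ^ m * (conj w) ^ m * ga w / (m ! : ℂ) := by
    unfold wt ga
    rw [← mul_pow, Complex.mul_conj, Complex.normSq_eq_norm_sq]
    push_cast
    rw [pow_mul]
    field_simp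
  have h2 := ker_id m (z * conj w)
  have hm : (m ! : ℂ) ≠ 0 := by exact_mod_cast Nat.factorial_ne_zero _
  have h3 : z ^ m * (phi w * Ker m z w * (wt m w : ℂ)) =
      w ^ m * phi w * ga w / (m ! : ℂ) * ((z * conj w) ^ m * Ker m z w) := by
    rw [h1, mul_pow]; ring
  rw [h3]
  unfold Ker
  rw [h2]
  have h4 : w ^ m * phi w * ga w / (m ! : ℂ) * ((m ! : ℂ) * (exp (z * conj w) -
      ∑ j ∈ Finset.range m, (z * conj w) ^ j / (j ! : ℂ))) =
      w ^ m * phi w * ga w * (exp (z * conj w) -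
      ∑ j ∈ Finset.range m, (z * conj w) ^ j / (j ! : ℂ)) := by field_simp
  rw [h4, mul_sub, Finset.mul_sum]
  congr 1
  · ring
  · refine Finset.sum_congr rfl fun j _ => ?_
    rw [mul_pow]; ring

lemma P_formula (m : ℕ) (phi : ℂ → ℂ)
    (h1 : ∀ z, Integrable (fun w : ℂ => w ^ m * phi w * exp (z * conj w) * ga w))
    (h2 : ∀ j : ℕ, Integrable (fun w : ℂ => w ^ m * phi w * (conj w) ^ j * ga w)) :
    ∃ r : ℂ[X], ∀ z, z ^ m * P m phi z =
      (∫ w : ℂ, w ^ m * phi w * exp (z * conj w) * ga w) - r.eval z := by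
  refine ⟨∑ j ∈ Finset.range m,
    C ((∫ w : ℂ, w ^ m * phi w * (conj w) ^ j * ga w) / (j ! : ℂ)) * X ^ j, fun z => ?_⟩
  unfold P
  rw [← integral_const_mul]
  simp_rw [P_point m phi z]
  rw [integral_sub (h1 z) (integrable_finset_sum _ fun j _ => (h2 j).const_mul _),
    integral_finset_sum _ fun j _ => (h2 j).const_mul _, eval_finset_sum]
  congr 1
  refine Finset.sum_congr rfl fun j _ => ?_
  rw [integral_const_mul, eval_mul, eval_C, eval_pow, eval_X]; ring

lemma hat_one (c : ℂ) (p : ℂ[X]) : hat (sg 0 1) c p = p := by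
  rw [hat_single]; simp

lemma Kop_one (Z : E) : Kop (sg 0 1) Z = Z := by
  rw [← AddMonoidAlgebra.coeff_inj]
  ext1 a
  rw [Kop_coeff, hat_one]

lemma ev_one (z : ℂ) : ev (sg 0 1) z = 1 := by rw [ev_single]; simp

section general

variable (F K Z : E)

lemma uZ_int (b : ℕ) (z : ℂ) : Integrable (fun w : ℂ =>
    (ev F w + ev K (conj w)) * ev Z w * (conj w) ^ b * exp (z * conj w) * ga w) := by
  refine ((T0_int (sg 0 1) (F * Z) b z).add (T0_int K Z b z)).congr
    (Filter.Eventually.of_forall fun w => ?_)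
  simp only [Pi.add_apply, ev_one, ev_mul]; ring

lemma uZ_int1 (z : ℂ) : Integrable (fun w : ℂ =>
    (ev F w + ev K (conj w)) * ev Z w * exp (z * conj w) * ga w) := by
  refine (uZ_int F K Z 0 z).congr (Filter.Eventually.of_forall fun w => ?_)
  simp

lemma uZ_int2 (b : ℕ) : Integrable (fun w : ℂ =>
    (ev F w + ev K (conj w)) * ev Z w * (conj w) ^ b * ga w) := by
  refine (uZ_int F K Z b 0).congr (Filter.Eventually.of_forall fun w => ?_)
  simp

lemma uZ_val (z : ℂ) : ∫ w : ℂ, (ev F w + ev K (conj w)) * ev Z w * exp (z * conj w) * ga w =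
    ev (F * Z + Kop K Z) z := by
  have h1 := T0_main (sg 0 1) (F * Z) z
  have h2 := T0_main K Z z
  rw [Kop_one] at h1
  rw [ev_add, ← h1, ← h2, ← integral_add (T0_int0 _ _ z) (T0_int0 _ _ z)]
  congr 1; funext w
  rw [ev_one, ev_mul]; ring

end general

/-- From `z^m phi = u Z` we get `z^m P phi`. -/
lemma P_uZ (m : ℕ) (F K Z : E) (phi : ℂ → ℂ)
    (hphi : ∀ w, w ^ m * phi w = (ev F w + ev K (conj w)) * ev Z w) :
    ∃ r : ℂ[X], ∀ z, z ^ m * P m phi z = ev (F * Z + Kop K Z - sg 0 r) z := by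
  obtain ⟨r, hr⟩ := P_formula m phi (fun z => by simp_rw [hphi]; exact uZ_int1 F K Z z)
    (fun j => by simp_rw [hphi]; exact uZ_int2 F K Z j)
  refine ⟨r, fun z => ?_⟩
  rw [hr z, ev_sub, ← uZ_val, ev_single]
  simp_rw [hphi]; simp

/-- The polynomial identities. -/
theorem HB_of_exp (m : ℕ) (F H K G : E) (u v : ℂ → ℂ)
    (hu : ∀ w, u w = ev F w + ev K (conj w)) (hv : ∀ w, v w = ev H w + ev G (conj w))
    (hyp : ∀ ω z : ℂ, P m (fun y => u y * P m (fun x => v x * exp (ω * x)) y) z = 0) :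
    HB m F H K G := by
  classical
  intro α
  refine ⟨(fun x => x - α) '' (({0} : Set ℂ) ∪ (F.coeff.support : Set ℂ)),
    (((Set.finite_singleton 0).union (Finset.finite_toSet _)).image _), fun ω hω => ?_⟩
  have hω0 : α + ω ≠ 0 := by
    intro h0; exact hω ⟨0, Or.inl rfl, by simp only; linear_combination -h0⟩
  have hωF : F.coeff (α + ω) = 0 := by
    by_contra h0
    exact hω ⟨α + ω, Or.inr (by simpa using h0), by simp only; ring⟩
  obtain ⟨r, hr⟩ := P_uZ m H G (sg ω (X ^ m)) (fun x => v x * exp (ω * x)) (by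
    intro w; rw [hv, ev_single, eval_pow, eval_X]; ring)
  set Z : E := H * sg ω (X ^ m) + Kop G (sg ω (X ^ m)) - sg 0 r with hZ
  obtain ⟨s, hs⟩ := P_uZ m F K Z (fun y => u y * P m (fun x => v x * exp (ω * x)) y) (by
    intro w; rw [← hr w, hu]; ring)
  have h1 : F * Z + Kop K Z - sg 0 s = 0 := by
    refine ev_inj fun z => ?_
    rw [← hs z, hyp ω z, mul_zero]
  have h2 := congrArg (fun Y : E => Y.coeff (α + ω)) h1
  have hiff : ∀ x : ℂ, x + ω = α + ω ↔ x = α := fun x => add_left_inj ω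
  have hZc : Z.coeff (α + ω) = H.coeff α * X ^ m + (if α = 0 then hat G ω (X ^ m) else 0) := by
    rw [hZ, AddMonoidAlgebra.coeff_sub, Finsupp.sub_apply, AddMonoidAlgebra.coeff_add,
      Finsupp.add_apply, AddMonoidAlgebra.coeff_mul_single_eq_coeff_mul α (fun x _ => hiff x),
      Kop_single, AddMonoidAlgebra.coeff_single, AddMonoidAlgebra.coeff_single,
      Finsupp.single_apply, Finsupp.single_apply, if_neg (show ¬((0 : ℂ) = α + ω) from fun h0 => hω0 h0.symm), sub_zero]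
    congr 1
    by_cases h0 : α = 0
    · rw [if_pos (by rw [h0, zero_add]), if_pos h0]
    · rw [if_neg (fun h => h0 (by linear_combination -h)), if_neg h0]
  have hFZ : (F * Z).coeff (α + ω) = (F * H).coeff α * X ^ m + F.coeff α * hat G ω (X ^ m) := by
    have e : F * Z = F * H * sg ω (X ^ m) + F * sg ω (hat G ω (X ^ m)) - F * sg 0 r := by
      rw [hZ, Kop_single]; ring
    rw [e, AddMonoidAlgebra.coeff_sub, Finsupp.sub_apply, AddMonoidAlgebra.coeff_add,
      Finsupp.add_apply, AddMonoidAlgebra.coeff_mul_single_eq_coeff_mul α (fun x _ => hiff x),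
      AddMonoidAlgebra.coeff_mul_single_eq_coeff_mul α (fun x _ => hiff x),
      AddMonoidAlgebra.coeff_mul_single_zero, hωF, zero_mul, sub_zero]
  simp only [AddMonoidAlgebra.coeff_sub, Finsupp.sub_apply, AddMonoidAlgebra.coeff_add,
    Finsupp.add_apply, AddMonoidAlgebra.coeff_zero, Finsupp.zero_apply] at h2
  rw [hFZ, Kop_coeff, hZc, map_add, AddMonoidAlgebra.coeff_single, Finsupp.single_apply,
    if_neg (show ¬((0 : ℂ) = α + ω) from fun h0 => hω0 h0.symm), sub_zero] at h2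
  refine Eq.trans ?_ h2
  rw [add_assoc]
  congr 2
  by_cases h0 : α = 0
  · rw [if_pos h0, if_pos h0, h0, zero_add]
  · rw [if_neg h0, if_neg h0, map_zero]

/-- Zero product theorem for exponential test functions. -/
theorem main_exp (m : ℕ) (F H K G : E) (u v : ℂ → ℂ)
    (hu : ∀ w, u w = ev F w + ev K (conj w)) (hv : ∀ w, v w = ev H w + ev G (conj w))
    (hyp : ∀ ω z : ℂ, P m (fun y => u y * P m (fun x => v x * exp (ω * x)) y) z = 0) :
    (∀ w, u w = 0) ∨ ∀ w, v w = 0 := by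
  have habsu : ∀ c, K = sg 0 (C c) → ∀ w, u w = ev (F + sg 0 (C c)) w + ev 0 (conj w) := by
    intro c hc w
    rw [hu, hc, ev_add, ev_const, ev_const, ev_zero]; ring
  have habsv : ∀ c, G = sg 0 (C c) → ∀ w, v w = ev (H + sg 0 (C c)) w + ev 0 (conj w) := by
    intro c hc w
    rw [hv, hc, ev_add, ev_const, ev_const, ev_zero]; ring
  have both : ∀ c c', K = sg 0 (C c) → G = sg 0 (C c') → (∀ w, u w = 0) ∨ ∀ w, v w = 0 := by
    intro c c' hc hc'
    rcases alg_KG (HB_of_exp m _ _ _ _ u v (habsu c hc) (habsv c' hc') hyp) with h | h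
    · left; intro w; rw [habsu c hc, h, ev_zero, ev_zero, add_zero]
    · right; intro w; rw [habsv c' hc', h, ev_zero, ev_zero, add_zero]
  rcases alg (HB_of_exp m F H K G u v hu hv hyp) with ⟨c, hc⟩ | ⟨c, hc⟩
  · rcases alg_K (HB_of_exp m _ _ _ _ u v (habsu c hc) hv hyp) with h | ⟨c', hc'⟩
    · left; intro w; rw [habsu c hc, h, ev_zero, ev_zero, add_zero]
    · exact both c c' hc hc'
  · rcases alg_G (HB_of_exp m _ _ _ _ u v hu (habsv c hc) hyp) with h | ⟨c', hc'⟩
    · right; intro w; rw [habsv c hc, h, ev_zero, ev_zero, add_zero]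
    · exact both c' c hc' hc

end R881Fs
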