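import Mathlib
import Pool.Agent.R881.FsG

open MeasureTheory Complex Polynomial
open scoped Real ComplexConjugate Nat

namespace R881Fs

lemma int_base' (N : ℕ) (s : ℝ) {d : ℝ} (hd : 0 < d) :
    Integrable (fun w : ℂ => ‖w‖ ^ N * Real.exp (s * ‖w‖) * Real.exp (-(d * ‖w‖ ^ 2))) := by
  have h0 : Integrable (fun w : ℂ => Real.exp (-(d / 2) * ‖w‖ ^ 2)) := by
    have := GaussianFourier.integrable_cexp_neg_mul_sq_norm_add (V := ℂ) (b := ((d / 2 : ℝ) : ℂ))
      (by rw [Complex.ofReal_re]; linarith) 0 (0 : ℂ)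
    refine this.norm.congr (Filter.Eventually.of_forall fun w => ?_)
    simp only [Complex.norm_exp]
    congr 1
    have : (-((d / 2 : ℝ) : ℂ) * (‖w‖ : ℂ) ^ 2 + 0 * inner ℝ (0 : ℂ) w) =
        ((-(d / 2) * ‖w‖ ^ 2 : ℝ) : ℂ) := by push_cast; ring
    rw [this, Complex.ofReal_re]
  refine Integrable.mono' (h0.const_mul ((N ! : ℝ) * Real.exp ((s + 1) ^ 2 / (2 * d))))
    (by fun_prop) (Filter.Eventually.of_forall fun w => ?_)
  have hr : 0 ≤ ‖w‖ := norm_nonneg w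
  rw [Real.norm_of_nonneg (by positivity)]
  have h1 : ‖w‖ ^ N ≤ (N ! : ℝ) * Real.exp ‖w‖ := by
    have := Real.pow_div_factorial_le_exp (‖w‖) hr N
    have hN : (0 : ℝ) < (N ! : ℝ) := by positivity
    rw [div_le_iff₀ hN] at this
    linarith [mul_comm (N ! : ℝ) (Real.exp ‖w‖)]
  have h2 : ‖w‖ + s * ‖w‖ + -(d * ‖w‖ ^ 2) ≤ (s + 1) ^ 2 / (2 * d) + -(d / 2) * ‖w‖ ^ 2 := by
    have : (s + 1) ^ 2 / (2 * d) + -(d / 2) * ‖w‖ ^ 2 - (‖w‖ + s * ‖w‖ + -(d * ‖w‖ ^ 2)) =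
        (s + 1 - d * ‖w‖) ^ 2 / (2 * d) := by field_simp; ring
    have h3 : 0 ≤ (s + 1 - d * ‖w‖) ^ 2 / (2 * d) := by positivity
    linarith
  calc ‖w‖ ^ N * Real.exp (s * ‖w‖) * Real.exp (-(d * ‖w‖ ^ 2))
      ≤ ((N ! : ℝ) * Real.exp ‖w‖) * Real.exp (s * ‖w‖) * Real.exp (-(d * ‖w‖ ^ 2)) := by gcongr
    _ = (N ! : ℝ) * Real.exp (‖w‖ + s * ‖w‖ + -(d * ‖w‖ ^ 2)) := by
        rw [Real.exp_add, Real.exp_add]; ring
    _ ≤ (N ! : ℝ) * Real.exp ((s + 1) ^ 2 / (2 * d) + -(d / 2) * ‖w‖ ^ 2) :=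
        mul_le_mul_of_nonneg_left (Real.exp_le_exp.2 h2) (by positivity)
    _ = (N ! : ℝ) * Real.exp ((s + 1) ^ 2 / (2 * d)) * Real.exp (-(d / 2) * ‖w‖ ^ 2) := by
        rw [Real.exp_add]; ring

/-- at most exponential growth -/
def Gr (f : ℂ → ℂ) : Prop := ∃ C S : ℝ, 0 ≤ C ∧ 0 ≤ S ∧ ∀ w, ‖f w‖ ≤ C * Real.exp (S * ‖w‖)

lemma Gr.add {f g : ℂ → ℂ} (hf : Gr f) (hg : Gr g) : Gr (fun w => f w + g w) := by
  obtain ⟨C, S, hC, hS, h⟩ := hf
  obtain ⟨C', S', hC', hS', h'⟩ := hg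
  refine ⟨C + C', S + S', by positivity, by positivity, fun w => ?_⟩
  have hw := norm_nonneg w
  have e1 : Real.exp (S * ‖w‖) ≤ Real.exp ((S + S') * ‖w‖) :=
    Real.exp_le_exp.2 (by nlinarith)
  have e2 : Real.exp (S' * ‖w‖) ≤ Real.exp ((S + S') * ‖w‖) :=
    Real.exp_le_exp.2 (by nlinarith)
  calc ‖f w + g w‖ ≤ ‖f w‖ + ‖g w‖ := norm_add_le _ _
    _ ≤ C * Real.exp (S * ‖w‖) + C' * Real.exp (S' * ‖w‖) := add_le_add (h w) (h' w)
    _ ≤ C * Real.exp ((S + S') * ‖w‖) + C' * Real.exp ((S + S') * ‖w‖) := by gcongr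
    _ = (C + C') * Real.exp ((S + S') * ‖w‖) := by ring

lemma Gr.mul {f g : ℂ → ℂ} (hf : Gr f) (hg : Gr g) : Gr (fun w => f w * g w) := by
  obtain ⟨C, S, hC, hS, h⟩ := hf
  obtain ⟨C', S', hC', hS', h'⟩ := hg
  refine ⟨C * C', S + S', by positivity, by positivity, fun w => ?_⟩
  calc ‖f w * g w‖ = ‖f w‖ * ‖g w‖ := norm_mul _ _
    _ ≤ (C * Real.exp (S * ‖w‖)) * (C' * Real.exp (S' * ‖w‖)) :=
        mul_le_mul (h w) (h' w) (norm_nonneg _) (by positivity)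
    _ = C * C' * Real.exp ((S + S') * ‖w‖) := by rw [add_mul, Real.exp_add]; ring

lemma Gr.zero : Gr (fun _ => 0) := ⟨0, 0, le_rfl, le_rfl, fun w => by simp⟩

lemma Gr.sum {ι : Type*} (s : Finset ι) (f : ι → ℂ → ℂ) (h : ∀ i ∈ s, Gr (f i)) :
    Gr (fun w => ∑ i ∈ s, f i w) := by
  classical
  induction s using Finset.induction_on with
  | empty => simpa using Gr.zero
  | insert i s hi ih =>
    have := (h i (Finset.mem_insert_self i s)).add
      (ih fun j hj => h j (Finset.mem_insert_of_mem hj))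
    simpa [Finset.sum_insert hi] using this

lemma Gr.exp (a : ℂ) : Gr (fun w => exp (a * w)) :=
  ⟨1, ‖a‖, zero_le_one, norm_nonneg _, fun w => by rw [one_mul]; exact norm_exp_le a w⟩

lemma Gr.poly (p : ℂ[X]) : Gr (fun w => p.eval w) := by
  induction p using Polynomial.induction_on' with
  | add p q hp hq => simpa using hp.add hq
  | monomial n a =>
    refine ⟨‖a‖ * (n ! : ℝ), 1, by positivity, zero_le_one, fun w => ?_⟩
    have h1 : ‖w‖ ^ n ≤ (n ! : ℝ) * Real.exp ‖w‖ := by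
      have := Real.pow_div_factorial_le_exp (‖w‖) (norm_nonneg w) n
      have hN : (0 : ℝ) < (n ! : ℝ) := by positivity
      rw [div_le_iff₀ hN] at this
      linarith [mul_comm (n ! : ℝ) (Real.exp ‖w‖)]
    show ‖eval w (monomial n a)‖ ≤ _
    rw [eval_monomial, norm_mul, norm_pow, one_mul, mul_assoc]
    exact mul_le_mul_of_nonneg_left h1 (norm_nonneg _)

lemma Gr.ev (F : E) : Gr (ev F) := by
  have : R881Fs.ev F = fun z => ∑ a ∈ F.coeff.support, (F.coeff a).eval z * Complex.exp (a * z) := by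
    funext z; rw [ev_eq_sum]; rfl
  rw [this]
  exact Gr.sum _ _ fun a _ => (Gr.poly _).mul (Gr.exp a)

lemma Gr.conj {f : ℂ → ℂ} (hf : Gr f) : Gr (fun w => f (conj w)) := by
  obtain ⟨C, S, hC, hS, h⟩ := hf
  exact ⟨C, S, hC, hS, fun w => by simpa using h (conj w)⟩

/-! ### power series with factorial decay -/

section ps

variable {a : ℕ → ℂ} (ha : ∀ k, ‖a k‖ ≤ 1 / (k ! : ℝ))
include ha

lemma ps_term (t : ℂ) (k : ℕ) : ‖a k * t ^ k‖ ≤ ‖t‖ ^ k / (k ! : ℝ) := by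
  rw [norm_mul, norm_pow, div_eq_mul_one_div, mul_comm]
  exact mul_le_mul_of_nonneg_left (ha k) (by positivity)

lemma ps_summable (t : ℂ) : Summable (fun k => a k * t ^ k) :=
  Summable.of_norm_bounded (Real.summable_pow_div_factorial ‖t‖) (ps_term ha t)

lemma ps_norm (t : ℂ) : ‖∑' k, a k * t ^ k‖ ≤ Real.exp ‖t‖ := by
  have h := tsum_of_norm_bounded (f := fun k => a k * t ^ k)
    (Real.summable_pow_div_factorial ‖t‖).hasSum (ps_term ha t)
  have e : Real.exp ‖t‖ = ∑' k : ℕ, ‖t‖ ^ k / (k ! : ℝ) := by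
    have := congrFun Real.exp_eq_exp_ℝ ‖t‖
    rw [this, NormedSpace.exp_eq_tsum_div]
  rw [e]; exact h

lemma ps_meas : Measurable (fun t : ℂ => ∑' k, a k * t ^ k) := by
  refine measurable_of_tendsto_metrizable (f := fun n t => ∑ k ∈ Finset.range n, a k * t ^ k)
    (fun n => by fun_prop) ?_
  rw [tendsto_pi_nhds]
  exact fun t => (ps_summable ha t).hasSum.tendsto_sum_nat

end ps

lemma aK_le (m k : ℕ) : ‖((m ! : ℂ) / ((k + m) ! : ℂ))‖ ≤ 1 / (k ! : ℝ) := by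
  rw [norm_div, Complex.norm_natCast, Complex.norm_natCast,
    div_le_div_iff₀ (by positivity) (by positivity), one_mul, mul_comm]
  exact_mod_cast Nat.le_of_dvd (Nat.factorial_pos _)
    (Nat.factorial_mul_factorial_dvd_factorial_add k m)

lemma Ker_norm (m : ℕ) (z w : ℂ) : ‖Ker m z w‖ ≤ Real.exp (‖z‖ * ‖w‖) := by
  have h := ps_norm (a := fun k => (m ! : ℂ) / ((k + m) ! : ℂ)) (aK_le m) (z * conj w)
  rwa [norm_mul, RCLike.norm_conj] at h

lemma meas_Ker (m : ℕ) : Measurable (fun p : ℂ × ℂ => Ker m p.1 p.2) := by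
  have h := ps_meas (a := fun k => (m ! : ℂ) / ((k + m) ! : ℂ)) (aK_le m)
  have h2 : Measurable (fun p : ℂ × ℂ => p.1 * conj p.2) :=
    (by fun_prop : Continuous fun p : ℂ × ℂ => p.1 * conj p.2).measurable
  exact h.comp h2

lemma meas_wt (m : ℕ) : Measurable (fun w : ℂ => (wt m w : ℂ)) := by
  have : Continuous (fun w : ℂ => (wt m w : ℂ)) := by
    unfold wt
    exact continuous_ofReal.comp (Continuous.div_const (by fun_prop) _)
  exact this.measurable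

lemma meas_P (m : ℕ) {f : ℂ → ℂ} (h : Measurable f) : Measurable (P m f) := by
  have h1 : Measurable (fun p : ℂ × ℂ => f p.2 * Ker m p.1 p.2 * (wt m p.2 : ℂ)) :=
    ((h.comp measurable_snd).mul (meas_Ker m)).mul ((meas_wt m).comp measurable_snd)
  exact (h1.stronglyMeasurable.integral_prod_right' (ν := (volume : Measure ℂ))).measurable

lemma wt_nonneg (m : ℕ) (w : ℂ) : 0 ≤ wt m w := by unfold wt; positivity

lemma P_bound (m : ℕ) {S : ℝ} (hS : 0 ≤ S) : ∃ D : ℝ, 0 ≤ D ∧ ∀ (C : ℝ), 0 ≤ C → ∀ (f : ℂ → ℂ),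
    (∀ x, ‖f x‖ ≤ C * Real.exp (S * ‖x‖)) → ∀ y, ‖P m f y‖ ≤ C * D * Real.exp (2 / 3 * ‖y‖ ^ 2) := by
  set g : ℂ → ℝ := fun x => ‖x‖ ^ (2 * m) * Real.exp (0 * ‖x‖) * Real.exp (-(1 / 4 * ‖x‖ ^ 2))
  have hg : Integrable g := int_base' (2 * m) 0 (by norm_num : (0 : ℝ) < 1 / 4)
  refine ⟨Real.exp (2 / 3 * S ^ 2) / (π * (m ! : ℝ)) * ∫ x, g x,
    mul_nonneg (by positivity) (integral_nonneg fun x => by positivity), ?_⟩
  intro C hC f hf y
  have h1 : Integrable (fun x => C * Real.exp (2 / 3 * ‖y‖ ^ 2) * (Real.exp (2 / 3 * S ^ 2) /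
      (π * (m ! : ℝ))) * g x) := hg.const_mul _
  have h2 := norm_integral_le_of_norm_le (f := fun x => f x * Ker m y x * (wt m x : ℂ)) h1
    (Filter.Eventually.of_forall fun x => ?_)
  · unfold P
    refine h2.trans (le_of_eq ?_)
    rw [integral_const_mul]; ring
  · rw [norm_mul, norm_mul, Complex.norm_real, Real.norm_of_nonneg (wt_nonneg m x)]
    have hx := norm_nonneg x
    have hy := norm_nonneg y
    have hexp : S * ‖x‖ + ‖y‖ * ‖x‖ + -‖x‖ ^ 2 ≤
        2 / 3 * ‖y‖ ^ 2 + 2 / 3 * S ^ 2 + (0 * ‖x‖ + -(1 / 4 * ‖x‖ ^ 2)) := by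
      nlinarith [sq_nonneg (S - ‖y‖), sq_nonneg (S + ‖y‖ - 3 / 2 * ‖x‖)]
    calc ‖f x‖ * ‖Ker m y x‖ * wt m x
        ≤ (C * Real.exp (S * ‖x‖)) * Real.exp (‖y‖ * ‖x‖) * wt m x := by
          refine mul_le_mul_of_nonneg_right ?_ (wt_nonneg m x)
          exact mul_le_mul (hf x) (Ker_norm m y x) (norm_nonneg _) (by positivity)
      _ = C * ‖x‖ ^ (2 * m) / (π * (m ! : ℝ)) *
            Real.exp (S * ‖x‖ + ‖y‖ * ‖x‖ + -‖x‖ ^ 2) := by
          unfold wt; rw [Real.exp_add, Real.exp_add]; ring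
      _ ≤ C * ‖x‖ ^ (2 * m) / (π * (m ! : ℝ)) *
            Real.exp (2 / 3 * ‖y‖ ^ 2 + 2 / 3 * S ^ 2 + (0 * ‖x‖ + -(1 / 4 * ‖x‖ ^ 2))) :=
          mul_le_mul_of_nonneg_left (Real.exp_le_exp.2 hexp) (by positivity)
      _ = _ := by
          rw [Real.exp_add, Real.exp_add, Real.exp_add]; ring

/-- interchange -/
lemma PH (m : ℕ) (f : ℕ → ℂ → ℂ) (Φ : ℂ → ℂ) (hm : ∀ q, Measurable (f q)) {C S : ℝ}
    (hb : ∀ q x, ‖f q x‖ ≤ (1 / 2) ^ q * (C * Real.exp (S * ‖x‖) * Real.exp (2 / 3 * ‖x‖ ^ 2)))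
    (hs : ∀ x, HasSum (fun q => f q x) (Φ x)) (z : ℂ) :
    HasSum (fun q => P m (f q) z) (P m Φ z) := by
  refine hasSum_integral_of_dominated_convergence (μ := (volume : Measure ℂ))
    (F := fun q w => f q w * Ker m z w * (wt m w : ℂ))
    (bound := fun q w => (1 / 2 : ℝ) ^ q * (C / (π * (m ! : ℝ)) *
      (‖w‖ ^ (2 * m) * Real.exp ((S + ‖z‖) * ‖w‖) * Real.exp (-(1 / 3 * ‖w‖ ^ 2))))) ?_ ?_ ?_ ?_ ?_
  · intro q
    have h1 : Measurable (fun w : ℂ => Ker m z w) := (meas_Ker m).comp (by fun_prop : Measurable fun w : ℂ => ((z, w) : ℂ × ℂ))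
    exact (((hm q).mul h1).mul (meas_wt m)).aestronglyMeasurable
  · intro q
    refine Filter.Eventually.of_forall fun w => ?_
    rw [norm_mul, norm_mul, Complex.norm_real, Real.norm_of_nonneg (wt_nonneg m w)]
    have hC0 : 0 ≤ (1 / 2 : ℝ) ^ q * (C * Real.exp (S * ‖w‖) * Real.exp (2 / 3 * ‖w‖ ^ 2)) :=
      (norm_nonneg _).trans (hb q w)
    calc ‖f q w‖ * ‖Ker m z w‖ * wt m w
        ≤ ((1 / 2) ^ q * (C * Real.exp (S * ‖w‖) * Real.exp (2 / 3 * ‖w‖ ^ 2))) *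
            Real.exp (‖z‖ * ‖w‖) * wt m w := by
          refine mul_le_mul_of_nonneg_right ?_ (wt_nonneg m w)
          exact mul_le_mul (hb q w) (Ker_norm m z w) (norm_nonneg _) hC0
      _ = _ := by
          unfold wt
          have : Real.exp (-(1 / 3 * ‖w‖ ^ 2)) =
            Real.exp (2 / 3 * ‖w‖ ^ 2) * Real.exp (-‖w‖ ^ 2) := by
              rw [← Real.exp_add]; congr 1; ring
          rw [this, add_mul, Real.exp_add]; ring
  · refine Filter.Eventually.of_forall fun w => ?_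
    exact (summable_geometric_of_lt_one (by norm_num) (by norm_num)).mul_right _
  · simp_rw [tsum_mul_right]
    exact ((int_base' (2 * m) (S + ‖z‖) (by norm_num : (0 : ℝ) < 1 / 3)).const_mul _).const_mul _
  · exact Filter.Eventually.of_forall fun w => ((hs w).mul_right _).mul_right _

lemma P_smul (m : ℕ) (c : ℂ) (f : ℂ → ℂ) (z : ℂ) :
    P m (fun x => c * f x) z = c * P m f z := by
  unfold P
  rw [← integral_const_mul]
  congr 1; funext w; ring

section TT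

variable (m : ℕ) {u v : ℂ → ℂ} (hum : Measurable u) (hvm : Measurable v) (hu : Gr u) (hv : Gr v)
  {a : ℕ → ℂ} (ha : ∀ k, ‖a k‖ ≤ 1 / (k ! : ℝ))
include hum hvm hu hv ha

lemma TT_hasSum (ω z : ℂ) :
    HasSum (fun q => a q * ω ^ q * P m (fun y => u y * P m (fun x => v x * x ^ q) y) z)
      (P m (fun y => u y * P m (fun x => v x * ∑' q, a q * (ω * x) ^ q) y) z) := by
  obtain ⟨Cv, Sv, hCv, hSv, hvb⟩ := hv
  obtain ⟨Cu, Su, hCu, hSu, hub⟩ := hu
  -- inner functions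
  set f : ℕ → ℂ → ℂ := fun q x => a q * ω ^ q * (v x * x ^ q) with hf
  have hfm : ∀ q, Measurable (f q) := fun q =>
    ((hvm.mul (by fun_prop : Measurable fun x : ℂ => x ^ q)).const_mul _)
  have hfb : ∀ q x, ‖f q x‖ ≤ (1 / 2) ^ q * Cv * Real.exp ((Sv + 2 * ‖ω‖) * ‖x‖) := by
    intro q x
    have h1 : ‖a q * (ω * x) ^ q‖ ≤ (1 / 2) ^ q * Real.exp (2 * ‖ω‖ * ‖x‖) := by
      refine (ps_term ha (ω * x) q).trans ?_
      have h2 := Real.pow_div_factorial_le_exp (2 * ‖ω‖ * ‖x‖) (by positivity) q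
      calc ‖ω * x‖ ^ q / (q ! : ℝ) = (1 / 2) ^ q * ((2 * ‖ω‖ * ‖x‖) ^ q / (q ! : ℝ)) := by
            rw [norm_mul, show 2 * ‖ω‖ * ‖x‖ = 2 * (‖ω‖ * ‖x‖) by ring, mul_pow 2,
              show (1 / 2 : ℝ) ^ q * (2 ^ q * (‖ω‖ * ‖x‖) ^ q / (q ! : ℝ)) =
                ((1 / 2 : ℝ) ^ q * 2 ^ q) * ((‖ω‖ * ‖x‖) ^ q / (q ! : ℝ)) by ring,
              ← mul_pow]
            norm_num
        _ ≤ _ := by gcongr
    calc ‖f q x‖ = ‖v x‖ * ‖a q * (ω * x) ^ q‖ := by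
          rw [hf, ← norm_mul]; congr 1; simp only [mul_pow]; ring
      _ ≤ (Cv * Real.exp (Sv * ‖x‖)) * ((1 / 2) ^ q * Real.exp (2 * ‖ω‖ * ‖x‖)) :=
          mul_le_mul (hvb x) h1 (norm_nonneg _) (by positivity)
      _ = _ := by rw [add_mul, Real.exp_add]; ring
  have hfs : ∀ x, HasSum (fun q => f q x) (v x * ∑' q, a q * (ω * x) ^ q) := by
    intro x
    have h1 := (ps_summable ha (ω * x)).hasSum.mul_left (v x)
    refine HS h1 (fun q => ?_) rfl
    rw [hf, mul_pow]; ring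
  have hin : ∀ y, HasSum (fun q => P m (f q) y) (P m (fun x => v x * ∑' q, a q * (ω * x) ^ q) y) := by
    refine PH m f _ hfm (C := Cv) (S := Sv + 2 * ‖ω‖) (fun q x => (hfb q x).trans ?_) hfs
    have : 1 ≤ Real.exp (2 / 3 * ‖x‖ ^ 2) := Real.one_le_exp (by positivity)
    rw [mul_assoc]
    refine mul_le_mul_of_nonneg_left ?_ (by positivity)
    exact le_mul_of_one_le_right (by positivity) this
  obtain ⟨D, hD, hPb⟩ := P_bound m (S := Sv + 2 * ‖ω‖) (by positivity)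
  have hout := PH m (fun q y => u y * P m (f q) y) _ (fun q => hum.mul (meas_P m (hfm q)))
    (C := Cu * Cv * D) (S := Su) (fun q y => ?_) (fun y => (hin y).mul_left (u y)) z
  · refine HS hout (fun q => ?_) rfl
    rw [← P_smul]
    congr 1
    funext y
    have : P m (f q) y = a q * ω ^ q * P m (fun x => v x * x ^ q) y := by
      rw [← P_smul]
    rw [this]; ring
  · have h1 := hPb ((1 / 2) ^ q * Cv) (by positivity) (f q) (hfb q) y
    calc ‖u y * P m (f q) y‖ = ‖u y‖ * ‖P m (f q) y‖ := norm_mul _ _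
      _ ≤ (Cu * Real.exp (Su * ‖y‖)) * ((1 / 2) ^ q * Cv * D * Real.exp (2 / 3 * ‖y‖ ^ 2)) :=
          mul_le_mul (hub y) h1 (norm_nonneg _) (by positivity)
      _ = _ := by ring

end TT

/-- power series uniqueness -/
lemma coeff_zero_of_hasSum {b : ℕ → ℂ} (h : ∀ ω : ℂ, HasSum (fun q => b q * ω ^ q) 0) (q : ℕ) :
    b q = 0 := by
  have h1 : HasFPowerSeriesAt (0 : ℂ → ℂ) (FormalMultilinearSeries.ofScalars ℂ b) 0 := by
    rw [hasFPowerSeriesAt_iff]
    refine Filter.Eventually.of_forall fun z => ?_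
    refine HS (h z) (fun n => ?_) rfl
    rw [FormalMultilinearSeries.coeff_ofScalars, smul_eq_mul, mul_comm]
  have h2 := h1.eq_zero
  have h3 := congrArg (fun p : FormalMultilinearSeries ℂ ℂ ℂ => p.coeff q) h2
  simp only [FormalMultilinearSeries.coeff_ofScalars] at h3
  rw [h3]
  rfl

/-- The composition `T_u T_v` applied to `f`, at `z`. -/
noncomputable def TT (m : ℕ) (u v f : ℂ → ℂ) (z : ℂ) : ℂ :=
  P m (fun y => u y * P m (fun x => v x * f x) y) z

lemma TT_exp_of_poly (m : ℕ) {u v : ℂ → ℂ} (hum : Measurable u) (hvm : Measurable v) (hu : Gr u)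
    (hv : Gr v) (h : ∀ (q : ℕ) (z : ℂ), TT m u v (fun x => x ^ q) z = 0) (ω z : ℂ) :
    TT m u v (fun x => exp (ω * x)) z = 0 := by
  have ha : ∀ k : ℕ, ‖(1 / (k ! : ℂ))‖ ≤ 1 / (k ! : ℝ) := by
    intro k; rw [norm_div, norm_one, Complex.norm_natCast]
  have h1 := TT_hasSum m hum hvm hu hv (a := fun k => 1 / (k ! : ℂ)) ha ω z
  have h2 : (fun x : ℂ => exp (ω * x)) = fun x => ∑' q : ℕ, (1 / (q ! : ℂ)) * (ω * x) ^ q := by
    funext x
    have h := NormedSpace.expSeries_div_hasSum_exp (𝔸 := ℂ) (ω * x)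
    rw [← Complex.exp_eq_exp_ℂ] at h
    rw [← h.tsum_eq]
    congr 1; funext q; ring
  unfold TT at h ⊢
  have h3 : (fun q : ℕ => (1 / (q ! : ℂ)) * ω ^ q *
      P m (fun y => u y * P m (fun x => v x * x ^ q) y) z) = fun _ => 0 := by
    funext q; rw [h q z, mul_zero]
  rw [h3] at h1
  have h4 := h1.unique hasSum_zero
  rw [← h4]
  congr 1; funext y; congr 2; funext x
  exact congrArg (fun t => v x * t) (congrFun h2 x)

lemma TT_poly_of_ker (m : ℕ) {u v : ℂ → ℂ} (hum : Measurable u) (hvm : Measurable v) (hu : Gr u)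
    (hv : Gr v) (h : ∀ w z : ℂ, TT m u v (fun x => Ker m x w) z = 0) (q : ℕ) (z : ℂ) :
    TT m u v (fun x => x ^ q) z = 0 := by
  have h1 : ∀ ω : ℂ, HasSum (fun q : ℕ => ((m ! : ℂ) / ((q + m) ! : ℂ) *
      P m (fun y => u y * P m (fun x => v x * x ^ q) y) z) * ω ^ q) 0 := by
    intro ω
    have h2 := TT_hasSum m hum hvm hu hv (a := fun k => (m ! : ℂ) / ((k + m) ! : ℂ)) (aK_le m) ω z
    refine HS h2 (fun q => by ring) ?_
    rw [← h (conj ω) z]
    unfold TT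
    congr 1; funext y; congr 2; funext x
    unfold Ker
    simp only [Complex.conj_conj, mul_comm x ω]
  have h3 := coeff_zero_of_hasSum h1 q
  rcases mul_eq_zero.1 h3 with h4 | h4
  · exfalso
    have e1 : (m ! : ℂ) ≠ 0 := by exact_mod_cast Nat.factorial_ne_zero _
    have e2 : ((q + m) ! : ℂ) ≠ 0 := by exact_mod_cast Nat.factorial_ne_zero _
    exact div_ne_zero e1 e2 h4
  · exact h4

theorem main_all (m : ℕ) (F H K G : E) (u v : ℂ → ℂ)
    (hu : ∀ w, u w = ev F w + ev K (conj w)) (hv : ∀ w, v w = ev H w + ev G (conj w))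
    (hyp : (∀ (q : ℕ) (z : ℂ), TT m u v (fun x => x ^ q) z = 0) ∨
      (∀ w z : ℂ, TT m u v (fun x => Ker m x w) z = 0) ∨
      (∀ ω z : ℂ, TT m u v (fun x => exp (ω * x)) z = 0)) :
    (∀ w, u w = 0) ∨ ∀ w, v w = 0 := by
  have hum : Measurable u := by
    rw [show u = fun w => ev F w + ev K (conj w) from funext hu]
    exact ((continuous_ev F).add ((continuous_ev K).comp continuous_conj)).measurable
  have hvm : Measurable v := by
    rw [show v = fun w => ev H w + ev G (conj w) from funext hv]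
    exact ((continuous_ev H).add ((continuous_ev G).comp continuous_conj)).measurable
  have hug : Gr u := by
    rw [show u = fun w => ev F w + ev K (conj w) from funext hu]
    exact (Gr.ev F).add (Gr.ev K).conj
  have hvg : Gr v := by
    rw [show v = fun w => ev H w + ev G (conj w) from funext hv]
    exact (Gr.ev H).add (Gr.ev G).conj
  have hpoly : (∀ (q : ℕ) (z : ℂ), TT m u v (fun x => x ^ q) z = 0) →
      (∀ ω z : ℂ, TT m u v (fun x => exp (ω * x)) z = 0) :=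
    fun h => TT_exp_of_poly m hum hvm hug hvg h
  rcases hyp with h | h | h
  · exact main_exp m F H K G u v hu hv (hpoly h)
  · exact main_exp m F H K G u v hu hv (hpoly (TT_poly_of_ker m hum hvm hug hvg h))
  · exact main_exp m F H K G u v hu hv h

end R881Fs
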