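import Mathlib
import Pool.Agent.R881.SemiZariski

/-!
The Heisenberg group over `F₂` of the pairing of `⊕_ω F₂` and `∏_ω F₂`.
-/

open Filter Topology TopologicalSpace
open Pool.Agent.R881.SemiZariski

namespace Pool.Agent.R881.Heis

/-- The vector space `⊕_ω F₂`. -/
abbrev W : Type := ℕ →₀ ZMod 2

/-- The pairing of `∏_ω F₂` and `⊕_ω F₂`. -/
noncomputable def pair (x : ℕ → ZMod 2) (a : W) : ZMod 2 := Finsupp.linearCombination (ZMod 2) x a

theorem pair_add_left (x y : ℕ → ZMod 2) (a : W) : pair (x + y) a = pair x a + pair y a := by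
  simp only [pair, Finsupp.linearCombination_apply, Finsupp.sum, Pi.add_apply, smul_add,
    Finset.sum_add_distrib]

theorem pair_add_right (x : ℕ → ZMod 2) (a b : W) : pair x (a + b) = pair x a + pair x b := by
  simp only [pair, map_add]

theorem pair_smul_left (c : ZMod 2) (x : ℕ → ZMod 2) (a : W) :
    pair (c • x) a = c * pair x a := by
  simp only [pair, Finsupp.linearCombination_apply, Finsupp.sum, Pi.smul_apply, smul_eq_mul,
    Finset.mul_sum]
  exact Finset.sum_congr rfl (fun i _ => by ring)

theorem pair_smul_right (c : ZMod 2) (x : ℕ → ZMod 2) (a : W) :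
    pair x (c • a) = c * pair x a := by
  simp only [pair, map_smul, smul_eq_mul]

theorem pair_zero_left (a : W) : pair 0 a = 0 := by
  have := pair_smul_left 0 0 a
  rwa [zero_smul, zero_mul] at this

theorem pair_zero_right (x : ℕ → ZMod 2) : pair x 0 = 0 := by
  simp [pair]

theorem pair_neg_right (x : ℕ → ZMod 2) (a : W) : pair x (-a) = - pair x a := by
  simp only [pair, map_neg]

theorem pair_single_left (n : ℕ) (a : W) : pair (Pi.single n 1) a = a n := by
  classical
  simp only [pair, Finsupp.linearCombination_apply, Finsupp.sum, smul_eq_mul]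
  rw [Finset.sum_eq_single n]
  · simp
  · intro b _ hb
    simp [Pi.single_apply, hb]
  · intro h
    simp [Finsupp.notMem_support_iff.1 h]

theorem pair_single_right (x : ℕ → ZMod 2) (n : ℕ) : pair x (Finsupp.single n 1) = x n := by
  simp [pair]

theorem continuous_pair (a : W) : Continuous (fun x : ℕ → ZMod 2 => pair x a) := by
  simp only [pair, Finsupp.linearCombination_apply, Finsupp.sum, smul_eq_mul]
  exact continuous_finsetSum _ (fun i _ =>
    (continuous_of_discreteTopology (f := fun c : ZMod 2 => a i * c)).comp (continuous_apply i))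

/-- The Heisenberg group `W × W* × F₂`. -/
def G : Type := W × (ℕ → ZMod 2) × ZMod 2

/-- Constructor. -/
def mk (a : W) (x : ℕ → ZMod 2) (z : ZMod 2) : G := (a, x, z)

/-- First component. -/
def G.a (g : G) : W := g.1

/-- Second component. -/
def G.x (g : G) : ℕ → ZMod 2 := g.2.1

/-- Third component. -/
def G.z (g : G) : ZMod 2 := g.2.2

theorem ext {g h : G} (h1 : g.a = h.a) (h2 : g.x = h.x) (h3 : g.z = h.z) : g = h :=
  Prod.ext h1 (Prod.ext h2 h3)

noncomputable instance : Mul G := ⟨fun g h => mk (g.a + h.a) (g.x + h.x) (g.z + h.z + pair h.x g.a)⟩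

instance : One G := ⟨mk 0 0 0⟩

noncomputable instance : Inv G := ⟨fun g => mk (-g.a) (-g.x) (-g.z + pair g.x g.a)⟩

theorem mul_a (g h : G) : (g * h).a = g.a + h.a := rfl

theorem mul_x (g h : G) : (g * h).x = g.x + h.x := rfl

theorem mul_z (g h : G) : (g * h).z = g.z + h.z + pair h.x g.a := rfl

theorem one_a : (1 : G).a = 0 := rfl

theorem one_x : (1 : G).x = 0 := rfl

theorem one_z : (1 : G).z = 0 := rfl

theorem inv_a (g : G) : (g⁻¹).a = -g.a := rfl

theorem inv_x (g : G) : (g⁻¹).x = -g.x := rfl

theorem inv_z (g : G) : (g⁻¹).z = -g.z + pair g.x g.a := rfl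

noncomputable instance : Group G := by
  refine Group.ofLeftAxioms ?_ ?_ ?_
  · intro g h k
    apply ext
    · simp only [mul_a, add_assoc]
    · simp only [mul_x, add_assoc]
    · simp only [mul_z, mul_a, mul_x, pair_add_left, pair_add_right]
      ring
  · intro g
    apply ext
    · simp only [mul_a, one_a, zero_add]
    · simp only [mul_x, one_x, zero_add]
    · simp only [mul_z, one_z, one_a, pair_zero_right, zero_add, add_zero]
  · intro g
    apply ext
    · simp only [mul_a, one_a, inv_a, neg_add_cancel]
    · simp only [mul_x, one_x, inv_x, neg_add_cancel]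
    · simp only [mul_z, one_z, inv_a, inv_z, pair_neg_right]
      ring

/-- The projection to `V = W × W*`. -/
def π (g : G) : W × (ℕ → ZMod 2) := (g.a, g.x)

/-- The symplectic form. -/
noncomputable def B : (W × (ℕ → ZMod 2)) →ₗ[ZMod 2] (W × (ℕ → ZMod 2)) →ₗ[ZMod 2] ZMod 2 :=
  LinearMap.mk₂ (ZMod 2) (fun u v => pair v.2 u.1 + pair u.2 v.1)
    (by
      intro u u' v
      simp only [Prod.fst_add, Prod.snd_add, pair_add_left, pair_add_right]
      ring)
    (by
      intro c u v
      simp only [Prod.smul_fst, Prod.smul_snd, pair_smul_left, pair_smul_right, smul_eq_mul]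
      ring)
    (by
      intro u v v'
      simp only [Prod.fst_add, Prod.snd_add, pair_add_left, pair_add_right]
      ring)
    (by
      intro c u v
      simp only [Prod.smul_fst, Prod.smul_snd, pair_smul_left, pair_smul_right, smul_eq_mul]
      ring)

theorem B_apply (u v : W × (ℕ → ZMod 2)) : B u v = pair v.2 u.1 + pair u.2 v.1 := rfl

theorem comm_iff (g h : G) : g * h = h * g ↔ B (π g) (π h) = 0 := by
  rw [B_apply]
  show _ ↔ pair h.x g.a + pair g.x h.a = 0
  constructor
  · intro H
    have h1 : (g * h).z = (h * g).z := by rw [H]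
    rw [mul_z, mul_z, add_comm h.z, add_right_inj] at h1
    rw [h1]
    exact CharTwo.add_self_eq_zero _
  · intro H
    apply ext
    · rw [mul_a, mul_a, add_comm]
    · rw [mul_x, mul_x, add_comm]
    · rw [mul_z, mul_z, add_comm h.z, add_right_inj]
      exact CharTwo.add_eq_zero.1 H

theorem B_inj : Function.Injective B := by
  rw [injective_iff_map_eq_zero]
  rintro ⟨a, x⟩ h
  have h1 : ∀ n, a n = 0 := by
    intro n
    have : B (a, x) (0, Pi.single n 1) = 0 := by rw [h]; rfl
    rw [B_apply] at this
    simpa [pair_single_left, pair_zero_right] using this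
  have h2 : ∀ n, x n = 0 := by
    intro n
    have : B (a, x) (Finsupp.single n 1, 0) = 0 := by rw [h]; rfl
    rw [B_apply] at this
    simpa [pair_single_right, pair_zero_left] using this
  exact Prod.ext (Finsupp.ext h1) (funext h2)

theorem mem_span (F : Set G) (hF : F.Finite) (g : G)
    (hg : g ∈ Set.centralizer (Set.centralizer F)) : π g ∈ Submodule.span (ZMod 2) (π '' F) := by
  have := hF.to_subtype
  have h1 : ⨅ u : F, LinearMap.ker (B (π u)) ≤ LinearMap.ker (B (π g)) := by
    intro t ht
    rw [Submodule.mem_iInf] at ht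
    let t' : G := mk t.1 t.2 0
    have ht' : t' ∈ Set.centralizer F := by
      intro u hu
      rw [comm_iff]
      exact ht ⟨u, hu⟩
    have h2 := hg t' ht'
    exact (comm_iff g t').1 h2.symm
  have h2 := mem_span_of_iInf_ker_le_ker h1
  have h3 : Set.range (fun u : F => B (π u)) = B '' (π '' F) := by
    ext f
    simp
  rw [h3, Submodule.span_image] at h2
  obtain ⟨v, hv, hv'⟩ := h2
  rwa [← B_inj hv']

theorem fdc : FiniteDoubleCentralizers G := by
  intro F hF
  have h1 : (Submodule.span (ZMod 2) (π '' F) : Set (W × (ℕ → ZMod 2))).Finite := by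
    have : Module.Finite (ZMod 2) (Submodule.span (ZMod 2) (π '' F)) :=
      FiniteDimensional.span_of_finite _ (hF.image _)
    have h2 : Finite (Submodule.span (ZMod 2) (π '' F)) := Module.finite_of_finite (ZMod 2)
    exact Set.toFinite _
  have h2 : Set.centralizer (Set.centralizer F) ⊆
      (fun p : (W × (ℕ → ZMod 2)) × ZMod 2 => mk p.1.1 p.1.2 p.2) ''
        ((Submodule.span (ZMod 2) (π '' F) : Set (W × (ℕ → ZMod 2))) ×ˢ Set.univ) := by
    intro g hg
    exact ⟨(π g, g.z), ⟨mem_span F hF g hg, trivial⟩, rfl⟩
  exact ((h1.prod Set.finite_univ).image _).subset h2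

theorem centLE_four : centLE G 4 = Set.univ := by
  classical
  ext g
  simp only [Set.mem_univ, iff_true]
  show (Set.centralizer (Set.centralizer {g})).encard ≤ 4
  have h2 : Set.centralizer (Set.centralizer {g}) ⊆
      (({mk 0 0 0, mk 0 0 1, mk g.a g.x 0, mk g.a g.x 1} : Finset G) : Set G) := by
    intro h hh
    have h1 := mem_span {g} (Set.finite_singleton g) h hh
    rw [Set.image_singleton, Submodule.mem_span_singleton] at h1
    obtain ⟨c, hc⟩ := h1
    have h3 : h = mk (c • (π g)).1 (c • (π g)).2 h.z := by
      rw [hc]; rfl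
    rw [h3]
    generalize h.z = z
    have hz : ∀ z : ZMod 2, z = 0 ∨ z = 1 := by decide
    rcases hz c with rfl | rfl <;> rcases hz z with rfl | rfl
    · simp
    · simp
    · rw [one_smul]
      simp [π]
    · rw [one_smul]
      simp [π]
  refine (Set.encard_le_encard h2).trans ?_
  rw [Set.encard_coe_eq_coe_finsetCard]
  exact_mod_cast Finset.card_le_four

/-- The topology: product of the discrete topology of `⊕_ω F₂` and the product topologies. -/
def τ : TopologicalSpace G :=
  @instTopologicalSpaceProd W ((ℕ → ZMod 2) × ZMod 2) ⊥ inferInstance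

theorem not_countable : ¬ (Set.univ : Set G).Countable := by
  intro h
  have h1 : Countable G := Set.countable_univ_iff.1 h
  have h2 : Function.Injective (fun s : Set ℕ =>
      (mk 0 (Set.indicator s (fun _ => 1)) 0 : G)) := by
    intro s t hst
    have h3 : Set.indicator s (fun _ => (1 : ZMod 2)) = Set.indicator t (fun _ => 1) :=
      congrArg G.x hst
    ext n
    have h4 := congrFun h3 n
    by_cases hs : n ∈ s <;> by_cases ht : n ∈ t <;> simp [hs, ht] at h4 ⊢
  have h3 : Countable (Set ℕ) := h2.countable
  obtain ⟨f, hf⟩ := exists_surjective_nat (Set ℕ)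
  exact Function.cantor_surjective f hf

theorem τ_T2 : @T2Space G τ := by
  let _ : TopologicalSpace W := ⊥
  have : DiscreteTopology W := ⟨rfl⟩
  exact inferInstanceAs (T2Space (W × ((ℕ → ZMod 2) × ZMod 2)))

theorem τ_second : @SecondCountableTopology G τ := by
  let _ : TopologicalSpace W := ⊥
  have : DiscreteTopology W := ⟨rfl⟩
  exact inferInstanceAs (SecondCountableTopology (W × ((ℕ → ZMod 2) × ZMod 2)))

theorem τ_cont (g h : G) : @Continuous G G τ τ (fun x => g * x * h) := by
  let _ : TopologicalSpace W := ⊥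
  have : DiscreteTopology W := ⟨rfl⟩
  have hp : Continuous (fun p : W × ((ℕ → ZMod 2) × ZMod 2) => pair h.x p.1) :=
    (continuous_of_discreteTopology (f := fun a : W => pair h.x a)).comp continuous_fst
  have : Continuous (fun p : W × ((ℕ → ZMod 2) × ZMod 2) =>
      ((g.a + p.1 + h.a, g.x + p.2.1 + h.x,
        (g.z + p.2.2 + pair p.2.1 g.a) + h.z + pair h.x (g.a + p.1)) :
          W × ((ℕ → ZMod 2) × ZMod 2))) := by
    refine Continuous.prodMk ?_ (Continuous.prodMk ?_ ?_)
    · exact (continuous_of_discreteTopology (f := fun a : W => g.a + a + h.a)).comp continuous_fst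
    · fun_prop
    · simp only [pair_add_right]
      have h1 : Continuous (fun p : W × ((ℕ → ZMod 2) × ZMod 2) => pair p.2.1 g.a) :=
        (continuous_pair g.a).comp (continuous_fst.comp continuous_snd)
      fun_prop
  exact this

theorem not_sigmaDiscrete : ¬ SigmaDiscrete (semiZariski G) (Set.univ : Set G) := by
  intro h
  exact not_countable (h.countable τ τ_T2 τ_second τ_cont)

end Pool.Agent.R881.Heis
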