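import Mathlib

/-!
# Counting non-positive eigenvalues by linear conditions, and quadratic forms of
equivalence relations
-/

set_option autoImplicit false

open scoped Matrix

namespace Pool.Agent.R881.Inert

variable {V : Type} [Fintype V] [DecidableEq V]

theorem card_filter_roots {A : Matrix V V ℝ} (hA : A.IsHermitian) (p : ℝ → Prop)
    [DecidablePred p] : (A.charpoly.roots.filter p).card =
      (Finset.univ.filter (fun i => p (hA.eigenvalues i))).card := by
  rw [hA.roots_charpoly_eq_eigenvalues, Multiset.filter_map, Multiset.card_map]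
  rfl

/-- If `A` is positive on the common kernel of `card ι` linear forms, then at most `card ι`
eigenvalues of `A` are non-positive. -/
theorem card_nonpos_le {A : Matrix V V ℝ} (hA : A.IsHermitian) {ι : Type} [Fintype ι]
    (B : (V → ℝ) →ₗ[ℝ] (ι → ℝ))
    (hB : ∀ w : V → ℝ, w ≠ 0 → B w = 0 → 0 < w ⬝ᵥ (A *ᵥ w)) :
    (Finset.univ.filter (fun i => ¬ 0 < hA.eigenvalues i)).card ≤ Fintype.card ι := by
  by_contra hcon
  rw [not_le] at hcon
  set U : Matrix V V ℝ := (hA.eigenvectorUnitary : Matrix V V ℝ) with hU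
  have hUU' : U * star U = 1 := Unitary.coe_mul_star_self _
  have hU'U : star U * U = 1 := Unitary.coe_star_mul_self _
  set I : Finset V := Finset.univ.filter (fun i => ¬ 0 < hA.eigenvalues i) with hI
  let ext : ({i // i ∈ I} → ℝ) →ₗ[ℝ] (V → ℝ) :=
    { toFun := fun z v => if h : v ∈ I then z ⟨v, h⟩ else 0
      map_add' := by
        intro z w; funext v; by_cases h : v ∈ I <;> simp [h]
      map_smul' := by
        intro c z; funext v; by_cases h : v ∈ I <;> simp [h] }
  let f : ({i // i ∈ I} → ℝ) →ₗ[ℝ] (ι → ℝ) := B ∘ₗ (Matrix.mulVecLin U) ∘ₗ ext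
  have hker : LinearMap.ker f ≠ ⊥ := by
    apply LinearMap.ker_ne_bot_of_finrank_lt
    simp only [Module.finrank_fintype_fun_eq_card, Fintype.card_coe]
    exact hcon
  obtain ⟨z, hz, hz0⟩ := (Submodule.ne_bot_iff _).1 hker
  set y : V → ℝ := ext z with hy
  have hyne : y ≠ 0 := by
    intro h
    apply hz0
    funext i
    have := congrFun h i.1
    simpa [hy, ext, i.2] using this
  set w : V → ℝ := U *ᵥ y with hw
  have hyw : star U *ᵥ w = y := by rw [hw, Matrix.mulVec_mulVec, hU'U, Matrix.one_mulVec]
  have hw0 : w ≠ 0 := by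
    intro h
    apply hyne
    rw [← hyw, h, Matrix.mulVec_zero]
  have hBw : B w = 0 := by
    have h1 : f z = 0 := hz
    simpa [f, hw, hy] using h1
  have hquad : w ⬝ᵥ (A *ᵥ w) = ∑ i, hA.eigenvalues i * y i ^ 2 := by
    have hspec : A = U * Matrix.diagonal (RCLike.ofReal ∘ hA.eigenvalues : V → ℝ) * star U := by
      conv_lhs => rw [hA.spectral_theorem, Unitary.conjStarAlgAut_apply]
    have hT : star U = Uᵀ := by
      rw [Matrix.star_eq_conjTranspose, Matrix.conjTranspose_eq_transpose_of_trivial]
    conv_lhs => rw [hspec]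
    rw [← Matrix.mulVec_mulVec, ← Matrix.mulVec_mulVec, hyw, Matrix.dotProduct_mulVec,
      ← Matrix.mulVec_transpose, ← hT, hyw]
    simp only [dotProduct, Matrix.mulVec_diagonal, Function.comp_apply, RCLike.ofReal_real_eq_id,
      id_eq]
    refine Finset.sum_congr rfl fun i _ => ?_
    ring
  have hpos := hB w hw0 hBw
  rw [hquad] at hpos
  refine absurd hpos (not_lt.2 (Finset.sum_nonpos fun i _ => ?_))
  by_cases hi : i ∈ I
  · have : hA.eigenvalues i ≤ 0 := by
      simpa [hI] using hi
    exact mul_nonpos_of_nonpos_of_nonneg this (sq_nonneg _)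
  · have : y i = 0 := by simp [hy, ext, hi]
    rw [this]; simp

/-- The quadratic form of an equivalence relation `π x = π y` is a sum of squares. -/
theorem quad_eq {Y : Type} [Fintype Y] [DecidableEq Y] (π : V → Y) (v : V → ℝ) :
    ∑ x, ∑ y, (if π x = π y then v x * v y else 0) =
      ∑ w : Y, (∑ x, if π x = w then v x else 0) ^ 2 := by
  have h : ∀ w : Y, (∑ x, if π x = w then v x else 0) ^ 2 =
      ∑ x, ∑ y, (if π x = w then v x else 0) * (if π y = w then v y else 0) := by
    intro w
    rw [sq, Finset.sum_mul_sum]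
  simp_rw [h]
  conv_rhs => rw [Finset.sum_comm]
  refine Finset.sum_congr rfl fun x _ => ?_
  conv_rhs => rw [Finset.sum_comm]
  refine Finset.sum_congr rfl fun y _ => ?_
  rw [Finset.sum_eq_single (π x)]
  · by_cases hxy : π x = π y
    · simp [hxy]
    · have : π y ≠ π x := fun h => hxy h.symm
      simp [hxy, this]
  · intro w _ hw
    have : π x ≠ w := fun h => hw h.symm
    simp [this]
  · intro h; exact absurd (Finset.mem_univ _) h

end Pool.Agent.R881.Inert
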