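import Pool.Agent.R881.InertA

/-!
# Graphs with few negative and many positive eigenvalues

Vertices are the words of length seven over `Fin m`; adjacency depends only on the set of
coordinates in which two words agree.
-/

set_option autoImplicit false

open scoped Matrix

namespace Pool.Agent.R881.Inert

/-- The sets with coefficient `-1` (a single coordinate is repeated three times). -/
def neg : List (Fin 3 → Fin 7) :=
  [![0, 0, 0], ![1, 1, 1], ![2, 2, 2], ![3, 3, 3], ![4, 4, 4], ![5, 5, 5], ![6, 6, 6],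
   ![0, 1, 2], ![0, 1, 3], ![0, 1, 4], ![0, 1, 5], ![0, 2, 3], ![0, 2, 5], ![0, 2, 6],
   ![0, 3, 4], ![0, 3, 5], ![0, 3, 6], ![0, 4, 5], ![0, 4, 6], ![1, 2, 3], ![1, 2, 4],
   ![1, 2, 5], ![1, 3, 4], ![1, 3, 6], ![1, 4, 5], ![1, 4, 6], ![1, 5, 6], ![2, 3, 4],
   ![2, 3, 5], ![2, 4, 5], ![2, 4, 6], ![2, 5, 6], ![3, 4, 5], ![3, 5, 6]]

/-- The proper sets with positive coefficient (with multiplicity). -/
def pos' : List (List (Fin 7)) :=
  [[], [0, 1], [0, 2], [0, 3], [0, 3], [0, 4], [0, 5], [0, 6], [1, 2], [1, 3], [1, 4], [1, 4],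
   [1, 5], [1, 6], [2, 3], [2, 4], [2, 5], [2, 5], [2, 6], [3, 4], [3, 5], [3, 6], [4, 5],
   [4, 6], [5, 6], [0, 1, 2, 3], [0, 1, 2, 5], [0, 1, 4, 5], [0, 2, 4, 6], [0, 3, 4, 5],
   [1, 2, 3, 4], [1, 3, 5, 6], [2, 3, 4, 5]]

def pos : List (List (Fin 7)) := [0, 1, 2, 3, 4, 5, 6] :: pos'

def negCount (b : Fin 7 → Bool) : ℕ :=
  (neg.map fun t => if (b (t 0) && b (t 1) && b (t 2)) = true then 1 else 0).sum

def posCount (b : Fin 7 → Bool) : ℕ :=
  (pos.map fun J => if J.all b = true then 1 else 0).sum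

theorem table : ∀ b0 b1 b2 b3 b4 b5 b6 : Bool,
    posCount ![b0, b1, b2, b3, b4, b5, b6] = negCount ![b0, b1, b2, b3, b4, b5, b6] ∨
    posCount ![b0, b1, b2, b3, b4, b5, b6] = negCount ![b0, b1, b2, b3, b4, b5, b6] + 1 := by
  decide +kernel

theorem table' (b : Fin 7 → Bool) :
    posCount b = negCount b ∨ posCount b = negCount b + 1 := by
  have h : b = ![b 0, b 1, b 2, b 3, b 4, b 5, b 6] := by
    funext i; fin_cases i <;> rfl
  rw [h]
  exact table _ _ _ _ _ _ _

variable {m : ℕ}

/-- Agreement pattern. -/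
def agr (x y : Fin 7 → Fin m) : Fin 7 → Bool := fun i => decide (x i = y i)

theorem agr_comm (x y : Fin 7 → Fin m) : agr x y = agr y x := by
  funext i; simp [agr, eq_comm]

theorem agr_self (x : Fin 7 → Fin m) : agr x x = fun _ => true := by
  funext i; simp [agr]

/-- The graph. -/
def G (m : ℕ) : SimpleGraph (Fin 7 → Fin m) where
  Adj x y := negCount (agr x y) < posCount (agr x y)
  symm := ⟨fun x y h => by
    rw [agr_comm]; exact h⟩
  loopless := ⟨fun x h => by
    rw [agr_self] at h
    revert h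
    decide +kernel⟩

noncomputable instance : DecidableRel (G m).Adj := Classical.decRel _

theorem entry (x y : Fin 7 → Fin m) :
    (G m).adjMatrix ℝ x y = (posCount (agr x y) : ℝ) - negCount (agr x y) := by
  rw [SimpleGraph.adjMatrix_apply]
  rcases table' (agr x y) with h | h
  · rw [if_neg (show ¬ (G m).Adj x y from by
      show ¬ (negCount (agr x y) < posCount (agr x y)); omega), h, sub_self]
  · rw [if_pos (show (G m).Adj x y from by
      show (negCount (agr x y) < posCount (agr x y)); omega), h]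
    push_cast; ring

theorem cast_sum_ite {α : Type} (L : List α) (p : α → Prop) [DecidablePred p] :
    ((L.map fun a => if p a then 1 else 0).sum : ℕ) = ((L.map fun a => if p a then (1 : ℝ) else 0).sum) := by
  induction L with
  | nil => simp
  | cons a L ih =>
    simp only [List.map_cons, List.sum_cons, Nat.cast_add, ih]
    split_ifs <;> simp

variable (v : (Fin 7 → Fin m) → ℝ)

/-- Quadratic form of a list of coordinates. -/
noncomputable def Q (J : List (Fin 7)) : ℝ :=
  ∑ x, ∑ y, if J.all (agr x y) = true then v x * v y else 0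

/-- Quadratic form of a triple. -/
noncomputable def Q3 (t : Fin 3 → Fin 7) : ℝ :=
  ∑ x, ∑ y, if (agr x y (t 0) && agr x y (t 1) && agr x y (t 2)) = true then v x * v y else 0

theorem sum_swap {α : Type} (L : List α) (F : α → (Fin 7 → Fin m) → (Fin 7 → Fin m) → ℝ) :
    ∑ x, ∑ y, (L.map fun a => F a x y).sum = (L.map fun a => ∑ x, ∑ y, F a x y).sum := by
  induction L with
  | nil => simp
  | cons a L ih =>
    simp only [List.map_cons, List.sum_cons, Finset.sum_add_distrib, ih]

theorem form_eq : v ⬝ᵥ ((G m).adjMatrix ℝ *ᵥ v) = (pos.map (Q v)).sum - (neg.map (Q3 v)).sum := by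
  have h1 : v ⬝ᵥ ((G m).adjMatrix ℝ *ᵥ v) =
      ∑ x, ∑ y, ((posCount (agr x y) : ℝ) - negCount (agr x y)) * (v x * v y) := by
    simp only [dotProduct, Matrix.mulVec]
    refine Finset.sum_congr rfl fun x _ => ?_
    rw [Finset.mul_sum]
    refine Finset.sum_congr rfl fun y _ => ?_
    rw [entry]; ring
  have hp : ∀ x y : Fin 7 → Fin m, (posCount (agr x y) : ℝ) * (v x * v y) =
      (pos.map fun J => if J.all (agr x y) = true then v x * v y else 0).sum := by
    intro x y
    unfold posCount
    rw [cast_sum_ite, ← List.sum_map_mul_right]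
    congr 1
    refine List.map_congr_left fun J _ => ?_
    split_ifs <;> simp
  have hn : ∀ x y : Fin 7 → Fin m, (negCount (agr x y) : ℝ) * (v x * v y) =
      (neg.map fun t => if (agr x y (t 0) && agr x y (t 1) && agr x y (t 2)) = true
        then v x * v y else 0).sum := by
    intro x y
    unfold negCount
    rw [cast_sum_ite, ← List.sum_map_mul_right]
    congr 1
    refine List.map_congr_left fun J _ => ?_
    split_ifs <;> simp
  rw [h1]
  simp_rw [sub_mul, Finset.sum_sub_distrib, hp, hn, sum_swap]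
  rfl

theorem Q_nonneg (J : List (Fin 7)) : 0 ≤ Q v J := by
  have h : Q v J = ∑ x, ∑ y, (if (fun i => if i ∈ J then some (x i) else none :
      Fin 7 → Option (Fin m)) = (fun i => if i ∈ J then some (y i) else none) then
        v x * v y else 0) := by
    unfold Q
    refine Finset.sum_congr rfl fun x _ => Finset.sum_congr rfl fun y _ => ?_
    refine if_congr ?_ rfl rfl
    simp only [List.all_eq_true, agr, decide_eq_true_eq]
    constructor
    · intro h
      funext i
      by_cases hi : i ∈ J
      · simp [hi, h i hi]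
      · simp [hi]
    · intro h i hi
      have := congrFun h i
      simpa [hi] using this
  rw [h, quad_eq (fun x : Fin 7 → Fin m => (fun i => if i ∈ J then some (x i) else none :
      Fin 7 → Option (Fin m)))]
  exact Finset.sum_nonneg fun _ _ => sq_nonneg _

theorem Q_top : Q v [0, 1, 2, 3, 4, 5, 6] = ∑ x, v x ^ 2 := by
  unfold Q
  refine Finset.sum_congr rfl fun x _ => ?_
  rw [Finset.sum_eq_single x]
  · rw [if_pos (by rw [agr_self]; rfl), sq]
  · intro y _ hy
    rw [if_neg]
    intro h
    apply hy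
    simp only [List.all_eq_true, agr, decide_eq_true_eq] at h
    funext i
    refine (h i ?_).symm
    fin_cases i <;> simp
  · intro h; exact absurd (Finset.mem_univ _) h

theorem Q3_eq (t : Fin 3 → Fin 7) : Q3 v t =
    ∑ w : Fin 3 → Fin m, (∑ x, if (fun j => x (t j)) = w then v x else 0) ^ 2 := by
  rw [← quad_eq (fun x : Fin 7 → Fin m => fun j => x (t j))]
  unfold Q3
  refine Finset.sum_congr rfl fun x _ => Finset.sum_congr rfl fun y _ => ?_
  refine if_congr ?_ rfl rfl
  simp only [agr, Bool.and_eq_true, decide_eq_true_eq]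
  constructor
  · rintro ⟨⟨h0, h1⟩, h2⟩
    funext j; fin_cases j <;> assumption
  · intro h
    exact ⟨⟨congrFun h 0, congrFun h 1⟩, congrFun h 2⟩

/-- The linear forms. -/
noncomputable def B (m : ℕ) :
    ((Fin 7 → Fin m) → ℝ) →ₗ[ℝ] ((Fin neg.length × (Fin 3 → Fin m)) → ℝ) where
  toFun v := fun p => ∑ x, if (fun j => x (neg.get p.1 j)) = p.2 then v x else 0
  map_add' := by
    intro a b
    funext p
    simp only [Pi.add_apply, ← Finset.sum_add_distrib]
    refine Finset.sum_congr rfl fun x _ => ?_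
    split_ifs <;> simp
  map_smul' := by
    intro c a
    funext p
    simp only [Pi.smul_apply, smul_eq_mul, RingHom.id_apply, Finset.mul_sum]
    refine Finset.sum_congr rfl fun x _ => ?_
    split_ifs <;> simp

theorem form_pos (hv : v ≠ 0) (hB : B m v = 0) : 0 < v ⬝ᵥ ((G m).adjMatrix ℝ *ᵥ v) := by
  rw [form_eq]
  have h0 : (neg.map (Q3 v)).sum = 0 := by
    apply List.sum_eq_zero
    intro q hq
    obtain ⟨t, ht, rfl⟩ := List.mem_map.1 hq
    obtain ⟨k, rfl⟩ := List.mem_iff_get.1 ht
    rw [Q3_eq]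
    refine Finset.sum_eq_zero fun w _ => ?_
    have := congrFun hB (k, w)
    have h2 : (∑ x, if (fun j => x (neg.get k j)) = w then v x else 0) = 0 := this
    rw [h2]; simp
  rw [h0, sub_zero]
  show 0 < (([0, 1, 2, 3, 4, 5, 6] :: pos').map (Q v)).sum
  rw [List.map_cons, List.sum_cons, Q_top]
  have h1 : 0 ≤ (pos'.map (Q v)).sum := by
    apply List.sum_nonneg
    intro q hq
    obtain ⟨t, _, rfl⟩ := List.mem_map.1 hq
    exact Q_nonneg v t
  have h2 : 0 < ∑ x, v x ^ 2 := by
    obtain ⟨x, hx⟩ := Function.ne_iff.1 hv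
    have hx' : v x ≠ 0 := hx
    exact Finset.sum_pos' (fun i _ => sq_nonneg _) ⟨x, Finset.mem_univ _, by positivity⟩
  linarith

end Pool.Agent.R881.Inert
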