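import Pool.Agent.R881.InertB

/-!
# Positive inertia is not quadratically bounded in the negative inertia
-/

set_option autoImplicit false

open scoped Matrix
open Polynomial

namespace Pool.Agent.R881.Inert

/-- `n⁺(G)`: number of positive eigenvalues of the adjacency matrix, with multiplicity. -/
noncomputable def nPlus {V : Type} [Fintype V] [DecidableEq V] (G : SimpleGraph V)
    [DecidableRel G.Adj] : ℕ :=
  ((G.adjMatrix ℝ).charpoly.roots.filter (fun x => 0 < x)).card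

/-- `n⁻(G)`: number of negative eigenvalues of the adjacency matrix, with multiplicity. -/
noncomputable def nMinus {V : Type} [Fintype V] [DecidableEq V] (G : SimpleGraph V)
    [DecidableRel G.Adj] : ℕ :=
  ((G.adjMatrix ℝ).charpoly.roots.filter (fun x => x < 0)).card

theorem herm {V : Type} [Fintype V] [DecidableEq V] (G : SimpleGraph V)
    [DecidableRel G.Adj] : (G.adjMatrix ℝ).IsHermitian := by
  ext i j; simpa using (G.isSymm_adjMatrix (α := ℝ)).apply i j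

theorem bounds (m : ℕ) : nMinus (G m) ≤ 34 * m ^ 3 ∧ m ^ 7 ≤ nPlus (G m) + 34 * m ^ 3 := by
  have hA := herm (G m)
  have h := card_nonpos_le hA (B m) (fun w hw hB => form_pos w hw hB)
  have hcard : Fintype.card (Fin neg.length × (Fin 3 → Fin m)) = 34 * m ^ 3 := by
    rw [Fintype.card_prod, Fintype.card_fin, Fintype.card_fun, Fintype.card_fin, Fintype.card_fin]
    rfl
  rw [hcard] at h
  constructor
  · unfold nMinus
    rw [card_filter_roots hA]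
    refine le_trans (Finset.card_le_card ?_) h
    intro i hi
    simp only [Finset.mem_filter, Finset.mem_univ, true_and] at hi ⊢
    exact not_lt.2 hi.le
  · unfold nPlus
    rw [card_filter_roots hA]
    have h2 : (Finset.univ.filter (fun i => 0 < hA.eigenvalues i)).card +
        (Finset.univ.filter (fun i => ¬ 0 < hA.eigenvalues i)).card = m ^ 7 := by
      rw [Finset.card_filter_add_card_filter_not, Finset.card_univ, Fintype.card_fun,
        Fintype.card_fin, Fintype.card_fin]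
    omega

theorem bounds_real (m : ℕ) : (nMinus (G m) : ℝ) ≤ 34 * (m : ℝ) ^ 3 ∧
    (m : ℝ) ^ 7 ≤ nPlus (G m) + 34 * (m : ℝ) ^ 3 := by
  obtain ⟨h1, h2⟩ := bounds m
  exact ⟨by exact_mod_cast h1, by exact_mod_cast h2⟩

theorem power {c : ℝ} (h0 : 0 ≤ c) (hc : c < 7 / 3) (C : ℝ) :
    ∃ m : ℕ, C * (nMinus (G m) : ℝ) ^ c < nPlus (G m) := by
  set c₁ : ℝ := max c 1 with hc1
  have hc1' : 3 * c₁ < 7 := by
    have : c₁ < 7 / 3 := max_lt hc (by norm_num)
    linarith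
  have h1c : 1 ≤ c₁ := le_max_right _ _
  set K : ℝ := |C| * (34 : ℝ) ^ c₁ + 34 with hK
  have ht := tendsto_rpow_atTop (show 0 < 7 - 3 * c₁ by linarith)
  have ht2 := ht.comp tendsto_natCast_atTop_atTop
  obtain ⟨m, hm1, hm⟩ := ((ht2.eventually_gt_atTop K).and (Filter.eventually_ge_atTop 1)).exists
  refine ⟨m, ?_⟩
  have hm0 : (1 : ℝ) ≤ m := by exact_mod_cast hm
  have hmp : (0 : ℝ) < m := by linarith
  obtain ⟨hb1, hb2⟩ := bounds_real m
  have h3 : (m : ℝ) ^ 7 = (m : ℝ) ^ (7 - 3 * c₁) * (m : ℝ) ^ (3 * c₁) := by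
    rw [← Real.rpow_add hmp, show (7 : ℝ) - 3 * c₁ + 3 * c₁ = ((7 : ℕ) : ℝ) by push_cast; ring,
      Real.rpow_natCast]
  have h4 : (m : ℝ) ^ 3 ≤ (m : ℝ) ^ (3 * c₁) := by
    rw [← Real.rpow_natCast]
    apply Real.rpow_le_rpow_of_exponent_le hm0
    push_cast; linarith
  have hbase : (1 : ℝ) ≤ 34 * (m : ℝ) ^ 3 := by
    have : (1 : ℝ) ≤ (m : ℝ) ^ 3 := one_le_pow₀ hm0
    linarith
  have h5 : (nMinus (G m) : ℝ) ^ c ≤ (34 : ℝ) ^ c₁ * (m : ℝ) ^ (3 * c₁) := by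
    calc (nMinus (G m) : ℝ) ^ c ≤ (34 * (m : ℝ) ^ 3) ^ c :=
          Real.rpow_le_rpow (Nat.cast_nonneg _) hb1 h0
      _ ≤ (34 * (m : ℝ) ^ 3) ^ c₁ := Real.rpow_le_rpow_of_exponent_le hbase (le_max_left _ _)
      _ = (34 : ℝ) ^ c₁ * (m : ℝ) ^ (3 * c₁) := by
          rw [Real.mul_rpow (by norm_num) (by positivity), Real.rpow_mul hmp.le]
          congr 2
          rw [← Real.rpow_natCast]
          norm_num
  have h6 : C * (nMinus (G m) : ℝ) ^ c ≤ |C| * ((34 : ℝ) ^ c₁ * (m : ℝ) ^ (3 * c₁)) :=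
    calc C * (nMinus (G m) : ℝ) ^ c ≤ |C| * (nMinus (G m) : ℝ) ^ c :=
          mul_le_mul_of_nonneg_right (le_abs_self _) (by positivity)
      _ ≤ _ := mul_le_mul_of_nonneg_left h5 (abs_nonneg _)
  have h7 : K * (m : ℝ) ^ (3 * c₁) < (m : ℝ) ^ 7 := by
    rw [h3]
    exact mul_lt_mul_of_pos_right hm1 (by positivity)
  have h8 : K * (m : ℝ) ^ (3 * c₁) = |C| * ((34 : ℝ) ^ c₁ * (m : ℝ) ^ (3 * c₁)) +
      34 * (m : ℝ) ^ (3 * c₁) := by rw [hK]; ring
  linarith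

theorem quad (f : ℝ[X]) (hf : f.natDegree ≤ 2) :
    ∃ m : ℕ, f.eval (nMinus (G m) : ℝ) < nPlus (G m) := by
  set S : ℝ := |f.coeff 0| + |f.coeff 1| + |f.coeff 2| with hS
  have hS0 : 0 ≤ S := by positivity
  obtain ⟨m, hm⟩ := exists_nat_gt (1225 * S + 35)
  refine ⟨m, ?_⟩
  obtain ⟨hb1, hb2⟩ := bounds_real m
  have hm1 : (1 : ℝ) ≤ m := by linarith
  set x : ℝ := (nMinus (G m) : ℝ) with hx
  have hx0 : 0 ≤ x := Nat.cast_nonneg _
  have he : f.eval x = f.coeff 0 + f.coeff 1 * x + f.coeff 2 * x ^ 2 := by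
    rw [Polynomial.eval_eq_sum_range' (show f.natDegree < 3 by omega)]
    simp [Finset.sum_range_succ]
  have hm3 : (1 : ℝ) ≤ (m : ℝ) ^ 3 := one_le_pow₀ hm1
  have hy : 1 + x ≤ 35 * (m : ℝ) ^ 3 := by linarith
  have hy2 : (1 + x) ^ 2 ≤ 1225 * (m : ℝ) ^ 6 := by
    calc (1 + x) ^ 2 ≤ (35 * (m : ℝ) ^ 3) ^ 2 := pow_le_pow_left₀ (by linarith) hy 2
      _ = 1225 * (m : ℝ) ^ 6 := by ring
  have hle : f.eval x ≤ S * (1 + x) ^ 2 := by
    rw [he, hS]
    have a0 := le_abs_self (f.coeff 0)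
    have a1 := le_abs_self (f.coeff 1)
    have a2 := le_abs_self (f.coeff 2)
    have n0 := abs_nonneg (f.coeff 0)
    have n1 := abs_nonneg (f.coeff 1)
    have n2 := abs_nonneg (f.coeff 2)
    have e0 : (1 : ℝ) ≤ (1 + x) ^ 2 := by nlinarith
    have e1 : x ≤ (1 + x) ^ 2 := by nlinarith
    have e2 : x ^ 2 ≤ (1 + x) ^ 2 := by nlinarith
    have t0 : f.coeff 0 ≤ |f.coeff 0| * (1 + x) ^ 2 := by
      calc f.coeff 0 ≤ |f.coeff 0| := a0
        _ ≤ |f.coeff 0| * (1 + x) ^ 2 := le_mul_of_one_le_right n0 e0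
    have t1 : f.coeff 1 * x ≤ |f.coeff 1| * (1 + x) ^ 2 :=
      mul_le_mul a1 e1 hx0 n1
    have t2 : f.coeff 2 * x ^ 2 ≤ |f.coeff 2| * (1 + x) ^ 2 :=
      mul_le_mul a2 e2 (by positivity) n2
    linarith
  have h6 : (0 : ℝ) < (m : ℝ) ^ 6 := by positivity
  have h36 : (m : ℝ) ^ 3 ≤ (m : ℝ) ^ 6 := pow_le_pow_right₀ hm1 (by norm_num)
  have h7 : (m : ℝ) ^ 7 = m * (m : ℝ) ^ 6 := by ring
  have h8 : (1225 * S + 35) * (m : ℝ) ^ 6 < m * (m : ℝ) ^ 6 := mul_lt_mul_of_pos_right hm h6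
  have h9 : S * (1 + x) ^ 2 ≤ S * (1225 * (m : ℝ) ^ 6) := mul_le_mul_of_nonneg_left hy2 hS0
  nlinarith

end Pool.Agent.R881.Inert
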