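import Mathlib

/-!
# No differentiable bump functions on `C[0,1]`

A real function on `C[0,1]` which is Fréchet differentiable everywhere and vanishes outside a
ball is identically zero.
-/

open Filter Topology Set

namespace Pool.Agent.R881.NoBump

/-- A maximality principle (Brezis–Browder). -/
theorem exists_maximal_above {α : Type*} (Rel : α → α → Prop) (T : α → ℝ)
    (hrefl : ∀ p, Rel p p) (htrans : ∀ p q r, Rel p q → Rel q r → Rel p r)
    (hmono : ∀ p q, Rel p q → T p ≤ T q)
    (hB : ∀ p, BddAbove (T '' {q | Rel p q}))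
    (hchain : ∀ u : ℕ → α, (∀ n, Rel (u n) (u (n+1))) → ∃ q, ∀ n, Rel (u n) q) (p : α) :
    ∃ q, Rel p q ∧ ∀ r, Rel q r → T r ≤ T q := by
  classical
  have hstep : ∀ (n : ℕ) (p : α), ∃ q, Rel p q ∧ ∀ r, Rel p r → T r ≤ T q + 1 / ((n:ℝ) + 1) := by
    intro n p
    have hne : (T '' {q | Rel p q}).Nonempty := ⟨T p, p, hrefl p, rfl⟩
    have hpos : (0:ℝ) < 1 / ((n:ℝ) + 1) := by positivity
    obtain ⟨_, ⟨q, hq, rfl⟩, hlt⟩ := exists_lt_of_lt_csSup hne
      (sub_lt_self (sSup (T '' {q | Rel p q})) hpos)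
    refine ⟨q, hq, fun r hr => ?_⟩
    have := le_csSup (hB p) ⟨r, hr, rfl⟩
    linarith
  choose g hg1 hg2 using hstep
  let u : ℕ → α := fun n => Nat.rec p (fun n x => g n x) n
  have hu : ∀ n, u (n+1) = g n (u n) := fun n => rfl
  obtain ⟨q, hq⟩ := hchain u (fun n => by rw [hu]; exact hg1 _ _)
  refine ⟨q, hq 0, fun r hr => ?_⟩
  have hle : ∀ n : ℕ, T r ≤ T q + 1 / ((n:ℝ) + 1) := by
    intro n
    have h1 := hg2 n (u n) r (htrans _ _ _ (hq n) hr)
    have h2 := hmono _ _ (hq (n+1))
    rw [hu] at h2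
    linarith
  have hlim : Tendsto (fun n : ℕ => T q + 1 / ((n:ℝ) + 1)) atTop (𝓝 (T q + 0)) :=
    tendsto_const_nhds.add tendsto_one_div_add_atTop_nhds_zero_nat
  rw [add_zero] at hlim
  exact ge_of_tendsto' hlim hle

/-- The Banach space `C[0,1]`. -/
abbrev X := C(unitInterval, ℝ)

/-- A tent of height one and half-width `w`, centred at `c`. -/
noncomputable def tent (c w : ℝ) : X :=
  ⟨fun t => max 0 (1 - |(t:ℝ) - c| / w), by fun_prop⟩

theorem tent_apply (c w : ℝ) (t : unitInterval) :
    tent c w t = max 0 (1 - |(t:ℝ) - c| / w) := rfl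

theorem tent_nonneg (c w : ℝ) (t : unitInterval) : 0 ≤ tent c w t := by
  rw [tent_apply]; exact le_max_left _ _

theorem tent_le_one (c w : ℝ) (hw : 0 < w) (t : unitInterval) : tent c w t ≤ 1 := by
  rw [tent_apply]
  refine max_le zero_le_one ?_
  have : 0 ≤ |(t:ℝ) - c| / w := by positivity
  linarith

theorem tent_eq_zero {c w : ℝ} (hw : 0 < w) {t : unitInterval} (h : w ≤ |(t:ℝ) - c|) :
    tent c w t = 0 := by
  rw [tent_apply]
  apply max_eq_left
  have : 1 ≤ |(t:ℝ) - c| / w := by rwa [le_div_iff₀ hw, one_mul]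
  linarith

theorem tent_center (w : ℝ) (t : unitInterval) : tent (t:ℝ) w t = 1 := by
  rw [tent_apply]; simp

/-- A continuous functional is small on some narrow spike in any nondegenerate interval. -/
theorem exists_spike (L : X →L[ℝ] ℝ) {a b : ℝ} (ha : 0 ≤ a) (hb : b ≤ 1) (hab : a < b)
    {e : ℝ} (he : 0 < e) (σ : ℝ) (hσ : |σ| = 1) :
    ∃ u : X, ‖u‖ ≤ 1 ∧ |L u| ≤ e ∧ ∃ t : unitInterval, (t:ℝ) ∈ Icc a b ∧ u t = σ := by
  classical
  by_contra hcon
  push Not at hcon
  obtain ⟨N, hN⟩ := exists_nat_gt (‖L‖ / e)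
  have hN0 : 0 < (N:ℝ) := lt_of_le_of_lt (by positivity) hN
  have hN' : ‖L‖ < N * e := by rwa [div_lt_iff₀ he] at hN
  set w : ℝ := (b - a) / (2 * N) with hw
  have hwpos : 0 < w := by rw [hw]; apply div_pos (by linarith) (by positivity)
  have hwN : 2 * N * w = b - a := by rw [hw]; field_simp
  let c : ℕ → ℝ := fun i => a + (2 * i + 1) * w
  have hc : ∀ i < N, c i ∈ Icc a b := by
    intro i hi
    have hi' : (i:ℝ) + 1 ≤ N := by exact_mod_cast hi
    have h1 : (2 * (i:ℝ) + 1) * w ≤ 2 * N * w := by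
      apply mul_le_mul_of_nonneg_right _ hwpos.le
      linarith
    have h2 : 0 ≤ (2 * (i:ℝ) + 1) * w := by positivity
    constructor
    · change a ≤ a + (2 * (i:ℝ) + 1) * w
      linarith
    · change a + (2 * (i:ℝ) + 1) * w ≤ b
      linarith
  have hsep : ∀ i j : ℕ, i ≠ j → 2 * w ≤ |c i - c j| := by
    intro i j hij
    have h1 : c i - c j = 2 * w * ((i:ℝ) - j) := by
      change (a + (2 * (i:ℝ) + 1) * w) - (a + (2 * (j:ℝ) + 1) * w) = _
      ring
    rw [h1, abs_mul, abs_of_pos (by positivity : 0 < 2 * w)]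
    have h2 : (1:ℝ) ≤ |(i:ℝ) - j| := by
      have h3 : (1:ℤ) ≤ |(i:ℤ) - j| := Int.one_le_abs (sub_ne_zero.mpr (by exact_mod_cast hij))
      have h4 : ((|(i:ℤ) - j| : ℤ) : ℝ) = |(i:ℝ) - j| := by push_cast; rfl
      rw [← h4]; exact_mod_cast h3
    nlinarith
  -- each spike has |L| > e
  have hbig : ∀ i < N, e < |L (tent (c i) w)| := by
    intro i hi
    have hci := hc i hi
    let t : unitInterval := ⟨c i, by constructor <;> linarith [hci.1, hci.2]⟩
    have hnorm : ‖σ • tent (c i) w‖ ≤ 1 := by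
      rw [norm_smul, Real.norm_eq_abs, hσ, one_mul, ContinuousMap.norm_le _ zero_le_one]
      intro s
      rw [Real.norm_eq_abs, abs_of_nonneg (tent_nonneg _ _ _)]
      exact tent_le_one _ _ hwpos _
    by_contra hle
    push Not at hle
    refine hcon (σ • tent (c i) w) hnorm ?_ t hci ?_
    · rw [map_smul, smul_eq_mul, abs_mul, hσ, one_mul]; exact hle
    · rw [ContinuousMap.smul_apply]
      have : tent (c i) w t = 1 := tent_center w t
      rw [this]; simp
  -- signed sum
  let v : X := ∑ i ∈ Finset.range N, (SignType.sign (L (tent (c i) w)) : ℝ) • tent (c i) w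
  have hv : ‖v‖ ≤ 1 := by
    rw [ContinuousMap.norm_le _ zero_le_one]
    intro s
    have h1 : ‖v s‖ ≤ ∑ i ∈ Finset.range N, tent (c i) w s := by
      have h2 : v s = ∑ i ∈ Finset.range N,
          (SignType.sign (L (tent (c i) w)) : ℝ) * tent (c i) w s := by
        change (∑ i ∈ Finset.range N,
          (SignType.sign (L (tent (c i) w)) : ℝ) • tent (c i) w) s = _
        rw [ContinuousMap.sum_apply]
        rfl
      rw [h2]
      refine (norm_sum_le _ _).trans (Finset.sum_le_sum fun i _ => ?_)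
      rw [norm_mul, Real.norm_eq_abs (tent (c i) w s), abs_of_nonneg (tent_nonneg _ _ _)]
      have h3 : ‖((SignType.sign (L (tent (c i) w)) : SignType) : ℝ)‖ ≤ 1 := by
        rcases SignType.sign (L (tent (c i) w)) <;> simp
      calc _ ≤ 1 * tent (c i) w s := mul_le_mul_of_nonneg_right h3 (tent_nonneg _ _ _)
        _ = _ := one_mul _
    refine h1.trans ?_
    by_cases hz : ∃ i ∈ Finset.range N, tent (c i) w s ≠ 0
    · obtain ⟨i, hi, hne⟩ := hz
      rw [Finset.sum_eq_single i]
      · exact tent_le_one _ _ hwpos _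
      · intro j _ hji
        apply tent_eq_zero hwpos
        have h4 : |(s:ℝ) - c i| < w := by
          by_contra h5
          push Not at h5
          exact hne (tent_eq_zero hwpos h5)
        have h6 := hsep j i hji
        have h7 : |c j - c i| ≤ |(s:ℝ) - c j| + |(s:ℝ) - c i| := by
          have : c j - c i = -((s:ℝ) - c j) + ((s:ℝ) - c i) := by ring
          rw [this]
          refine (abs_add_le _ _).trans ?_
          rw [abs_neg]
        linarith
      · intro h; exact absurd hi h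
    · push Not at hz
      rw [Finset.sum_eq_zero hz]; exact zero_le_one
  have hLv : (N:ℝ) * e ≤ L v := by
    have h1 : L v = ∑ i ∈ Finset.range N, |L (tent (c i) w)| := by
      change L (∑ i ∈ Finset.range N,
          (SignType.sign (L (tent (c i) w)) : ℝ) • tent (c i) w) = _
      rw [map_sum]
      refine Finset.sum_congr rfl fun i _ => ?_
      rw [map_smul, smul_eq_mul]
      exact sign_mul_self _
    rw [h1]
    have h2 : ∑ i ∈ Finset.range N, e ≤ ∑ i ∈ Finset.range N, |L (tent (c i) w)| :=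
      Finset.sum_le_sum fun i hi => (hbig i (Finset.mem_range.mp hi)).le
    simpa using h2
  have h3 : L v ≤ ‖L‖ := by
    have := L.le_opNorm v
    have h4 : L v ≤ ‖L v‖ := le_abs_self _
    nlinarith [norm_nonneg L]
  linarith

/-- The extension step. -/
theorem exists_step {f : X → ℝ} {x : X} (hf : DifferentiableAt ℝ f x) {η δ : ℝ}
    (hη : 0 < η) (hδ : 0 < δ) :
    ∃ (u : X) (τ : ℝ), 0 < τ ∧ τ ≤ δ ∧ ‖u‖ ≤ 1 ∧ ‖x‖ + τ / 2 ≤ ‖x + τ • u‖ ∧
      |f (x + τ • u) - f x| ≤ η * τ := by
  obtain ⟨L, hL⟩ := hf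
  have h1 := (hasFDerivAt_iff_isLittleO_nhds_zero.mp hL).def (half_pos hη)
  obtain ⟨ρ, hρ, hball⟩ := Metric.eventually_nhds_iff.mp h1
  set τ : ℝ := min (ρ / 2) δ with hτ
  have hτpos : 0 < τ := lt_min (by linarith) hδ
  have hτρ : τ < ρ := lt_of_le_of_lt (min_le_left _ _) (by linarith)
  -- a norming point
  obtain ⟨t0, ht0⟩ : ∃ t0 : unitInterval, |x t0| = ‖x‖ := by
    obtain ⟨t0, -, h⟩ := isCompact_univ.exists_isMaxOn (univ_nonempty (α := unitInterval))
      (f := fun t => |x t|) (by fun_prop)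
    refine ⟨t0, le_antisymm (x.norm_coe_le_norm t0) ?_⟩
    rw [ContinuousMap.norm_le _ (abs_nonneg _)]
    intro t
    exact h (mem_univ t)
  obtain ⟨σ, hσ, hσx⟩ : ∃ σ : ℝ, |σ| = 1 ∧ σ * x t0 = ‖x‖ := by
    rcases le_total 0 (x t0) with h | h
    · exact ⟨1, abs_one, by rw [one_mul, ← ht0, abs_of_nonneg h]⟩
    · exact ⟨-1, by simp, by rw [← ht0, abs_of_nonpos h]; ring⟩
  -- neighbourhood of t0
  obtain ⟨ε, hε, hnear⟩ : ∃ ε > 0, ∀ t : unitInterval, |(t:ℝ) - t0| < ε →
      ‖x‖ - τ / 2 < σ * x t := by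
    have hcont : Continuous fun t : unitInterval => σ * x t := by fun_prop
    have := (hcont.tendsto t0).eventually (lt_mem_nhds (b := σ * x t0) (a := ‖x‖ - τ / 2)
      (by rw [hσx]; linarith))
    obtain ⟨ε, hε, h⟩ := Metric.eventually_nhds_iff.mp this
    refine ⟨ε, hε, fun t ht => h ?_⟩
    rw [Subtype.dist_eq, Real.dist_eq]; exact ht
  -- an interval in [0,1] near t0
  obtain ⟨a, b, ha, hb, hab, hsub⟩ : ∃ a b : ℝ, 0 ≤ a ∧ b ≤ 1 ∧ a < b ∧
      ∀ s ∈ Icc a b, |s - (t0:ℝ)| < ε := by
    have h0 := t0.2.1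
    have h1 := t0.2.2
    rcases lt_or_ge (t0:ℝ) 1 with h | h
    · refine ⟨t0, min 1 (t0 + ε / 2), h0, min_le_left _ _, lt_min h (by linarith), ?_⟩
      intro s hs
      have := hs.1
      have h3 := hs.2.trans (min_le_right _ _)
      rw [abs_lt]; constructor <;> linarith
    · refine ⟨max 0 (t0 - ε / 2), t0, le_max_left _ _, h1, max_lt (by linarith) (by linarith), ?_⟩
      intro s hs
      have := hs.2
      have h3 := (le_max_right _ _).trans hs.1
      rw [abs_lt]; constructor <;> linarith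
  obtain ⟨u, hu1, hLu, t, ht, hut⟩ := exists_spike L ha hb hab (half_pos hη) σ hσ
  refine ⟨u, τ, hτpos, min_le_right _ _, hu1, ?_, ?_⟩
  · have h2 := hnear t (hsub t ht)
    have h3 : σ * (x + τ • u) t = σ * x t + τ * (σ * σ) := by
      rw [ContinuousMap.add_apply, ContinuousMap.smul_apply, hut, smul_eq_mul]; ring
    have h4 : σ * σ = 1 := by
      have := abs_mul_abs_self σ
      rw [hσ] at this; linarith
    have h5 : σ * (x + τ • u) t ≤ ‖x + τ • u‖ := by
      calc _ ≤ |σ * (x + τ • u) t| := le_abs_self _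
        _ = |(x + τ • u) t| := by rw [abs_mul, hσ, one_mul]
        _ ≤ _ := (x + τ • u).norm_coe_le_norm t
    rw [h3, h4] at h5
    linarith
  · have hn : ‖τ • u‖ ≤ τ := by
      rw [norm_smul, Real.norm_eq_abs, abs_of_pos hτpos]
      exact mul_le_of_le_one_right hτpos.le hu1
    have h2 : ‖f (x + τ • u) - f x - L (τ • u)‖ ≤ η / 2 * ‖τ • u‖ := by
      apply hball
      rw [dist_zero_right]; linarith
    have h3 : |L (τ • u)| ≤ η / 2 * τ := by
      rw [map_smul, smul_eq_mul, abs_mul, abs_of_pos hτpos, mul_comm]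
      exact mul_le_mul_of_nonneg_right hLu hτpos.le
    rw [Real.norm_eq_abs] at h2
    have h4 : |f (x + τ • u) - f x| ≤ |f (x + τ • u) - f x - L (τ • u)| + |L (τ • u)| := by
      have : f (x + τ • u) - f x = (f (x + τ • u) - f x - L (τ • u)) + L (τ • u) := by ring
      calc |f (x + τ • u) - f x| = |(f (x + τ • u) - f x - L (τ • u)) + L (τ • u)| := by rw [← this]
        _ ≤ _ := abs_add_le _ _
    have h5 : η / 2 * ‖τ • u‖ ≤ η / 2 * τ := mul_le_mul_of_nonneg_left hn (by positivity)
    linarith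

/-- **No differentiable bump on `C[0,1]`.** -/
theorem eq_zero_of_bounded_support {f : X → ℝ} (hf : Differentiable ℝ f) {R : ℝ}
    (hR : ∀ x, R ≤ ‖x‖ → f x = 0) (x0 : X) : f x0 = 0 := by
  by_contra hne
  have hx0 : ‖x0‖ < R := by
    by_contra h
    push Not at h
    exact hne (hR _ h)
  have hRpos : 0 < R := lt_of_le_of_lt (norm_nonneg _) hx0
  set η : ℝ := |f x0| / (4 * R) with hηdef
  have hηpos : 0 < η := by
    rw [hηdef]; exact div_pos (abs_pos.mpr hne) (by positivity)
  have hη4 : η * (4 * R) = |f x0| := by rw [hηdef]; field_simp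
  let α := {p : X × ℝ // ‖p.1‖ ≤ R}
  let Rel : α → α → Prop := fun p q =>
    ‖q.1.1 - p.1.1‖ ≤ q.1.2 - p.1.2 ∧ |f q.1.1 - f p.1.1| ≤ η * (q.1.2 - p.1.2) ∧
      ‖p.1.1‖ + (q.1.2 - p.1.2) / 2 ≤ ‖q.1.1‖
  let T : α → ℝ := fun p => p.1.2
  have hmono : ∀ p q, Rel p q → T p ≤ T q := by
    intro p q h
    have h1 := (norm_nonneg _).trans h.1
    change p.1.2 ≤ q.1.2
    linarith
  have hbd : ∀ p q, Rel p q → q.1.2 ≤ p.1.2 + 2 * R := by
    intro p q h
    have h1 := h.2.2
    have h2 := q.2
    have h3 := norm_nonneg p.1.1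
    linarith
  have htrans : ∀ p q r, Rel p q → Rel q r → Rel p r := by
    intro p q r h1 h2
    refine ⟨?_, ?_, ?_⟩
    · have h3 : r.1.1 - p.1.1 = (r.1.1 - q.1.1) + (q.1.1 - p.1.1) := by abel
      rw [h3]
      refine (norm_add_le _ _).trans ?_
      linarith [h1.1, h2.1]
    · have h3 : f r.1.1 - f p.1.1 = (f r.1.1 - f q.1.1) + (f q.1.1 - f p.1.1) := by ring
      rw [h3]
      refine (abs_add_le _ _).trans ?_
      have h4 := h1.2.1
      have h5 := h2.2.1
      have : η * (r.1.2 - p.1.2) = η * (r.1.2 - q.1.2) + η * (q.1.2 - p.1.2) := by ring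
      linarith
    · linarith [h1.2.2, h2.2.2]
  obtain ⟨q, hq, hmax⟩ := exists_maximal_above Rel T
    (fun p => ⟨by simp, by simp, by simp⟩) htrans hmono
    (fun p => ⟨p.1.2 + 2 * R, by
      rintro _ ⟨q, hq, rfl⟩
      exact hbd p q hq⟩)
    (by
      intro u hu
      have hu' : ∀ n m, n ≤ m → Rel (u n) (u m) := by
        intro n m hnm
        induction m, hnm using Nat.le_induction with
        | base => exact ⟨by simp, by simp, by simp⟩
        | succ m hnm ih => exact htrans _ _ _ ih (hu m)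
      have hTmono : Monotone fun n => (u n).1.2 := fun n m hnm => hmono _ _ (hu' n m hnm)
      have hTb : BddAbove (range fun n => (u n).1.2) := by
        refine ⟨(u 0).1.2 + 2 * R, ?_⟩
        rintro _ ⟨n, rfl⟩
        exact hbd _ _ (hu' 0 n (Nat.zero_le _))
      have hlim := tendsto_atTop_ciSup hTmono hTb
      set ts := ⨆ n, (u n).1.2 with hts
      have hcauchy : CauchySeq fun n => (u n).1.1 := by
        refine cauchySeq_of_le_tendsto_0' (fun n => ts - (u n).1.2) ?_ ?_
        · intro n m hnm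
          rw [dist_comm, dist_eq_norm]
          refine (hu' n m hnm).1.trans ?_
          have : (u m).1.2 ≤ ts := le_ciSup hTb m
          linarith
        · have := (tendsto_const_nhds (x := ts)).sub hlim
          simpa using this
      obtain ⟨xs, hxs⟩ := cauchySeq_tendsto_of_complete hcauchy
      have hxsR : ‖xs‖ ≤ R := le_of_tendsto' hxs.norm fun n => (u n).2
      refine ⟨⟨(xs, ts), hxsR⟩, fun n => ⟨?_, ?_, ?_⟩⟩
      · refine le_of_tendsto_of_tendsto (hxs.sub_const (u n).1.1).norm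
          (hlim.sub_const (u n).1.2) ?_
        filter_upwards [eventually_ge_atTop n] with m hm using (hu' n m hm).1
      · refine le_of_tendsto_of_tendsto (((hf.continuous.tendsto xs).comp hxs).sub_const
          (f (u n).1.1)).abs ((hlim.sub_const (u n).1.2).const_mul η) ?_
        filter_upwards [eventually_ge_atTop n] with m hm using (hu' n m hm).2.1
      · refine le_of_tendsto_of_tendsto (((hlim.sub_const (u n).1.2).div_const 2).const_add
          ‖(u n).1.1‖) hxs.norm ?_
        filter_upwards [eventually_ge_atTop n] with m hm using (hu' n m hm).2.2)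
    ⟨(x0, 0), hx0.le⟩
  -- the maximal point is on the sphere
  have hqR : ‖q.1.1‖ = R := by
    by_contra hne'
    have hlt : ‖q.1.1‖ < R := lt_of_le_of_ne q.2 hne'
    obtain ⟨w, τ, hτ, hτδ, hw, hgrow, hfw⟩ := exists_step (hf q.1.1) hηpos (sub_pos.mpr hlt)
    have hn : ‖τ • w‖ ≤ τ := by
      rw [norm_smul, Real.norm_eq_abs, abs_of_pos hτ]
      exact mul_le_of_le_one_right hτ.le hw
    have hmem : ‖q.1.1 + τ • w‖ ≤ R := by
      refine (norm_add_le _ _).trans ?_
      linarith
    have := hmax ⟨(q.1.1 + τ • w, q.1.2 + τ), hmem⟩ ⟨by simpa using hn, by simpa using hfw,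
      by simpa using hgrow⟩
    change q.1.2 + τ ≤ q.1.2 at this
    linarith
  have hfq : f q.1.1 = 0 := hR _ hqR.ge
  have h1 : |f q.1.1 - f x0| ≤ η * (q.1.2 - 0) := hq.2.1
  have h2 : ‖x0‖ + (q.1.2 - 0) / 2 ≤ ‖q.1.1‖ := hq.2.2
  rw [hfq, zero_sub, abs_neg] at h1
  have h3 : q.1.2 ≤ 2 * R := by
    have := norm_nonneg x0
    linarith
  have h4 : η * (q.1.2 - 0) ≤ η * (2 * R) := by
    apply mul_le_mul_of_nonneg_left _ hηpos.le
    linarith
  have h5 : 0 < η * (2 * R) := by positivity
  linarith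

/-- A differentiable self-map of `C[0,1]` which is the identity near the sphere of radius `r`
is the identity at the centre. -/
theorem map_zero_of_id_near_sphere {H : X → X} (hH : Differentiable ℝ H) {r : ℝ} (hr : 0 < r)
    {V : Set X} (hV : V ∈ 𝓝ˢ (Metric.sphere (0:X) r)) (hid : ∀ x ∈ V, H x = x) {x : X}
    (hx : ‖x‖ < r) : H x = x := by
  classical
  ext t
  let f : X → ℝ := fun x => if ‖x‖ < r then (H x - x) t else 0
  have hev : Differentiable ℝ fun x : X => (H x - x) t := by
    have h1 : Differentiable ℝ fun x : X => H x - x := hH.sub differentiable_id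
    exact (ContinuousMap.evalCLM ℝ t).differentiable.comp h1
  have hf : Differentiable ℝ f := by
    intro y
    rcases lt_trichotomy ‖y‖ r with h | h | h
    · have : f =ᶠ[𝓝 y] fun x : X => (H x - x) t := by
        filter_upwards [continuous_norm.continuousAt.eventually (gt_mem_nhds h)] with z hz
        simp only [f, if_pos hz]
      exact (hev y).congr_of_eventuallyEq this
    · have hy : V ∈ 𝓝 y := by
        rw [mem_nhdsSet_iff_forall] at hV
        exact hV y (by simpa using h)
      have : f =ᶠ[𝓝 y] fun _ => (0:ℝ) := by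
        filter_upwards [hy] with z hz
        simp only [f]
        split_ifs
        · rw [hid z hz]; simp
        · rfl
      exact (differentiableAt_const (0:ℝ)).congr_of_eventuallyEq this
    · have : f =ᶠ[𝓝 y] fun _ => (0:ℝ) := by
        filter_upwards [continuous_norm.continuousAt.eventually (lt_mem_nhds h)] with z hz
        simp only [f, if_neg (not_lt.mpr hz.le)]
      exact (differentiableAt_const (0:ℝ)).congr_of_eventuallyEq this
  have h0 : f x = 0 := eq_zero_of_bounded_support hf (R := r)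
    (fun z hz => by simp only [f, if_neg (not_lt.mpr hz)]) x
  simp only [f, if_pos hx] at h0
  have h1 : H x t - x t = 0 := h0
  linarith

end Pool.Agent.R881.NoBump
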