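import Mathlib

/-!
# Parallelogram forms and weak compactness

An operator `T : X → Y` that is, up to `ε` on the unit ball, dominated by a bounded function
satisfying the parallelogram law is weakly compact.
-/

open Set Metric Filter Topology NormedSpace

namespace R881.Rdp

variable {𝕜 : Type*} [RCLike 𝕜] {X Y : Type*} [NormedAddCommGroup X] [NormedSpace 𝕜 X]
  [NormedAddCommGroup Y] [NormedSpace 𝕜 Y]

/-- domination by parallelogram forms -/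
def Dom (T : X →L[𝕜] Y) : Prop :=
  ∀ ε : ℝ, 0 < ε → ∃ q : X → ℝ, (∀ x, 0 ≤ q x) ∧ (∃ M, ∀ x, ‖x‖ ≤ 1 → q x ≤ M) ∧
    (∀ x y, q ((2⁻¹ : 𝕜) • (x + y)) + q ((2⁻¹ : 𝕜) • (x - y)) = (q x + q y) / 2) ∧
    ∀ x, ‖x‖ ≤ 1 → ‖T x‖ ≤ q x + ε

/-- the basic convex sets -/
def AA (T : X →L[𝕜] Y) (Φ : StrongDual 𝕜 (StrongDual 𝕜 Y))
    (p : Finset (StrongDual 𝕜 Y) × ℕ) : Set X :=
  {x | ‖x‖ ≤ 1 ∧ ∀ ψ ∈ p.1, ‖ψ (T x) - Φ ψ‖ ≤ 1 / ((p.2 : ℝ) + 1)}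

lemma AA_mid {T : X →L[𝕜] Y} {Φ : StrongDual 𝕜 (StrongDual 𝕜 Y)}
    {p : Finset (StrongDual 𝕜 Y) × ℕ} {x y : X} (hx : x ∈ AA T Φ p) (hy : y ∈ AA T Φ p) :
    (2⁻¹ : 𝕜) • (x + y) ∈ AA T Φ p := by
  refine ⟨?_, fun ψ hψ => ?_⟩
  · rw [norm_smul]
    have h1 := norm_add_le x y
    have h2 : ‖(2⁻¹ : 𝕜)‖ = 1 / 2 := by rw [norm_inv, RCLike.norm_ofNat]; norm_num
    rw [h2]
    linarith [hx.1, hy.1]
  · have h1 := hx.2 ψ hψ
    have h2 := hy.2 ψ hψ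
    have h3 : ψ (T ((2⁻¹ : 𝕜) • (x + y))) - Φ ψ =
        (2⁻¹ : 𝕜) * ((ψ (T x) - Φ ψ) + (ψ (T y) - Φ ψ)) := by
      simp only [map_smul, map_add, smul_eq_mul]
      ring
    have h4 : ‖(2⁻¹ : 𝕜)‖ = 1 / 2 := by rw [norm_inv, RCLike.norm_ofNat]; norm_num
    rw [h3, norm_mul, h4]
    have := norm_add_le (ψ (T x) - Φ ψ) (ψ (T y) - Φ ψ)
    linarith

lemma AA_mono {T : X →L[𝕜] Y} {Φ : StrongDual 𝕜 (StrongDual 𝕜 Y)}
    {p p' : Finset (StrongDual 𝕜 Y) × ℕ} (h1 : p.1 ⊆ p'.1) (h2 : p.2 ≤ p'.2) :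
    AA T Φ p' ⊆ AA T Φ p := by
  intro x hx
  refine ⟨hx.1, fun ψ hψ => (hx.2 ψ (h1 hψ)).trans ?_⟩
  have : (p.2 : ℝ) ≤ p'.2 := by exact_mod_cast h2
  exact one_div_le_one_div_of_le (by positivity) (by linarith)

/-- approximation in norm of an element of the weak* closure -/
lemma approx {T : X →L[𝕜] Y} (hT : Dom T) {Φ : StrongDual 𝕜 (StrongDual 𝕜 Y)}
    (hne : ∀ p, (AA T Φ p).Nonempty) {ε : ℝ} (hε : 0 < ε) :
    ∃ x : X, ∀ ψ : StrongDual 𝕜 Y, ‖ψ (T x) - Φ ψ‖ ≤ 5 * ε * ‖ψ‖ := by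
  obtain ⟨q, hq0, ⟨M, hM⟩, hpar, hdom⟩ := hT ε hε
  set m : Finset (StrongDual 𝕜 Y) × ℕ → ℝ := fun p => sInf (q '' AA T Φ p) with hm
  have hbdd : ∀ p, BddBelow (q '' AA T Φ p) := fun p =>
    ⟨0, by rintro _ ⟨x, -, rfl⟩; exact hq0 x⟩
  have hle : ∀ p x, x ∈ AA T Φ p → m p ≤ q x := fun p x hx => csInf_le (hbdd p) ⟨x, hx, rfl⟩
  have hmM : ∀ p, m p ≤ M := by
    intro p
    obtain ⟨x, hx⟩ := hne p
    exact (hle p x hx).trans (hM x hx.1)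
  have hmB : BddAbove (range m) := ⟨M, by rintro _ ⟨p, rfl⟩; exact hmM p⟩
  have hex : ∀ p, ∃ x ∈ AA T Φ p, q x < m p + ε := by
    intro p
    obtain ⟨_, ⟨x, hx, rfl⟩, h⟩ := exists_lt_of_csInf_lt ((hne p).image q)
      (show m p < m p + ε by linarith)
    exact ⟨x, hx, h⟩
  obtain ⟨p0, hp0⟩ := exists_lt_of_lt_ciSup (show (⨆ p, m p) - ε < ⨆ p, m p by linarith)
  have hsup : ∀ p, m p ≤ m p0 + ε := fun p => by
    have := le_ciSup hmB p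
    linarith
  obtain ⟨g, hg, hqg⟩ := hex p0
  refine ⟨g, fun ψ => ?_⟩
  classical
  have key : ∀ n : ℕ, p0.2 ≤ n → ‖ψ (T g) - Φ ψ‖ ≤ 5 * ε * ‖ψ‖ + 1 / ((n : ℝ) + 1) := by
    intro n hn
    set p : Finset (StrongDual 𝕜 Y) × ℕ := (insert ψ p0.1, n) with hp
    obtain ⟨g', hg', hqg'⟩ := hex p
    have hg'0 : g' ∈ AA T Φ p0 := AA_mono (Finset.subset_insert _ _) hn hg'
    have hmid := hle p0 _ (AA_mid hg hg'0)
    have h1 := hpar g g'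
    have h2 := hsup p
    have h3 : q ((2⁻¹ : 𝕜) • (g - g')) ≤ 3 / 2 * ε := by linarith
    have h4 : ‖(2⁻¹ : 𝕜)‖ = 1 / 2 := by rw [norm_inv, RCLike.norm_ofNat]; norm_num
    have h5 : ‖(2⁻¹ : 𝕜) • (g - g')‖ ≤ 1 := by
      rw [norm_smul, h4]
      have := norm_sub_le g g'
      linarith [hg.1, hg'.1]
    have h6 := hdom _ h5
    rw [map_smul, norm_smul, h4] at h6
    have h7 : ‖T (g - g')‖ ≤ 5 * ε := by linarith
    have h8 : ‖ψ (T (g - g'))‖ ≤ 5 * ε * ‖ψ‖ := by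
      calc ‖ψ (T (g - g'))‖ ≤ ‖ψ‖ * ‖T (g - g')‖ := ψ.le_opNorm _
        _ ≤ ‖ψ‖ * (5 * ε) := by gcongr
        _ = _ := by ring
    have h9 := hg'.2 ψ (Finset.mem_insert_self _ _)
    have h10 : ψ (T g) - Φ ψ = ψ (T (g - g')) + (ψ (T g') - Φ ψ) := by
      rw [map_sub, map_sub]; ring
    rw [h10]
    exact (norm_add_le _ _).trans (add_le_add h8 h9)
  have hlim : Tendsto (fun n : ℕ => 5 * ε * ‖ψ‖ + 1 / ((n : ℝ) + 1)) atTop
      (𝓝 (5 * ε * ‖ψ‖ + 0)) := tendsto_const_nhds.add tendsto_one_div_add_atTop_nhds_zero_nat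
  rw [add_zero] at hlim
  exact ge_of_tendsto hlim ((eventually_ge_atTop p0.2).mono key)

/-- weak* approximation gives non-empty sets `AA` -/
lemma AA_nonempty {T : X →L[𝕜] Y} {Φ : WeakDual 𝕜 (StrongDual 𝕜 Y)}
    (h : Φ ∈ closure (inclusionInDoubleDualWeak 𝕜 Y ''
      ((toWeakSpace 𝕜 Y) '' (T '' closedBall 0 1)))) (p : Finset (StrongDual 𝕜 Y) × ℕ) :
    (AA T (WeakDual.toStrongDual Φ) p).Nonempty := by
  rw [_root_.mem_closure_iff] at h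
  have hopen : IsOpen {Ψ : WeakDual 𝕜 (StrongDual 𝕜 Y) |
      ∀ ψ ∈ p.1, ‖Ψ ψ - Φ ψ‖ < 1 / ((p.2 : ℝ) + 1)} := by
    have : {Ψ : WeakDual 𝕜 (StrongDual 𝕜 Y) |
      ∀ ψ ∈ p.1, ‖Ψ ψ - Φ ψ‖ < 1 / ((p.2 : ℝ) + 1)} =
        ⋂ ψ ∈ p.1, {Ψ : WeakDual 𝕜 (StrongDual 𝕜 Y) | ‖Ψ ψ - Φ ψ‖ < 1 / ((p.2 : ℝ) + 1)} := by
      ext; simp
    rw [this]
    refine isOpen_biInter_finset fun ψ _ => ?_
    exact isOpen_lt (((WeakDual.eval_continuous ψ).sub continuous_const).norm) continuous_const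
  obtain ⟨Ψ, hΨ, ⟨_, ⟨_, ⟨x, hx, rfl⟩, rfl⟩, rfl⟩⟩ := h _ hopen (by
    intro ψ _
    simp only [sub_self, norm_zero]
    positivity)
  refine ⟨x, by simpa using hx, fun ψ hψ => ?_⟩
  exact (hΨ ψ hψ).le

/-- **Weak compactness criterion.** -/
theorem weaklyCompact_of_dom [CompleteSpace Y] {T : X →L[𝕜] Y} (hT : Dom T) :
    IsCompact (closure ((toWeakSpace 𝕜 Y) '' (T '' closedBall 0 1))) := by
  apply NormedSpace.isCompact_closure_of_isBounded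
  · rw [preimage_image_eq _ (toWeakSpace 𝕜 Y).injective]
    exact T.lipschitz.isBounded_image isBounded_closedBall
  · intro Φ hΦ
    have hne := AA_nonempty hΦ
    set Φ' : StrongDual 𝕜 (StrongDual 𝕜 Y) := WeakDual.toStrongDual Φ with hΦ'
    have hy : ∀ n : ℕ, ∃ y : Y, ∀ ψ : StrongDual 𝕜 Y,
        ‖ψ y - Φ' ψ‖ ≤ 5 * (1 / ((n : ℝ) + 1)) * ‖ψ‖ := fun n => by
      obtain ⟨x, hx⟩ := approx hT hne (show 0 < 1 / ((n : ℝ) + 1) by positivity)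
      exact ⟨T x, hx⟩
    choose y hy using hy
    have hb : ∀ m n : ℕ, ‖y m - y n‖ ≤ 5 * (1 / ((m : ℝ) + 1)) + 5 * (1 / ((n : ℝ) + 1)) := by
      intro m n
      refine norm_le_dual_bound 𝕜 _ (by positivity) fun ψ => ?_
      have h1 : ψ (y m - y n) = (ψ (y m) - Φ' ψ) - (ψ (y n) - Φ' ψ) := by
        rw [map_sub]; ring
      rw [h1]
      refine (norm_sub_le _ _).trans ?_
      linarith [hy m ψ, hy n ψ]
    have h0 : Tendsto (fun n : ℕ => 5 * (1 / ((n : ℝ) + 1))) atTop (𝓝 0) := by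
      simpa using tendsto_one_div_add_atTop_nhds_zero_nat.const_mul (5 : ℝ)
    have hC : CauchySeq y := by
      rw [Metric.cauchySeq_iff]
      intro ε hε
      obtain ⟨N, hN⟩ := (h0.eventually (gt_mem_nhds (show 0 < ε / 2 by positivity))).exists_forall_of_atTop
      refine ⟨N, fun m hm n hn => ?_⟩
      rw [dist_eq_norm]
      have := hb m n
      have h1 := hN m hm
      have h2 := hN n hn
      linarith
    obtain ⟨z, hz⟩ := cauchySeq_tendsto_of_complete hC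
    refine ⟨toWeakSpace 𝕜 Y z, ?_⟩
    refine DFunLike.ext _ _ fun ψ => ?_
    change ψ z = Φ' ψ
    have h1 : Tendsto (fun n => ψ (y n) - Φ' ψ) atTop (𝓝 (ψ z - Φ' ψ)) :=
      ((ψ.continuous.tendsto z).comp hz).sub tendsto_const_nhds
    have h2 : Tendsto (fun n => ψ (y n) - Φ' ψ) atTop (𝓝 0) := by
      refine squeeze_zero_norm (fun n => hy n ψ) ?_
      simpa using h0.mul_const ‖ψ‖
    exact sub_eq_zero.1 (tendsto_nhds_unique h1 h2)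

end R881.Rdp
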