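import Pool.Agent.R881.RdpA

/-!
# Exhaustive operators on spaces of bounded functions are dominated by parallelogram forms
-/

open Set Metric Filter Topology NormedSpace BoundedContinuousFunction

namespace R881.Rdp

variable {𝕜 : Type*} [RCLike 𝕜] {Γ : Type*} [TopologicalSpace Γ] [DiscreteTopology Γ]
  {Y : Type*} [NormedAddCommGroup Y] [NormedSpace 𝕜 Y]

/-- bounded functions on a discrete space -/
noncomputable def mkB (f : Γ → 𝕜) (C : ℝ) (h : ∀ γ, ‖f γ‖ ≤ C) : Γ →ᵇ 𝕜 :=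
  BoundedContinuousFunction.ofNormedAddCommGroupDiscrete f C h

@[simp] lemma mkB_apply (f : Γ → 𝕜) (C : ℝ) (h : ∀ γ, ‖f γ‖ ≤ C) (γ : Γ) :
    mkB f C h γ = f γ := rfl

/-- a function bounded above -/
def BB (h : Γ → ℝ) : Prop := ∃ C, 0 ≤ C ∧ ∀ γ, h γ ≤ C

lemma BB.add {h₁ h₂ : Γ → ℝ} (a : BB h₁) (b : BB h₂) : BB (fun γ => h₁ γ + h₂ γ) := by
  obtain ⟨C, hC, h⟩ := a
  obtain ⟨C', hC', h'⟩ := b
  exact ⟨C + C', by positivity, fun γ => add_le_add (h γ) (h' γ)⟩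

/-- the variation -/
noncomputable def V (T : (Γ →ᵇ 𝕜) →L[𝕜] Y) (h : Γ → ℝ) : ℝ :=
  sSup ((fun g : Γ →ᵇ 𝕜 => ‖T g‖) '' {g | ∀ γ, ‖g γ‖ ≤ h γ})

lemma V_bdd (T : (Γ →ᵇ 𝕜) →L[𝕜] Y) {h : Γ → ℝ} (hb : BB h) :
    BddAbove ((fun g : Γ →ᵇ 𝕜 => ‖T g‖) '' {g | ∀ γ, ‖g γ‖ ≤ h γ}) := by
  obtain ⟨C, hC, hh⟩ := hb
  refine ⟨‖T‖ * C, ?_⟩
  rintro _ ⟨g, hg, rfl⟩
  have : ‖g‖ ≤ C := (BoundedContinuousFunction.norm_le hC).2 fun γ => (hg γ).trans (hh γ)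
  exact (T.le_opNorm g).trans (by gcongr)

lemma V_le {T : (Γ →ᵇ 𝕜) →L[𝕜] Y} {h : Γ → ℝ} {r : ℝ} (h0 : ∀ γ, 0 ≤ h γ)
    (H : ∀ g : Γ →ᵇ 𝕜, (∀ γ, ‖g γ‖ ≤ h γ) → ‖T g‖ ≤ r) : V T h ≤ r := by
  refine csSup_le ⟨_, 0, by simpa using h0, rfl⟩ ?_
  rintro _ ⟨g, hg, rfl⟩
  exact H g hg

lemma le_V (T : (Γ →ᵇ 𝕜) →L[𝕜] Y) {h : Γ → ℝ} (hb : BB h) {g : Γ →ᵇ 𝕜}
    (hg : ∀ γ, ‖g γ‖ ≤ h γ) : ‖T g‖ ≤ V T h := le_csSup (V_bdd T hb) ⟨g, hg, rfl⟩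

lemma exists_lt_V {T : (Γ →ᵇ 𝕜) →L[𝕜] Y} {h : Γ → ℝ} {r : ℝ} (h0 : ∀ γ, 0 ≤ h γ)
    (H : r < V T h) : ∃ g : Γ →ᵇ 𝕜, (∀ γ, ‖g γ‖ ≤ h γ) ∧ r < ‖T g‖ := by
  by_contra hcon
  push Not at hcon
  exact absurd (V_le h0 hcon) (not_le.2 H)

lemma V_nonneg (T : (Γ →ᵇ 𝕜) →L[𝕜] Y) (h : Γ → ℝ) : 0 ≤ V T h := by
  apply Real.sSup_nonneg
  rintro _ ⟨g, -, rfl⟩
  exact norm_nonneg _

lemma V_mono {T : (Γ →ᵇ 𝕜) →L[𝕜] Y} {h h' : Γ → ℝ} (h0 : ∀ γ, 0 ≤ h γ) (hb : BB h')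
    (hh : ∀ γ, h γ ≤ h' γ) : V T h ≤ V T h' :=
  V_le h0 fun _ hg => le_V T hb fun γ => (hg γ).trans (hh γ)

lemma V_comp_le {T : (Γ →ᵇ 𝕜) →L[𝕜] Y} {ψ : StrongDual 𝕜 Y} (hψ : ‖ψ‖ ≤ 1) {h : Γ → ℝ}
    (h0 : ∀ γ, 0 ≤ h γ) (hb : BB h) : V (ψ.comp T) h ≤ V T h := by
  refine V_le h0 fun g hg => ?_
  calc ‖(ψ.comp T) g‖ ≤ ‖ψ‖ * ‖T g‖ := ψ.le_opNorm _
    _ ≤ 1 * ‖T g‖ := by gcongr
    _ ≤ V T h := by rw [one_mul]; exact le_V T hb hg

lemma V_add_le {T : (Γ →ᵇ 𝕜) →L[𝕜] Y} {h₁ h₂ : Γ → ℝ} (h0 : ∀ γ, 0 ≤ h₁ γ)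
    (h0' : ∀ γ, 0 ≤ h₂ γ) (hb : BB h₁) (hb' : BB h₂) :
    V T (fun γ => h₁ γ + h₂ γ) ≤ V T h₁ + V T h₂ := by
  refine V_le (fun γ => add_nonneg (h0 γ) (h0' γ)) fun g hg => ?_
  have hr0 : ∀ γ, 0 ≤ h₁ γ / (h₁ γ + h₂ γ) := fun γ =>
    div_nonneg (h0 γ) (add_nonneg (h0 γ) (h0' γ))
  have hr1 : ∀ γ, h₁ γ / (h₁ γ + h₂ γ) ≤ 1 := fun γ =>
    div_le_one_of_le₀ (by linarith [h0' γ]) (add_nonneg (h0 γ) (h0' γ))
  set g₁ : Γ →ᵇ 𝕜 := mkB (fun γ => ((h₁ γ / (h₁ γ + h₂ γ) : ℝ) : 𝕜) * g γ) ‖g‖ (fun γ => by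
    rw [norm_mul, RCLike.norm_ofReal, abs_of_nonneg (hr0 γ)]
    calc h₁ γ / (h₁ γ + h₂ γ) * ‖g γ‖ ≤ 1 * ‖g γ‖ := by gcongr; exact hr1 γ
      _ ≤ ‖g‖ := by rw [one_mul]; exact g.norm_coe_le_norm γ) with hg₁
  have e1 : ∀ γ, ‖g₁ γ‖ ≤ h₁ γ := by
    intro γ
    rw [hg₁, mkB_apply, norm_mul, RCLike.norm_ofReal, abs_of_nonneg (hr0 γ)]
    rcases (add_nonneg (h0 γ) (h0' γ)).eq_or_lt with h | h
    · rw [← h, div_zero, zero_mul]; exact h0 γ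
    · rw [div_mul_eq_mul_div, div_le_iff₀ h]
      exact mul_le_mul_of_nonneg_left (hg γ) (h0 γ)
  have e2 : ∀ γ, ‖(g - g₁) γ‖ ≤ h₂ γ := by
    intro γ
    have : (g - g₁) γ = ((1 - h₁ γ / (h₁ γ + h₂ γ) : ℝ) : 𝕜) * g γ := by
      rw [BoundedContinuousFunction.sub_apply, hg₁, mkB_apply]
      push_cast
      ring
    rw [this, norm_mul, RCLike.norm_ofReal, abs_of_nonneg (by linarith [hr1 γ])]
    rcases (add_nonneg (h0 γ) (h0' γ)).eq_or_lt with h | h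
    · have h2 := hg γ
      rw [← h] at h2
      have h3 : ‖g γ‖ = 0 := le_antisymm h2 (norm_nonneg _)
      rw [h3, mul_zero]; exact h0' γ
    · have h4 : 1 - h₁ γ / (h₁ γ + h₂ γ) = h₂ γ / (h₁ γ + h₂ γ) := by
        field_simp; ring
      rw [h4, div_mul_eq_mul_div, div_le_iff₀ h]
      exact mul_le_mul_of_nonneg_left (hg γ) (h0' γ)
  have e3 : T g = T g₁ + T (g - g₁) := by rw [map_sub]; abel
  rw [e3]
  exact (norm_add_le _ _).trans (add_le_add (le_V T hb e1) (le_V T hb' e2))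

lemma V_add {μ : (Γ →ᵇ 𝕜) →L[𝕜] 𝕜} {h₁ h₂ : Γ → ℝ} (h0 : ∀ γ, 0 ≤ h₁ γ)
    (h0' : ∀ γ, 0 ≤ h₂ γ) (hb : BB h₁) (hb' : BB h₂) :
    V μ (fun γ => h₁ γ + h₂ γ) = V μ h₁ + V μ h₂ := by
  refine le_antisymm (V_add_le h0 h0' hb hb') ?_
  have hbb := hb.add hb'
  have key : ∀ g₁ g₂ : Γ →ᵇ 𝕜, (∀ γ, ‖g₁ γ‖ ≤ h₁ γ) → (∀ γ, ‖g₂ γ‖ ≤ h₂ γ) →
      ‖μ g₁‖ + ‖μ g₂‖ ≤ V μ (fun γ => h₁ γ + h₂ γ) := by
    intro g₁ g₂ e1 e2
    obtain ⟨a, ha, ha'⟩ := RCLike.exists_norm_eq_mul_self (μ g₁)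
    obtain ⟨b, hb1, hb1'⟩ := RCLike.exists_norm_eq_mul_self (μ g₂)
    have h3 : ‖μ (a • g₁ + b • g₂)‖ = ‖μ g₁‖ + ‖μ g₂‖ := by
      rw [map_add, map_smul, map_smul, smul_eq_mul, smul_eq_mul, ← ha', ← hb1',
        ← RCLike.ofReal_add, RCLike.norm_ofReal, abs_of_nonneg (by positivity)]
    rw [← h3]
    refine le_V μ hbb fun γ => ?_
    rw [BoundedContinuousFunction.add_apply, BoundedContinuousFunction.smul_apply,
      BoundedContinuousFunction.smul_apply]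
    refine (norm_add_le _ _).trans ?_
    rw [norm_smul, norm_smul, ha, hb1, one_mul, one_mul]
    exact add_le_add (e1 γ) (e2 γ)
  have h1 : ∀ g₁ : Γ →ᵇ 𝕜, (∀ γ, ‖g₁ γ‖ ≤ h₁ γ) →
      ‖μ g₁‖ ≤ V μ (fun γ => h₁ γ + h₂ γ) - V μ h₂ := by
    intro g₁ e1
    have : V μ h₂ ≤ V μ (fun γ => h₁ γ + h₂ γ) - ‖μ g₁‖ :=
      V_le h0' fun g₂ e2 => by linarith [key g₁ g₂ e1 e2]
    linarith
  have h2 : V μ h₁ ≤ V μ (fun γ => h₁ γ + h₂ γ) - V μ h₂ := V_le h0 h1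
  linarith

lemma V_scale {T : (Γ →ᵇ 𝕜) →L[𝕜] Y} {h h' : Γ → ℝ} {N : ℝ} (hN : 0 < N)
    (h0 : ∀ γ, 0 ≤ h γ) (hb : BB h') (hh : ∀ γ, h γ ≤ N * h' γ) : V T h ≤ N * V T h' := by
  refine V_le h0 fun g hg => ?_
  have h1 : g = (N : 𝕜) • (((N⁻¹ : ℝ) : 𝕜) • g) := by
    rw [smul_smul, ← RCLike.ofReal_mul, mul_inv_cancel₀ hN.ne', RCLike.ofReal_one, one_smul]
  have h2 : ‖T (((N⁻¹ : ℝ) : 𝕜) • g)‖ ≤ V T h' := by
    refine le_V T hb fun γ => ?_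
    rw [BoundedContinuousFunction.smul_apply, norm_smul, RCLike.norm_ofReal,
      abs_of_nonneg (by positivity), inv_mul_le_iff₀ hN]
    exact (hg γ).trans (hh γ)
  calc ‖T g‖ = ‖T ((N : 𝕜) • (((N⁻¹ : ℝ) : 𝕜) • g))‖ := by rw [← h1]
    _ = N * ‖T (((N⁻¹ : ℝ) : 𝕜) • g)‖ := by
      rw [map_smul, norm_smul, RCLike.norm_ofReal, abs_of_pos hN]
    _ ≤ N * V T h' := by gcongr

/-- the semivariation of a set -/
noncomputable def sv (T : (Γ →ᵇ 𝕜) →L[𝕜] Y) (A : Set Γ) : ℝ := V T (A.indicator fun _ => 1)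

lemma ind_nonneg (A : Set Γ) (γ : Γ) : (0 : ℝ) ≤ A.indicator (fun _ => 1) γ :=
  indicator_nonneg (fun _ _ => zero_le_one) γ

lemma ind_BB (A : Set Γ) : BB (A.indicator fun _ => (1 : ℝ)) :=
  ⟨1, zero_le_one, fun γ => by
    by_cases h : γ ∈ A
    · rw [indicator_of_mem h]
    · rw [indicator_of_notMem h]; exact zero_le_one⟩

lemma sv_nonneg (T : (Γ →ᵇ 𝕜) →L[𝕜] Y) (A : Set Γ) : 0 ≤ sv T A := V_nonneg _ _

lemma sv_mono {T : (Γ →ᵇ 𝕜) →L[𝕜] Y} {A B : Set Γ} (h : A ⊆ B) : sv T A ≤ sv T B :=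
  V_mono (ind_nonneg A) (ind_BB B) (indicator_le_indicator_of_subset h fun _ => zero_le_one)

lemma sv_comp_le {T : (Γ →ᵇ 𝕜) →L[𝕜] Y} {ψ : StrongDual 𝕜 Y} (hψ : ‖ψ‖ ≤ 1) (A : Set Γ) :
    sv (ψ.comp T) A ≤ sv T A := V_comp_le hψ (ind_nonneg A) (ind_BB A)

lemma sv_union_le (T : (Γ →ᵇ 𝕜) →L[𝕜] Y) (A B : Set Γ) :
    sv T (A ∪ B) ≤ sv T A + sv T B := by
  refine le_trans (V_mono (ind_nonneg _) ((ind_BB A).add (ind_BB B)) fun γ => ?_)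
    (V_add_le (ind_nonneg A) (ind_nonneg B) (ind_BB A) (ind_BB B))
  by_cases hA : γ ∈ A
  · rw [indicator_of_mem (mem_union_left _ hA), indicator_of_mem hA]
    linarith [ind_nonneg B γ]
  · by_cases hB : γ ∈ B
    · rw [indicator_of_mem (mem_union_right _ hB), indicator_of_mem hB]
      linarith [ind_nonneg A γ]
    · rw [indicator_of_notMem (by simp [hA, hB])]
      linarith [ind_nonneg A γ, ind_nonneg B γ]

lemma sv_empty (T : (Γ →ᵇ 𝕜) →L[𝕜] Y) : sv T ∅ = 0 := by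
  refine le_antisymm ?_ (sv_nonneg _ _)
  refine V_le (ind_nonneg _) fun g hg => ?_
  have : g = 0 := by
    ext γ
    have := hg γ
    rw [indicator_empty] at this
    simpa using this
  rw [this, map_zero, norm_zero]

lemma sv_biUnion_le (T : (Γ →ᵇ 𝕜) →L[𝕜] Y) {ι : Type*} (s : Finset ι) (A : ι → Set Γ) :
    sv T (⋃ i ∈ s, A i) ≤ ∑ i ∈ s, sv T (A i) := by
  classical
  induction s using Finset.induction_on with
  | empty => simp [sv_empty]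
  | insert a s ha ih =>
    rw [Finset.set_biUnion_insert, Finset.sum_insert ha]
    exact (sv_union_le _ _ _).trans (by linarith)

/-- removing finitely many sets -/
lemma sv_le_diff (T : (Γ →ᵇ 𝕜) →L[𝕜] Y) {ι : Type*} (s : Finset ι) (C : Set Γ) (A : ι → Set Γ) :
    sv T C ≤ sv T (C \ ⋃ i ∈ s, A i) + ∑ i ∈ s, sv T (A i ∩ C) := by
  refine le_trans (sv_mono ?_) ((sv_union_le T (C \ ⋃ i ∈ s, A i) (⋃ i ∈ s, (A i ∩ C))).trans
    (by linarith [sv_biUnion_le T s (fun i => A i ∩ C)]))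
  intro γ hγ
  by_cases h : γ ∈ ⋃ i ∈ s, A i
  · right
    rw [mem_iUnion₂] at h ⊢
    obtain ⟨i, hi, h⟩ := h
    exact ⟨i, hi, h, hγ⟩
  · exact Or.inl ⟨hγ, h⟩

/-- an exhaustive operator -/
def Exh (T : (Γ →ᵇ 𝕜) →L[𝕜] Y) : Prop :=
  ∀ g : ℕ → (Γ →ᵇ 𝕜), (∀ n, ‖g n‖ ≤ 1) → (∀ i j, i ≠ j → ∀ γ, g i γ = 0 ∨ g j γ = 0) →
    Tendsto (fun n => ‖T (g n)‖) atTop (𝓝 0)

lemma Exh.sets {T : (Γ →ᵇ 𝕜) →L[𝕜] Y} (hT : Exh T) {D : ℕ → Set Γ}
    (hD : ∀ i j, i < j → Disjoint (D i) (D j)) {κ : ℝ} (hκ : 0 < κ)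
    (hs : ∀ n, κ < sv T (D n)) : False := by
  have h1 : ∀ n, ∃ g : Γ →ᵇ 𝕜, (∀ γ, ‖g γ‖ ≤ (D n).indicator (fun _ => 1) γ) ∧ κ < ‖T g‖ :=
    fun n => exists_lt_V (ind_nonneg _) (hs n)
  choose g hg hgT using h1
  have hz : ∀ n γ, γ ∉ D n → g n γ = 0 := by
    intro n γ h
    have := hg n γ
    rw [indicator_of_notMem h] at this
    simpa using this
  have h2 := hT g (fun n => (BoundedContinuousFunction.norm_le zero_le_one).2 fun γ => by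
      refine (hg n γ).trans ?_
      by_cases h : γ ∈ D n
      · rw [indicator_of_mem h]
      · rw [indicator_of_notMem h]; exact zero_le_one) (fun i j hij γ => by
      by_contra hcon
      push Not at hcon
      have hi : γ ∈ D i := by by_contra h; exact hcon.1 (hz i γ h)
      have hj : γ ∈ D j := by by_contra h; exact hcon.2 (hz j γ h)
      rcases lt_or_gt_of_ne hij with h | h
      · exact (Set.disjoint_left.1 (hD i j h)) hi hj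
      · exact (Set.disjoint_left.1 (hD j i h)) hj hi)
  obtain ⟨n, hn⟩ := (h2.eventually (gt_mem_nhds hκ)).exists
  linarith [hgT n]

lemma sum_half_le (s : Finset ℕ) : ∑ i ∈ s, ((1 : ℝ) / 2) ^ i ≤ 2 := by
  exact (summable_geometric_two.sum_le_tsum s fun i _ => by positivity).trans
    tsum_geometric_two.le

/-- **Control.** -/
theorem control {T : (Γ →ᵇ 𝕜) →L[𝕜] Y} (hT : Exh T) {ε : ℝ} (hε : 0 < ε) :
    ∃ (F : Finset (StrongDual 𝕜 Y)) (δ : ℝ), 0 < δ ∧ ∀ A : Set Γ,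
      ∑ ψ ∈ F, sv (ψ.comp T) A < δ → sv T A ≤ ε := by
  classical
  by_contra hcon
  push Not at hcon
  obtain ⟨f, hfP, hfr⟩ := exists_seq_of_forall_finset_exists
    (α := ℕ × Set Γ × StrongDual 𝕜 Y)
    (fun y => ‖y.2.2‖ ≤ 1 ∧ ε < sv (y.2.2.comp T) y.2.1)
    (fun x y => x.1 < y.1 ∧ sv (x.2.2.comp T) y.2.1 < ε / 4 * (1 / 2) ^ y.1) (by
      intro s hs
      set N := s.sup (fun x => x.1) + 1 with hN
      obtain ⟨A, hA1, hA2⟩ := hcon (s.image (fun x => x.2.2)) (ε / 4 * (1 / 2) ^ N) (by positivity)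
      obtain ⟨g, hg, hg2⟩ := exists_lt_V (ind_nonneg A) hA2
      obtain ⟨ψ, hψ1, hψ2⟩ := exists_dual_vector'' 𝕜 (T g)
      refine ⟨(N, A, ψ), ⟨hψ1, ?_⟩, fun x hx => ⟨?_, ?_⟩⟩
      · have h1 := le_V (ψ.comp T) (ind_BB A) hg
        have h2 : ‖(ψ.comp T) g‖ = ‖T g‖ := by
          rw [ContinuousLinearMap.comp_apply, hψ2, RCLike.norm_ofReal, abs_norm]
        rw [h2] at h1
        exact hg2.trans_le h1
      · exact Nat.lt_succ_of_le (Finset.le_sup (f := fun x : ℕ × Set Γ × StrongDual 𝕜 Y => x.1) hx)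
      · refine lt_of_le_of_lt ?_ hA1
        exact Finset.single_le_sum (f := fun ψ : StrongDual 𝕜 Y => sv (ψ.comp T) A)
          (fun ψ _ => sv_nonneg _ _) (Finset.mem_image_of_mem (fun x => x.2.2) hx))
  set A : ℕ → Set Γ := fun n => (f n).2.1 with hA
  set ψ : ℕ → StrongDual 𝕜 Y := fun n => (f n).2.2 with hψ
  have hidx : ∀ n, n ≤ (f n).1 := by
    intro n
    induction n with
    | zero => exact Nat.zero_le _
    | succ n ih => exact Nat.succ_le_of_lt (ih.trans_lt (hfr n (n + 1) (Nat.lt_succ_self n)).1)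
  have hsmall : ∀ n m, n < m → sv ((ψ n).comp T) (A m) ≤ ε / 4 * (1 / 2) ^ m := by
    intro n m hnm
    refine (hfr n m hnm).2.le.trans ?_
    have : ((1 : ℝ) / 2) ^ (f m).1 ≤ (1 / 2) ^ m :=
      pow_le_pow_of_le_one (by norm_num) (by norm_num) (hidx m)
    gcongr
  set B : ℕ → ℕ → Set Γ := fun n M => A n \ ⋃ m ∈ Finset.Ioc n M, A m with hB
  have hBanti : ∀ n M M', M ≤ M' → B n M' ⊆ B n M := by
    intro n M M' h
    apply diff_subset_diff_right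
    intro γ hγ
    rw [mem_iUnion₂] at hγ ⊢
    obtain ⟨i, hi, h'⟩ := hγ
    refine ⟨i, ?_, h'⟩
    rw [Finset.mem_Ioc] at hi ⊢
    exact ⟨hi.1, hi.2.trans h⟩
  have hBbig : ∀ n M, ε / 2 ≤ sv T (B n M) := by
    intro n M
    have h1 := sv_le_diff ((ψ n).comp T) (Finset.Ioc n M) (A n) A
    have h2 : ∑ i ∈ Finset.Ioc n M, sv ((ψ n).comp T) (A i ∩ A n) ≤ ε / 2 := by
      calc ∑ i ∈ Finset.Ioc n M, sv ((ψ n).comp T) (A i ∩ A n)
          ≤ ∑ i ∈ Finset.Ioc n M, ε / 4 * (1 / 2) ^ i := by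
            refine Finset.sum_le_sum fun i hi => ?_
            rw [Finset.mem_Ioc] at hi
            exact (sv_mono inter_subset_left).trans (hsmall n i hi.1)
        _ = ε / 4 * ∑ i ∈ Finset.Ioc n M, (1 / 2 : ℝ) ^ i := by rw [Finset.mul_sum]
        _ ≤ ε / 4 * 2 := by gcongr; exact sum_half_le _
        _ = ε / 2 := by ring
    have h3 := (hfP n).2
    have h4 := sv_comp_le (hfP n).1 (T := T) (B n M)
    have h5 : ε < sv ((ψ n).comp T) (A n) := h3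
    have h6 : sv ((ψ n).comp T) (B n M) ≤ sv T (B n M) := h4
    have h7 : sv ((ψ n).comp T) (A n \ ⋃ i ∈ Finset.Ioc n M, A i) = sv ((ψ n).comp T) (B n M) := rfl
    linarith
  have hstab : ∀ n, ∀ κ > 0, ∃ M0, n ≤ M0 ∧ ∀ M, M0 ≤ M → sv T (B n M0 \ B n M) ≤ κ := by
    intro n κ hκ
    by_contra hc
    push Not at hc
    choose! nxt hnxt hnxt2 using hc
    set Ms : ℕ → ℕ := fun k => nxt^[k] n with hMs
    have hs : ∀ k, Ms (k + 1) = nxt (Ms k) := fun k => Function.iterate_succ_apply' _ _ _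
    have hge : ∀ k, n ≤ Ms k := by
      intro k
      induction k with
      | zero => exact le_rfl
      | succ k ih => rw [hs]; exact ih.trans (hnxt _ ih)
    have hmono : Monotone Ms := monotone_nat_of_le_succ fun k => by
      rw [hs]; exact hnxt _ (hge k)
    refine hT.sets (D := fun k => B n (Ms k) \ B n (Ms (k + 1))) ?_ hκ (fun k => ?_)
    · intro i j hij
      rw [Set.disjoint_left]
      intro γ h1 h2
      exact h1.2 (hBanti n _ _ (hmono (Nat.succ_le_of_lt hij)) h2.1)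
    · rw [hs]
      exact hnxt2 _ (hge k)
  have hstab' : ∀ n, ∃ M0, n ≤ M0 ∧ ∀ M, M0 ≤ M →
      sv T (B n M0 \ B n M) ≤ ε / 16 * (1 / 2) ^ n := fun n => hstab n _ (by positivity)
  choose M hM1 hM2 using hstab'
  set ns : ℕ → ℕ := fun k => (fun n => M n + 1)^[k] 0 with hns
  have hs : ∀ k, ns (k + 1) = M (ns k) + 1 := fun k => Function.iterate_succ_apply' _ _ _
  have hmono : StrictMono ns := strictMono_nat_of_lt_succ fun k => by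
    rw [hs]; exact Nat.lt_succ_of_le (hM1 _)
  set C : ℕ → Set Γ := fun j => B (ns j) (M (ns j)) with hC
  refine hT.sets (D := fun j => C j \ ⋃ i ∈ Finset.range j, C i) ?_
    (show 0 < ε / 4 by positivity) (fun j => ?_)
  · intro i j hij
    rw [Set.disjoint_left]
    intro γ h1 h2
    exact h2.2 (mem_iUnion₂.2 ⟨i, Finset.mem_range.2 hij, h1.1⟩)
  · have h1 := sv_le_diff T (Finset.range j) (C j) C
    have h2 : ∑ i ∈ Finset.range j, sv T (C i ∩ C j) ≤ ε / 8 := by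
      calc ∑ i ∈ Finset.range j, sv T (C i ∩ C j)
          ≤ ∑ i ∈ Finset.range j, ε / 16 * (1 / 2) ^ i := by
            refine Finset.sum_le_sum fun i hi => ?_
            rw [Finset.mem_range] at hi
            have h3 : M (ns i) ≤ ns j := by
              have := hmono.monotone (Nat.succ_le_of_lt hi)
              have h4 := hs i
              simp only [Nat.succ_eq_add_one] at this
              omega
            have h5 : C i ∩ C j ⊆ B (ns i) (M (ns i)) \ B (ns i) (ns j) := by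
              rintro γ ⟨hi1, hj1⟩
              refine ⟨hi1, fun hcon2 => ?_⟩
              exact hcon2.2 (mem_iUnion₂.2 ⟨ns j, Finset.mem_Ioc.2 ⟨hmono hi, le_rfl⟩, hj1.1⟩)
            refine (sv_mono h5).trans ((hM2 _ _ h3).trans ?_)
            have : ((1 : ℝ) / 2) ^ (ns i) ≤ (1 / 2) ^ i :=
              pow_le_pow_of_le_one (by norm_num) (by norm_num) hmono.le_apply
            gcongr
        _ = ε / 16 * ∑ i ∈ Finset.range j, (1 / 2 : ℝ) ^ i := by rw [Finset.mul_sum]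
        _ ≤ ε / 16 * 2 := by gcongr; exact sum_half_le _
        _ = ε / 8 := by ring
    have h3 : ε / 2 ≤ sv T (C j) := hBbig _ _
    linarith

lemma sq_BB (f : Γ →ᵇ 𝕜) : BB (fun γ => ‖f γ‖ ^ 2) :=
  ⟨‖f‖ ^ 2, by positivity, fun γ =>
    pow_le_pow_left₀ (norm_nonneg _) (f.norm_coe_le_norm γ) 2⟩

lemma V_parallelogram (μ : (Γ →ᵇ 𝕜) →L[𝕜] 𝕜) (f g : Γ →ᵇ 𝕜) :
    V μ (fun γ => ‖((2⁻¹ : 𝕜) • (f + g)) γ‖ ^ 2) + V μ (fun γ => ‖((2⁻¹ : 𝕜) • (f - g)) γ‖ ^ 2) =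
      (V μ (fun γ => ‖f γ‖ ^ 2) + V μ (fun γ => ‖g γ‖ ^ 2)) / 2 := by
  have hsq : ∀ (u : Γ →ᵇ 𝕜) (γ : Γ), 0 ≤ ‖u γ‖ ^ 2 := fun u γ => by positivity
  rw [← V_add (hsq _) (hsq _) (sq_BB _) (sq_BB _), ← V_add (hsq _) (hsq _) (sq_BB _) (sq_BB _)]
  set k : Γ → ℝ := fun γ => ‖((2⁻¹ : 𝕜) • (f + g)) γ‖ ^ 2 + ‖((2⁻¹ : 𝕜) • (f - g)) γ‖ ^ 2 with hk
  have hk0 : ∀ γ, 0 ≤ k γ := fun γ => by positivity
  have hkB : BB k := (sq_BB _).add (sq_BB _)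
  have h1 : (fun γ => ‖f γ‖ ^ 2 + ‖g γ‖ ^ 2) = fun γ => k γ + k γ := by
    funext γ
    have h2 := parallelogram_law_with_norm 𝕜 (f γ) (g γ)
    have h4 : ‖(2⁻¹ : 𝕜)‖ = 1 / 2 := by rw [norm_inv, RCLike.norm_ofNat]; norm_num
    simp only [hk, BoundedContinuousFunction.smul_apply, BoundedContinuousFunction.add_apply,
      BoundedContinuousFunction.sub_apply, norm_smul, h4]
    nlinarith [h2]
  rw [h1, V_add hk0 hk0 hkB hkB]
  ring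

/-- **Exhaustive operators are dominated.** -/
theorem dom_of_exh {T : (Γ →ᵇ 𝕜) →L[𝕜] Y} (hT : Exh T) : Dom T := by
  intro ε hε
  obtain ⟨F, δ, hδ, hF⟩ := control hT (half_pos hε)
  set c : ℝ := ε / (2 * (‖T‖ + 1)) with hc
  have hT1 : 0 < ‖T‖ + 1 := by positivity
  have hc0 : 0 < c := by positivity
  have hTc : ‖T‖ * c ≤ ε / 2 := by
    have : (‖T‖ + 1) * c = ε / 2 := by rw [hc]; field_simp
    nlinarith
  set N : ℝ := ‖T‖ / (δ * c ^ 2) with hN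
  have hN0 : 0 ≤ N := by positivity
  refine ⟨fun f => N * ∑ ψ ∈ F, V (ψ.comp T) (fun γ => ‖f γ‖ ^ 2), ?_,
    ⟨N * ∑ ψ ∈ F, V (ψ.comp T) (fun _ => 1), ?_⟩, ?_, ?_⟩
  · exact fun f => mul_nonneg hN0 (Finset.sum_nonneg fun _ _ => V_nonneg _ _)
  · intro f hf
    refine mul_le_mul_of_nonneg_left (Finset.sum_le_sum fun ψ _ => ?_) hN0
    refine V_mono (fun γ => by positivity) ⟨1, zero_le_one, fun _ => le_rfl⟩ fun γ => ?_
    exact pow_le_one₀ (norm_nonneg _) ((f.norm_coe_le_norm γ).trans hf)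
  · intro f g
    rw [← mul_add, ← Finset.sum_add_distrib, Finset.sum_congr rfl fun ψ _ => V_parallelogram _ f g,
      ← Finset.sum_div, Finset.sum_add_distrib]
    ring
  · intro f hf
    set A : Set Γ := {γ | c < ‖f γ‖} with hA
    have hfb : ∀ γ, ‖f γ‖ ≤ 1 := fun γ => (f.norm_coe_le_norm γ).trans hf
    classical
    set f₁ : Γ →ᵇ 𝕜 := mkB (fun γ => if γ ∈ A then f γ else 0) 1 (fun γ => by
      split_ifs
      · exact hfb γ
      · simp) with hf₁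
    have e1 : ∀ γ, ‖f₁ γ‖ ≤ A.indicator (fun _ => 1) γ := by
      intro γ
      rw [hf₁, mkB_apply]
      by_cases h : γ ∈ A
      · rw [if_pos h, indicator_of_mem h]; exact hfb γ
      · rw [if_neg h, indicator_of_notMem h, norm_zero]
    have e1' : ‖f₁‖ ≤ 1 := (BoundedContinuousFunction.norm_le zero_le_one).2 fun γ => by
      rw [hf₁, mkB_apply]
      split_ifs
      · exact hfb γ
      · simp
    have e2 : ‖f - f₁‖ ≤ c := by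
      refine (BoundedContinuousFunction.norm_le hc0.le).2 fun γ => ?_
      rw [BoundedContinuousFunction.sub_apply, hf₁, mkB_apply]
      by_cases h : γ ∈ A
      · rw [if_pos h, sub_self, norm_zero]; exact hc0.le
      · rw [if_neg h, sub_zero]; exact not_lt.1 h
    have e3 : T f = T f₁ + T (f - f₁) := by rw [map_sub]; abel
    have e4 : ‖T (f - f₁)‖ ≤ ε / 2 :=
      ((T.le_opNorm _).trans (mul_le_mul_of_nonneg_left e2 (norm_nonneg _))).trans hTc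
    have e5 : ‖T f‖ ≤ ‖T f₁‖ + ε / 2 := by
      rw [e3]
      exact (norm_add_le _ _).trans (by linarith)
    have hq0 : 0 ≤ N * ∑ ψ ∈ F, V (ψ.comp T) (fun γ => ‖f γ‖ ^ 2) :=
      mul_nonneg hN0 (Finset.sum_nonneg fun _ _ => V_nonneg _ _)
    by_cases hcase : ∑ ψ ∈ F, sv (ψ.comp T) A < δ
    · have h1 := hF A hcase
      have h2 := le_V T (ind_BB A) e1
      have h3 : ‖T f₁‖ ≤ ε / 2 := h2.trans h1
      linarith
    · push Not at hcase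
      have h1 : ‖T f₁‖ ≤ ‖T‖ := (T.le_opNorm _).trans (by nlinarith [norm_nonneg T])
      have h2 : ∑ ψ ∈ F, sv (ψ.comp T) A ≤
          ∑ ψ ∈ F, (c ^ 2)⁻¹ * V (ψ.comp T) (fun γ => ‖f γ‖ ^ 2) := by
        refine Finset.sum_le_sum fun ψ _ => ?_
        refine V_scale (by positivity) (ind_nonneg A) (sq_BB f) fun γ => ?_
        by_cases h : γ ∈ A
        · rw [indicator_of_mem h]
          have h3 : c < ‖f γ‖ := h
          rw [← mul_inv_cancel₀ (show c ^ 2 ≠ 0 by positivity), mul_comm]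
          gcongr
        · rw [indicator_of_notMem h]; positivity
      rw [← Finset.mul_sum] at h2
      have h3 : c ^ 2 * δ ≤ ∑ ψ ∈ F, V (ψ.comp T) (fun γ => ‖f γ‖ ^ 2) := by
        have h4 := hcase.trans h2
        rw [inv_mul_eq_div, le_div_iff₀ (by positivity)] at h4
        linarith
      have h5 : ‖T‖ ≤ N * ∑ ψ ∈ F, V (ψ.comp T) (fun γ => ‖f γ‖ ^ 2) := by
        calc ‖T‖ = N * (c ^ 2 * δ) := by rw [hN]; field_simp
          _ ≤ _ := by gcongr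
      linarith

end R881.Rdp
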