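import Pool.Agent.R881.RdpB

/-!
# The `c₀`-sum of renormed copies of a space of bounded functions
-/

open Set Metric Filter Topology NormedSpace BoundedContinuousFunction

open scoped ZeroAtInfty

namespace R881.Rdp

section wuc

variable {𝕜 : Type*} [RCLike 𝕜] {X Y : Type*} [NormedAddCommGroup X] [NormedSpace 𝕜 X]
  [NormedAddCommGroup Y] [NormedSpace 𝕜 Y]

/-- completely continuous operators (weakly Cauchy sequences go to Cauchy sequences) -/
def CC (T : X →L[𝕜] Y) : Prop :=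
  ∀ x : ℕ → X, (∀ φ : X →L[𝕜] 𝕜, CauchySeq fun n => φ (x n)) → CauchySeq fun n => T (x n)

lemma wuc_null (φ : X →L[𝕜] 𝕜) {G : ℕ → X} {C : ℝ}
    (hG : ∀ (K : ℕ) (a : ℕ → 𝕜), (∀ k, ‖a k‖ ≤ 1) → ‖∑ k ∈ Finset.range K, a k • G k‖ ≤ C) :
    Tendsto (fun k => φ (G k)) atTop (𝓝 0) := by
  have h1 : ∀ k, ∃ c : 𝕜, ‖c‖ = 1 ∧ (‖φ (G k)‖ : 𝕜) = c * φ (G k) := fun k =>
    RCLike.exists_norm_eq_mul_self _
  choose a ha ha' using h1
  have h2 : ∀ K, ∑ k ∈ Finset.range K, ‖φ (G k)‖ ≤ ‖φ‖ * C := by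
    intro K
    have h3 : φ (∑ k ∈ Finset.range K, a k • G k) =
        ((∑ k ∈ Finset.range K, ‖φ (G k)‖ : ℝ) : 𝕜) := by
      rw [map_sum, RCLike.ofReal_sum]
      exact Finset.sum_congr rfl fun k _ => by rw [map_smul, smul_eq_mul, ha']
    have h4 : ‖φ (∑ k ∈ Finset.range K, a k • G k)‖ = ∑ k ∈ Finset.range K, ‖φ (G k)‖ := by
      rw [h3, RCLike.norm_ofReal, abs_of_nonneg (Finset.sum_nonneg fun _ _ => norm_nonneg _)]
    rw [← h4]
    exact (φ.le_opNorm _).trans
      (mul_le_mul_of_nonneg_left (hG K a fun k => (ha k).le) (norm_nonneg _))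
  have h5 : Summable fun k => ‖φ (G k)‖ :=
    summable_of_sum_range_le (fun _ => norm_nonneg _) h2
  exact tendsto_zero_iff_norm_tendsto_zero.2 h5.tendsto_atTop_zero

lemma CC.wuc [CompleteSpace Y] {T : X →L[𝕜] Y} (hT : CC T) {G : ℕ → X} {C : ℝ}
    (hG : ∀ (K : ℕ) (a : ℕ → 𝕜), (∀ k, ‖a k‖ ≤ 1) → ‖∑ k ∈ Finset.range K, a k • G k‖ ≤ C) :
    Tendsto (fun k => ‖T (G k)‖) atTop (𝓝 0) := by
  obtain ⟨y, hy⟩ := cauchySeq_tendsto_of_complete
    (hT G fun φ => (wuc_null φ hG).cauchySeq)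
  have hy0 : y = 0 := by
    refine SeparatingDual.eq_zero_of_forall_dual_eq_zero (R := 𝕜) fun ψ => ?_
    have h1 : Tendsto (fun k => ψ (T (G k))) atTop (𝓝 (ψ y)) := (ψ.continuous.tendsto y).comp hy
    exact tendsto_nhds_unique h1 (wuc_null (ψ.comp T) hG)
  rw [hy0] at hy
  simpa using hy.norm

end wuc

variable {𝕜 : Type*} [RCLike 𝕜] {Γ : Type*} [TopologicalSpace Γ]
  (R : Submodule 𝕜 (Γ →ᵇ 𝕜)) [hR : IsClosed (R : Set (Γ →ᵇ 𝕜))]

/-- values of the components -/
abbrev EE : Type _ := (Γ →ᵇ 𝕜) × ((Γ →ᵇ 𝕜) ⧸ R)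

/-- the quotient map -/
noncomputable def qm : (Γ →ᵇ 𝕜) →L[𝕜] ((Γ →ᵇ 𝕜) ⧸ R) :=
  R.mkQ.mkContinuous 1 fun x => by
    rw [one_mul]; exact Submodule.Quotient.norm_mk_le R x

lemma qm_le (x : Γ →ᵇ 𝕜) : ‖qm R x‖ ≤ ‖x‖ := Submodule.Quotient.norm_mk_le R x

/-- the ambient space of null sequences -/
def CZ : Type _ := C₀(ℕ, EE R)

noncomputable instance : NormedAddCommGroup (CZ R) :=
  inferInstanceAs (NormedAddCommGroup C₀(ℕ, EE R))

noncomputable instance : NormedSpace 𝕜 (CZ R) :=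
  inferInstanceAs (NormedSpace 𝕜 C₀(ℕ, EE R))

instance : CompleteSpace (CZ R) :=
  inferInstanceAs (CompleteSpace C₀(ℕ, EE R))

lemma c0_apply_le {E : Type*} [NormedAddCommGroup E] (F : C₀(ℕ, E)) (n : ℕ) : ‖F n‖ ≤ ‖F‖ := by
  rw [← ZeroAtInftyContinuousMap.norm_toBCF_eq_norm]
  exact F.toBCF.norm_coe_le_norm n

lemma c0_norm_le {E : Type*} [NormedAddCommGroup E] {F : C₀(ℕ, E)} {C : ℝ} (hC : 0 ≤ C)
    (h : ∀ n, ‖F n‖ ≤ C) : ‖F‖ ≤ C := by
  rw [← ZeroAtInftyContinuousMap.norm_toBCF_eq_norm]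
  exact (BoundedContinuousFunction.norm_le hC).2 h

lemma c0_tendsto {E : Type*} [NormedAddCommGroup E] (F : C₀(ℕ, E)) :
    Tendsto (fun n => F n) atTop (𝓝 0) := by
  have := F.zero_at_infty'
  rwa [cocompact_eq_cofinite, Nat.cofinite_eq_atTop] at this

/-- forget the type synonym -/
def toC (F : CZ R) : C₀(ℕ, EE R) := F

/-- evaluation, as a linear map -/
noncomputable def ev0 (n : ℕ) : CZ R →ₗ[𝕜] EE R where
  toFun F := toC R F n
  map_add' _ _ := rfl
  map_smul' _ _ := rfl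

lemma ev0_le (n : ℕ) (F : CZ R) : ‖ev0 R n F‖ ≤ ‖F‖ := c0_apply_le (toC R F) n

/-- evaluation -/
noncomputable def ev (n : ℕ) : CZ R →L[𝕜] EE R :=
  LinearMap.mkContinuous (ev0 R n) 1 fun F => by
    rw [one_mul]; exact ev0_le R n F

/-- the space: null sequences `(x_n)` with `n • Q x_n → 0` -/
noncomputable def XX : Submodule 𝕜 (CZ R) where
  carrier := {F | ∀ n, (ev R n F).2 = (n : 𝕜) • qm R (ev R n F).1}
  zero_mem' := fun n => by rw [map_zero]; simp
  add_mem' := by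
    intro F G hF hG n
    have h1 := hF n
    have h2 := hG n
    rw [map_add, Prod.snd_add, Prod.fst_add, map_add, smul_add, h1, h2]
  smul_mem' := by
    intro c F hF n
    have h1 := hF n
    rw [map_smul, Prod.smul_snd, Prod.smul_fst, map_smul, h1, smul_comm]

lemma XX_closed : IsClosed (XX R : Set (CZ R)) := by
  have : (XX R : Set (CZ R)) = ⋂ n : ℕ, {F : CZ R | (ev R n F).2 = (n : 𝕜) • qm R (ev R n F).1} := by
    ext F
    simp only [mem_iInter]
    rfl
  rw [this]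
  refine isClosed_iInter fun n => isClosed_eq ?_ ?_
  · exact continuous_snd.comp (ev R n).continuous
  · exact (continuous_const_smul (n : 𝕜)).comp
      ((qm R).continuous.comp (continuous_fst.comp (ev R n).continuous))

instance XX_complete : CompleteSpace (XX R) := (XX_closed R).completeSpace_coe

/-- evaluation on the space -/
noncomputable def ex (n : ℕ) : XX R →L[𝕜] EE R := (ev R n).comp (XX R).subtypeL

variable {R}

lemma ex_snd (F : XX R) (n : ℕ) : (ex R n F).2 = (n : 𝕜) • qm R (ex R n F).1 := F.2 n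

lemma ex_le (F : XX R) (n : ℕ) : ‖ex R n F‖ ≤ ‖F‖ := ev0_le R n F.1

lemma X_norm_le {F : XX R} {C : ℝ} (hC : 0 ≤ C) (h : ∀ n, ‖ex R n F‖ ≤ C) : ‖F‖ ≤ C :=
  c0_norm_le (F := toC R F.1) hC h

lemma ex_tendsto (F : XX R) : Tendsto (fun n => ex R n F) atTop (𝓝 0) :=
  c0_tendsto (toC R F.1)

lemma X_ext {F G : XX R} (h : ∀ n, ex R n F = ex R n G) : F = G :=
  Subtype.ext (ZeroAtInftyContinuousMap.ext h)

/-- constructor -/
noncomputable def mkX (f : ℕ → EE R) (h0 : Tendsto f atTop (𝓝 0))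
    (h : ∀ n, (f n).2 = (n : 𝕜) • qm R (f n).1) : XX R :=
  ⟨(⟨⟨f, continuous_of_discreteTopology⟩, by
    rw [cocompact_eq_cofinite, Nat.cofinite_eq_atTop]; exact h0⟩ : C₀(ℕ, EE R)), h⟩

@[simp] lemma ex_mkX (f : ℕ → EE R) (h0 : Tendsto f atTop (𝓝 0))
    (h : ∀ n, (f n).2 = (n : 𝕜) • qm R (f n).1) (n : ℕ) : ex R n (mkX f h0 h) = f n := rfl

variable (R)

/-- the coordinate -/
noncomputable def PP (n : ℕ) : XX R →L[𝕜] (Γ →ᵇ 𝕜) := (ContinuousLinearMap.fst 𝕜 _ _).comp (ex R n)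

variable {R}

lemma PP_apply (n : ℕ) (F : XX R) : PP R n F = (ex R n F).1 := rfl

lemma PP_le (n : ℕ) (F : XX R) : ‖PP R n F‖ ≤ ‖F‖ := (norm_fst_le _).trans (ex_le F n)

open Classical in
/-- restriction to a set of indices -/
noncomputable def cut (S : Set ℕ) (F : XX R) : XX R :=
  mkX (fun n => if n ∈ S then ex R n F else 0)
    (by
      refine squeeze_zero_norm (fun n => ?_) (tendsto_zero_iff_norm_tendsto_zero.1 (ex_tendsto F))
      split_ifs
      · exact le_rfl
      · simp)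
    (fun n => by
      split_ifs
      · exact ex_snd F n
      · simp)

open Classical in
lemma cut_apply (S : Set ℕ) (F : XX R) (n : ℕ) :
    ex R n (cut S F) = if n ∈ S then ex R n F else 0 := rfl

lemma cut_norm_le {S : Set ℕ} {F : XX R} {C : ℝ} (hC : 0 ≤ C)
    (h : ∀ n ∈ S, ‖ex R n F‖ ≤ C) : ‖cut S F‖ ≤ C := by
  refine X_norm_le hC fun n => ?_
  rw [cut_apply]
  split_ifs with hn
  · exact h n hn
  · simpa using hC

variable (R)

/-- the embedding of a coordinate, as a function -/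
noncomputable def io0 (n : ℕ) (x : Γ →ᵇ 𝕜) : XX R :=
  mkX (fun m => if m = n then ((x, (n : 𝕜) • qm R x) : EE R) else 0)
    (by
      refine tendsto_const_nhds.congr' ?_
      filter_upwards [eventually_gt_atTop n] with m hm
      rw [if_neg (by omega)])
    (fun m => by
      split_ifs with h
      · rw [h]
      · simp)

lemma ex_io0 (n : ℕ) (x : Γ →ᵇ 𝕜) (m : ℕ) :
    ex R m (io0 R n x) = if m = n then ((x, (n : 𝕜) • qm R x) : EE R) else 0 := rfl

/-- the embedding of a coordinate -/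
noncomputable def io (n : ℕ) : (Γ →ᵇ 𝕜) →L[𝕜] XX R :=
  LinearMap.mkContinuous
    { toFun := io0 R n
      map_add' := fun x y => by
        refine X_ext fun m => ?_
        rw [(ex R m).map_add, ex_io0, ex_io0, ex_io0]
        split_ifs
        · rw [(qm R).map_add, smul_add]; rfl
        · simp
      map_smul' := fun c x => by
        refine X_ext fun m => ?_
        rw [RingHom.id_apply, (ex R m).map_smul, ex_io0, ex_io0]
        split_ifs
        · rw [(qm R).map_smul, smul_comm]; rfl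
        · simp } ((n : ℝ) + 1) fun x => by
    change ‖io0 R n x‖ ≤ _
    refine X_norm_le (by positivity) fun m => ?_
    rw [ex_io0]
    split_ifs
    · refine max_le ?_ ?_
      · change ‖x‖ ≤ _
        nlinarith [norm_nonneg x, (Nat.cast_nonneg n : (0 : ℝ) ≤ n)]
      · change ‖(n : 𝕜) • qm R x‖ ≤ _
        rw [norm_smul, RCLike.norm_natCast]
        nlinarith [norm_nonneg x, qm_le R x, (Nat.cast_nonneg n : (0 : ℝ) ≤ n)]
    · rw [norm_zero]; positivity

lemma io_apply (n : ℕ) (x : Γ →ᵇ 𝕜) (m : ℕ) :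
    ex R m (io R n x) = if m = n then (x, (n : 𝕜) • qm R x) else 0 := rfl

variable {R}

/-- the decomposition -/
lemma decomp (F : XX R) (N : ℕ) :
    F = ∑ n ∈ Finset.range N, io R n (PP R n F) + cut (Ici N) F := by
  refine X_ext fun m => ?_
  rw [map_add, map_sum, cut_apply]
  simp_rw [io_apply]
  have h3 : ∀ n, n = m → ((PP R n F, (n : 𝕜) • qm R (PP R n F)) : EE R) = ex R m F := by
    rintro n rfl
    exact Prod.ext rfl (ex_snd F n).symm
  by_cases hm : m < N
  · rw [if_neg (by simpa using hm), add_zero, Finset.sum_eq_single m]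
    · rw [if_pos rfl, h3 m rfl]
    · intro b _ hb
      rw [if_neg (Ne.symm hb)]
    · intro h
      exact absurd (Finset.mem_range.2 hm) h
  · rw [if_pos (by simpa using hm), Finset.sum_eq_zero, zero_add]
    intro n hn
    rw [if_neg]
    rw [Finset.mem_range] at hn
    omega

/-- sums of disjointly supported elements -/
lemma disj_norm {G : ℕ → XX R} (hG : ∀ k, ‖G k‖ ≤ 1)
    (hd : ∀ i j, i ≠ j → ∀ m, ex R m (G i) = 0 ∨ ex R m (G j) = 0)
    (K : ℕ) (a : ℕ → 𝕜) (ha : ∀ k, ‖a k‖ ≤ 1) :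
    ‖∑ k ∈ Finset.range K, a k • G k‖ ≤ 1 := by
  refine X_norm_le zero_le_one fun m => ?_
  rw [map_sum]
  by_cases h : ∃ k ∈ Finset.range K, ex R m (G k) ≠ 0
  · obtain ⟨k, hk, hk0⟩ := h
    rw [Finset.sum_eq_single k]
    · rw [map_smul, norm_smul]
      have h3 := (ex_le (G k) m).trans (hG k)
      exact mul_le_one₀ (ha k) (norm_nonneg _) h3
    · intro b _ hb
      rw [map_smul, (hd b k hb m).resolve_right hk0, smul_zero]
    · intro h'
      exact absurd hk h'
  · push Not at h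
    rw [Finset.sum_eq_zero fun k hk => by rw [map_smul, h k hk, smul_zero], norm_zero]
    exact zero_le_one

lemma disj_norm_fun {g : ℕ → (Γ →ᵇ 𝕜)} (hg : ∀ k, ‖g k‖ ≤ 1)
    (hd : ∀ i j, i ≠ j → ∀ γ, g i γ = 0 ∨ g j γ = 0)
    (K : ℕ) (a : ℕ → 𝕜) (ha : ∀ k, ‖a k‖ ≤ 1) :
    ‖∑ k ∈ Finset.range K, a k • g k‖ ≤ 1 := by
  refine (BoundedContinuousFunction.norm_le zero_le_one).2 fun m => ?_
  have h1 : (∑ k ∈ Finset.range K, a k • g k : Γ →ᵇ 𝕜) m =
      ∑ k ∈ Finset.range K, a k • g k m := by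
    have h2 : ∀ f : Γ →ᵇ 𝕜, f m = BoundedContinuousFunction.evalCLM 𝕜 m f := fun _ => rfl
    rw [h2, map_sum]
    rfl
  rw [h1]
  by_cases h : ∃ k ∈ Finset.range K, g k m ≠ 0
  · obtain ⟨k, hk, hk0⟩ := h
    rw [Finset.sum_eq_single k]
    · rw [norm_smul]
      have h3 := ((g k).norm_coe_le_norm m).trans (hg k)
      exact mul_le_one₀ (ha k) (norm_nonneg _) h3
    · intro b _ hb
      rw [(hd b k hb m).resolve_right hk0, smul_zero]
    · intro h'
      exact absurd hk h'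
  · push Not at h
    rw [Finset.sum_eq_zero fun k hk => by rw [h k hk, smul_zero], norm_zero]
    exact zero_le_one

variable {Y : Type*} [NormedAddCommGroup Y] [NormedSpace 𝕜 Y] [CompleteSpace Y]

lemma exh_io [DiscreteTopology Γ] {T : XX R →L[𝕜] Y} (hT : CC T) (n : ℕ) :
    Exh (T.comp (io R n)) := by
  intro g hg hd
  refine hT.wuc (G := fun k => io R n (g k)) (C := ‖io R n‖) fun K a ha => ?_
  have : ∑ k ∈ Finset.range K, a k • io R n (g k) =
      io R n (∑ k ∈ Finset.range K, a k • g k) := by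
    rw [map_sum]
    exact Finset.sum_congr rfl fun k _ => (map_smul _ _ _).symm
  rw [this]
  have h1 := disj_norm_fun hg hd K a ha
  calc _ ≤ ‖io R n‖ * ‖∑ k ∈ Finset.range K, a k • g k‖ := (io R n).le_opNorm _
    _ ≤ ‖io R n‖ * 1 := by gcongr
    _ = _ := mul_one _

lemma tail_small {T : XX R →L[𝕜] Y} (hT : CC T) {ε : ℝ} (hε : 0 < ε) :
    ∃ N, ∀ F : XX R, ‖F‖ ≤ 1 → ‖T (cut (Ici N) F)‖ ≤ ε := by
  by_contra hcon
  push Not at hcon
  have h1 : ∀ N, ∃ (F : XX R) (M : ℕ), ‖F‖ ≤ 1 ∧ N ≤ M ∧ ε < ‖T (cut (Ico N M) F)‖ := by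
    intro N
    obtain ⟨F, hF, hF2⟩ := hcon N
    have h2 : Tendsto (fun M => cut (Ico N M) F) atTop (𝓝 (cut (Ici N) F)) := by
      rw [tendsto_iff_norm_sub_tendsto_zero, Metric.tendsto_atTop]
      intro η hη
      obtain ⟨M, hM⟩ := ((tendsto_zero_iff_norm_tendsto_zero.1
        (ex_tendsto F)).eventually (gt_mem_nhds (half_pos hη))).exists_forall_of_atTop
      refine ⟨M, fun M' hM' => ?_⟩
      rw [Real.dist_eq, sub_zero, abs_of_nonneg (norm_nonneg _)]
      have : ‖cut (Ico N M') F - cut (Ici N) F‖ ≤ η / 2 := by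
        refine X_norm_le (half_pos hη).le fun m => ?_
        rw [map_sub, cut_apply, cut_apply]
        by_cases ha : N ≤ m
        · by_cases hb : m < M'
          · rw [if_pos ⟨ha, hb⟩, if_pos (show m ∈ Ici N from ha), sub_self, norm_zero]
            exact (half_pos hη).le
          · rw [if_neg (fun h => hb h.2), if_pos (show m ∈ Ici N from ha), zero_sub, norm_neg]
            exact (hM m (by omega)).le
        · rw [if_neg (fun h => ha h.1), if_neg (show m ∉ Ici N from ha), sub_self, norm_zero]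
          exact (half_pos hη).le
      linarith
    have h3 : Tendsto (fun M => ‖T (cut (Ico N M) F)‖) atTop (𝓝 ‖T (cut (Ici N) F)‖) :=
      ((T.continuous.tendsto _).comp h2).norm
    obtain ⟨M, hM1, hM2⟩ := ((h3.eventually (lt_mem_nhds hF2)).and (eventually_ge_atTop N)).exists
    exact ⟨F, M, hF, hM2, hM1⟩
  choose F M hF hM hFM using h1
  set ns : ℕ → ℕ := fun k => M^[k] 0 with hns
  have hs : ∀ k, ns (k + 1) = M (ns k) := fun k => Function.iterate_succ_apply' _ _ _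
  have hmono : Monotone ns := monotone_nat_of_le_succ fun k => by rw [hs]; exact hM _
  set G : ℕ → XX R := fun k => cut (Ico (ns k) (ns (k + 1))) (F (ns k)) with hG
  have hG1 : ∀ k, ‖G k‖ ≤ 1 := fun k =>
    cut_norm_le zero_le_one fun n _ => (ex_le _ n).trans (hF _)
  have hdis : ∀ i j, i < j → ∀ m, ex R m (G i) = 0 ∨ ex R m (G j) = 0 := by
    intro i j hij m
    rw [hG]
    simp only [cut_apply]
    have h5 : ns (i + 1) ≤ ns j := hmono hij
    by_cases h : m ∈ Ico (ns i) (ns (i + 1))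
    · right
      rw [if_neg]
      intro h'
      have h6 := h.2
      have h7 := h'.1
      omega
    · left
      rw [if_neg h]
  have hd : ∀ i j, i ≠ j → ∀ m, ex R m (G i) = 0 ∨ ex R m (G j) = 0 := by
    intro i j hij m
    rcases lt_or_gt_of_ne hij with h | h
    · exact hdis i j h m
    · exact (hdis j i h m).symm
  have h4 := hT.wuc (G := G) (C := 1) (disj_norm hG1 hd)
  obtain ⟨k, hk⟩ := (h4.eventually (gt_mem_nhds hε)).exists
  have h5 := hFM (ns k)
  rw [← hs] at h5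
  exact absurd hk (not_lt.2 h5.le)

/-- **Completely continuous operators on the space are dominated.** -/
theorem dom_XX [DiscreteTopology Γ] {T : XX R →L[𝕜] Y} (hT : CC T) : Dom T := by
  intro ε hε
  obtain ⟨N, hN⟩ := tail_small hT (half_pos hε)
  have h1 : ∀ n, Dom (T.comp (io R n)) := fun n => dom_of_exh (exh_io hT n)
  have hε' : 0 < ε / (2 * ((N : ℝ) + 1)) := by positivity
  have h2 := fun n => h1 n _ hε'
  choose q hq0 hqM hpar hdom using h2
  choose M hM using hqM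
  refine ⟨fun F => ∑ n ∈ Finset.range N, q n (PP R n F), ?_,
    ⟨∑ n ∈ Finset.range N, M n, ?_⟩, ?_, ?_⟩
  · exact fun F => Finset.sum_nonneg fun n _ => hq0 n _
  · exact fun F hF => Finset.sum_le_sum fun n _ => hM n _ ((PP_le n F).trans hF)
  · intro F G
    rw [← Finset.sum_add_distrib, ← Finset.sum_add_distrib, Finset.sum_div]
    refine Finset.sum_congr rfl fun n _ => ?_
    rw [map_smul, map_smul, map_add, map_sub]
    exact hpar n _ _
  · intro F hF
    have h3 : ‖T F‖ ≤ ∑ n ∈ Finset.range N, ‖T (io R n (PP R n F))‖ + ‖T (cut (Ici N) F)‖ := by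
      conv_lhs => rw [decomp F N]
      rw [map_add, map_sum]
      exact (norm_add_le _ _).trans (add_le_add (norm_sum_le _ _) le_rfl)
    have h4 : ∑ n ∈ Finset.range N, ‖T (io R n (PP R n F))‖ ≤
        ∑ n ∈ Finset.range N, (q n (PP R n F) + ε / (2 * ((N : ℝ) + 1))) :=
      Finset.sum_le_sum fun n _ => hdom n _ ((PP_le n F).trans hF)
    rw [Finset.sum_add_distrib, Finset.sum_const, Finset.card_range, nsmul_eq_mul] at h4
    have h5 : (N : ℝ) * (ε / (2 * ((N : ℝ) + 1))) ≤ ε / 2 := by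
      rw [mul_div_assoc', div_le_div_iff₀ (by positivity) (by norm_num)]
      nlinarith
    have h6 := hN F hF
    linarith

/-- the space has the reciprocal Dunford-Pettis property -/
theorem rdpp_XX [DiscreteTopology Γ] {T : XX R →L[𝕜] Y} (hT : CC T) :
    IsCompact (closure ((toWeakSpace 𝕜 Y) '' (T '' closedBall 0 1))) :=
  weaklyCompact_of_dom (dom_XX hT)

end R881.Rdp
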