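import Pool.Agent.R881.RdpC

/-!
# The subspace `RR` and the failure of the quantitative property
-/

open Set Metric Filter Topology NormedSpace BoundedContinuousFunction

namespace R881.Rdp

/-- the index set: sign sequences with the discrete topology -/
def Pt : Type := ℕ → Bool

instance : TopologicalSpace Pt := ⊥
instance : DiscreteTopology Pt := ⟨rfl⟩

/-- the point of `Pt` given by a sign sequence -/
def toPt (θ : ℕ → Bool) : Pt := θ

/-- change the tail -/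
def glue (N : ℕ) (a θ : ℕ → Bool) : ℕ → Bool := fun i => if i < N then a i else θ i

/-- change all the signs -/
def flp (θ : ℕ → Bool) : ℕ → Bool := fun i => !θ i

/-- constant sequence -/
def one : ℕ → Bool := fun _ => true

variable (𝕜 : Type*) [RCLike 𝕜]

/-- the closed subspace -/
noncomputable def RR : Submodule 𝕜 (Pt →ᵇ 𝕜) where
  carrier := {y | Continuous (fun θ : ℕ → Bool => y (toPt θ)) ∧ ∀ N a θ,
    2 * (y (toPt θ) - y (toPt (glue N θ one))) = y (toPt (glue N a θ)) -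
      y (toPt (glue N a (flp θ))) - y (toPt (glue N a one)) + y (toPt (glue N a (flp one)))}
  zero_mem' := ⟨continuous_const, fun N a θ => by simp⟩
  add_mem' := by
    rintro x y ⟨h1, h2⟩ ⟨h3, h4⟩
    refine ⟨h1.add h3, fun N a θ => ?_⟩
    have e1 := h2 N a θ
    have e2 := h4 N a θ
    simp only [BoundedContinuousFunction.add_apply]
    linear_combination e1 + e2
  smul_mem' := by
    rintro c x ⟨h1, h2⟩
    refine ⟨h1.const_smul c, fun N a θ => ?_⟩
    have e1 := h2 N a θ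
    simp only [BoundedContinuousFunction.smul_apply, smul_eq_mul]
    linear_combination c * e1

instance RR_closed : IsClosed (RR 𝕜 : Set (Pt →ᵇ 𝕜)) := by
  have h : (RR 𝕜 : Set (Pt →ᵇ 𝕜)) = {y | Continuous (fun θ : ℕ → Bool => y (toPt θ))} ∩
      ⋂ (N) (a) (θ), {y : Pt →ᵇ 𝕜 | 2 * (y (toPt θ) - y (toPt (glue N θ one))) =
        y (toPt (glue N a θ)) - y (toPt (glue N a (flp θ))) - y (toPt (glue N a one)) +
        y (toPt (glue N a (flp one)))} := by
    ext y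
    simp only [mem_inter_iff, mem_iInter]
    rfl
  rw [h]
  refine IsClosed.inter ?_ (isClosed_iInter fun N => isClosed_iInter fun a =>
    isClosed_iInter fun θ => ?_)
  · refine IsSeqClosed.isClosed fun y z hy hz => ?_
    have h1 := (BoundedContinuousFunction.tendsto_iff_tendstoUniformly.1 hz).comp toPt
    exact h1.continuous (Eventually.of_forall hy).frequently
  · have hc : ∀ p : Pt, Continuous fun y : Pt →ᵇ 𝕜 => y p := fun p =>
      (BoundedContinuousFunction.evalCLM 𝕜 p).continuous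
    exact isClosed_eq (continuous_const.mul ((hc _).sub (hc _)))
      ((((hc _).sub (hc _)).sub (hc _)).add (hc _))

/-- the Rademacher functions -/
noncomputable def rad (k : ℕ) : Pt →ᵇ 𝕜 :=
  mkB (fun θ : Pt => bif (show ℕ → Bool from θ) k then (1 : 𝕜) else -1) 1 (fun θ => by
    cases (show ℕ → Bool from θ) k <;> simp)

lemma rad_apply (k : ℕ) (θ : ℕ → Bool) : rad 𝕜 k (toPt θ) = bif θ k then (1 : 𝕜) else -1 := rfl

lemma rad_norm_le (k : ℕ) : ‖rad 𝕜 k‖ ≤ 1 :=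
  (BoundedContinuousFunction.norm_le zero_le_one).2 fun θ => by
    change ‖(bif (show ℕ → Bool from θ) k then (1 : 𝕜) else -1)‖ ≤ 1
    cases (show ℕ → Bool from θ) k <;> simp

lemma rad_mem (k : ℕ) : rad 𝕜 k ∈ RR 𝕜 := by
  refine ⟨?_, fun N a θ => ?_⟩
  · have h1 : Continuous (fun b : Bool => bif b then (1 : 𝕜) else -1) :=
      continuous_of_discreteTopology
    exact h1.comp (continuous_apply k)
  · simp only [rad_apply, glue, flp, one]
    by_cases h : k < N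
    · simp only [if_pos h]
      ring
    · simp only [if_neg h]
      cases θ k <;> norm_num

variable {𝕜}

lemma RR_bound {w : Pt →ᵇ 𝕜} (hw : w ∈ RR 𝕜) {N : ℕ} {a : ℕ → Bool} {A : ℝ}
    (hA : ∀ θ, ‖w (toPt (glue N a θ))‖ ≤ A) (θ : ℕ → Bool) :
    ‖w (toPt θ)‖ ≤ ‖w (toPt (glue N θ one))‖ + 2 * A := by
  have h1 := hw.2 N a θ
  have h2 : ‖2 * (w (toPt θ) - w (toPt (glue N θ one)))‖ ≤ 4 * A := by
    rw [h1]
    refine (norm_add_le _ _).trans ?_
    have h3 := norm_sub_le (w (toPt (glue N a θ)) - w (toPt (glue N a (flp θ))))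
      (w (toPt (glue N a one)))
    have h4 := norm_sub_le (w (toPt (glue N a θ))) (w (toPt (glue N a (flp θ))))
    linarith [hA θ, hA (flp θ), hA one, hA (flp one)]
  rw [norm_mul, RCLike.norm_ofNat] at h2
  have h3 : w (toPt θ) = (w (toPt θ) - w (toPt (glue N θ one))) + w (toPt (glue N θ one)) := by
    ring
  have h4 : ‖w (toPt θ)‖ ≤ ‖w (toPt θ) - w (toPt (glue N θ one))‖ +
      ‖w (toPt (glue N θ one))‖ := by
    conv_lhs => rw [h3]
    exact norm_add_le _ _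
  linarith

/-- the finitely many points -/
def ext0 (N : ℕ) (v : Fin N → Bool) : ℕ → Bool := fun i => if h : i < N then v ⟨i, h⟩ else true

lemma glue_eq_ext0 (N : ℕ) (θ : ℕ → Bool) : glue N θ one = ext0 N (fun i => θ i) := by
  funext i
  simp only [glue, ext0, one]
  split_ifs <;> rfl

/-- **Quantitative Schur-type estimate.** -/
theorem cc_bound {n : ℕ} (hn : 0 < n) {F : ℕ → XX (RR 𝕜)} (hF : ∀ k, ‖F k‖ ≤ 1)
    (hC : ∀ φ : XX (RR 𝕜) →L[𝕜] 𝕜, CauchySeq fun k => φ (F k)) :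
    ∃ m, ∀ k, m ≤ k → ∀ l, m ≤ l →
      ‖PP (RR 𝕜) n (F k) - PP (RR 𝕜) n (F l)‖ ≤ 19 / (n : ℝ) := by
  have hn' : (0 : ℝ) < n := by exact_mod_cast hn
  set z : ℕ → (Pt →ᵇ 𝕜) := fun k => PP (RR 𝕜) n (F k) with hz
  have hq : ∀ k, ‖qm (RR 𝕜) (z k)‖ ≤ 1 / n := by
    intro k
    have h1 := ex_snd (F k) n
    have h2 : ‖(ex (RR 𝕜) n (F k)).2‖ ≤ 1 := (norm_snd_le _).trans ((ex_le (F k) n).trans (hF k))
    rw [h1, norm_smul, RCLike.norm_natCast] at h2
    rw [le_div_iff₀ hn', mul_comm]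
    exact h2
  have hu : ∀ k, ∃ u : Pt →ᵇ 𝕜, z k - u ∈ RR 𝕜 ∧ ‖u‖ ≤ 2 / n := by
    intro k
    obtain ⟨u, hu1, hu2⟩ := Submodule.Quotient.norm_mk_lt (qm (RR 𝕜) (z k))
      (show 0 < 1 / (n : ℝ) by positivity)
    refine ⟨u, ?_, ?_⟩
    · have h3 : (Submodule.Quotient.mk (z k) : (Pt →ᵇ 𝕜) ⧸ RR 𝕜) = Submodule.Quotient.mk u :=
        hu1.symm
      exact (Submodule.Quotient.eq _).1 h3
    · have := hq k
      have h4 : (2 : ℝ) / n = 1 / n + 1 / n := by ring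
      linarith
  choose u hu1 hu2 using hu
  set y : ℕ → (Pt →ᵇ 𝕜) := fun k => z k - u k with hy
  have hyz : ∀ k p, ‖y k p - z k p‖ ≤ 2 / n := by
    intro k p
    have : y k p - z k p = -(u k p) := by
      rw [hy]
      simp only [BoundedContinuousFunction.sub_apply]
      ring
    rw [this, norm_neg]
    exact ((u k).norm_coe_le_norm p).trans (hu2 k)
  have hyz2 : ∀ k l p, ‖y k p - y l p‖ ≤ ‖z k p - z l p‖ + 4 / n := by
    intro k l p
    have h1 : y k p - y l p = (z k p - z l p) + ((y k p - z k p) - (y l p - z l p)) := by ring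
    rw [h1]
    refine (norm_add_le _ _).trans ?_
    have h2 := norm_sub_le (y k p - z k p) (y l p - z l p)
    have h4 : (4 : ℝ) / n = 2 / n + 2 / n := by ring
    linarith [hyz k p, hyz l p]
  have hzy2 : ∀ k l p, ‖z k p - z l p‖ ≤ ‖y k p - y l p‖ + 4 / n := by
    intro k l p
    have h1 : z k p - z l p = (y k p - y l p) - ((y k p - z k p) - (y l p - z l p)) := by ring
    rw [h1]
    refine (norm_sub_le _ _).trans ?_
    have h2 := norm_sub_le (y k p - z k p) (y l p - z l p)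
    have h4 : (4 : ℝ) / n = 2 / n + 2 / n := by ring
    linarith [hyz k p, hyz l p]
  have hpt : ∀ p : Pt, ∃ m, ∀ k, m ≤ k → ∀ l, m ≤ l → ‖z k p - z l p‖ ≤ 1 / n := by
    intro p
    have h1 := hC ((BoundedContinuousFunction.evalCLM 𝕜 p).comp (PP (RR 𝕜) n))
    rw [Metric.cauchySeq_iff] at h1
    obtain ⟨m, hm⟩ := h1 (1 / n) (by positivity)
    refine ⟨m, fun k hk l hl => ?_⟩
    have := hm k hk l hl
    rw [dist_eq_norm] at this
    exact this.le
  -- Baire category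
  set S : ℕ → Set (ℕ → Bool) := fun m =>
    {θ | ∀ k, m ≤ k → ∀ l, m ≤ l → ‖y k (toPt θ) - y l (toPt θ)‖ ≤ 5 / n} with hS
  have hSc : ∀ m, IsClosed (S m) := by
    intro m
    have : S m = ⋂ (k) (_ : m ≤ k) (l) (_ : m ≤ l),
        {θ : ℕ → Bool | ‖y k (toPt θ) - y l (toPt θ)‖ ≤ 5 / n} := by
      ext θ
      simp only [hS, mem_iInter]
      rfl
    rw [this]
    refine isClosed_iInter fun k => isClosed_iInter fun _ => isClosed_iInter fun l =>
      isClosed_iInter fun _ => ?_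
    exact isClosed_le (((hu1 k).1.sub (hu1 l).1).norm) continuous_const
  have hSU : ⋃ m, S m = univ := by
    rw [eq_univ_iff_forall]
    intro θ
    obtain ⟨m, hm⟩ := hpt (toPt θ)
    refine mem_iUnion.2 ⟨m, fun k hk l hl => ?_⟩
    have h4 : (5 : ℝ) / n = 1 / n + 4 / n := by ring
    linarith [hyz2 k l (toPt θ), hm k hk l hl]
  obtain ⟨m, a, ha⟩ := nonempty_interior_of_iUnion_of_closed hSc hSU
  obtain ⟨I, v, hv, hsub⟩ := isOpen_pi_iff.1 isOpen_interior a ha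
  set N := I.sup id + 1 with hN
  have hglue : ∀ θ, glue N a θ ∈ S m := by
    intro θ
    refine interior_subset (hsub ?_)
    intro i hi
    have h1 : i < N := Nat.lt_succ_of_le (Finset.le_sup (f := id) hi)
    have h2 : glue N a θ i = a i := by simp only [glue, if_pos h1]
    rw [h2]
    exact (hv i hi).2
  have hfin : ∀ v : Fin N → Bool, ∃ m, ∀ k, m ≤ k → ∀ l, m ≤ l →
      ‖z k (toPt (ext0 N v)) - z l (toPt (ext0 N v))‖ ≤ 1 / n := fun v => hpt _
  choose mv hmv using hfin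
  refine ⟨max m (Finset.univ.sup mv), fun k hk l hl => ?_⟩
  have hk1 : m ≤ k := (le_max_left _ _).trans hk
  have hl1 : m ≤ l := (le_max_left _ _).trans hl
  refine (BoundedContinuousFunction.norm_le (by positivity)).2 fun p => ?_
  change ‖z k p - z l p‖ ≤ _
  obtain ⟨θ, rfl⟩ : ∃ θ, toPt θ = p := ⟨p, rfl⟩
  have hw : y k - y l ∈ RR 𝕜 := (RR 𝕜).sub_mem (hu1 k) (hu1 l)
  have h1 := RR_bound hw (N := N) (a := a) (A := 5 / n) (fun θ => hglue θ k hk1 l hl1) θ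
  have h2 : ‖(y k - y l) (toPt (glue N θ one))‖ ≤ 5 / n := by
    rw [glue_eq_ext0]
    set v : Fin N → Bool := fun i => θ i
    have h3 : mv v ≤ Finset.univ.sup mv := Finset.le_sup (Finset.mem_univ v)
    have h4 := hmv v k (h3.trans ((le_max_right _ _).trans hk)) l
      (h3.trans ((le_max_right _ _).trans hl))
    have h5 := hyz2 k l (toPt (ext0 N v))
    have h6 : (5 : ℝ) / n = 1 / n + 4 / n := by ring
    change ‖y k (toPt (ext0 N v)) - y l (toPt (ext0 N v))‖ ≤ _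
    linarith
  have h3 : ‖y k (toPt θ) - y l (toPt θ)‖ ≤ 5 / n + 2 * (5 / n) := h1.trans (by linarith)
  have h4 := hzy2 k l (toPt θ)
  have h5 : (19 : ℝ) / n = 5 / n + 2 * (5 / n) + 4 / n := by ring
  linarith

/-- the image of the unit ball contains the Rademacher functions -/
lemma rad_mem_image (n k : ℕ) : rad 𝕜 k ∈ PP (RR 𝕜) n '' closedBall 0 1 := by
  refine ⟨io (RR 𝕜) n (rad 𝕜 k), ?_, ?_⟩
  · rw [mem_closedBall_zero_iff]
    refine X_norm_le zero_le_one fun m => ?_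
    rw [io_apply]
    have h0 : qm (RR 𝕜) (rad 𝕜 k) = 0 := (Submodule.Quotient.mk_eq_zero _).2 (rad_mem 𝕜 k)
    split_ifs
    · rw [h0, smul_zero]
      refine max_le ?_ ?_
      · exact rad_norm_le 𝕜 k
      · change ‖(0 : (Pt →ᵇ 𝕜) ⧸ RR 𝕜)‖ ≤ 1
        rw [norm_zero]; exact zero_le_one
    · rw [norm_zero]; exact zero_le_one
  · rw [PP_apply, io_apply, if_pos rfl]

lemma bidual_ball {E : Type*} [NormedAddCommGroup E] [NormedSpace 𝕜 E] {x : E} (hx : ‖x‖ ≤ 1) :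
    inclusionInDoubleDual 𝕜 E x ∈ closedBall (0 : StrongDual 𝕜 (StrongDual 𝕜 E)) 1 :=
  (mem_closedBall_zero_iff (E := StrongDual 𝕜 (StrongDual 𝕜 E))).2
    ((double_dual_bound 𝕜 _ x).trans hx)

lemma opNorm_le_of_unit {E : Type*} [NormedAddCommGroup E] [NormedSpace 𝕜 E]
    {f : E →L[𝕜] 𝕜} {c : ℝ} (hc : 0 ≤ c) (h : ∀ x : E, ‖x‖ ≤ 1 → ‖f x‖ ≤ c) : ‖f‖ ≤ c := by
  refine ContinuousLinearMap.opNorm_le_bound _ hc fun x => ?_
  rcases eq_or_ne x 0 with rfl | hx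
  · simp
  · have hx' : 0 < ‖x‖ := norm_pos_iff.2 hx
    have h1 := h (((‖x‖⁻¹ : ℝ) : 𝕜) • x) (by
      rw [norm_smul, RCLike.norm_ofReal, abs_of_pos (inv_pos.2 hx'), inv_mul_cancel₀ hx'.ne'])
    rw [map_smul, norm_smul, RCLike.norm_ofReal, abs_of_pos (inv_pos.2 hx'),
      inv_mul_le_iff₀ hx'] at h1
    linarith

/-- the points `θ_m = (1,...,1,-1,-1,...)` -/
def stp (m : ℕ) : ℕ → Bool := fun k => decide (k < m)

lemma hyper_eventually {P : ℕ → Prop} (N : ℕ) (h : ∀ k, N ≤ k → P k) :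
    ∀ᶠ k in (hyperfilter ℕ : Filter ℕ), P k := by
  have h1 : ∀ᶠ k in (cofinite : Filter ℕ), P k := by
    rw [Nat.cofinite_eq_atTop]
    exact (eventually_ge_atTop N).mono h
  exact hyperfilter_le_cofinite h1

/-- **Far from weakly compact.** -/
theorem wk_bound (n : ℕ) : ∃ Φ ∈ closure (inclusionInDoubleDualWeak 𝕜 (Pt →ᵇ 𝕜) ''
      ((toWeakSpace 𝕜 (Pt →ᵇ 𝕜)) '' (PP (RR 𝕜) n '' closedBall 0 1))),
    ∀ y : Pt →ᵇ 𝕜, 1 ≤ ‖WeakDual.toStrongDual Φ - inclusionInDoubleDual 𝕜 (Pt →ᵇ 𝕜) y‖ := by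
  set J : (Pt →ᵇ 𝕜) → WeakDual 𝕜 (StrongDual 𝕜 (Pt →ᵇ 𝕜)) := fun f =>
    inclusionInDoubleDualWeak 𝕜 (Pt →ᵇ 𝕜) (toWeakSpace 𝕜 (Pt →ᵇ 𝕜) f) with hJ
  have hJap : ∀ f φ, J f φ = φ f := fun f φ => rfl
  set U : Ultrafilter ℕ := hyperfilter ℕ with hU
  -- the limit of the Rademacher functions in the bidual
  have hcomp : IsCompact (WeakDual.toStrongDual ⁻¹'
      (closedBall (0 : StrongDual 𝕜 (StrongDual 𝕜 (Pt →ᵇ 𝕜))) 1)) :=
    WeakDual.isCompact_closedBall _ _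
  obtain ⟨Φ, hΦ1, hΦ⟩ := hcomp.ultrafilter_le_nhds' (U.map fun k => J (rad 𝕜 k)) (by
    refine Ultrafilter.mem_map.2 (Filter.univ_mem' (f := (U : Filter ℕ)) fun k => ?_)
    exact bidual_ball (rad_norm_le 𝕜 k))
  have hΦt : Tendsto (fun k => J (rad 𝕜 k)) (U : Filter ℕ) (𝓝 Φ) := hΦ
  -- the limit of the evaluations
  have hcomp' : IsCompact (WeakDual.toStrongDual ⁻¹'
      (closedBall (0 : StrongDual 𝕜 (Pt →ᵇ 𝕜)) 1)) := WeakDual.isCompact_closedBall _ _
  set dl : ℕ → StrongDual 𝕜 (Pt →ᵇ 𝕜) := fun m =>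
    BoundedContinuousFunction.evalCLM 𝕜 (toPt (stp m)) with hdl
  have hdln : ∀ m, ‖dl m‖ ≤ 1 := fun m =>
    ContinuousLinearMap.opNorm_le_bound _ zero_le_one fun f => by
      rw [one_mul]; exact f.norm_coe_le_norm _
  obtain ⟨φ, hφ1, hφ⟩ := hcomp'.ultrafilter_le_nhds' (U.map fun m => StrongDual.toWeakDual (dl m)) (by
    refine Ultrafilter.mem_map.2 (Filter.univ_mem' (f := (U : Filter ℕ)) fun m => ?_)
    rw [mem_preimage, mem_preimage, mem_closedBall_zero_iff]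
    exact hdln m)
  have hφt : Tendsto (fun m => StrongDual.toWeakDual (dl m)) (U : Filter ℕ) (𝓝 φ) := hφ
  set φ' : StrongDual 𝕜 (Pt →ᵇ 𝕜) := WeakDual.toStrongDual φ with hφ'
  have hφ'n : ‖φ'‖ ≤ 1 := by
    rw [mem_preimage, mem_closedBall_zero_iff] at hφ1
    exact hφ1
  have hφev : ∀ f : Pt →ᵇ 𝕜, Tendsto (fun m => f (toPt (stp m))) (U : Filter ℕ) (𝓝 (φ' f)) :=
    fun f => ((WeakDual.eval_continuous f).tendsto φ).comp hφt
  have hΦev : ∀ ψ : StrongDual 𝕜 (Pt →ᵇ 𝕜), Tendsto (fun k => ψ (rad 𝕜 k)) (U : Filter ℕ)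
      (𝓝 (Φ ψ)) := fun ψ => ((WeakDual.eval_continuous ψ).tendsto Φ).comp hΦt
  have h1 : ∀ m, Φ (dl m) = -1 := by
    intro m
    refine tendsto_nhds_unique (hΦev (dl m)) (tendsto_const_nhds.congr' ?_)
    refine hyper_eventually m fun k hk => ?_
    change (-1 : 𝕜) = rad 𝕜 k (toPt (stp m))
    rw [rad_apply, stp, decide_eq_false (by omega)]
    rfl
  have h2 : ∀ k, φ' (rad 𝕜 k) = 1 := by
    intro k
    refine tendsto_nhds_unique (hφev (rad 𝕜 k)) (tendsto_const_nhds.congr' ?_)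
    refine hyper_eventually (k + 1) fun m hm => ?_
    change (1 : 𝕜) = rad 𝕜 k (toPt (stp m))
    rw [rad_apply, stp, decide_eq_true (by omega)]
    rfl
  have h3 : Φ φ' = 1 := by
    refine tendsto_nhds_unique (hΦev φ') ?_
    simp_rw [h2]
    exact tendsto_const_nhds
  refine ⟨Φ, ?_, fun y => ?_⟩
  · refine mem_closure_of_tendsto hΦt (Eventually.of_forall fun k => ?_)
    exact ⟨_, ⟨_, rad_mem_image n k, rfl⟩, rfl⟩
  · set c := ‖WeakDual.toStrongDual Φ - inclusionInDoubleDual 𝕜 (Pt →ᵇ 𝕜) y‖ with hc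
    have hb : ∀ ψ : StrongDual 𝕜 (Pt →ᵇ 𝕜), ‖ψ‖ ≤ 1 → ‖Φ ψ - ψ y‖ ≤ c := by
      intro ψ hψ
      have h4 : Φ ψ - ψ y =
          (WeakDual.toStrongDual Φ - inclusionInDoubleDual 𝕜 (Pt →ᵇ 𝕜) y) ψ := rfl
      rw [h4]
      refine (ContinuousLinearMap.le_opNorm _ _).trans ?_
      exact mul_le_of_le_one_right (norm_nonneg _) hψ
    have h5 : ‖(1 : 𝕜) - φ' y‖ ≤ c := by
      have := hb φ' hφ'n
      rwa [h3] at this
    have h6 : ‖(-1 : 𝕜) - φ' y‖ ≤ c := by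
      have h7 : Tendsto (fun m => ‖(-1 : 𝕜) - y (toPt (stp m))‖) (U : Filter ℕ)
          (𝓝 ‖(-1 : 𝕜) - φ' y‖) := (tendsto_const_nhds.sub (hφev y)).norm
      refine le_of_tendsto h7 (Eventually.of_forall fun m => ?_)
      have := hb (dl m) (hdln m)
      rwa [h1] at this
    have h8 : ‖(2 : 𝕜)‖ ≤ ‖(1 : 𝕜) - φ' y‖ + ‖(-1 : 𝕜) - φ' y‖ := by
      have : (2 : 𝕜) = ((1 : 𝕜) - φ' y) - ((-1 : 𝕜) - φ' y) := by ring
      rw [this]
      exact norm_sub_le _ _
    rw [RCLike.norm_ofNat] at h8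
    linarith

end R881.Rdp
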