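import Mathlib

/-!
Special alpha-limit sets: concatenation lemma.
-/

namespace Pool.Agent.R881.SA

open Set Filter Topology Function

section general
variable {X : Type*}

/-- `u` is a backward orbit branch of `x`. -/
def IsBranch (f : X → X) (x : X) (u : ℕ → X) : Prop := u 0 = x ∧ ∀ n, f (u (n+1)) = u n

theorem IsBranch.iter {f : X → X} {x : X} {u : ℕ → X} (h : IsBranch f x u) (n m : ℕ) :
    f^[m] (u (n+m)) = u n := by
  induction m with
  | zero => rfl
  | succ m ih =>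
    rw [Function.iterate_succ_apply]
    have := h.2 (n+m)
    rw [← add_assoc, this, ih]

theorem IsBranch.iter' {f : X → X} {x : X} {u : ℕ → X} (h : IsBranch f x u) {n m : ℕ}
    (hm : m ≤ n) : f^[m] (u n) = u (n - m) := by
  have := h.iter (n - m) m
  rwa [Nat.sub_add_cancel hm] at this

/-- union of the forward images of `V` -/
def E (f : X → X) (V : Set X) : Set X := {w | ∃ t ∈ V, ∃ n : ℕ, f^[n] t = w}

theorem E_mono {f : X → X} {V W : Set X} (h : V ⊆ W) : E f V ⊆ E f W := by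
  rintro w ⟨t, ht, n, hn⟩
  exact ⟨t, h ht, n, hn⟩

theorem E_fwd {f : X → X} {V : Set X} {w : X} (h : w ∈ E f V) (n : ℕ) : f^[n] w ∈ E f V := by
  obtain ⟨t, ht, m, rfl⟩ := h
  exact ⟨t, ht, n + m, by rw [Function.iterate_add_apply]⟩

theorem sub_E {f : X → X} {V : Set X} : V ⊆ E f V := fun t ht => ⟨t, ht, 0, rfl⟩

variable [TopologicalSpace X]

/-- special alpha-limit set -/
def sa (f : X → X) (x : X) : Set X := {y | ∃ u, IsBranch f x u ∧ MapClusterPt y atTop u}

theorem lemmaC [FirstCountableTopology X] (f : X → X) (y : X) (W : Set X)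
    (h : ∀ w ∈ W, ∀ U ∈ 𝓝 y, ∃ w' ∈ W, w' ∈ U ∧ ∃ k, 1 ≤ k ∧ f^[k] w' = w)
    (x : X) (hx : x ∈ E f W) : y ∈ sa f x := by
  obtain ⟨U, hU⟩ := (𝓝 y).exists_antitone_basis
  obtain ⟨w0, hw0, n0, hn0⟩ := hx
  have h' : ∀ (w : W) (n : ℕ), ∃ q : W × ℕ, (q.1 : X) ∈ U n ∧ 1 ≤ q.2 ∧ f^[q.2] (q.1 : X) = w := by
    intro w n
    obtain ⟨w', hw', hU', k, hk, hkw⟩ := h w w.2 (U n) (hU.mem n)
    exact ⟨(⟨w', hw'⟩, k), hU', hk, hkw⟩
  choose nx hnx using h'
  let s : ℕ → W × ℕ := fun n =>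
    Nat.rec (⟨w0, hw0⟩, n0) (fun n st => ((nx st.1 n).1, st.2 + (nx st.1 n).2)) n
  have s0 : s 0 = (⟨w0, hw0⟩, n0) := rfl
  have s1 : ∀ n, s (n+1) = ((nx (s n).1 n).1, (s n).2 + (nx (s n).1 n).2) := fun n => rfl
  have hpos : ∀ m, m ≤ (s m).2 := by
    intro m
    induction m with
    | zero => exact Nat.zero_le _
    | succ m ih =>
      have h1 := (hnx (s m).1 m).2.1
      have h2 : (s (m+1)).2 = (s m).2 + (nx (s m).1 m).2 := rfl
      omega
  have step : ∀ n, (s n).2 ≤ (s (n+1)).2 ∧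
      f^[(s (n+1)).2 - (s n).2] ((s (n+1)).1 : X) = (s n).1 := by
    intro n
    have h2 : (s (n+1)).2 = (s n).2 + (nx (s n).1 n).2 := rfl
    have h3 : ((s (n+1)).1 : X) = ((nx (s n).1 n).1 : X) := rfl
    refine ⟨by omega, ?_⟩
    rw [h2, h3, Nat.add_sub_cancel_left]
    exact (hnx (s n).1 n).2.2
  have mono : ∀ m n, m ≤ n → (s m).2 ≤ (s n).2 ∧
      f^[(s n).2 - (s m).2] ((s n).1 : X) = (s m).1 := by
    intro m n hmn
    induction n, hmn using Nat.le_induction with
    | base => simp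
    | succ n hn ih =>
      obtain ⟨h1, h2⟩ := step n
      refine ⟨ih.1.trans h1, ?_⟩
      have h3 : (s (n+1)).2 - (s m).2 = ((s n).2 - (s m).2) + ((s (n+1)).2 - (s n).2) := by
        have := ih.1
        omega
      rw [h3, Function.iterate_add_apply, h2, ih.2]
  let u : ℕ → X := fun m => f^[(s m).2 - m] ((s m).1 : X)
  refine ⟨u, ⟨?_, ?_⟩, ?_⟩
  · change f^[n0 - 0] w0 = x
    rw [Nat.sub_zero]; exact hn0
  · intro m
    change f (f^[(s (m+1)).2 - (m+1)] ((s (m+1)).1 : X)) = f^[(s m).2 - m] ((s m).1 : X)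
    rw [← Function.iterate_succ_apply' f]
    obtain ⟨h1, h2⟩ := step m
    have h3 := hpos m
    have h4 := hpos (m+1)
    have h5 : ((s (m+1)).2 - (m+1)).succ = ((s m).2 - m) + ((s (m+1)).2 - (s m).2) := by
      omega
    rw [h5, Function.iterate_add_apply, h2]
  · have key : ∀ j, u ((s j).2) = (s j).1 := by
      intro j
      have h1 := (mono j (s j).2 (hpos j)).2
      exact h1
    rw [mapClusterPt_iff_frequently]
    intro V hV
    obtain ⟨i, -, hi⟩ := hU.1.mem_iff.1 hV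
    rw [Filter.frequently_atTop]
    intro N
    refine ⟨(s (max N i + 1)).2, ?_, ?_⟩
    · have := hpos (max N i + 1)
      have := le_max_left N i
      omega
    · have hin : ((s (max N i + 1)).1 : X) ∈ V := by
        apply hi
        apply hU.2 (le_max_right N i)
        have h3 : ((s (max N i + 1)).1 : X) = ((nx (s (max N i)).1 (max N i)).1 : X) := rfl
        rw [h3]
        exact (hnx (s (max N i)).1 (max N i)).1
      exact Eq.mpr (congrArg (· ∈ V) (key (max N i + 1))) hin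

end general

end Pool.Agent.R881.SA
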