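import Pool.Agent.R881.SAlphaA

/-!
Special alpha-limit sets of interval maps without wandering intervals are closed: deterministic part.
-/

namespace Pool.Agent.R881.SA

open Set Filter Topology Function

variable {X : Type*} [CompleteLinearOrder X] [TopologicalSpace X] [OrderTopology X]
  [DenselyOrdered X]

/-- component of `E f (Ioo y r)` containing `Ioo y r` -/
def K (f : X → X) (y r : X) : Set X := {t | ∃ z ∈ Ioo y r, uIcc z t ⊆ E f (Ioo y r)}

theorem V_sub_K {f : X → X} {y r : X} : Ioo y r ⊆ K f y r := by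
  intro t ht
  refine ⟨t, ht, ?_⟩
  rw [uIcc_self, singleton_subset_iff]
  exact sub_E ht

theorem K_sub_E {f : X → X} {y r : X} : K f y r ⊆ E f (Ioo y r) := by
  rintro t ⟨z, hz, h⟩
  exact h right_mem_uIcc

theorem K_uIcc {f : X → X} {y r : X} {a b : X} (ha : a ∈ K f y r) (hb : b ∈ K f y r) :
    uIcc a b ⊆ E f (Ioo y r) := by
  obtain ⟨z, hz, h1⟩ := ha
  obtain ⟨w, hw, h2⟩ := hb
  have h3 : uIcc z w ⊆ E f (Ioo y r) := by
    refine Subset.trans ?_ sub_E
    exact (ordConnected_Ioo.uIcc_subset hz hw)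
  have h4 : uIcc a w ⊆ uIcc a z ∪ uIcc z w := uIcc_subset_uIcc_union_uIcc
  have h5 : uIcc a b ⊆ uIcc a w ∪ uIcc w b := uIcc_subset_uIcc_union_uIcc
  refine h5.trans (union_subset (h4.trans (union_subset ?_ h3)) h2)
  rw [uIcc_comm]; exact h1

theorem K_add {f : X → X} {y r : X} {a b : X} (ha : a ∈ K f y r)
    (hab : uIcc a b ⊆ E f (Ioo y r)) : b ∈ K f y r := by
  obtain ⟨z, hz, h1⟩ := ha
  exact ⟨z, hz, uIcc_subset_uIcc_union_uIcc.trans (union_subset h1 hab)⟩

theorem K_ord {f : X → X} {y r : X} : (K f y r).OrdConnected := by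
  refine ⟨fun a ha b hb t ht => ?_⟩
  refine K_add ha ?_
  refine Subset.trans ?_ (K_uIcc ha hb)
  exact uIcc_subset_uIcc_left (mem_uIcc_of_le ht.1 ht.2)

theorem K_conn {f : X → X} {y r : X} {C : Set X} (hC : IsPreconnected C)
    (hE : C ⊆ E f (Ioo y r)) {a : X} (ha : a ∈ C) (haK : a ∈ K f y r) : C ⊆ K f y r := by
  intro b hb
  exact K_add haK ((hC.ordConnected.uIcc_subset ha hb).trans hE)

theorem K_mono {f : X → X} {y r s : X} (h : r ≤ s) : K f y r ⊆ K f y s := by
  rintro t ⟨z, hz, h1⟩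
  have h2 : Ioo y r ⊆ Ioo y s := Ioo_subset_Ioo_right h
  exact ⟨z, h2 hz, h1.trans (E_mono h2)⟩

/-- return times -/
def Ret (f : X → X) (y r : X) : Set ℕ := {m | 1 ≤ m ∧ ∃ t ∈ K f y r, f^[m] t ∈ K f y r}

/-- period -/
noncomputable def per (f : X → X) (y r : X) : ℕ := sInf (Ret f y r)

theorem Ret_mono {f : X → X} {y r s : X} (h : r ≤ s) : Ret f y r ⊆ Ret f y s := by
  rintro m ⟨hm, t, ht, ht'⟩
  exact ⟨hm, t, K_mono h ht, K_mono h ht'⟩

theorem per_anti {f : X → X} {y r s : X} (h : r ≤ s) (hr : (Ret f y r).Nonempty) :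
    per f y s ≤ per f y r := Nat.sInf_le (Ret_mono h (Nat.sInf_mem hr))

theorem K_iter_sub {f : X → X} (hf : Continuous f) {y r : X} {m : ℕ} (hm : m ∈ Ret f y r) :
    ∀ t ∈ K f y r, f^[m] t ∈ K f y r := by
  obtain ⟨h1, t0, ht0, ht0'⟩ := hm
  have hC : IsPreconnected (f^[m] '' K f y r) :=
    (K_ord.isPreconnected).image _ (hf.iterate m).continuousOn
  have hE : f^[m] '' K f y r ⊆ E f (Ioo y r) := by
    rintro _ ⟨t, ht, rfl⟩
    exact E_fwd (K_sub_E ht) m
  intro t ht
  exact K_conn hC hE (mem_image_of_mem _ ht0) ht0' (mem_image_of_mem _ ht)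

theorem per_mem {f : X → X} {y r : X} (hr : (Ret f y r).Nonempty) : per f y r ∈ Ret f y r :=
  Nat.sInf_mem hr

theorem per_pos {f : X → X} {y r : X} (hr : (Ret f y r).Nonempty) : 0 < per f y r :=
  (per_mem hr).1

theorem K_iter_mul {f : X → X} (hf : Continuous f) {y r : X} {m : ℕ} (hm : m ∈ Ret f y r)
    (k : ℕ) : ∀ t ∈ K f y r, f^[m * k] t ∈ K f y r := by
  intro t ht
  induction k with
  | zero => exact ht
  | succ k ih =>
    rw [Nat.mul_succ, Nat.add_comm, Function.iterate_add_apply]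
    exact K_iter_sub hf hm _ ih

theorem per_dvd {f : X → X} (hf : Continuous f) {y r : X} {m : ℕ} (hm : m ∈ Ret f y r) :
    per f y r ∣ m := by
  have hr : (Ret f y r).Nonempty := ⟨m, hm⟩
  obtain ⟨h1, t, ht, ht'⟩ := hm
  by_contra hnd
  have hs : 0 < m % per f y r := Nat.pos_of_ne_zero (fun h => hnd (Nat.dvd_of_mod_eq_zero h))
  have hlt : m % per f y r < per f y r := Nat.mod_lt _ (per_pos hr)
  have hmem : m % per f y r ∈ Ret f y r := by
    refine ⟨hs, f^[per f y r * (m / per f y r)] t, K_iter_mul hf (per_mem hr) _ t ht, ?_⟩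
    rw [← Function.iterate_add_apply, Nat.mod_add_div]
    exact ht'
  exact absurd (Nat.sInf_le hmem) (not_le.2 hlt)

theorem per_le {f : X → X} (hf : Continuous f) {y r : X} (hr : (Ret f y r).Nonempty)
    {i j : ℕ} (hij : i < j) {u v : X} (hu : u ∈ K f y r) (hv : v ∈ K f y r)
    (huv : f^[i] u = f^[j] v) : per f y r ≤ j := by
  by_contra hlt
  push Not at hlt
  have hmem : per f y r - j + i ∈ Ret f y r := by
    refine ⟨by omega, u, hu, ?_⟩
    rw [Function.iterate_add_apply, huv, ← Function.iterate_add_apply,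
      Nat.sub_add_cancel hlt.le]
    exact K_iter_sub hf (per_mem hr) v hv
  have := Nat.sInf_le hmem
  change per f y r ≤ _ at this
  omega

/-- every point of `E f (Ioo y r)` is `f^[i]` of a point of `K` with `i < per`. -/
theorem E_decomp {f : X → X} (hf : Continuous f) {y r : X} (hr : (Ret f y r).Nonempty)
    {w : X} (hw : w ∈ E f (Ioo y r)) : ∃ t ∈ K f y r, ∃ i < per f y r, f^[i] t = w := by
  obtain ⟨t, ht, n, rfl⟩ := hw
  refine ⟨f^[per f y r * (n / per f y r)] t, K_iter_mul hf (per_mem hr) _ t (V_sub_K ht),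
    n % per f y r, Nat.mod_lt _ (per_pos hr), ?_⟩
  rw [← Function.iterate_add_apply, Nat.mod_add_div]

end Pool.Agent.R881.SA
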