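import Pool.Agent.R881.SAlphaB

/-!
Special alpha-limit sets of interval maps without wandering intervals are closed: the three cases.
-/

namespace Pool.Agent.R881.SA

open Set Filter Topology Function

variable {X : Type*} [CompleteLinearOrder X] [TopologicalSpace X] [OrderTopology X]
  [DenselyOrdered X]

/-- `y` is a limit from the right of points of the special alpha-limit set -/
structure Setup (f : X → X) (x y : X) : Prop where
  cont : Continuous f
  top : ∃ r, y < r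
  br : ∀ r, y < r → ∃ u, IsBranch f x u ∧ ∃ᶠ n in atTop, u n ∈ Ioo y r

variable {f : X → X} {x y : X}

theorem Setup.allE (S : Setup f x y) {r : X} (hr : y < r) :
    ∃ u, IsBranch f x u ∧ ∀ n, u n ∈ E f (Ioo y r) := by
  obtain ⟨u, hu, hfr⟩ := S.br r hr
  refine ⟨u, hu, fun n => ?_⟩
  obtain ⟨N, hN, hmem⟩ := Filter.frequently_atTop.1 hfr n
  refine ⟨u N, hmem, N - n, ?_⟩
  rw [hu.iter' (Nat.sub_le N n), Nat.sub_sub_self hN]

theorem Setup.xE (S : Setup f x y) {r : X} (hr : y < r) : x ∈ E f (Ioo y r) := by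
  obtain ⟨u, hu, h⟩ := S.allE hr
  have := h 0
  rwa [hu.1] at this

theorem Setup.ret (S : Setup f x y) {r : X} (hr : y < r) :
    ∃ t ∈ Ioo y r, ∃ m, 1 ≤ m ∧ f^[m] t ∈ Ioo y r := by
  obtain ⟨u, hu, hfr⟩ := S.br r hr
  obtain ⟨N, -, hN⟩ := Filter.frequently_atTop.1 hfr 0
  obtain ⟨M, hM, hMm⟩ := Filter.frequently_atTop.1 hfr (N+1)
  refine ⟨u M, hMm, M - N, by omega, ?_⟩
  rw [hu.iter' (Nat.sub_le M N), Nat.sub_sub_self (by omega)]
  exact hN

theorem Setup.retne (S : Setup f x y) {r : X} (hr : y < r) : (Ret f y r).Nonempty := by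
  obtain ⟨t, ht, m, hm, hm'⟩ := S.ret hr
  exact ⟨m, hm, t, V_sub_K ht, V_sub_K hm'⟩

theorem case1 [FirstCountableTopology X] (S : Setup f x y) {s : X} (hs : y < s)
    (h : ∀ r, y < r → Ioo y s ⊆ E f (Ioo y r)) : y ∈ sa f x := by
  apply lemmaC f y (Ioo y s)
  · intro w hw U hU
    obtain ⟨r', hr', hsub⟩ := exists_Ico_subset_of_mem_nhds hU ⟨s, hs⟩
    have hr : y < min r' w := lt_min hr' hw.1
    obtain ⟨w', hw', k, hk⟩ := h _ hr hw
    have h1 : w' < w := hw'.2.trans_le (min_le_right _ _)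
    refine ⟨w', ⟨hw'.1, h1.trans hw.2⟩, hsub ⟨hw'.1.le, hw'.2.trans_le (min_le_left _ _)⟩,
      k, ?_, hk⟩
    by_contra hk0
    have : k = 0 := by omega
    subst this
    exact absurd hk h1.ne
  · exact S.xE hs

theorem ultra_lim {ι : Type*} (𝒰 : Ultrafilter ι) (s : ι → X) :
    ∃ l, Tendsto s 𝒰 (𝓝 l) := by
  obtain ⟨l, -, hl⟩ := isCompact_univ.ultrafilter_le_nhds (𝒰.map s) (by simp)
  exact ⟨l, hl⟩

theorem case2 [FirstCountableTopology X] (S : Setup f x y)
    (h : ∀ U ∈ 𝓝 y, ∃ r, y < r ∧ K f y r ⊆ U) : y ∈ sa f x := by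
  have hne : (𝓝[>] y).NeBot := nhdsGT_neBot_of_exists_gt S.top
  let 𝒰 : Ultrafilter X := Ultrafilter.of (𝓝[>] y)
  have h𝒰 : ∀ r, y < r → ∀ᶠ s in (𝒰 : Filter X), s ∈ Ioo y r := fun r hr =>
    (Ultrafilter.of_le (𝓝[>] y)) (Ioo_mem_nhdsGT hr)
  have hb : ∀ r, ∃ u : ℕ → X, y < r → IsBranch f x u ∧ ∀ n, u n ∈ E f (Ioo y r) := by
    intro r
    by_cases hr : y < r
    · obtain ⟨u, hu⟩ := S.allE hr
      exact ⟨u, fun _ => hu⟩
    · exact ⟨fun _ => x, fun h => absurd h hr⟩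
  choose U hU using hb
  have hv : ∀ k, ∃ l, Tendsto (fun r => U r k) 𝒰 (𝓝 l) := fun k => ultra_lim 𝒰 _
  choose v hv using hv
  obtain ⟨r0, hr0⟩ := S.top
  refine ⟨v, ⟨?_, ?_⟩, ?_⟩
  · have h1 : Tendsto (fun r => U r 0) 𝒰 (𝓝 x) := by
      refine (tendsto_congr' ?_).2 tendsto_const_nhds
      filter_upwards [h𝒰 r0 hr0] with r hr
      exact (hU r hr.1).1.1
    exact tendsto_nhds_unique (hv 0) h1
  · intro n
    have h1 : Tendsto (fun r => f (U r (n+1))) 𝒰 (𝓝 (f (v (n+1)))) :=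
      (S.cont.tendsto _).comp (hv (n+1))
    have h2 : Tendsto (fun r => f (U r (n+1))) 𝒰 (𝓝 (v n)) := by
      refine (tendsto_congr' ?_).2 (hv n)
      filter_upwards [h𝒰 r0 hr0] with r hr
      exact (hU r hr.1).1.2 n
    exact tendsto_nhds_unique h1 h2
  · rw [mapClusterPt_iff_frequently]
    intro W hW
    obtain ⟨W', hW', hW'c, hW'W⟩ := exists_mem_nhds_isClosed_subset hW
    obtain ⟨r1, hr1, hK1⟩ := h W' hW'
    rw [Filter.frequently_atTop]
    intro N
    have hr1n := S.retne hr1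
    have h3 : ∀ᶠ r in (𝒰 : Filter X), ∃ i ∈ Iio (per f y r1), U r (N + i) ∈ K f y r1 := by
      filter_upwards [h𝒰 r1 hr1] with r hr
      obtain ⟨hb, hE⟩ := hU r hr.1
      have h4 : U r (N + per f y r1) ∈ E f (Ioo y r1) :=
        E_mono (Ioo_subset_Ioo_right hr.2.le) (hE _)
      obtain ⟨t, ht, i, hi, hit⟩ := E_decomp S.cont hr1n h4
      refine ⟨i, hi, ?_⟩
      have h5 := hb.iter' (n := N + per f y r1) (m := per f y r1 - i) (by omega)
      have h6 : N + per f y r1 - (per f y r1 - i) = N + i := by omega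
      rw [h6] at h5
      rw [← h5, ← hit, ← Function.iterate_add_apply, Nat.sub_add_cancel hi.le]
      exact K_iter_sub S.cont (per_mem hr1n) t ht
    rw [Ultrafilter.eventually_exists_mem_iff (finite_Iio _)] at h3
    obtain ⟨i, -, hi⟩ := h3
    refine ⟨N + i, by omega, hW'W ?_⟩
    exact hW'c.mem_of_tendsto (hv (N+i)) (hi.mono fun r hr => hK1 hr)

/-- discrete crossing -/
theorem crossing {P : ℕ → Prop} {a b : ℕ} (hab : a ≤ b) (ha : P a) (hb : ¬ P b) :
    ∃ i, a ≤ i ∧ i < b ∧ P i ∧ ¬ P (i+1) := by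
  by_contra hcon
  push Not at hcon
  have : ∀ n, a ≤ n → n ≤ b → P n := by
    intro n hn
    induction n, hn using Nat.le_induction with
    | base => exact fun _ => ha
    | succ n hn ih => exact fun hnb => hcon n hn (by omega) (ih (by omega))
  exact hb (this b hab le_rfl)

theorem case3 [FirstCountableTopology X] (S : Setup f x y)
    (hND : ∀ a b, a < b → ∃ i j, i < j ∧ (f^[i] '' Icc a b ∩ f^[j] '' Icc a b).Nonempty)
    (h1 : ∀ s, y < s → ∃ r, y < r ∧ K f y r ⊆ Iio s)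
    {c : X} (hc : c < y) (hcK : ∀ r, y < r → Icc c y ⊆ K f y r) : y ∈ sa f x := by
  have hf := S.cont
  -- constant period
  obtain ⟨i0, j0, hij, ⟨w0, ⟨u0, hu0, hu0'⟩, ⟨v0, hv0, hv0'⟩⟩⟩ := hND c y hc
  have hbd : ∀ r, y < r → per f y r ≤ j0 := fun r hr =>
    per_le hf (S.retne hr) hij (hcK r hr hu0) (hcK r hr hv0) (hu0'.trans hv0'.symm)
  obtain ⟨rt, hrt⟩ := S.top
  obtain ⟨r0, hr0, hmax⟩ : ∃ r0, y < r0 ∧ ∀ r, y < r → per f y r ≤ per f y r0 := by
    let P : Set ℕ := {n | ∃ r, y < r ∧ per f y r = n}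
    have hPb : BddAbove P := ⟨j0, by rintro n ⟨r, hr, rfl⟩; exact hbd r hr⟩
    have hPn : P.Nonempty := ⟨_, rt, hrt, rfl⟩
    obtain ⟨r0, hr0, he⟩ := Nat.sSup_mem hPn hPb
    refine ⟨r0, hr0, fun r hr => ?_⟩
    rw [he]
    exact le_csSup hPb ⟨r, hr, rfl⟩
  set p := per f y r0 with hp
  have hper : ∀ r, y < r → r ≤ r0 → per f y r = p := fun r hr hr' =>
    le_antisymm (hmax r hr) (per_anti hr' (S.retne hr))
  have hpRet : ∀ r, y < r → r ≤ r0 → p ∈ Ret f y r := fun r hr hr' =>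
    hper r hr hr' ▸ per_mem (S.retne hr)
  have hpdvd : ∀ r, y < r → r ≤ r0 → ∀ m ∈ Ret f y r, p ∣ m := fun r hr hr' m hm =>
    hper r hr hr' ▸ per_dvd hf hm
  have hppos : 0 < p := per_pos (S.retne hr0)
  set g := f^[p] with hgdef
  have hg : Continuous g := hf.iterate p
  have gK : ∀ r, y < r → r ≤ r0 → ∀ t ∈ K f y r, g t ∈ K f y r := fun r hr hr' =>
    K_iter_sub hf (hpRet r hr hr')
  have gKi : ∀ r, y < r → r ≤ r0 → ∀ t ∈ K f y r, ∀ i : ℕ, g^[i] t ∈ K f y r := by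
    intro r hr hr' t ht i
    induction i with
    | zero => exact ht
    | succ i ih => rw [Function.iterate_succ_apply']; exact gK r hr hr' _ ih
  -- the limit set Λ
  let Λ : Set X := {t | ∀ r, y < r → t ∈ closure (K f y r)}
  have L1 : IsClosed Λ := by
    have : Λ = ⋂ r, ⋂ (_ : y < r), closure (K f y r) := by ext t; simp [Λ]
    rw [this]
    exact isClosed_iInter fun r => isClosed_iInter fun _ => isClosed_closure
  have L2 : ∀ t ∈ Λ, t ≤ y := by
    intro t ht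
    by_contra hlt
    push Not at hlt
    obtain ⟨s, hs, hst⟩ := exists_between hlt
    obtain ⟨r, hr, hKr⟩ := h1 s hs
    have h2 : closure (K f y r) ⊆ Iic s :=
      closure_minimal (hKr.trans Iio_subset_Iic_self) isClosed_Iic
    exact absurd (h2 (ht r hr)) (not_le.2 hst)
  have L3 : Icc c y ⊆ Λ := fun t ht r hr => subset_closure (hcK r hr ht)
  have L4 : ∀ a ∈ Λ, ∀ b ∈ Λ, Icc a b ⊆ Λ := by
    intro a ha b hb t ht r hr
    exact (K_ord (f := f) (y := y) (r := r)).isPreconnected.closure.ordConnected.out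
      (ha r hr) (hb r hr) ht
  have L5 : ∀ t ∈ Λ, g t ∈ Λ := by
    intro t ht r hr
    have h2 : y < min r r0 := lt_min hr hr0
    have h3 : g t ∈ closure (K f y (min r r0)) :=
      map_mem_closure hg (ht _ h2) (fun s hs => gK _ h2 (min_le_right _ _) s hs)
    exact closure_mono (K_mono (min_le_left _ _)) h3
  have L5i : ∀ t ∈ Λ, ∀ i : ℕ, g^[i] t ∈ Λ := by
    intro t ht i
    induction i with
    | zero => exact ht
    | succ i ih => rw [Function.iterate_succ_apply']; exact L5 _ ih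
  have hyΛ : y ∈ Λ := L3 ⟨hc.le, le_rfl⟩
  -- ultrafilter
  have hne : (𝓝[>] y).NeBot := nhdsGT_neBot_of_exists_gt S.top
  let 𝒰 : Ultrafilter X := Ultrafilter.of (𝓝[>] y)
  have h𝒰 : ∀ r, y < r → ∀ᶠ s in (𝒰 : Filter X), s ∈ Ioo y r := fun r hr =>
    (Ultrafilter.of_le (𝓝[>] y)) (Ioo_mem_nhdsGT hr)
  have L6 : ∀ s : X → X, (∀ᶠ r in (𝒰 : Filter X), s r ∈ K f y r) →
      ∃ l ∈ Λ, Tendsto s 𝒰 (𝓝 l) := by
    intro s hs
    obtain ⟨l, hl⟩ := ultra_lim 𝒰 s
    refine ⟨l, fun r hr => ?_, hl⟩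
    refine isClosed_closure.mem_of_tendsto hl ?_
    filter_upwards [hs, h𝒰 r hr] with r' h2 h3
    exact subset_closure (K_mono h3.2.le h2)
  have L7 : ∀ s : X → X, (∀ᶠ r in (𝒰 : Filter X), s r ∈ K f y r) →
      (∀ᶠ r in (𝒰 : Filter X), y ≤ s r) → Tendsto s 𝒰 (𝓝 y) := by
    intro s hs hy
    obtain ⟨l, hl, hlim⟩ := L6 s hs
    have h2 : y ≤ l := isClosed_Ici.mem_of_tendsto hlim hy
    have h3 : l = y := le_antisymm (L2 l hl) h2
    rwa [h3] at hlim
  -- (3a)
  obtain ⟨l0, hl0, hl0min⟩ := (L1.isCompact).exists_isLeast ⟨y, hyΛ⟩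
  have hbelow : ∀ s, s ∉ Λ → s ≤ y → s < l0 := by
    intro s hs hsy
    by_contra h2
    push Not at h2
    exact hs (L4 l0 hl0 y hyΛ ⟨h2, hsy⟩)
  have h3a : g (g y) = y := by
    by_cases hgy : g y = y
    · rw [hgy, hgy]
    have hgylt : g y < y := lt_of_le_of_ne (L2 _ (L5 y hyΛ)) hgy
    have hret : ∀ r, ∃ t : X, ∃ j : ℕ, y < r → r ≤ r0 →
        t ∈ Ioo y r ∧ 1 ≤ j ∧ g^[j] t ∈ Ioo y r := by
      intro r
      by_cases hr : y < r ∧ r ≤ r0
      · obtain ⟨t, ht, m, hm, hm'⟩ := S.ret hr.1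
        obtain ⟨j, rfl⟩ := hpdvd r hr.1 hr.2 m ⟨hm, t, V_sub_K ht, V_sub_K hm'⟩
        refine ⟨t, j, fun _ _ => ⟨ht, ?_, ?_⟩⟩
        · by_contra hj
          have : j = 0 := by omega
          subst this
          simp at hm
        · rw [hgdef, ← Function.iterate_mul]; exact hm'
      · exact ⟨x, 0, fun h2 h3 => absurd ⟨h2, h3⟩ hr⟩
    choose t j htj using hret
    have hsmall : ∀ᶠ r in (𝒰 : Filter X), y < r ∧ r ≤ r0 := by
      filter_upwards [h𝒰 r0 hr0] with r hr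
      exact ⟨hr.1, hr.2.le⟩
    have hnot : ∀ r, y < r → r ≤ r0 → ∀ i, i ≤ j r → g^[i] (t r) ∉ Λ := by
      intro r hr hr' i hi hmem
      have h2 := L5i _ hmem (j r - i)
      rw [← Function.iterate_add_apply, Nat.sub_add_cancel hi] at h2
      exact absurd (L2 _ h2) (not_le.2 (htj r hr hr').2.2.1)
    have htlim : Tendsto t 𝒰 (𝓝 y) := by
      apply L7
      · filter_upwards [hsmall] with r hr
        exact V_sub_K (htj r hr.1 hr.2).1
      · filter_upwards [hsmall] with r hr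
        exact (htj r hr.1 hr.2).1.1.le
    have hgtlim : Tendsto (fun r => g (t r)) 𝒰 (𝓝 (g y)) := (hg.tendsto y).comp htlim
    have hev : ∀ᶠ r in (𝒰 : Filter X), g (t r) < y := hgtlim.eventually (gt_mem_nhds hgylt)
    have hgy0 : g y = l0 := by
      refine le_antisymm ?_ (hl0min (L5 y hyΛ))
      refine isClosed_Iic.mem_of_tendsto hgtlim ?_
      filter_upwards [hev, hsmall] with r hr hr'
      refine (hbelow _ ?_ hr.le).le
      exact hnot r hr'.1 hr'.2 1 (htj r hr'.1 hr'.2).2.1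
    have hs : ∀ r, ∃ s : X, y < r → r ≤ r0 → g (t r) < y →
        s ∈ K f y r ∧ s < l0 ∧ y < g s := by
      intro r
      by_cases hr : y < r ∧ r ≤ r0 ∧ g (t r) < y
      · obtain ⟨h2, h3, h4⟩ := hr
        obtain ⟨ht1, hj1, hj2⟩ := htj r h2 h3
        obtain ⟨i, hi1, hi2, hi3, hi4⟩ := crossing (P := fun i => g^[i] (t r) ≤ y) hj1 h4.le
          (not_le.2 hj2.1)
        refine ⟨g^[i] (t r), fun _ _ _ => ⟨gKi r h2 h3 _ (V_sub_K ht1) i,
          hbelow _ (hnot r h2 h3 i hi2.le) hi3, ?_⟩⟩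
        rw [← Function.iterate_succ_apply' g]
        exact not_le.1 hi4
      · exact ⟨x, fun h2 h3 h4 => absurd ⟨h2, h3, h4⟩ hr⟩
    choose s hs using hs
    have hall : ∀ᶠ r in (𝒰 : Filter X), (s r ∈ K f y r ∧ s r < l0 ∧ y < g (s r)) ∧
        y < r ∧ r ≤ r0 := by
      filter_upwards [hsmall, hev] with r h2 h3
      exact ⟨hs r h2.1 h2.2 h3, h2⟩
    obtain ⟨l, hl, hlim⟩ := L6 s (hall.mono fun r h2 => h2.1.1)
    have hl0' : l = l0 := le_antisymm
      (isClosed_Iic.mem_of_tendsto hlim (hall.mono fun r h2 => h2.1.2.1.le)) (hl0min hl)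
    have hgs : Tendsto (fun r => g (s r)) 𝒰 (𝓝 y) := by
      apply L7
      · exact hall.mono fun r h2 => gK r h2.2.1 h2.2.2 _ h2.1.1
      · exact hall.mono fun r h2 => h2.1.2.2.le
    have hgs' : Tendsto (fun r => g (s r)) 𝒰 (𝓝 (g l)) := (hg.tendsto l).comp hlim
    have h5 : g l = y := tendsto_nhds_unique hgs' hgs
    rw [hgy0, ← hl0', h5]
  -- the map G
  set q := p * 2 with hq
  have hqpos : 0 < q := by omega
  set G := f^[q] with hGdef
  have hG : Continuous G := hf.iterate q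
  have hGg : ∀ t, G t = g (g t) := by
    intro t
    rw [hGdef, hq, Function.iterate_mul]
    rfl
  have hGy : G y = y := by rw [hGg]; exact h3a
  have GK : ∀ r, y < r → r ≤ r0 → ∀ t ∈ K f y r, G t ∈ K f y r := by
    intro r hr hr' t ht
    rw [hGg]
    exact gK r hr hr' _ (gK r hr hr' _ ht)
  have GKi : ∀ r, y < r → r ≤ r0 → ∀ t ∈ K f y r, ∀ i : ℕ, G^[i] t ∈ K f y r := by
    intro r hr hr' t ht i
    induction i with
    | zero => exact ht
    | succ i ih => rw [Function.iterate_succ_apply']; exact GK r hr hr' _ ih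
  have GΛ : ∀ t ∈ Λ, ∀ i : ℕ, G^[i] t ∈ Λ := by
    intro t ht i
    induction i with
    | zero => exact ht
    | succ i ih => rw [Function.iterate_succ_apply', hGg]; exact L5 _ (L5 _ ih)
  have hGyi : ∀ i : ℕ, G^[i] y = y := fun i => Function.iterate_fixed hGy i
  -- x in the orbit of y
  by_cases hxy : x ∈ E f {y}
  · refine lemmaC f y {y} ?_ x hxy
    intro w hw U hU
    rw [mem_singleton_iff] at hw
    subst hw
    exact ⟨w, rfl, mem_of_mem_nhds hU, q, hqpos, hGy⟩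
  -- decomposition
  have hdec : ∀ (n : ℕ) (t : X), f^[n] t = f^[n % q] (G^[n / q] t) := by
    intro n t
    rw [hGdef, ← Function.iterate_mul, ← Function.iterate_add_apply, Nat.mod_add_div]
  have hxclosed : ∀ u : X → X, Tendsto u 𝒰 (𝓝 y) →
      (∀ᶠ r in (𝒰 : Filter X), ∃ j ∈ Iio q, f^[j] (u r) = x) → False := by
    intro u hu hj
    rw [Ultrafilter.eventually_exists_mem_iff (finite_Iio _)] at hj
    obtain ⟨j, -, hj⟩ := hj
    have h2 : Tendsto (fun r => f^[j] (u r)) 𝒰 (𝓝 (f^[j] y)) :=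
      ((hf.iterate j).tendsto y).comp hu
    have h3 : Tendsto (fun r => f^[j] (u r)) 𝒰 (𝓝 x) :=
      (tendsto_congr' hj).2 tendsto_const_nhds
    exact hxy ⟨y, rfl, j, tendsto_nhds_unique h2 h3⟩
  -- (3b)
  have h3b : ∀ c', c' < y → x ∈ E f (Ioo c' y) := by
    intro c' hc'
    have hxr : ∀ r, ∃ t : X, ∃ n : ℕ, y < r → t ∈ Ioo y r ∧ f^[n] t = x := by
      intro r
      by_cases hr : y < r
      · obtain ⟨t, ht, n, hn⟩ := S.xE hr
        exact ⟨t, n, fun _ => ⟨ht, hn⟩⟩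
      · exact ⟨x, 0, fun h2 => absurd h2 hr⟩
    choose t n htn using hxr
    have hsmall : ∀ᶠ r in (𝒰 : Filter X), y < r ∧ r ≤ r0 := by
      filter_upwards [h𝒰 r0 hr0] with r hr
      exact ⟨hr.1, hr.2.le⟩
    by_cases hA : ∀ᶠ r in (𝒰 : Filter X), ∀ i ≤ n r / q, y ≤ G^[i] (t r)
    · exfalso
      apply hxclosed (fun r => G^[n r / q] (t r))
      · apply L7
        · filter_upwards [hsmall] with r hr
          exact GKi r hr.1 hr.2 _ (V_sub_K (htn r hr.1).1) _
        · filter_upwards [hA] with r hr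
          exact hr _ le_rfl
      · filter_upwards [hsmall] with r hr
        refine ⟨n r % q, Nat.mod_lt _ hqpos, ?_⟩
        rw [← hdec]
        exact (htn r hr.1).2
    · rw [← Ultrafilter.eventually_not] at hA
      have hs : ∀ r, ∃ s : X, ∃ N : ℕ, y < r → r ≤ r0 →
          (¬ ∀ i ≤ n r / q, y ≤ G^[i] (t r)) →
          s ∈ K f y r ∧ y ≤ s ∧ G s < y ∧ f^[N] (G s) = x := by
        intro r
        by_cases hr : y < r ∧ r ≤ r0 ∧ (¬ ∀ i ≤ n r / q, y ≤ G^[i] (t r))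
        · obtain ⟨h2, h3, h4⟩ := hr
          push Not at h4
          obtain ⟨i, hi, hi'⟩ := h4
          obtain ⟨ht1, ht2⟩ := htn r h2
          obtain ⟨k, -, hk2, hk3, hk4⟩ := crossing (P := fun i => y ≤ G^[i] (t r))
            (Nat.zero_le i) ht1.1.le (not_le.2 hi')
          have hk5 : q * (k+1) ≤ n r := by
            calc q * (k+1) ≤ q * (n r / q) := Nat.mul_le_mul_left _ (by omega)
              _ ≤ n r := Nat.mul_div_le _ _
          refine ⟨G^[k] (t r), n r - q * (k+1), fun _ _ _ =>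
            ⟨GKi r h2 h3 _ (V_sub_K ht1) k, hk3, ?_, ?_⟩⟩
          · rw [← Function.iterate_succ_apply' G]
            exact not_le.1 hk4
          · rw [← Function.iterate_succ_apply' G, hGdef, ← Function.iterate_mul,
              ← Function.iterate_add_apply]
            have : n r - q * (k+1) + q * k.succ = n r := by
              rw [Nat.succ_eq_add_one]; omega
            rw [this]
            exact ht2
        · exact ⟨x, 0, fun h2 h3 h4 => absurd ⟨h2, h3, h4⟩ hr⟩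
      choose s N hs using hs
      have hall : ∀ᶠ r in (𝒰 : Filter X), s r ∈ K f y r ∧ y ≤ s r ∧ G (s r) < y ∧
          f^[N r] (G (s r)) = x := by
        filter_upwards [hsmall, hA] with r h2 h3
        exact hs r h2.1 h2.2 h3
      have hslim : Tendsto s 𝒰 (𝓝 y) := L7 s (hall.mono fun r h2 => h2.1)
        (hall.mono fun r h2 => h2.2.1)
      have hGs : Tendsto (fun r => G (s r)) 𝒰 (𝓝 y) := by
        have := (hG.tendsto y).comp hslim
        rwa [hGy] at this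
      have hev : ∀ᶠ r in (𝒰 : Filter X), c' < G (s r) := hGs.eventually (lt_mem_nhds hc')
      obtain ⟨r, h2, h3⟩ := (hall.and hev).exists
      exact ⟨G (s r), ⟨h3, h2.2.2.1⟩, N r, h2.2.2.2⟩
  -- (3c)
  have hDpre : ∀ c', c' < y → (E G (Ioc c' y)).OrdConnected := by
    intro c' hc'
    have : E G (Ioc c' y) = ⋃ k : ℕ, G^[k] '' Ioc c' y := by
      ext w
      constructor
      · rintro ⟨t, ht, n, hn⟩
        exact mem_iUnion.2 ⟨n, t, ht, hn⟩
      · intro hw
        obtain ⟨n, t, ht, hn⟩ := mem_iUnion.1 hw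
        exact ⟨t, ht, n, hn⟩
    rw [this]
    refine (isPreconnected_iUnion ⟨y, ?_⟩ ?_).ordConnected
    · rw [mem_iInter]
      intro k
      exact ⟨y, ⟨hc', le_rfl⟩, hGyi k⟩
    · intro k
      exact (ordConnected_Ioc.isPreconnected).image _ (hG.iterate k).continuousOn
  have hDle : ∀ c', c ≤ c' → ∀ w ∈ E G (Ioc c' y), w ≤ y := by
    rintro c' hc' w ⟨t, ht, n, rfl⟩
    exact L2 _ (GΛ t (L3 ⟨hc'.trans ht.1.le, ht.2⟩) n)
  by_cases hB : ∃ a, a < y ∧ ∀ c', c ≤ c' → c' < y → Ioo a y ⊆ E G (Ioc c' y)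
  · obtain ⟨a, ha, hB⟩ := hB
    have ha' : max a c < y := max_lt ha hc
    apply lemmaC f y (Ioo (max a c) y)
    · intro w hw U hU
      obtain ⟨c1, hc1, hsub⟩ := exists_Ioc_subset_of_mem_nhds hU ⟨c, hc⟩
      have hc2 : max c1 w < y := max_lt hc1 hw.2
      have hc3 : c ≤ max c1 w := ((le_max_right a c).trans hw.1.le).trans (le_max_right _ _)
      obtain ⟨w', hw', k, hk⟩ := hB _ hc3 hc2 ⟨(le_max_left a c).trans_lt hw.1, hw.2⟩
      have hw'y : w' ≠ y := by
        rintro rfl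
        rw [hGyi] at hk
        exact absurd hk hw.2.ne'
      have hw'w : w < w' := (le_max_right _ _).trans_lt hw'.1
      refine ⟨w', ⟨hw.1.trans hw'w, lt_of_le_of_ne hw'.2 hw'y⟩,
        hsub ⟨(le_max_left _ _).trans_lt hw'.1, hw'.2⟩, q * k, ?_, ?_⟩
      · have : k ≠ 0 := by
          rintro rfl
          exact absurd hk hw'w.ne'
        exact Nat.mul_pos hqpos (Nat.pos_of_ne_zero this)
      · rw [Function.iterate_mul]; exact hk
    · exact h3b _ ha'
  · exfalso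
    push Not at hB
    -- points u → y from the left
    have hleft : ∀ a, a < y → ∃ u ∈ Ioc a y, ∃ j ∈ Iio q, f^[j] u = x := by
      intro a ha
      obtain ⟨c', hc1, hc2, hc3⟩ := hB a ha
      rw [not_subset] at hc3
      obtain ⟨z, hz, hz'⟩ := hc3
      obtain ⟨t, ht, n, hn⟩ := h3b c' hc2
      have hmem : G^[n / q] t ∈ E G (Ioc c' y) := ⟨t, ⟨ht.1, ht.2.le⟩, _, rfl⟩
      have hymem : y ∈ E G (Ioc c' y) := ⟨y, ⟨hc2, le_rfl⟩, 0, rfl⟩
      refine ⟨G^[n / q] t, ⟨?_, hDle c' hc1 _ hmem⟩, n % q, Nat.mod_lt _ hqpos, ?_⟩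
      · refine hz.1.trans ?_
        by_contra h2
        push Not at h2
        exact hz' ((hDpre c' hc2).out hmem hymem ⟨h2, hz.2.le⟩)
      · rw [← hdec]; exact hn
    let T : Set X := ⋃ j ∈ Iio q, {u | f^[j] u = x}
    have hT : IsClosed T := (finite_Iio q).isClosed_biUnion fun j _ =>
      isClosed_eq (hf.iterate j) continuous_const
    have hyT : y ∈ closure T := by
      rw [mem_closure_iff_nhds]
      intro U hU
      obtain ⟨a, ha, hsub⟩ := exists_Ioc_subset_of_mem_nhds hU ⟨c, hc⟩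
      obtain ⟨u, hu, j, hj, hju⟩ := hleft a ha
      exact ⟨u, hsub hu, mem_biUnion hj hju⟩
    rw [hT.closure_eq] at hyT
    obtain ⟨j, -, hj⟩ := mem_iUnion₂.1 hyT
    exact hxy ⟨y, rfl, j, hj⟩

end Pool.Agent.R881.SA
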