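import Pool.Agent.R881.SAlphaC

/-!
Special alpha-limit sets of interval maps without wandering intervals are closed: assembly.
-/

namespace Pool.Agent.R881.SA

open Set Filter Topology Function

theorem right {X : Type*} [CompleteLinearOrder X] [TopologicalSpace X] [OrderTopology X]
    [DenselyOrdered X] [FirstCountableTopology X] {f : X → X} {x y : X}
    (hf : Continuous f)
    (hND : ∀ a b, a < b → ∃ i j, i < j ∧ (f^[i] '' Icc a b ∩ f^[j] '' Icc a b).Nonempty)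
    (htop : ∃ r, y < r) (H : ∀ r, y < r → ∃ z ∈ sa f x, z ∈ Ioo y r) : y ∈ sa f x := by
  have S : Setup f x y := by
    refine ⟨hf, htop, fun r hr => ?_⟩
    obtain ⟨z, ⟨u, hu, hz⟩, hzm⟩ := H r hr
    exact ⟨u, hu, (mapClusterPt_iff_frequently.1 hz) _ (Ioo_mem_nhds hzm.1 hzm.2)⟩
  by_cases h1 : ∃ s, y < s ∧ ∀ r, y < r → Ioo y s ⊆ E f (Ioo y r)
  · obtain ⟨s, hs, h1⟩ := h1
    exact case1 S hs h1
  push Not at h1
  have h1' : ∀ s, y < s → ∃ r, y < r ∧ K f y r ⊆ Iio s := by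
    intro s hs
    obtain ⟨r, hr, hns⟩ := h1 s hs
    rw [not_subset] at hns
    obtain ⟨q, hq, hq'⟩ := hns
    refine ⟨r, hr, fun t ht => ?_⟩
    by_contra hst
    rw [mem_Iio, not_lt] at hst
    obtain ⟨z0, hz0, hz0'⟩ := exists_between (lt_min hr hq.1)
    have hz : z0 ∈ K f y r := V_sub_K ⟨hz0, hz0'.trans_le (min_le_left _ _)⟩
    have h2 : q ∈ K f y r := K_ord.out hz ht
      ⟨(hz0'.trans_le (min_le_right _ _)).le, hq.2.le.trans hst⟩
    exact hq' (K_sub_E h2)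
  by_cases h2 : ∀ U ∈ 𝓝 y, ∃ r, y < r ∧ K f y r ⊆ U
  · exact case2 S h2
  push Not at h2
  obtain ⟨U, hU, h2⟩ := h2
  obtain ⟨s, hs, hsU⟩ := exists_Ico_subset_of_mem_nhds hU htop
  obtain ⟨r1, hr1, hK1⟩ := h1' s hs
  have h3 : ∀ r, y < r → ∃ t ∈ K f y (min r r1), t ∉ U ∧ t < y := by
    intro r hr
    have h4 := h2 (min r r1) (lt_min hr hr1)
    rw [not_subset] at h4
    obtain ⟨t, ht, htU⟩ := h4
    refine ⟨t, ht, htU, ?_⟩
    by_contra h5
    push Not at h5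
    exact htU (hsU ⟨h5, hK1 (K_mono (min_le_right _ _) ht)⟩)
  have hbot : ∃ l, l < y := by
    obtain ⟨t, -, -, ht⟩ := h3 r1 hr1
    exact ⟨t, ht⟩
  obtain ⟨c, hc, hcU⟩ := exists_Ioc_subset_of_mem_nhds hU hbot
  refine case3 S hND h1' hc ?_
  intro r hr
  obtain ⟨t, ht, htU, hty⟩ := h3 r hr
  have htc : t ≤ c := by
    by_contra h5
    push Not at h5
    exact htU (hcU ⟨h5, hty.le⟩)
  obtain ⟨z0, hz0, hz0'⟩ := exists_between hr
  have hz : z0 ∈ K f y r := V_sub_K ⟨hz0, hz0'⟩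
  refine Subset.trans ?_ (K_ord.out (K_mono (min_le_left _ _) ht) hz)
  exact Icc_subset_Icc htc hz0.le

theorem sa_closed {X : Type*} [CompleteLinearOrder X] [TopologicalSpace X] [OrderTopology X]
    [DenselyOrdered X] [FirstCountableTopology X] {f : X → X} (hf : Continuous f)
    (hND : ∀ a b, a < b → ∃ i j, i < j ∧ (f^[i] '' Icc a b ∩ f^[j] '' Icc a b).Nonempty)
    (x : X) : IsClosed (sa f x) := by
  rw [← closure_subset_iff_isClosed]
  intro y hy
  by_contra hny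
  have hR : ∃ U ∈ 𝓝 y, ∀ z ∈ U, z ∈ sa f x → z ≤ y := by
    by_cases htop : ∃ r, y < r
    · by_cases H : ∀ r, y < r → ∃ z ∈ sa f x, z ∈ Ioo y r
      · exact absurd (right hf hND htop H) hny
      · push Not at H
        obtain ⟨r, hr, H⟩ := H
        refine ⟨Iio r, Iio_mem_nhds hr, fun z hz hzs => ?_⟩
        by_contra h2
        push Not at h2
        exact H z hzs ⟨h2, hz⟩
    · push Not at htop
      exact ⟨univ, univ_mem, fun z _ _ => htop z⟩
  have hL : ∃ U ∈ 𝓝 y, ∀ z ∈ U, z ∈ sa f x → y ≤ z := by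
    by_cases hbot : ∃ r, r < y
    · by_cases H : ∀ r, r < y → ∃ z ∈ sa f x, z ∈ Ioo r y
      · exfalso
        have : FirstCountableTopology Xᵒᵈ := inferInstanceAs (FirstCountableTopology X)
        have key := right (X := Xᵒᵈ) (f := fun t => OrderDual.toDual (f (OrderDual.ofDual t)))
          (x := OrderDual.toDual x) (y := OrderDual.toDual y) hf ?_ ?_ ?_
        · exact hny key
        · intro a b hab
          obtain ⟨i, j, hij, w, ⟨u, hu, hu'⟩, ⟨v, hv, hv'⟩⟩ := hND (OrderDual.ofDual b)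
            (OrderDual.ofDual a) hab
          refine ⟨i, j, hij, w, ⟨u, ⟨hu.2, hu.1⟩, hu'⟩, ⟨v, ⟨hv.2, hv.1⟩, hv'⟩⟩
        · exact hbot
        · intro r hr
          obtain ⟨z, hz, hzm⟩ := H r hr
          exact ⟨z, hz, hzm.2, hzm.1⟩
      · push Not at H
        obtain ⟨r, hr, H⟩ := H
        refine ⟨Ioi r, Ioi_mem_nhds hr, fun z hz hzs => ?_⟩
        by_contra h2
        push Not at h2
        exact H z hzs ⟨hz, h2⟩
    · push Not at hbot
      exact ⟨univ, univ_mem, fun z _ _ => hbot z⟩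
  obtain ⟨U, hU, h1⟩ := hR
  obtain ⟨V, hV, h2⟩ := hL
  obtain ⟨z, ⟨hzU, hzV⟩, hz⟩ := mem_closure_iff_nhds.1 hy (U ∩ V) (inter_mem hU hV)
  exact hny (le_antisymm (h1 z hzU hz) (h2 z hzV hz) ▸ hz)

end Pool.Agent.R881.SA
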