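import Pool.Agent.R881.SAlphaD

/-!
Generic interval maps: every interval of a suitable small length is stretched.
-/

namespace Pool.Agent.R881.SA

open Set Filter Topology Function unitInterval

/-- open dense sets -/
def O (m : ℕ) : Set C(I, I) :=
  {g | ∃ d : ℝ, 0 < d ∧ d < 1 / ((m : ℝ) + 1) ∧ ∃ t : ℝ, 0 < t ∧ ∀ a : ℝ, 0 ≤ a → a + d ≤ 1 →
    ∃ u v : I, a ≤ u ∧ (u : ℝ) ≤ a + d ∧ a ≤ v ∧ (v : ℝ) ≤ a + d ∧ d + t ≤ (g u : ℝ) - g v}

theorem dist_lt_coe {f g : C(I, I)} {r : ℝ} (h : dist f g < r) (x : I) :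
    |(f x : ℝ) - g x| < r := by
  have h1 : dist (f x) (g x) ≤ dist f g := ContinuousMap.dist_apply_le_dist x
  rw [Subtype.dist_eq, Real.dist_eq] at h1
  exact h1.trans_lt h

theorem O_open (m : ℕ) : IsOpen (O m) := by
  rw [Metric.isOpen_iff]
  rintro g ⟨d, hd, hdm, t, ht, h⟩
  refine ⟨t/4, by positivity, ?_⟩
  intro g' hg'
  rw [Metric.mem_ball] at hg'
  refine ⟨d, hd, hdm, t/2, by positivity, fun a ha ha' => ?_⟩
  obtain ⟨u, v, h1, h2, h3, h4, h5⟩ := h a ha ha'
  refine ⟨u, v, h1, h2, h3, h4, ?_⟩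
  have h6 := abs_lt.1 (dist_lt_coe hg' u)
  have h7 := abs_lt.1 (dist_lt_coe hg' v)
  linarith [h6.1, h7.2]

theorem O_dense (m : ℕ) : Dense (O m) := by
  rw [Metric.dense_iff]
  intro f ε hε
  set e : ℝ := min (ε/4) (1/2) with he
  have he0 : 0 < e := lt_min (by positivity) (by norm_num)
  have he1 : e ≤ 1/2 := min_le_right _ _
  have heε : e ≤ ε/4 := min_le_left _ _
  have huc : UniformContinuous (fun x : I => (f x : ℝ)) :=
    CompactSpace.uniformContinuous_of_continuous (continuous_subtype_val.comp f.continuous)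
  obtain ⟨δ, hδ, hδf⟩ := Metric.uniformContinuous_iff.1 huc (e/16) (by positivity)
  set τ : ℝ := min (min (1/((m:ℝ)+1)) (e/16)) δ / 2 with hτ
  have hm : (0:ℝ) < 1/((m:ℝ)+1) := by positivity
  have hmin : 0 < min (min (1/((m:ℝ)+1)) (e/16)) δ := lt_min (lt_min hm (by positivity)) hδ
  have hτ0 : 0 < τ := by rw [hτ]; positivity
  have hτ1 : τ < 1/((m:ℝ)+1) := by
    have : min (min (1/((m:ℝ)+1)) (e/16)) δ ≤ 1/((m:ℝ)+1) :=
      (min_le_left _ _).trans (min_le_left _ _)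
    rw [hτ]; linarith
  have hτ2 : τ < e/16 := by
    have : min (min (1/((m:ℝ)+1)) (e/16)) δ ≤ e/16 :=
      (min_le_left _ _).trans (min_le_right _ _)
    rw [hτ]; linarith
  have hτ3 : τ < δ := by
    have : min (min (1/((m:ℝ)+1)) (e/16)) δ ≤ δ := min_le_right _ _
    rw [hτ]; linarith
  let h0 : ℝ → ℝ := fun x => (e/2) * (1 + Real.cos (x / τ * (2 * Real.pi)))
  have h0c : Continuous h0 := by fun_prop
  have h0nn : ∀ x, 0 ≤ h0 x := fun x => by
    have := Real.neg_one_le_cos (x / τ * (2 * Real.pi))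
    have h2 : 0 ≤ 1 + Real.cos (x / τ * (2 * Real.pi)) := by linarith
    simp only [h0]
    positivity
  have h0le : ∀ x, h0 x ≤ e := fun x => by
    have := Real.cos_le_one (x / τ * (2 * Real.pi))
    simp only [h0]
    nlinarith
  let g : C(I, I) := ⟨fun x => ⟨(1-e) * (f x : ℝ) + h0 x, by
      have h1 := (f x).2.1
      have h2 := (f x).2.2
      have h3 := h0nn x
      have h4 := h0le x
      have h5 : 0 ≤ (1-e) * (f x : ℝ) := mul_nonneg (by linarith) h1
      have h6 : (1-e) * (f x : ℝ) ≤ (1-e) * 1 := mul_le_mul_of_nonneg_left h2 (by linarith)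
      exact ⟨by linarith, by linarith⟩⟩, by
      apply Continuous.subtype_mk
      exact (continuous_const.mul (continuous_subtype_val.comp f.continuous)).add
        (h0c.comp continuous_subtype_val)⟩
  have hgx : ∀ x : I, (g x : ℝ) = (1-e) * (f x : ℝ) + h0 x := fun x => rfl
  refine ⟨g, ?_, ?_⟩
  · rw [Metric.mem_ball]
    have : dist g f ≤ 2 * e := by
      rw [ContinuousMap.dist_le (by positivity)]
      intro x
      rw [Subtype.dist_eq, Real.dist_eq, hgx, abs_le]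
      have h1 := (f x).2.1
      have h2 := (f x).2.2
      have h3 := h0nn x
      have h4 := h0le x
      have h5 : e * (f x : ℝ) ≤ e * 1 := mul_le_mul_of_nonneg_left h2 he0.le
      have h6 : 0 ≤ e * (f x : ℝ) := mul_nonneg he0.le h1
      constructor <;> nlinarith
    linarith
  · refine ⟨τ, hτ0, hτ1, e/4, by positivity, fun a ha ha' => ?_⟩
    have hu1 : a ≤ τ * ⌈a/τ⌉ := by
      have := Int.le_ceil (a/τ)
      rw [div_le_iff₀ hτ0] at this
      linarith
    have hu2 : τ * ⌈a/τ⌉ ≤ a + τ := by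
      have := (Int.ceil_lt_add_one (a/τ)).le
      have h2 := mul_le_mul_of_nonneg_left this hτ0.le
      have h3 : τ * (a/τ + 1) = a + τ := by field_simp
      linarith
    have hv1 : a ≤ τ * (⌈a/τ - 1/2⌉ + 1/2) := by
      have := Int.le_ceil (a/τ - 1/2)
      have h2 : a/τ ≤ ⌈a/τ - 1/2⌉ + 1/2 := by linarith
      rw [div_le_iff₀ hτ0] at h2
      linarith
    have hv2 : τ * (⌈a/τ - 1/2⌉ + 1/2) ≤ a + τ := by
      have := (Int.ceil_lt_add_one (a/τ - 1/2)).le
      have h1 : (⌈a/τ - 1/2⌉ : ℝ) + 1/2 ≤ a/τ + 1 := by linarith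
      have h2 := mul_le_mul_of_nonneg_left h1 hτ0.le
      have h3 : τ * (a/τ + 1) = a + τ := by field_simp
      linarith
    let u : I := ⟨τ * ⌈a/τ⌉, by linarith, by linarith⟩
    let v : I := ⟨τ * (⌈a/τ - 1/2⌉ + 1/2), by linarith, by linarith⟩
    refine ⟨u, v, hu1, hu2, hv1, hv2, ?_⟩
    have hcu : h0 u = e := by
      have h1 : (u : ℝ) / τ = ⌈a/τ⌉ := by
        change τ * ⌈a/τ⌉ / τ = _
        field_simp
      simp only [h0, h1, Real.cos_int_mul_two_pi]
      ring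
    have hcv : h0 v = 0 := by
      have h1 : (v : ℝ) / τ * (2 * Real.pi) = ⌈a/τ - 1/2⌉ * (2 * Real.pi) + Real.pi := by
        change τ * (⌈a/τ - 1/2⌉ + 1/2) / τ * (2 * Real.pi) = _
        field_simp
      simp only [h0, h1, Real.cos_int_mul_two_pi_add_pi]
      ring
    rw [hgx, hgx, hcu, hcv]
    have hdist : dist u v < δ := by
      rw [Subtype.dist_eq, Real.dist_eq]
      refine lt_of_le_of_lt (b := τ) ?_ hτ3
      rw [abs_le]
      change -τ ≤ τ * ⌈a/τ⌉ - τ * (⌈a/τ - 1/2⌉ + 1/2) ∧ τ * ⌈a/τ⌉ - τ * (⌈a/τ - 1/2⌉ + 1/2) ≤ τ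
      constructor <;> linarith
    have hfuv := hδf hdist
    rw [Real.dist_eq] at hfuv
    have h8 := (abs_lt.1 hfuv).1
    have h9 : (1 - e) * ((f u : ℝ) - f v) ≥ -(e/16) := by
      by_cases hs : 0 ≤ (f u : ℝ) - f v
      · have : 0 ≤ (1 - e) * ((f u : ℝ) - f v) := mul_nonneg (by linarith) hs
        linarith
      · push Not at hs
        nlinarith
    nlinarith

theorem noWandering {f : C(I, I)} (hf : ∀ m, f ∈ O m) (a b : I) (hab : a < b) :
    ∃ i j, i < j ∧ (f^[i] '' Icc a b ∩ f^[j] '' Icc a b).Nonempty := by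
  have hab' : (0:ℝ) < (b:ℝ) - a := sub_pos.2 hab
  obtain ⟨m, hm⟩ := exists_nat_one_div_lt hab'
  obtain ⟨d, hd, hdm, t, ht, h⟩ := hf m
  have key : ∀ i : ℕ, ∃ c : ℝ, 0 ≤ c ∧ c + d ≤ 1 ∧ ∀ w : I, c ≤ w → (w:ℝ) ≤ c + d →
      w ∈ f^[i] '' Icc a b := by
    intro i
    induction i with
    | zero =>
      refine ⟨a, a.2.1, ?_, fun w hw hw' => ⟨w, ⟨hw, ?_⟩, rfl⟩⟩
      · have := b.2.2
        linarith
      · rw [← Subtype.coe_le_coe]
        linarith
    | succ i ih =>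
      obtain ⟨c, hc, hc1, hc2⟩ := ih
      obtain ⟨u, v, h1, h2, h3, h4, h5⟩ := h c hc hc1
      refine ⟨f v, (f v).2.1, ?_, fun w hw hw' => ?_⟩
      · have := (f u).2.2
        linarith
      · have hiv := intermediate_value_uIcc (f := f) (a := v) (b := u)
          f.continuous.continuousOn
        have hwm : w ∈ uIcc (f v) (f u) := by
          apply mem_uIcc_of_le hw
          linarith
        obtain ⟨s, hs, hsw⟩ := hiv hwm
        have hs' : c ≤ s ∧ (s:ℝ) ≤ c + d := by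
          rw [mem_uIcc] at hs
          rcases hs with hs | hs
          · exact ⟨h3.trans hs.1, (Subtype.coe_le_coe.2 hs.2).trans h2⟩
          · exact ⟨h1.trans hs.1, (Subtype.coe_le_coe.2 hs.2).trans h4⟩
        obtain ⟨s', hs1, hs2⟩ := hc2 s hs'.1 hs'.2
        refine ⟨s', hs1, ?_⟩
        rw [Function.iterate_succ_apply', hs2, hsw]
  choose c hc0 hc1 hc2 using key
  let N : ℕ := ⌊1/d⌋₊
  have hfl : ∀ i, ⌊c i / d⌋₊ < N + 1 := by
    intro i
    apply Nat.lt_succ_of_le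
    apply Nat.floor_le_floor
    have : c i ≤ 1 := by linarith [hc1 i]
    gcongr
  obtain ⟨i, j, hij, he⟩ := Finite.exists_ne_map_eq_of_infinite
    (fun i : ℕ => (⟨⌊c i / d⌋₊, hfl i⟩ : Fin (N+1)))
  have he' : ⌊c i / d⌋₊ = ⌊c j / d⌋₊ := by simpa using congrArg Fin.val he
  have hfl1 : ∀ i, (⌊c i / d⌋₊ : ℝ) * d ≤ c i := by
    intro i
    have := Nat.floor_le (div_nonneg (hc0 i) hd.le)
    rwa [le_div_iff₀ hd] at this
  have hfl2 : ∀ i, c i < ((⌊c i / d⌋₊ : ℝ) + 1) * d := by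
    intro i
    have := Nat.lt_floor_add_one (c i / d)
    rwa [div_lt_iff₀ hd] at this
  have h1 := hfl1 i
  have h2 := hfl1 j
  have h3 := hfl2 i
  have h4 := hfl2 j
  rw [he'] at h1 h3
  have h5 : c i < c j + d := by linarith
  have h6 : c j < c i + d := by linarith
  have hne : (f^[i] '' Icc a b ∩ f^[j] '' Icc a b).Nonempty := by
    refine ⟨⟨max (c i) (c j), le_max_of_le_left (hc0 i),
      max_le (by linarith [hc1 i]) (by linarith [hc1 j])⟩, hc2 i _ ?_ ?_, hc2 j _ ?_ ?_⟩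
    · exact le_max_left _ _
    · exact max_le (by linarith) h6.le
    · exact le_max_right _ _
    · exact max_le h5.le (by linarith)
  rcases lt_or_gt_of_ne hij with h7 | h7
  · exact ⟨i, j, h7, hne⟩
  · exact ⟨j, i, h7, by rwa [inter_comm]⟩

theorem generic_closed : {f : C(I, I) | ∀ x, IsClosed (sa f x)} ∈ residual C(I, I) := by
  have h1 : (⋂ m, O m) ∈ residual C(I, I) :=
    countable_iInter_mem.2 fun m => residual_of_dense_open (O_open m) (O_dense m)
  refine Filter.mem_of_superset h1 ?_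
  intro f hf x
  rw [mem_iInter] at hf
  exact sa_closed f.continuous (noWandering hf) x

end Pool.Agent.R881.SA
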