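import Mathlib

/-!
Characterized subgroups of topological abelian groups: definitions and two general lemmas.
-/

open Filter Topology

namespace Pool.Agent.R881.TChar

/-- The character group of `X`: continuous homomorphisms to the circle `ℝ/ℤ`. -/
abbrev Dual (X : Type*) [AddCommGroup X] [TopologicalSpace X] : Type _ :=
  ContinuousAddMonoidHom X (AddCircle (1 : ℝ))

theorem nsmul_apply {X : Type*} [AddCommGroup X] [TopologicalSpace X] (m : ℕ) (w : Dual X)
    (x : X) : (m • w) x = m • w x := by
  induction m with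
  | zero => rw [zero_nsmul, zero_nsmul]; rfl
  | succ k ih =>
    rw [succ_nsmul, succ_nsmul, ← ih]; rfl

/-- `s_v(X)`: the points at which the sequence of characters `v` converges to `0`. -/
def sSet {X : Type*} [AddCommGroup X] [TopologicalSpace X] (v : ℕ → Dual X) : Set X :=
  {x | Tendsto (fun n => v n x) atTop (𝓝 0)}

/-- A `T`-sequence: some Hausdorff group topology makes the sequence converge to `0`. -/
def IsTSeq {G : Type*} [AddCommGroup G] (v : ℕ → G) : Prop :=
  ∃ t : TopologicalSpace G, @IsTopologicalAddGroup G t _ ∧ @T2Space G t ∧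
    Tendsto v atTop (@nhds G t 0)

/-- `H` is `T`-characterized in `X`. -/
def TCharacterized {X : Type*} [AddCommGroup X] [TopologicalSpace X] (H : AddSubgroup X) : Prop :=
  ∃ v : ℕ → Dual X, IsTSeq v ∧ (H : Set X) = sSet v

/-- `Y` is autocharacterized. -/
def Autocharacterized (Y : Type*) [AddCommGroup Y] [TopologicalSpace Y] : Prop :=
  ∃ u : ℕ → Dual Y, (¬ ∀ᶠ n in atTop, u n = 0) ∧ sSet u = Set.univ

/-- `H` is a topological direct summand of `X`. -/
def TopDirectSummand {X : Type*} [AddCommGroup X] [TopologicalSpace X] (H : AddSubgroup X) :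
    Prop :=
  ∃ Z : AddSubgroup X, IsHomeomorph (fun p : H × Z => (p.1 : X) + (p.2 : X))

/-- If `v` is a `T`-sequence and all `m • v n` lie in a finite set, then `m • v n = 0`
eventually. -/
theorem IsTSeq.eventually_nsmul_eq_zero {G : Type*} [AddCommGroup G] {v : ℕ → G}
    (hv : IsTSeq v) (m : ℕ) (S : Set G) (hS : S.Finite) (h : ∀ n, m • v n ∈ S) :
    ∀ᶠ n in atTop, m • v n = 0 := by
  obtain ⟨t, h1, h2, h3⟩ := hv
  let _ := t
  have := h1
  have := h2
  have h4 : Tendsto (fun n => m • v n) atTop (𝓝 0) := by
    have := (continuous_nsmul (M := G) m).tendsto 0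
    rw [smul_zero] at this
    exact this.comp h3
  have h5 : IsClosed (S \ {0}) := (hS.subset Set.sdiff_subset).isClosed
  have h6 : (S \ {0})ᶜ ∈ 𝓝 (0 : G) := h5.isOpen_compl.mem_nhds (by simp)
  filter_upwards [h4 h6] with n hn
  by_contra h0
  exact hn ⟨h n, h0⟩

/-- A sequence which is eventually in every member of a decreasing sequence of subgroups with
trivial intersection is a `T`-sequence. -/
theorem isTSeq_of_subgroups {G : Type*} [AddCommGroup G] (v : ℕ → G) (U : ℕ → AddSubgroup G)
    (hU : ∀ m n, m ≤ n → v n ∈ U m) (h0 : ∀ g, (∀ m, g ∈ U m) → g = 0) : IsTSeq v := by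
  let Q : ℕ → Type _ := fun m => G ⧸ U m
  let _ : ∀ m, TopologicalSpace (Q m) := fun m => ⊥
  have : ∀ m, DiscreteTopology (Q m) := fun m => ⟨rfl⟩
  let φ : G →+ (∀ m, Q m) := AddMonoidHom.pi (fun m => QuotientAddGroup.mk' (U m))
  have hφ : ∀ g m, φ g m = QuotientAddGroup.mk' (U m) g := fun g m => rfl
  have hinj : Function.Injective φ := by
    rw [injective_iff_map_eq_zero]
    intro g hg
    apply h0
    intro m
    have := congrFun hg m
    rw [hφ] at this
    exact (QuotientAddGroup.eq_zero_iff g).1 this
  refine ⟨TopologicalSpace.induced φ inferInstance, ?_, ?_, ?_⟩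
  · exact topologicalAddGroup_induced φ
  · let _ : TopologicalSpace G := TopologicalSpace.induced φ inferInstance
    exact T2Space.of_injective_continuous hinj continuous_induced_dom
  · rw [nhds_induced, tendsto_comap_iff, map_zero, tendsto_pi_nhds]
    intro m
    apply tendsto_nhds_of_eventually_eq
    filter_upwards [eventually_ge_atTop m] with n hn
    exact (QuotientAddGroup.eq_zero_iff _).2 (hU m n hn)

/-- The half point of the circle. -/
noncomputable def half : AddCircle (1 : ℝ) := ((1 / 2 : ℝ) : AddCircle (1 : ℝ))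

theorem half_add_half : half + half = 0 := by
  have : half + half = (((1 / 2 : ℝ) + (1 / 2 : ℝ) : ℝ) : AddCircle (1 : ℝ)) := by
    rw [AddCircle.coe_add]; rfl
  rw [this]
  norm_num

theorem two_nsmul_half : 2 • half = 0 := by
  rw [two_nsmul, half_add_half]

theorem half_ne_zero : half ≠ 0 := by
  intro h
  rw [half, AddCircle.coe_eq_zero_iff] at h
  obtain ⟨n, hn⟩ := h
  have h2 : (2 : ℝ) * n = 1 := by
    simp at hn; linarith
  have h3 : (2 * n : ℤ) = 1 := by exact_mod_cast h2
  omega

/-- The homomorphism `ZMod 2 → ℝ/ℤ` sending `1` to `1/2`. -/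
noncomputable def z2 : ZMod 2 →+ AddCircle (1 : ℝ) :=
  ZMod.lift 2 ⟨(zmultiplesHom (AddCircle (1 : ℝ))) half, by
    simp [zmultiplesHom_apply]
    have := two_nsmul_half
    rwa [two_nsmul, ← two_zsmul] at this⟩

theorem z2_one : z2 1 = half := by
  have : z2 ((1 : ℤ) : ZMod 2) = half := by
    rw [z2, ZMod.lift_coe]; simp [zmultiplesHom_apply]
  simpa using this

theorem tendsto_zero_iff_eventually {f : ℕ → ZMod 2} :
    Tendsto (fun n => z2 (f n)) atTop (𝓝 0) ↔ ∀ᶠ n in atTop, f n = 0 := by
  constructor
  · intro h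
    have : {half}ᶜ ∈ 𝓝 (0 : AddCircle (1 : ℝ)) :=
      isOpen_compl_singleton.mem_nhds (fun h => half_ne_zero h.symm)
    filter_upwards [h this] with n hn
    by_contra h1
    have h2 : f n = 1 := by
      generalize f n = z at *
      fin_cases z
      · exact absurd rfl h1
      · rfl
    apply hn
    show z2 (f n) = half
    rw [h2, z2_one]
  · intro h
    apply tendsto_nhds_of_eventually_eq
    filter_upwards [h] with n hn
    rw [hn, map_zero]

/-- The key `T`-sequence: if `Y` is generated by `e i` and `x0`, and `v n (e i) = δ_{in}/2`,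
`v n x0 = 1/2`, then `v` is a `T`-sequence in the dual. -/
theorem isTSeq_dual {Y : Type*} [AddCommGroup Y] [TopologicalSpace Y] (e : ℕ → Y) (x0 : Y)
    (hgen : AddSubgroup.closure (insert x0 (Set.range e)) = ⊤) (v : ℕ → Dual Y)
    (hv : ∀ n i, v n (e i) = if i = n then half else 0) (hv0 : ∀ n, v n x0 = half) :
    IsTSeq v := by
  classical
  -- the subgroup of characters with finite support and `g x0 = ∑ g (e i)`
  let P : AddSubgroup (Dual Y) :=
    { carrier := {g | ∃ N, ∀ M, N ≤ M → g x0 = ∑ i ∈ Finset.range M, g (e i)}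
      zero_mem' := ⟨0, fun M _ => by simp⟩
      add_mem' := by
        rintro a b ⟨N, hN⟩ ⟨N', hN'⟩
        refine ⟨max N N', fun M hM => ?_⟩
        have h1 := hN M (le_trans (le_max_left _ _) hM)
        have h2 := hN' M (le_trans (le_max_right _ _) hM)
        simp only [ContinuousAddMonoidHom.add_apply, Finset.sum_add_distrib, h1, h2]
      neg_mem' := by
        rintro a ⟨N, hN⟩
        refine ⟨N, fun M hM => ?_⟩
        have h1 : ∀ y, (-a : Dual Y) y = - a y := fun y => rfl
        simp only [h1, Finset.sum_neg_distrib, hN M hM] }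
  let K : ℕ → AddSubgroup (Dual Y) := fun m =>
    { carrier := {g | ∀ i, i < m → g (e i) = 0}
      zero_mem' := fun i _ => rfl
      add_mem' := by
        intro a b ha hb i hi
        rw [ContinuousAddMonoidHom.add_apply, ha i hi, hb i hi, add_zero]
      neg_mem' := by
        intro a ha i hi
        have h1 : (-a : Dual Y) (e i) = - a (e i) := rfl
        rw [h1, ha i hi, neg_zero] }
  apply isTSeq_of_subgroups v (fun m => P ⊓ K m)
  · intro m n hmn
    refine ⟨⟨n + 1, fun M hM => ?_⟩, fun i hi => ?_⟩
    · rw [hv0, Finset.sum_eq_single n]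
      · rw [hv, if_pos rfl]
      · intro b _ hb
        rw [hv, if_neg hb]
      · intro h
        exact absurd (Finset.mem_range.2 (by omega)) h
    · rw [hv, if_neg (by omega)]
  · intro g hg
    have h1 : ∀ i, g (e i) = 0 := fun i => (hg (i + 1)).2 i (by omega)
    have h2 : g x0 = 0 := by
      obtain ⟨N, hN⟩ := (hg 0).1
      rw [hN N le_rfl]
      exact Finset.sum_eq_zero (fun i _ => h1 i)
    have h3 : ∀ y ∈ AddSubgroup.closure (insert x0 (Set.range e)), g y = 0 := by
      intro y hy
      induction hy using AddSubgroup.closure_induction with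
      | mem x hx =>
        rcases hx with rfl | ⟨i, rfl⟩
        · exact h2
        · exact h1 i
      | zero => exact map_zero g
      | add x y _ _ hx hy => rw [map_add, hx, hy, add_zero]
      | neg x _ hx => rw [map_neg, hx, neg_zero]
    ext y
    rw [h3 y (by rw [hgen]; trivial)]
    rfl

end Pool.Agent.R881.TChar
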